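import Mathlib
import Pool.Agent.SWP.Defs

/-!
# BMG (below the mean gap): definitions, and the plan of the whole proof

Problem MP_0bfb7f_nt, project of helper5. Goal (file `Fin`): for every `ε > 0` there is `δ > 0` with
`∑_{h₀<h≤h₀+H} |∑_{n≤X} b_n Λ(n) μ(n+h)| ≤ ε H X` for ALL bounded `b`, `(log X)^{1-δ} ≤ H ≤ X`; and a non-trivial
saving for `H ≥ (log X)^θ`, `θ > 1/2`. By duality this is `∑_{n≤X} Λ(n) |∑_h c_h μ(n+h)| ≤ ε H X` for all bounded `c`.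

Plan. Coefficients `coef : ℕ → ℝ`, `|coef| ≤ 1`.
1. (`OmDil`, Turán–Kubilius) `S ∑_h c_h μ(n+h) ≈ ∑_h c_h μ(n+h) om 𝒬 (n+h) ≈ - dilS coef h₀ H 𝒬 n`, where
   `dilS coef h₀ H 𝒬 n = ∑_{q∈𝒬} ∑_{h₀<h≤h₀+H, q ∣ n+h} coef(h) μ((n+h)/q)`.
2. (`Unf`) For a block `𝒟 ⊆ (P, 4P]` of primes, `J` a large constant, `G ≥ H + 4PJ`, `θ = (q, c)`, `q ∈ 𝒟`,
   `c ∈ (h₀, h₀+G]`, `ww θ Y = thp (q Y - c)`, `aa θ j = coef(c - qj)` if `h₀ < c - qj ≤ h₀+H` (else `0`):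
   `∑_n thp(n) |dilS coef h₀ H 𝒟 n| ≤ ∑_θ ∑_{Y≤N} ww θ Y · |(1/J) ∑_{j<J} aa θ j μ(Y - j)|`.
3. (`Chow`) averaged Chowla with arbitrary bounded `b`: `∑_{j<J} |∑_{Y≤N} b_Y μ(Y-j)| ≤ δ J N`. So for every `θ` the
   window average is small for almost all `Y`, but the exceptional `Y` depend on `θ`.
4. (`LD`, `Pat`, `Sub`) The window average is an average over `s : Fin t → Fin J` of the averages over `t` points; for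
   fixed `s` only the `≤ 3^t` patterns `(μ(Y - s_i))_i` matter, and for each pattern `v` the set `B_v` of the bad `θ` is
   fixed; Hölder with the `k`-th moment of `∑_{θ∈B} ww θ Y` (`k` depends only on `ε`, not on `t`!) and the large
   deviation bound `e^{-ε²t/8}` beat the number `3^t` of patterns.
5. (`KCount`, `KSieve`, `KLog`, `FAP`, `Sing`, `Esym`, `Mom`) the `k`-th moment:
   `∑_{Y≤N} (∑_{θ∈B} ww θ Y)^k ≤ C N T^k (√(#B/T) + log X/T)^k`, `T = #𝒟 G`.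
-/

set_option autoImplicit false

namespace Pool.BMG

open Finset Pool.MRZ Pool.SWP

/-- the Möbius function, real valued -/
noncomputable def muR (n : ℕ) : ℝ := ((ArithmeticFunction.moebius n : ℤ) : ℝ)

/-- the dilated sum `∑_{q∈𝒬} ∑_{h₀<h≤h₀+H, q ∣ n+h} coef(h) μ((n+h)/q)` -/
noncomputable def dilS (coef : ℕ → ℝ) (h₀ H : ℕ) (𝒬 : Finset ℕ) (n : ℕ) : ℝ :=
  ∑ q ∈ 𝒬, ∑ h ∈ Ioc h₀ (h₀ + H), if q ∣ n + h then coef h * muR ((n + h) / q) else 0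

/-- coefficient of `μ(Y - j)`, `θ = (q, c)` -/
noncomputable def aa (coef : ℕ → ℝ) (h₀ H : ℕ) (θ : ℕ × ℕ) (j : ℕ) : ℝ :=
  if h₀ + θ.1 * j < θ.2 ∧ θ.2 ≤ h₀ + θ.1 * j + H then coef (θ.2 - θ.1 * j) else 0

/-- the weight `θ(q Y - c)` of `θ = (q, c)` -/
noncomputable def ww (θ : ℕ × ℕ) (Y : ℕ) : ℝ := thp (θ.1 * Y - θ.2)

/-- all pairs `(q, c)`, `q ∈ 𝒟`, `c ∈ (h₀, h₀+G]` -/
def TH (𝒟 : Finset ℕ) (h₀ G : ℕ) : Finset (ℕ × ℕ) := 𝒟 ×ˢ Ioc h₀ (h₀ + G)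

/-- the nondegenerate pairs (`q ∤ c`) -/
def ND (𝒟 : Finset ℕ) (h₀ G : ℕ) : Finset (ℕ × ℕ) := (TH 𝒟 h₀ G).filter (fun θ => ¬ θ.1 ∣ θ.2)

/-- the modulus containing the bad primes of a system of linear forms `q n - c`, `(q, c) ∈ T` -/
def detD (T : Finset (ℕ × ℕ)) : ℕ := T.card.factorial * (∏ θ ∈ T, θ.1) *
  ∏ z ∈ T.offDiag, Nat.dist (z.1.1 * z.2.2) (z.2.1 * z.1.2)

lemma abs_muR_le (n : ℕ) : |muR n| ≤ 1 := by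
  unfold muR
  have h : |ArithmeticFunction.moebius n| ≤ 1 := ArithmeticFunction.abs_moebius_le_one
  rw [← Int.cast_abs]
  exact_mod_cast h

lemma muR_zero : muR 0 = 0 := by simp [muR]

lemma mu_eq_muR (n : ℕ) : mu n = ((muR n : ℝ) : ℂ) := by
  unfold mu muR
  push_cast
  rfl

lemma ww_nonneg (θ : ℕ × ℕ) (Y : ℕ) : 0 ≤ ww θ Y := thp_nonneg _

lemma abs_aa_le (coef : ℕ → ℝ) (hc : ∀ h, |coef h| ≤ 1) (h₀ H : ℕ) (θ : ℕ × ℕ) (j : ℕ) :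
    |aa coef h₀ H θ j| ≤ 1 := by
  unfold aa
  split_ifs
  · exact hc _
  · simp

lemma mem_TH {𝒟 : Finset ℕ} {h₀ G : ℕ} {θ : ℕ × ℕ} :
    θ ∈ TH 𝒟 h₀ G ↔ θ.1 ∈ 𝒟 ∧ h₀ < θ.2 ∧ θ.2 ≤ h₀ + G := by
  unfold TH
  rw [Finset.mem_product, Finset.mem_Ioc]

lemma mem_ND {𝒟 : Finset ℕ} {h₀ G : ℕ} {θ : ℕ × ℕ} :
    θ ∈ ND 𝒟 h₀ G ↔ θ.1 ∈ 𝒟 ∧ (h₀ < θ.2 ∧ θ.2 ≤ h₀ + G) ∧ ¬ θ.1 ∣ θ.2 := by
  unfold ND
  rw [Finset.mem_filter, mem_TH]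
  tauto

lemma card_TH (𝒟 : Finset ℕ) (h₀ G : ℕ) : (TH 𝒟 h₀ G).card = 𝒟.card * G := by
  unfold TH
  rw [Finset.card_product, Nat.card_Ioc]
  congr 1
  omega

lemma card_ND_le (𝒟 : Finset ℕ) (h₀ G : ℕ) : (ND 𝒟 h₀ G).card ≤ 𝒟.card * G := by
  rw [← card_TH 𝒟 h₀ G]
  exact Finset.card_filter_le _ _

lemma ND_subset (𝒟 : Finset ℕ) (h₀ G : ℕ) : ND 𝒟 h₀ G ⊆ TH 𝒟 h₀ G := Finset.filter_subset _ _

end Pool.BMG
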