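import Mathlib
import Pool.Agent.BMG.Defs
import Pool.Agent.MRZ.CorrW

/-!
# BMG/Chow: averaged Chowla with arbitrary bounded coefficients, for windows of bounded length

For `δ > 0` there are `J ≥ 1`, `N₀` with `∑_{j<J} |∑_{Y≤N} b_Y μ(Y-j)| ≤ δ J N` for all `N ≥ N₀` and ALL real `b` with
`|b_Y| ≤ 1` (`Y - j` is the natural subtraction, `μ(0) = 0`).

Proof. `Pool.MRZ.corr_muW ∅ 1 (δ/2)` gives `K, X₀`; `WL ∅ = 1`, `(∅ : Finset ℕ).card = 0`. Let `J = ⌈K⌉₊ + 1`, and use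
it with `X := N`, `H := J`, `h₀ := 0`. For `j < J`: the `Y ≤ J` contribute at most `J`; for `Y = n + J`, `n ≥ 1`:
`Y - j = n + (J - j)` with `J - j ∈ (0, J]`. So `|∑_{Y∈Icc 1 N} b_Y μ(Y-j)| ≤ J + |∑_{n∈Icc 1 N} b'_n μ(n+(J-j))|` with
`b'_n = b_{n+J}` if `n + J ≤ N` and `0` otherwise. Sum over `j < J` (reflect `j ↦ J - j`):
`≤ J² + (δ/2) J N ≤ δ J N` for `N ≥ 2J/δ`.
-/

set_option autoImplicit false

namespace Pool.BMG

open Finset Pool.MRZ Pool.SWP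

/-- splitting off the first `J` terms and shifting -/
private lemma chow_split (N J j : ℕ) (hJ : J ≤ N) (hj : j < J) (b : ℕ → ℝ) (hb : ∀ n, |b n| ≤ 1) :
    |∑ Y ∈ Icc 1 N, b Y * muR (Y - j)| ≤
      J + ‖∑ n ∈ Icc 1 N, (WL ∅ n : ℂ) * (((if n + J ≤ N then b (n + J) else 0 : ℝ)) : ℂ) *
        mu (n + (J - j))‖ := by
  have e1 : ∑ Y ∈ Icc 1 N, b Y * muR (Y - j) =
      (∑ Y ∈ Icc 1 J, b Y * muR (Y - j)) + ∑ Y ∈ Ioc J N, b Y * muR (Y - j) := by
    have hu : Icc 1 N = Icc 1 J ∪ Ioc J N := by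
      ext x
      simp only [mem_union, mem_Icc, mem_Ioc]
      omega
    have hd : Disjoint (Icc 1 J) (Ioc J N) := by
      rw [Finset.disjoint_left]
      intro x hx hx'
      rw [mem_Icc] at hx
      rw [mem_Ioc] at hx'
      omega
    rw [hu, Finset.sum_union hd]
  have e2 : |∑ Y ∈ Icc 1 J, b Y * muR (Y - j)| ≤ J := by
    refine (Finset.abs_sum_le_sum_abs _ _).trans ?_
    have : ∑ Y ∈ Icc 1 J, |b Y * muR (Y - j)| ≤ ∑ _Y ∈ Icc 1 J, (1 : ℝ) :=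
      Finset.sum_le_sum fun Y _ => by
        rw [abs_mul]
        exact mul_le_one₀ (hb _) (abs_nonneg _) (abs_muR_le _)
    refine this.trans ?_
    rw [Finset.sum_const, Nat.card_Icc]
    simp
  have e3 : ∑ Y ∈ Ioc J N, b Y * muR (Y - j) =
      ∑ n ∈ Icc 1 (N - J), b (n + J) * muR (n + (J - j)) := by
    refine Finset.sum_nbij' (fun Y => Y - J) (fun n => n + J) ?_ ?_ ?_ ?_ ?_
    · intro Y hY
      rw [mem_Ioc] at hY
      simp only [mem_Icc]
      omega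
    · intro n hn
      rw [mem_Icc] at hn
      simp only [mem_Ioc]
      omega
    · intro Y hY
      rw [mem_Ioc] at hY
      omega
    · intro n _
      omega
    · intro Y hY
      rw [mem_Ioc] at hY
      rw [show Y - J + J = Y by omega, show Y - J + (J - j) = Y - j by omega]
  have e4 : ∑ n ∈ Icc 1 (N - J), b (n + J) * muR (n + (J - j)) =
      ∑ n ∈ Icc 1 N, (if n + J ≤ N then b (n + J) else 0) * muR (n + (J - j)) := by
    have hs : Icc 1 (N - J) ⊆ Icc 1 N := Finset.Icc_subset_Icc_right (Nat.sub_le _ _)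
    rw [← Finset.sum_subset hs (f := fun n => (if n + J ≤ N then b (n + J) else 0) *
      muR (n + (J - j)))]
    · refine Finset.sum_congr rfl fun n hn => ?_
      rw [mem_Icc] at hn
      rw [if_pos (by omega)]
    · intro n hn hn'
      rw [mem_Icc] at hn hn'
      rw [if_neg (by omega), zero_mul]
  have e5 : ∑ n ∈ Icc 1 N, (WL ∅ n : ℂ) * (((if n + J ≤ N then b (n + J) else 0 : ℝ)) : ℂ) *
      mu (n + (J - j)) =
      ((∑ n ∈ Icc 1 N, (if n + J ≤ N then b (n + J) else 0) * muR (n + (J - j)) : ℝ) : ℂ) := by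
    rw [Complex.ofReal_sum]
    refine Finset.sum_congr rfl fun n _ => ?_
    have h1 : WL ∅ n = 1 := by
      unfold WL
      exact Finset.prod_empty
    rw [h1, mu_eq_muR, Complex.ofReal_one, one_mul, Complex.ofReal_mul]
  rw [e5, Complex.norm_real, Real.norm_eq_abs, ← e4, ← e3, e1]
  refine (abs_add_le _ _).trans ?_
  linarith

theorem chow (δ : ℝ) (hδ : 0 < δ) : ∃ J N₀ : ℕ, 1 ≤ J ∧ ∀ N : ℕ, N₀ ≤ N → ∀ b : ℕ → ℝ,
    (∀ n, |b n| ≤ 1) →
    ∑ j ∈ range J, |∑ Y ∈ Icc 1 N, b Y * muR (Y - j)| ≤ δ * J * N := by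
  obtain ⟨K, X₀, hK, hcor⟩ := corr_muW ∅ 1 (δ / 2) (by positivity)
  refine ⟨⌈K⌉₊ + 1, max X₀ (max (⌈K⌉₊ + 1) ⌈2 * ((⌈K⌉₊ + 1 : ℕ) : ℝ) / δ⌉₊), by omega, ?_⟩
  intro N hN b hb
  obtain ⟨J, hJ⟩ : ∃ J, J = ⌈K⌉₊ + 1 := ⟨_, rfl⟩
  rw [← hJ] at hN ⊢
  have n1 : X₀ ≤ N := (le_max_left _ _).trans hN
  have n2 : J ≤ N := ((le_max_left _ _).trans (le_max_right _ _)).trans hN
  have n3 : ⌈2 * (J : ℝ) / δ⌉₊ ≤ N := ((le_max_right _ _).trans (le_max_right _ _)).trans hN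
  have n4 : 2 * (J : ℝ) / δ ≤ N := (Nat.le_ceil _).trans (by exact_mod_cast n3)
  have hKJ : K ≤ J := by
    have h1 := Nat.le_ceil K
    have h2 : (J : ℝ) = (⌈K⌉₊ : ℝ) + 1 := by
      rw [hJ]
      push_cast
      ring
    linarith
  have hc := hcor N J 0 (fun n => (((if n + J ≤ N then b (n + J) else 0 : ℝ)) : ℂ)) n1
    (by rw [Finset.card_empty, pow_zero, mul_one]; exact hKJ) n2 (Nat.zero_le _) (by
      intro n
      rw [Complex.norm_real, Real.norm_eq_abs]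
      split_ifs
      · exact hb _
      · simp)
  rw [zero_add] at hc
  have e1 : ∑ j ∈ range J, ‖∑ n ∈ Icc 1 N, (WL ∅ n : ℂ) *
      (((if n + J ≤ N then b (n + J) else 0 : ℝ)) : ℂ) * mu (n + (J - j))‖ =
      ∑ h ∈ Ioc 0 J, ‖∑ n ∈ Icc 1 N, (WL ∅ n : ℂ) *
      (((if n + J ≤ N then b (n + J) else 0 : ℝ)) : ℂ) * mu (n + h)‖ := by
    refine Finset.sum_nbij' (fun j => J - j) (fun h => J - h) ?_ ?_ ?_ ?_ ?_
    · intro j hj
      rw [mem_range] at hj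
      simp only [mem_Ioc]
      omega
    · intro h hh
      rw [mem_Ioc] at hh
      simp only [mem_range]
      omega
    · intro j hj
      rw [mem_range] at hj
      omega
    · intro h hh
      rw [mem_Ioc] at hh
      omega
    · intro j _
      rfl
  have e2 : ∑ j ∈ range J, |∑ Y ∈ Icc 1 N, b Y * muR (Y - j)| ≤
      ∑ j ∈ range J, ((J : ℝ) + ‖∑ n ∈ Icc 1 N, (WL ∅ n : ℂ) *
      (((if n + J ≤ N then b (n + J) else 0 : ℝ)) : ℂ) * mu (n + (J - j))‖) :=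
    Finset.sum_le_sum fun j hj => chow_split N J j n2 (mem_range.1 hj) b hb
  rw [Finset.sum_add_distrib, Finset.sum_const, card_range, nsmul_eq_mul, e1] at e2
  refine e2.trans ?_
  have e3 : (J : ℝ) * J ≤ δ / 2 * J * N := by
    rw [div_le_iff₀ hδ] at n4
    have hJ0 : (0 : ℝ) ≤ J := Nat.cast_nonneg _
    nlinarith
  linarith

end Pool.BMG
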