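import Mathlib

/-!
# BMG/Esym: powers of sums and elementary symmetric functions

For `k ≥ 1` there is `C` with `(∑_{i∈s} a_i)^k ≤ C ∑_{r=1}^k ∑_{T⊆s, #T=r} ∏_{i∈T} a_i` for all finite `s` and
`0 ≤ a_i ≤ 1`.

Proof. Induction on `k`, `C = k^k` or any constant. `k = 1`: `powersetCard 1`. Step: with
`e_r = ∑_{#T=r} ∏_{i∈T} a_i`: `e_r · ∑_i a_i = ∑_T ∏_{T} a (∑_{i∈T} a_i + ∑_{i∉T} a_i) ≤ r e_r + (r+1) e_{r+1}` (as
`a_i ≤ 1`; every `(r+1)`-set arises from `r+1` pairs `(T, i)`).
-/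

set_option autoImplicit false

namespace Pool.BMG

open Finset

section

variable {ι : Type} [DecidableEq ι]

/-- Elementary symmetric functions. -/
noncomputable def esy (a : ι → ℝ) (r : ℕ) (s : Finset ι) : ℝ :=
  ∑ T ∈ s.powersetCard r, ∏ i ∈ T, a i

theorem esy_zero (a : ι → ℝ) (s : Finset ι) : esy a 0 s = 1 := by
  simp [esy]

theorem esy_one (a : ι → ℝ) (s : Finset ι) : esy a 1 s = ∑ i ∈ s, a i := by
  simp [esy, Finset.powersetCard_one]

theorem esy_succ_empty (a : ι → ℝ) (r : ℕ) : esy a (r + 1) ∅ = 0 := by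
  have : Finset.powersetCard (r + 1) (∅ : Finset ι) = ∅ :=
    Finset.powersetCard_eq_empty.2 (by simp)
  simp [esy, this]

theorem esy_insert (a : ι → ℝ) (r : ℕ) {x : ι} {s : Finset ι} (hx : x ∉ s) :
    esy a (r + 1) (insert x s) = esy a (r + 1) s + a x * esy a r s := by
  unfold esy
  rw [Finset.powersetCard_succ_insert hx, Finset.sum_union, Finset.sum_image, Finset.mul_sum]
  · congr 1
    refine Finset.sum_congr rfl fun T hT => ?_
    rw [Finset.prod_insert]
    exact fun h => hx ((Finset.mem_powersetCard.1 hT).1 h)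
  · intro T hT T' hT' h
    have h1 : x ∉ T := fun h => hx ((Finset.mem_powersetCard.1 hT).1 h)
    have h2 : x ∉ T' := fun h => hx ((Finset.mem_powersetCard.1 hT').1 h)
    have h3 : insert x T = insert x T' := h
    rw [← Finset.erase_insert h1, h3, Finset.erase_insert h2]
  · rw [Finset.disjoint_left]
    intro T hT hT'
    obtain ⟨T', _, rfl⟩ := Finset.mem_image.1 hT'
    exact hx ((Finset.mem_powersetCard.1 hT).1 (Finset.mem_insert_self _ _))

theorem esy_nonneg (a : ι → ℝ) (r : ℕ) {s : Finset ι} (h0 : ∀ i ∈ s, 0 ≤ a i) :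
    0 ≤ esy a r s := by
  unfold esy
  refine Finset.sum_nonneg fun T hT => Finset.prod_nonneg fun i hi => ?_
  exact h0 i ((Finset.mem_powersetCard.1 hT).1 hi)

theorem esy_mul (a : ι → ℝ) (s : Finset ι) (h0 : ∀ i ∈ s, 0 ≤ a i) (h1 : ∀ i ∈ s, a i ≤ 1) :
    ∀ r, esy a r s * ∑ i ∈ s, a i ≤ r * esy a r s + (r + 1) * esy a (r + 1) s := by
  induction s using Finset.induction_on with
  | empty =>
    intro r
    rw [esy_succ_empty]
    simp only [Finset.sum_empty, mul_zero, add_zero]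
    cases r with
    | zero => simp
    | succ r => rw [esy_succ_empty]; simp
  | insert x s hx ih =>
    intro r
    have h0' : ∀ i ∈ s, 0 ≤ a i := fun i hi => h0 i (Finset.mem_insert_of_mem hi)
    have h1' : ∀ i ∈ s, a i ≤ 1 := fun i hi => h1 i (Finset.mem_insert_of_mem hi)
    have hx0 := h0 x (Finset.mem_insert_self _ _)
    have hx1 := h1 x (Finset.mem_insert_self _ _)
    cases r with
    | zero =>
      rw [esy_zero, zero_add, esy_one]
      simp
    | succ r =>
      have i1 := ih h0' h1' (r + 1)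
      have i2 := ih h0' h1' r
      have i3 := esy_nonneg a r h0'
      rw [esy_insert a r hx, esy_insert a (r + 1) hx, Finset.sum_insert hx]
      push_cast at i1 i2 ⊢
      have i4 := mul_le_mul_of_nonneg_left i2 hx0
      have i5 : a x * a x * esy a r s ≤ a x * esy a r s := by
        have : a x * a x ≤ a x := by nlinarith
        exact mul_le_mul_of_nonneg_right this i3
      nlinarith [i1, i4, i5]

end

theorem pow_le_esym (k : ℕ) (hk : 1 ≤ k) : ∃ C : ℝ, 0 < C ∧ ∀ {ι : Type} [DecidableEq ι] (s : Finset ι) (a : ι → ℝ),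
    (∀ i ∈ s, 0 ≤ a i) → (∀ i ∈ s, a i ≤ 1) →
    (∑ i ∈ s, a i) ^ k ≤ C * ∑ r ∈ Icc 1 k, ∑ T ∈ s.powersetCard r, ∏ i ∈ T, a i := by
  induction k, hk using Nat.le_induction with
  | base =>
    refine ⟨1, one_pos, fun {ι} _ s a h0 h1 => ?_⟩
    simp [Finset.powersetCard_one]
  | succ k hk ih =>
    obtain ⟨C, hC, h⟩ := ih
    refine ⟨C * (2 * (k + 1)), by positivity, fun {ι} _ s a h0 h1 => ?_⟩
    have e0 : 0 ≤ ∑ i ∈ s, a i := Finset.sum_nonneg h0
    have e1 := mul_le_mul_of_nonneg_right (h s a h0 h1) e0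
    rw [pow_succ]
    refine e1.trans ?_
    rw [mul_assoc, mul_assoc]
    refine mul_le_mul_of_nonneg_left ?_ hC.le
    rw [Finset.sum_mul]
    have e2 : ∀ r ∈ Icc 1 k, (∑ T ∈ s.powersetCard r, ∏ i ∈ T, a i) * ∑ i ∈ s, a i ≤
        (k + 1) * esy a r s + (k + 1) * esy a (r + 1) s := by
      intro r hr
      have hr' : (r : ℝ) ≤ k := by exact_mod_cast (Finset.mem_Icc.1 hr).2
      have := esy_mul a s h0 h1 r
      have n1 := esy_nonneg a r h0
      have n2 := esy_nonneg a (r + 1) h0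
      change esy a r s * _ ≤ _
      nlinarith
    refine (Finset.sum_le_sum e2).trans ?_
    rw [Finset.sum_add_distrib, ← Finset.mul_sum, ← Finset.mul_sum]
    have e3 : ∑ r ∈ Icc 1 k, esy a r s ≤ ∑ r ∈ Icc 1 (k + 1), esy a r s :=
      Finset.sum_le_sum_of_subset_of_nonneg (Finset.Icc_subset_Icc_right (by omega))
        fun r _ _ => esy_nonneg a r h0
    have e4 : ∑ r ∈ Icc 1 k, esy a (r + 1) s ≤ ∑ r ∈ Icc 1 (k + 1), esy a r s := by
      have : ∑ r ∈ Icc 1 k, esy a (r + 1) s = ∑ r ∈ (Icc 1 k).image (· + 1), esy a r s := by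
        rw [Finset.sum_image]
        intro x _ y _ hxy
        exact Nat.add_right_cancel hxy
      rw [this]
      refine Finset.sum_le_sum_of_subset_of_nonneg ?_ fun r _ _ => esy_nonneg a r h0
      intro r hr
      obtain ⟨x, hx, rfl⟩ := Finset.mem_image.1 hr
      rw [Finset.mem_Icc] at hx ⊢
      omega
    change _ ≤ 2 * ((k : ℝ) + 1) * ∑ r ∈ Icc 1 (k + 1), esy a r s
    have hk1 : (0 : ℝ) ≤ (k : ℝ) + 1 := by positivity
    nlinarith [mul_le_mul_of_nonneg_left e3 hk1, mul_le_mul_of_nonneg_left e4 hk1]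

end Pool.BMG
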