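import Mathlib
import Pool.Agent.BMG.Defs
import Pool.Agent.MRZ.TupCount

/-!
# BMG/KCount: counting `n` with `e ∣ ∏_{(q,c)∈T} (q n - c)`

`detD T = (#T)! ∏_{(q,c)∈T} q ∏_{offDiag} |q c' - q' c|`. For `e` squarefree coprime to `detD T`, `κ = #T`, and `M` with
`c ≤ q M` for all `(q,c) ∈ T` (so that the natural subtraction `q n - c` is the true one for `n > M`):
`|#{n ∈ (M,M+N] : e ∣ ∏_{(q,c)∈T} (q n - c)} - κ^{ω(e)} N/e| ≤ κ^{ω(e)}`.

Proof: copy of `Pool/Agent/MRZ/TupCount.lean` (`count_tup`), where the forms are `n + b`. For a prime `p ∣ e`, `p ∤ q`, the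
congruence `q n ≡ c (mod p)` has exactly one solution mod `p`, and for `θ ≠ θ'` in `T` no `n > M` satisfies both
`p ∣ q n - c` and `p ∣ q' n - c'` (else `p ∣ q (q'n - c') - q'(qn - c) = q'c - qc'`, i.e. `p ∣ |q c' - q' c|`, a factor of
`detD T`; note that if this factor is `0` then `e` is coprime to `0`, so `e = 1`). So the set is the disjoint union over
the functions `φ : primeFactors e → T` of the sets `{n : ∀ p ∣ e, p ∣ q_{φ(p)} n - c_{φ(p)}}`, each of which is one residue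
class mod `e` (`exists_residue` in `TupCount`, or Chinese remainder), counted by `PrimePairs.abs_count_modEq_sub_le`.
-/

set_option autoImplicit false

namespace Pool.BMG

open Finset Pool.MRZ Pool.SWP

private theorem kc_uniq {T : Finset (ℕ × ℕ)} {e : ℕ} (hD : e.Coprime (detD T)) {p n : ℕ}
    {θ θ' : ℕ × ℕ} (hp : p ∈ e.primeFactors) (hb : θ ∈ T) (hb' : θ' ∈ T)
    (hn : θ.2 ≤ θ.1 * n) (hn' : θ'.2 ≤ θ'.1 * n)
    (h : p ∣ θ.1 * n - θ.2) (h' : p ∣ θ'.1 * n - θ'.2) : θ = θ' := by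
  by_contra hne
  have m1 : θ.2 ≡ θ.1 * n [MOD p] := (Nat.modEq_iff_dvd' hn).2 h
  have m2 : θ'.2 ≡ θ'.1 * n [MOD p] := (Nat.modEq_iff_dvd' hn').2 h'
  have m3 : θ.1 * θ'.2 ≡ θ'.1 * θ.2 [MOD p] := by
    have a1 := Nat.ModEq.mul_left θ.1 m2
    have a2 := Nat.ModEq.mul_left θ'.1 m1
    have a3 : θ.1 * (θ'.1 * n) = θ'.1 * (θ.1 * n) := by ring
    rw [a3] at a1
    exact a1.trans a2.symm
  have h1 : p ∣ Nat.dist (θ.1 * θ'.2) (θ'.1 * θ.2) := by
    unfold Nat.dist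
    rcases le_total (θ.1 * θ'.2) (θ'.1 * θ.2) with hle | hle
    · rw [Nat.sub_eq_zero_of_le hle, zero_add]
      exact (Nat.modEq_iff_dvd' hle).1 m3
    · rw [Nat.sub_eq_zero_of_le hle, add_zero]
      exact (Nat.modEq_iff_dvd' hle).1 m3.symm
  have h2 : Nat.dist (θ.1 * θ'.2) (θ'.1 * θ.2) ∣ detD T := by
    unfold detD
    apply dvd_mul_of_dvd_right
    have hm : (θ, θ') ∈ T.offDiag := by
      rw [Finset.mem_offDiag]
      exact ⟨hb, hb', hne⟩
    exact Finset.dvd_prod_of_mem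
      (fun z : (ℕ × ℕ) × (ℕ × ℕ) => Nat.dist (z.1.1 * z.2.2) (z.2.1 * z.1.2)) hm
  have h3 : p ∣ Nat.gcd e (detD T) :=
    Nat.dvd_gcd (Nat.dvd_of_mem_primeFactors hp) (dvd_trans h1 h2)
  rw [hD] at h3
  exact (Nat.prime_of_mem_primeFactors hp).one_lt.ne' (Nat.dvd_one.mp h3)

private theorem kc_root {T : Finset (ℕ × ℕ)} {e : ℕ} (hD : e.Coprime (detD T)) {p : ℕ}
    {θ : ℕ × ℕ} (hp : p ∈ e.primeFactors) (hb : θ ∈ T) :
    ∃ r : ℕ, ∀ n, θ.2 ≤ θ.1 * n → (p ∣ θ.1 * n - θ.2 ↔ n ≡ r [MOD p]) := by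
  have hpr := Nat.prime_of_mem_primeFactors hp
  have hq : θ.1.Coprime p := by
    rw [Nat.coprime_comm, hpr.coprime_iff_not_dvd]
    intro hd
    have h2 : θ.1 ∣ detD T := by
      unfold detD
      apply dvd_mul_of_dvd_left
      apply dvd_mul_of_dvd_right
      exact Finset.dvd_prod_of_mem (fun θ : ℕ × ℕ => θ.1) hb
    have h3 : p ∣ Nat.gcd e (detD T) :=
      Nat.dvd_gcd (Nat.dvd_of_mem_primeFactors hp) (dvd_trans hd h2)
    rw [hD] at h3
    exact hpr.one_lt.ne' (Nat.dvd_one.mp h3)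
  obtain ⟨m, _, hm⟩ := Nat.exists_mul_mod_eq_one_of_coprime hq hpr.one_lt
  have hm' : θ.1 * m ≡ 1 [MOD p] := by
    unfold Nat.ModEq
    rw [hm, Nat.mod_eq_of_lt hpr.one_lt]
  have hr : θ.1 * (m * θ.2) ≡ θ.2 [MOD p] := by
    have a1 := Nat.ModEq.mul_right θ.2 hm'
    rw [one_mul, mul_assoc] at a1
    exact a1
  refine ⟨m * θ.2, fun n hn => ?_⟩
  rw [← Nat.modEq_iff_dvd' hn]
  constructor
  · intro h
    refine Nat.ModEq.cancel_left_of_coprime (c := θ.1) ?_ (h.symm.trans hr.symm)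
    exact hq.symm
  · intro h
    exact (hr.symm.trans (Nat.ModEq.mul_left θ.1 h.symm))

private theorem kc_crt {e : ℕ} (he : Squarefree e) (r : ℕ → ℕ) :
    ∃ k : ℕ, ∀ n, (∀ p ∈ e.primeFactors, n ≡ r p [MOD p]) ↔ n ≡ k [MOD e] := by
  classical
  have hs : ∀ i ∈ e.primeFactors, (id : ℕ → ℕ) i ≠ 0 := fun i hi =>
    (Nat.prime_of_mem_primeFactors hi).ne_zero
  have pp : Set.Pairwise (e.primeFactors : Set ℕ) (Function.onFun Nat.Coprime (id : ℕ → ℕ)) := by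
    intro p hp q hq hpq
    exact (Nat.coprime_primes (Nat.prime_of_mem_primeFactors hp)
      (Nat.prime_of_mem_primeFactors hq)).mpr hpq
  obtain ⟨k, hk⟩ := Nat.chineseRemainderOfFinset r id e.primeFactors hs pp
  refine ⟨k, fun n => ?_⟩
  rw [TupCount.modEq_iff_forall he]
  refine forall₂_congr fun p hp => ?_
  have h1 : k ≡ r p [MOD p] := hk p hp
  exact ⟨fun h => h.trans h1.symm, fun h => h.trans h1⟩

private theorem kc_res {T : Finset (ℕ × ℕ)} {e : ℕ} (he : Squarefree e)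
    (hD : e.Coprime (detD T)) (φ : (p : ℕ) → p ∈ e.primeFactors → ℕ × ℕ)
    (hφ : ∀ p hp, φ p hp ∈ T) (M : ℕ) (hM : ∀ θ ∈ T, θ.2 ≤ θ.1 * M) :
    ∃ k : ℕ, ∀ n, M ≤ n →
      ((∀ p (hp : p ∈ e.primeFactors), p ∣ (φ p hp).1 * n - (φ p hp).2) ↔ n ≡ k [MOD e]) := by
  classical
  choose r hr using fun (p : ℕ) (hp : p ∈ e.primeFactors) => kc_root hD hp (hφ p hp)
  obtain ⟨k, hk⟩ := kc_crt he (fun p => if hp : p ∈ e.primeFactors then r p hp else 0)
  refine ⟨k, fun n hn => ?_⟩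
  rw [← hk n]
  refine forall₂_congr fun p hp => ?_
  rw [dif_pos hp]
  exact hr p hp n ((hM _ (hφ p hp)).trans (Nat.mul_le_mul_left _ hn))

theorem count_forms (T : Finset (ℕ × ℕ)) (M N e : ℕ) (he : Squarefree e) (hD : e.Coprime (detD T))
    (hM : ∀ θ ∈ T, θ.2 ≤ θ.1 * M) :
    |(((Ioc M (M + N)).filter (fun n => e ∣ ∏ θ ∈ T, (θ.1 * n - θ.2))).card : ℝ) -
      (T.card : ℝ) ^ e.primeFactors.card * N / e| ≤ (T.card : ℝ) ^ e.primeFactors.card := by
  classical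
  have he0 : 0 < e := Nat.pos_of_ne_zero he.ne_zero
  have hex : ∀ φ : (p : ℕ) → p ∈ e.primeFactors → ℕ × ℕ, ∃ k : ℕ, (∀ p hp, φ p hp ∈ T) →
      ∀ n, M ≤ n →
      ((∀ p (hp : p ∈ e.primeFactors), p ∣ (φ p hp).1 * n - (φ p hp).2) ↔ n ≡ k [MOD e]) := by
    intro φ
    by_cases hφ : ∀ p hp, φ p hp ∈ T
    · obtain ⟨k, hk⟩ := kc_res he hD φ hφ M hM
      exact ⟨k, fun _ => hk⟩
    · exact ⟨0, fun h => absurd h hφ⟩
  choose k hk using hex
  have hMn : ∀ {n : ℕ}, n ∈ Ioc M (M + N) → ∀ θ ∈ T, θ.2 ≤ θ.1 * n := by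
    intro n hn θ hθ
    rw [Finset.mem_Ioc] at hn
    exact (hM θ hθ).trans (Nat.mul_le_mul_left _ hn.1.le)
  have hS : (Finset.Ioc M (M + N)).filter (fun n => e ∣ ∏ θ ∈ T, (θ.1 * n - θ.2)) =
      (Finset.pi e.primeFactors (fun _ => T)).biUnion
        (fun φ => (Finset.Ioc M (M + N)).filter (fun n => n ≡ k φ [MOD e])) := by
    ext n
    rw [Finset.mem_biUnion, Finset.mem_filter]
    constructor
    · rintro ⟨hn, hd⟩
      have h1 : ∀ p ∈ e.primeFactors, ∃ θ ∈ T, p ∣ θ.1 * n - θ.2 := by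
        intro p hp
        have hpr := (Nat.prime_of_mem_primeFactors hp).prime
        exact hpr.exists_mem_finset_dvd (dvd_trans (Nat.dvd_of_mem_primeFactors hp) hd)
      choose φ hφ using h1
      have hφT : ∀ p hp, φ p hp ∈ T := fun p hp => (hφ p hp).1
      refine ⟨φ, ?_, ?_⟩
      · rw [Finset.mem_pi]
        exact hφT
      · rw [Finset.mem_filter]
        exact ⟨hn, (hk φ hφT n (Finset.mem_Ioc.1 hn).1.le).mp fun p hp => (hφ p hp).2⟩
    · rintro ⟨φ, hφ, hn⟩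
      rw [Finset.mem_filter] at hn
      refine ⟨hn.1, ?_⟩
      rw [TupCount.sq_dvd_iff he]
      intro p hp
      rw [Finset.mem_pi] at hφ
      exact dvd_trans ((hk φ hφ n (Finset.mem_Ioc.1 hn.1).1.le).mpr hn.2 p hp)
        (Finset.dvd_prod_of_mem (fun θ : ℕ × ℕ => θ.1 * n - θ.2) (hφ p hp))
  have hdisj : ∀ φ ∈ Finset.pi e.primeFactors (fun _ => T),
      ∀ ψ ∈ Finset.pi e.primeFactors (fun _ => T), φ ≠ ψ →
      Disjoint ((Finset.Ioc M (M + N)).filter (fun n => n ≡ k φ [MOD e]))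
        ((Finset.Ioc M (M + N)).filter (fun n => n ≡ k ψ [MOD e])) := by
    intro φ hφ ψ hψ hne
    rw [Finset.disjoint_left]
    intro n hn hn'
    rw [Finset.mem_filter] at hn hn'
    apply hne
    funext p hp
    rw [Finset.mem_pi] at hφ hψ
    have hMle := (Finset.mem_Ioc.1 hn.1).1.le
    exact kc_uniq hD hp (hφ p hp) (hψ p hp) (hMn hn.1 _ (hφ p hp)) (hMn hn.1 _ (hψ p hp))
      ((hk φ hφ n hMle).mpr hn.2 p hp) ((hk ψ hψ n hMle).mpr hn'.2 p hp)
  rw [hS, Finset.card_biUnion hdisj]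
  have hcard : ((Finset.pi e.primeFactors (fun _ => T)).card : ℝ) =
      (T.card : ℝ) ^ e.primeFactors.card := by
    rw [Finset.card_pi, Finset.prod_const]
    push_cast
    rfl
  have hsum : ((∑ φ ∈ Finset.pi e.primeFactors (fun _ => T),
      ((Finset.Ioc M (M + N)).filter (fun n => n ≡ k φ [MOD e])).card : ℕ) : ℝ) -
      (T.card : ℝ) ^ e.primeFactors.card * N / e =
      ∑ φ ∈ Finset.pi e.primeFactors (fun _ => T),
        ((((Finset.Ioc M (M + N)).filter (fun n => n ≡ k φ [MOD e])).card : ℝ) - (N : ℝ) / e) := by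
    rw [Finset.sum_sub_distrib, Finset.sum_const, nsmul_eq_mul, hcard]
    push_cast
    ring
  rw [hsum]
  refine (Finset.abs_sum_le_sum_abs _ _).trans ?_
  rw [← hcard]
  refine (Finset.sum_le_card_nsmul _ _ 1 fun φ _ => ?_).trans (by rw [nsmul_eq_mul, mul_one])
  have := Pool.Agent.Lib.PrimePairs.abs_count_modEq_sub_le M (M + N) e (k φ) (by omega) he0
  have e1 : (((M + N : ℕ) : ℝ) - M) / e = (N : ℝ) / e := by
    push_cast
    ring
  rwa [e1] at this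

end Pool.BMG
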