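import Mathlib
import Pool.Agent.BMG.KCount
import Pool.Agent.MRZ.TupUp
import Pool.Agent.SWP.TwoForms

/-!
# BMG/KSieve: Selberg's upper bound for `κ` linear forms `q n - c`

For every `κ` there is `C` with: `T` a set of `κ` pairs `(q, c)`, `q ≥ 1`, `q c' ≠ q' c` for different pairs, `2 ≤ y`,
`c + y^κ ≤ q M` for all pairs:
`#{n ∈ (M, M+N] : q n - c prime for all (q,c) ∈ T} ≤ C F(detD T)^κ N/(log y)^κ + y^{6κ+6}`.

Proof: copy of `Pool/Agent/MRZ/TupUp.lean` (`card_tuple_le`). `κ = 0`: trivial (`C = 1`). `κ ≥ 1`: `z = y^κ`; by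
`Pool.SWP.TwoForms.sv_le` (Selberg's sieve for an injective map `f`) with `D = detD T > 0`, `nu = nuTup κ`
(`κ^{ω(e)}/e`; `nu p < 1` for primes `p ∣ primProd D z` because `κ! ∣ detD T`), in the variable `m = n - M ≥ 1`:
`f m = ∏_{(q,c)∈T} (q (M + m) - c)`, strictly increasing on `ℕ` as every factor is positive.
`count_forms` gives the remainder bound `κ^{ω(e)} ≤ e` (all primes of `e` are `> κ`).
If all `q n - c` are prime then, as `q n - c > y^κ = z`, their product is coprime to `primProd D z`. Finally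
`∑_{l∈SQ D z} κ^{ω(l)}/l = SK κ D (y^κ) ≥ (log y)^κ/(C F(D)^κ)` (`sk_pow`).
-/

set_option autoImplicit false

namespace Pool.BMG

open Finset Pool.MRZ Pool.SWP Pool.Agent.Lib.PrimePairs

lemma card_shift (M N : ℕ) (P : ℕ → Prop) [DecidablePred P] :
    ((Ioc M (M + N)).filter P).card = ((Ioc 0 (0 + N)).filter (fun m => P (M + m))).card := by
  symm
  apply Finset.card_bij (fun m _ => M + m)
  · intro m hm
    rw [Finset.mem_filter, Finset.mem_Ioc] at hm ⊢
    exact ⟨by omega, hm.2⟩
  · intro a _ b _ h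
    omega
  · intro n hn
    rw [Finset.mem_filter, Finset.mem_Ioc] at hn
    refine ⟨n - M, ?_, by omega⟩
    rw [Finset.mem_filter, Finset.mem_Ioc]
    refine ⟨by omega, ?_⟩
    have : M + (n - M) = n := by omega
    rw [this]
    exact hn.2

lemma detD_pos {T : Finset (ℕ × ℕ)} (h1 : ∀ θ ∈ T, 1 ≤ θ.1)
    (h2 : ∀ z ∈ T.offDiag, z.1.1 * z.2.2 ≠ z.2.1 * z.1.2) : 0 < detD T := by
  unfold detD
  apply Nat.mul_pos
  · apply Nat.mul_pos (Nat.factorial_pos _)
    exact Finset.prod_pos fun θ hθ => h1 θ hθ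
  · exact Finset.prod_pos fun z hz => Nat.dist_pos_of_ne (h2 z hz)

lemma card_lt_of_dvd_detD {T : Finset (ℕ × ℕ)} {z p : ℕ} (hp : p.Prime)
    (h : p ∣ primProd (detD T) z) : T.card < p := by
  by_contra hcon
  apply ((dvd_primProd_iff hp).mp h).2
  unfold detD
  rw [mul_assoc]
  exact Dvd.dvd.mul_right (hp.dvd_factorial.mpr (by omega)) _

lemma pow_omega_le_detD {T : Finset (ℕ × ℕ)} {z e : ℕ} (he : e ∣ primProd (detD T) z) :
    T.card ^ e.primeFactors.card ≤ e := by
  have hsq := (primProd_squarefree (detD T) z).squarefree_of_dvd he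
  calc T.card ^ e.primeFactors.card = ∏ p ∈ e.primeFactors, T.card := by rw [Finset.prod_const]
    _ ≤ ∏ p ∈ e.primeFactors, p := by
        apply Finset.prod_le_prod'
        intro p hp
        exact (card_lt_of_dvd_detD (Nat.prime_of_mem_primeFactors hp)
          ((Nat.dvd_of_mem_primeFactors hp).trans he)).le
    _ = e := Nat.prod_primeFactors_of_squarefree hsq

theorem kforms_le (κ : ℕ) : ∃ C : ℝ, 0 < C ∧ ∀ (T : Finset (ℕ × ℕ)) (M N y : ℕ), T.card = κ →
    (∀ θ ∈ T, 1 ≤ θ.1) → (∀ z ∈ T.offDiag, z.1.1 * z.2.2 ≠ z.2.1 * z.1.2) → 2 ≤ y →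
    (∀ θ ∈ T, θ.2 + y ^ κ ≤ θ.1 * M) →
    (((Finset.Ioc M (M + N)).filter (fun n => ∀ θ ∈ T, (θ.1 * n - θ.2).Prime)).card : ℝ) ≤
      C * F (detD T) ^ κ * N / Real.log y ^ κ + (y : ℝ) ^ (6 * κ + 6) := by
  rcases Nat.eq_zero_or_pos κ with hκ | hκ
  · subst hκ
    refine ⟨1, one_pos, ?_⟩
    intro T M N y hT _ _ hy _
    have h1 : (((Finset.Ioc M (M + N)).filter
        (fun n => ∀ θ ∈ T, (θ.1 * n - θ.2).Prime)).card : ℝ) ≤ N := by
      have h2 := Finset.card_filter_le (Finset.Ioc M (M + N))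
        (fun n => ∀ θ ∈ T, (θ.1 * n - θ.2).Prime)
      rw [Nat.card_Ioc] at h2
      have h3 : M + N - M = N := by omega
      rw [h3] at h2
      exact_mod_cast h2
    have h4 : (0 : ℝ) ≤ (y : ℝ) ^ (6 * 0 + 6) := by positivity
    simp only [pow_zero, mul_one, one_mul, div_one]
    linarith
  · obtain ⟨C, hC, hsk⟩ := sk_pow κ
    refine ⟨C, hC, ?_⟩
    intro T M N y hT hq hne hy hyM
    have hz1 : 1 ≤ y ^ κ := Nat.one_le_pow _ _ (by omega)
    have hD := detD_pos hq hne
    have hcM : ∀ θ ∈ T, θ.2 ≤ θ.1 * M := fun θ hθ => by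
      have := hyM θ hθ
      omega
    have hTne : T.Nonempty := Finset.card_pos.mp (by omega)
    -- the forms in the variable `m`
    have hbig : ∀ θ ∈ T, ∀ m : ℕ, y ^ κ + m ≤ θ.1 * (M + m) - θ.2 := by
      intro θ hθ m
      have h1 := hyM θ hθ
      have h2 : m ≤ θ.1 * m := Nat.le_mul_of_pos_left m (hq θ hθ)
      rw [mul_add]
      omega
    have hfinj : Function.Injective (fun m : ℕ => ∏ θ ∈ T, (θ.1 * (M + m) - θ.2)) := by
      have hlt : ∀ a b : ℕ, a < b → ∏ θ ∈ T, (θ.1 * (M + a) - θ.2) <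
          ∏ θ ∈ T, (θ.1 * (M + b) - θ.2) := by
        intro a b hab
        apply Finset.prod_lt_prod_of_nonempty
        · intro θ hθ
          have := hbig θ hθ a
          omega
        · intro θ hθ
          have h1 := hbig θ hθ a
          have h2 : θ.1 * (M + a) < θ.1 * (M + b) :=
            Nat.mul_lt_mul_of_pos_left (by omega) (hq θ hθ)
          omega
        · exact hTne
      exact (strictMono_nat_of_lt_succ fun m => hlt m (m + 1) (by omega)).injective
    have hmain := Pool.SWP.TwoForms.sv_le 0 N (detD T) (y ^ κ)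
      (fun m : ℕ => ∏ θ ∈ T, (θ.1 * (M + m) - θ.2)) hfinj (nuTup κ) (nuTup_mult κ)
      (by
        intro p hp
        rw [nuTup_prime _ hp]
        have h1 : (0 : ℝ) < p := by exact_mod_cast hp.pos
        have h2 : (0 : ℝ) < κ := by exact_mod_cast hκ
        exact div_pos h2 h1)
      (by
        intro p hp hpd
        rw [nuTup_prime _ hp, div_lt_one (by exact_mod_cast hp.pos)]
        have := card_lt_of_dvd_detD hp hpd
        rw [hT] at this
        exact_mod_cast this)
      (by
        intro e he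
        rw [nuTup_apply]
        apply div_le_div_of_nonneg_right _ (by positivity)
        apply one_le_pow₀
        exact_mod_cast hκ)
      hz1
      (by
        intro e he
        have h1 := count_forms T M N e ((primProd_squarefree (detD T) _).squarefree_of_dvd he)
          (coprime_primProd _ _ he) hcM
        rw [card_shift] at h1
        rw [nuTup_apply, div_mul_eq_mul_div, ← hT]
        refine h1.trans ?_
        exact_mod_cast pow_omega_le_detD he)
      (fun m => ∀ θ ∈ T, (θ.1 * (M + m) - θ.2).Prime)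
      (by
        intro m hm hPm
        apply Nat.Coprime.prod_right
        intro θ hθ
        by_contra hcon
        obtain ⟨p, hp, hpe, hpD⟩ := Nat.Prime.not_coprime_iff_dvd.mp hcon
        have h1 := ((dvd_primProd_iff hp).mp hpe).1
        have h2 := (Nat.prime_dvd_prime_iff_eq hp (hPm θ hθ)).mp hpD
        have h3 := hbig θ hθ m
        omega)
    obtain ⟨hS, hle⟩ := hmain
    rw [← card_shift M N (fun n => ∀ θ ∈ T, (θ.1 * n - θ.2).Prime)] at hle
    have h3 := hsk (detD T) y hD (by omega)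
    have hSK : SK κ (detD T) (y ^ κ) = ∑ l ∈ SQ (detD T) (y ^ κ), nuTup κ l := rfl
    rw [hSK] at h3
    have hlog : 0 < Real.log y := Real.log_pos (by exact_mod_cast (by omega : 1 < y))
    set G0 := ∑ l ∈ SQ (detD T) (y ^ κ), nuTup κ l with hG0
    have hF : 0 ≤ F (detD T) := F_nonneg _
    have h8 : (N : ℝ) / G0 ≤ C * F (detD T) ^ κ * N / Real.log y ^ κ := by
      rw [div_le_div_iff₀ hS (by positivity)]
      have : (0 : ℝ) ≤ N := Nat.cast_nonneg N
      nlinarith
    refine hle.trans (add_le_add h8 ?_)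
    push_cast
    rw [← pow_mul, mul_comm κ 6]
    apply pow_le_pow_right₀
    · exact_mod_cast (by omega : 1 ≤ y)
    · omega

end Pool.BMG
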