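import Mathlib
import Pool.Agent.BMG.KSieve

/-!
# BMG/KLog: the sieve bound with logarithmic weights

For every `κ ≥ 1` there are `C, N₀` such that for `N ≥ N₀` and every set `T` of `κ` pairs `(q,c)` with `1 ≤ q ≤ N`,
`q c' ≠ q' c` for different pairs: `∑_{Y≤N} ∏_{θ∈T} ww θ Y ≤ C F(detD T)^κ N`. (`ww (q,c) Y = thp (q Y - c)`.)

Proof. `ww θ Y ≤ log(N²) = 2 log N` and `ww θ Y = 0` unless `q Y - c` is prime. Let `y = ⌊N^{1/(12κ+12)}⌋ ≥ 2` (for large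
`N`), so `y^{6κ+6} ≤ √N`, `z = y^κ ≤ √N`, and `log y ≥ (log N)/(24κ+24)` for large `N`. Let `M` be the least natural number
with `c + z ≤ q M` for all `(q,c) ∈ T`. The `Y ∈ (M, M+N]` are bounded by `kforms_le`. If `M ≥ 1` then for some
`(q,c) ∈ T`: `q (M-1) < c + z`. For `Y ≤ M` with `p = q Y - c` prime: `0 < q Y - c` and `q Y ≤ q(M-1) + q < c + z + q`, so
`c/q < Y < (c+z)/q + 1`: at most `z + 2` such `Y` (`z/q + 2 ≤ z + 2`). In total
`#{Y ≤ N : all prime} ≤ C F(D)^κ N (24κ+24)^κ/(log N)^κ + √N + √N + 2`. Multiply by `(2 log N)^κ`; `(log N)^κ √N ≤ N` for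
large `N`, and `F(detD T) ≥ 1` (`Pool.SWP.F_ge_one`, `detD T > 0`).
-/

set_option autoImplicit false

namespace Pool.BMG

open Finset Pool.MRZ Pool.SWP Pool.Agent.Lib.PrimePairs

private lemma klog_F {n : ℕ} (hn : 0 < n) : 1 ≤ F n := by
  unfold F
  have h := Finset.single_le_sum (f := fun e : ℕ => (1 : ℝ) / e) (fun e _ => by positivity)
    (Nat.one_mem_divisors.2 hn.ne')
  simpa using h

private lemma klog_detD {T : Finset (ℕ × ℕ)} (h1 : ∀ θ ∈ T, 1 ≤ θ.1)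
    (h2 : ∀ z ∈ T.offDiag, z.1.1 * z.2.2 ≠ z.2.1 * z.1.2) : 0 < detD T := by
  unfold detD
  refine Nat.mul_pos (Nat.mul_pos (Nat.factorial_pos _) ?_) ?_
  · exact Finset.prod_pos fun θ hθ => h1 θ hθ
  · refine Finset.prod_pos fun z hz => Nat.pos_of_ne_zero fun h => h2 z hz ?_
    exact Nat.eq_of_dist_eq_zero h

/-- the numbers `Y ≤ M` -/
private lemma klog_small {T : Finset (ℕ × ℕ)} {N z : ℕ} (hT : T.Nonempty)
    (h1 : ∀ θ ∈ T, 1 ≤ θ.1) : ∃ M : ℕ, (∀ θ ∈ T, θ.2 + z ≤ θ.1 * M) ∧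
      ((((Icc 1 N).filter (fun Y => ∀ θ ∈ T, (θ.1 * Y - θ.2).Prime)).filter
        (fun Y => Y ≤ M)).card ≤ z + 2) := by
  classical
  have hex : ∃ M : ℕ, ∀ θ ∈ T, θ.2 + z ≤ θ.1 * M := by
    refine ⟨∑ θ ∈ T, (θ.2 + z), fun θ hθ => ?_⟩
    have k1 : θ.2 + z ≤ ∑ θ ∈ T, (θ.2 + z) :=
      Finset.single_le_sum (f := fun θ : ℕ × ℕ => θ.2 + z) (fun _ _ => Nat.zero_le _) hθ
    exact k1.trans (Nat.le_mul_of_pos_left _ (h1 θ hθ))
  refine ⟨Nat.find hex, Nat.find_spec hex, ?_⟩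
  obtain ⟨M, hM⟩ : ∃ M, M = Nat.find hex := ⟨_, rfl⟩
  rw [← hM]
  rcases Nat.eq_zero_or_pos M with h0 | h0
  · have he : ((Icc 1 N).filter (fun Y => ∀ θ ∈ T, (θ.1 * Y - θ.2).Prime)).filter
        (fun Y => Y ≤ M) = ∅ := by
      refine Finset.filter_eq_empty_iff.2 fun Y hY => ?_
      have := (Finset.mem_Icc.1 (Finset.mem_filter.1 hY).1).1
      omega
    rw [he]
    simp
  · have hlt : M - 1 < Nat.find hex := by omega
    have hn := Nat.find_min hex hlt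
    push Not at hn
    obtain ⟨θ, hθ, hθ'⟩ := hn
    have hq := h1 θ hθ
    have hsub : ((Icc 1 N).filter (fun Y => ∀ θ ∈ T, (θ.1 * Y - θ.2).Prime)).filter
        (fun Y => Y ≤ M) ⊆ Ioc (θ.2 / θ.1) M := by
      intro Y hY
      rw [Finset.mem_filter, Finset.mem_filter] at hY
      have hp := (hY.1.2 θ hθ).two_le
      rw [Finset.mem_Ioc]
      refine ⟨?_, hY.2⟩
      rw [Nat.div_lt_iff_lt_mul hq, mul_comm]
      omega
    refine (Finset.card_le_card hsub).trans ?_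
    rw [Nat.card_Ioc]
    obtain ⟨w, hw⟩ : ∃ w, w = θ.2 / θ.1 := ⟨_, rfl⟩
    have hw1 : θ.2 < θ.1 * (w + 1) := by
      rw [hw]
      exact Nat.lt_mul_div_succ _ hq
    rw [← hw]
    by_contra hcon
    push Not at hcon
    obtain ⟨m, hm⟩ : ∃ m, M = w + z + 2 + m + 1 := ⟨M - (w + z + 3), by omega⟩
    have k1 : M - 1 = w + 1 + (z + 1 + m) := by omega
    rw [k1, mul_add] at hθ'
    have k2 : z + 1 + m ≤ θ.1 * (z + 1 + m) := Nat.le_mul_of_pos_left _ hq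
    omega

/-- the choice of the sifting level -/
private lemma klog_y (κ : ℕ) {N : ℕ} (hN : 2 ^ (24 * κ + 24) ≤ N) : ∃ y : ℕ, 2 ≤ y ∧
    (y : ℝ) ^ (6 * κ + 6) ≤ Real.sqrt N ∧ (y : ℝ) ^ κ ≤ Real.sqrt N ∧
    Real.log N / (24 * κ + 24) ≤ Real.log y := by
  have hNr : (2 : ℝ) ^ (24 * κ + 24) ≤ N := by exact_mod_cast hN
  have hN0 : (0 : ℝ) < N := lt_of_lt_of_le (by positivity) hNr
  obtain ⟨e, he⟩ : ∃ e : ℝ, e = 1 / (12 * κ + 12 : ℝ) := ⟨_, rfl⟩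
  have he0 : 0 < e := by
    rw [he]
    positivity
  have hlog : (24 * κ + 24 : ℝ) * Real.log 2 ≤ Real.log N := by
    have h := Real.log_le_log (by positivity) hNr
    rw [Real.log_pow] at h
    push_cast at h
    exact h
  have hx4 : (4 : ℝ) ≤ (N : ℝ) ^ e := by
    have h1 : Real.log 4 ≤ Real.log ((N : ℝ) ^ e) := by
      rw [Real.log_rpow hN0, show (4 : ℝ) = 2 ^ 2 by norm_num, Real.log_pow, he]
      push_cast
      rw [div_mul_eq_mul_div, one_mul, le_div_iff₀ (by positivity)]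
      linarith
    exact (Real.log_le_log_iff (by norm_num) (Real.rpow_pos_of_pos hN0 _)).1 h1
  obtain ⟨y, hy⟩ : ∃ y : ℕ, y = ⌊(N : ℝ) ^ e⌋₊ := ⟨_, rfl⟩
  have hy1 : (y : ℝ) ≤ (N : ℝ) ^ e := by
    rw [hy]
    exact Nat.floor_le (by positivity)
  have hy2 : (N : ℝ) ^ e < y + 1 := by
    rw [hy]
    exact Nat.lt_floor_add_one _
  have hy4 : 3 ≤ y := by
    have h : (3 : ℝ) < (y : ℝ) + 1 := by linarith
    have h' : 3 < y + 1 := by exact_mod_cast h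
    omega
  have hyr : (1 : ℝ) ≤ y := by
    have : 1 ≤ y := by omega
    exact_mod_cast this
  have hpow : (y : ℝ) ^ (6 * κ + 6) ≤ Real.sqrt N := by
    refine Real.le_sqrt_of_sq_le ?_
    rw [← pow_mul]
    calc (y : ℝ) ^ ((6 * κ + 6) * 2) ≤ ((N : ℝ) ^ e) ^ ((6 * κ + 6) * 2) :=
          pow_le_pow_left₀ (by positivity) hy1 _
      _ = N := by
          rw [← Real.rpow_natCast, ← Real.rpow_mul hN0.le]
          have : e * (((6 * κ + 6) * 2 : ℕ) : ℝ) = 1 := by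
            rw [he]
            push_cast
            field_simp
            ring
          rw [this, Real.rpow_one]
  refine ⟨y, by omega, hpow, ?_, ?_⟩
  · exact (pow_le_pow_right₀ hyr (by omega)).trans hpow
  · have h1 : (N : ℝ) ^ e ≤ 2 * y := by linarith
    have h2 := Real.log_le_log (Real.rpow_pos_of_pos hN0 _) h1
    rw [Real.log_rpow hN0, Real.log_mul (by norm_num) (by linarith), he] at h2
    have h3 : 1 / (12 * κ + 12 : ℝ) * Real.log N = 2 * (Real.log N / (24 * κ + 24)) := by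
      field_simp
      ring
    have h4 : Real.log 2 ≤ Real.log N / (24 * κ + 24) := by
      rw [le_div_iff₀ (by positivity)]
      linarith
    rw [h3] at h2
    linarith

private lemma klog_pow (κ : ℕ) : ∃ N₁ : ℕ, ∀ N : ℕ, N₁ ≤ N →
    Real.log N ^ κ ≤ Real.sqrt N := by
  have h := (Real.isLittleO_pow_log_id_atTop (n := κ)).bound (c := (2 ^ κ : ℝ)⁻¹) (by positivity)
  obtain ⟨x₀, hx₀⟩ := Filter.eventually_atTop.1 h
  refine ⟨⌈(max x₀ 1) ^ 2⌉₊, fun N hN => ?_⟩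
  have hN1 : (max x₀ 1) ^ 2 ≤ (N : ℝ) := (Nat.le_ceil _).trans (by exact_mod_cast hN)
  have hm : (1 : ℝ) ≤ max x₀ 1 := le_max_right _ _
  have hs : max x₀ 1 ≤ Real.sqrt N := Real.le_sqrt_of_sq_le hN1
  have hs1 : 1 ≤ Real.sqrt N := hm.trans hs
  have h1 := hx₀ (Real.sqrt N) ((le_max_left _ _).trans hs)
  have hN0 : (0 : ℝ) ≤ N := Nat.cast_nonneg N
  rw [Real.norm_eq_abs, abs_of_nonneg (pow_nonneg (Real.log_nonneg hs1) _), id,
    Real.norm_eq_abs, abs_of_nonneg (Real.sqrt_nonneg _), Real.log_sqrt hN0, div_pow,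
    inv_mul_eq_div, div_le_div_iff_of_pos_right (by positivity)] at h1
  exact h1

theorem klog (κ : ℕ) (hκ : 1 ≤ κ) : ∃ (C : ℝ) (N₀ : ℕ), 0 < C ∧ ∀ (T : Finset (ℕ × ℕ)) (N : ℕ), N₀ ≤ N →
    T.card = κ → (∀ θ ∈ T, 1 ≤ θ.1 ∧ θ.1 ≤ N) → (∀ z ∈ T.offDiag, z.1.1 * z.2.2 ≠ z.2.1 * z.1.2) →
    ∑ Y ∈ Icc 1 N, ∏ θ ∈ T, ww θ Y ≤ C * F (detD T) ^ κ * N := by
  classical
  obtain ⟨C₀, hC₀, hk⟩ := kforms_le κ
  obtain ⟨N₁, hN₁⟩ := klog_pow κ
  refine ⟨2 ^ κ * (24 * κ + 24 : ℝ) ^ κ * C₀ + 4 * 2 ^ κ, max N₁ (2 ^ (24 * κ + 24)),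
    by positivity, ?_⟩
  intro T N hN hT h1 h2
  have hNa := (le_max_left _ _).trans hN
  have hNb := (le_max_right _ _).trans hN
  have hlogp := hN₁ N hNa
  obtain ⟨y, hy2, hy3, hy4, hy5⟩ := klog_y κ hNb
  have hTne : T.Nonempty := by
    rw [← Finset.card_pos]
    omega
  have h1' : ∀ θ ∈ T, 1 ≤ θ.1 := fun θ hθ => (h1 θ hθ).1
  obtain ⟨M, hM1, hM2⟩ := klog_small (N := N) (z := y ^ κ) hTne h1'
  have hkf := hk T M N y hT h1' h2 hy2 hM1
  obtain ⟨A, hA⟩ : ∃ A, A = (Icc 1 N).filter (fun Y => ∀ θ ∈ T, (θ.1 * Y - θ.2).Prime) :=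
    ⟨_, rfl⟩
  rw [← hA] at hM2
  have hN2 : 2 ≤ N := by
    refine le_trans ?_ hNb
    calc 2 = 2 ^ 1 := (pow_one 2).symm
      _ ≤ 2 ^ (24 * κ + 24) := Nat.pow_le_pow_right (by norm_num) (by omega)
  have hNr : (2 : ℝ) ≤ N := by exact_mod_cast hN2
  have hL : 0 < Real.log N := Real.log_pos (by linarith)
  -- the pointwise bound
  have hsum : ∑ Y ∈ Icc 1 N, ∏ θ ∈ T, ww θ Y ≤ (2 * Real.log N) ^ κ * A.card := by
    have e1 : ∑ Y ∈ Icc 1 N, ∏ θ ∈ T, ww θ Y = ∑ Y ∈ A, ∏ θ ∈ T, ww θ Y := by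
      rw [hA]
      refine (Finset.sum_filter_of_ne fun Y _ hne => ?_).symm
      intro θ hθ
      by_contra hnp
      refine hne (Finset.prod_eq_zero hθ ?_)
      unfold ww thp
      rw [if_neg hnp]
    rw [e1, mul_comm, ← nsmul_eq_mul]
    refine Finset.sum_le_card_nsmul _ _ _ fun Y hY => ?_
    rw [hA, Finset.mem_filter, Finset.mem_Icc] at hY
    rw [← hT, ← Finset.prod_const]
    refine Finset.prod_le_prod (fun θ _ => ww_nonneg θ Y) fun θ hθ => ?_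
    unfold ww
    refine (thp_le _).trans ?_
    have hp := (hY.2 θ hθ).pos
    have k1 : θ.1 * Y - θ.2 ≤ N * N :=
      (Nat.sub_le _ _).trans (Nat.mul_le_mul (h1 θ hθ).2 hY.1.2)
    have k2 : ((θ.1 * Y - θ.2 : ℕ) : ℝ) ≤ (N : ℝ) ^ 2 := by
      rw [sq]
      exact_mod_cast k1
    have k3 := Real.log_le_log (by exact_mod_cast hp) k2
    rw [Real.log_pow] at k3
    exact_mod_cast k3
  -- the number of elements
  have hcard : (A.card : ℝ) ≤ C₀ * F (detD T) ^ κ * N / Real.log y ^ κ +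
      (y : ℝ) ^ (6 * κ + 6) + ((y : ℝ) ^ κ + 2) := by
    have hsub : A ⊆ ((Finset.Ioc M (M + N)).filter (fun n => ∀ θ ∈ T, (θ.1 * n - θ.2).Prime)) ∪
        A.filter (fun Y => Y ≤ M) := by
      intro Y hY
      rw [Finset.mem_union]
      by_cases hYM : Y ≤ M
      · exact Or.inr (Finset.mem_filter.2 ⟨hY, hYM⟩)
      · left
        rw [hA, Finset.mem_filter, Finset.mem_Icc] at hY
        rw [Finset.mem_filter, Finset.mem_Ioc]
        exact ⟨⟨by omega, by omega⟩, hY.2⟩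
    have k1 := (Finset.card_le_card hsub).trans (Finset.card_union_le _ _)
    have k2 : (A.card : ℝ) ≤ (((Finset.Ioc M (M + N)).filter
        (fun n => ∀ θ ∈ T, (θ.1 * n - θ.2).Prime)).card : ℝ) +
        ((A.filter (fun Y => Y ≤ M)).card : ℝ) := by exact_mod_cast k1
    have k3 : ((A.filter (fun Y => Y ≤ M)).card : ℝ) ≤ (y : ℝ) ^ κ + 2 := by
      exact_mod_cast hM2
    linarith
  -- conclusion
  have hD := klog_detD h1' h2
  have hF := klog_F hD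
  have hFk : 1 ≤ F (detD T) ^ κ := one_le_pow₀ hF
  have hs0 : 1 ≤ Real.sqrt N := Real.one_le_sqrt.2 (by linarith)
  have hss : Real.sqrt N * Real.sqrt N = N := Real.mul_self_sqrt (by linarith)
  have hly : 0 < Real.log y := lt_of_lt_of_le (by positivity) hy5
  have t1 : (2 * Real.log N) ^ κ * (C₀ * F (detD T) ^ κ * N / Real.log y ^ κ) ≤
      2 ^ κ * (24 * κ + 24 : ℝ) ^ κ * C₀ * F (detD T) ^ κ * N := by
    have u1 : Real.log N ^ κ ≤ (24 * κ + 24 : ℝ) ^ κ * Real.log y ^ κ := by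
      rw [← mul_pow]
      refine pow_le_pow_left₀ hL.le ?_ _
      rw [div_le_iff₀ (by positivity)] at hy5
      linarith
    rw [← mul_div_assoc, div_le_iff₀ (by positivity), mul_pow]
    have u2 : 0 ≤ 2 ^ κ * (C₀ * F (detD T) ^ κ * N) := by positivity
    calc 2 ^ κ * Real.log N ^ κ * (C₀ * F (detD T) ^ κ * N)
        = (2 ^ κ * (C₀ * F (detD T) ^ κ * N)) * Real.log N ^ κ := by ring
      _ ≤ (2 ^ κ * (C₀ * F (detD T) ^ κ * N)) * ((24 * κ + 24 : ℝ) ^ κ * Real.log y ^ κ) :=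
          mul_le_mul_of_nonneg_left u1 u2
      _ = _ := by ring
  have t2 : (2 * Real.log N) ^ κ * ((y : ℝ) ^ (6 * κ + 6) + ((y : ℝ) ^ κ + 2)) ≤
      4 * 2 ^ κ * F (detD T) ^ κ * N := by
    have u1 : (y : ℝ) ^ (6 * κ + 6) + ((y : ℝ) ^ κ + 2) ≤ 4 * Real.sqrt N := by linarith
    calc (2 * Real.log N) ^ κ * ((y : ℝ) ^ (6 * κ + 6) + ((y : ℝ) ^ κ + 2))
        ≤ (2 * Real.log N) ^ κ * (4 * Real.sqrt N) :=
          mul_le_mul_of_nonneg_left u1 (by positivity)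
      _ = (4 * 2 ^ κ * Real.sqrt N) * Real.log N ^ κ := by
          rw [mul_pow]
          ring
      _ ≤ (4 * 2 ^ κ * Real.sqrt N) * Real.sqrt N :=
          mul_le_mul_of_nonneg_left hlogp (by positivity)
      _ = 4 * 2 ^ κ * 1 * N := by
          rw [mul_assoc, hss]
          ring
      _ ≤ 4 * 2 ^ κ * F (detD T) ^ κ * N := by
          refine mul_le_mul_of_nonneg_right ?_ (by positivity)
          exact mul_le_mul_of_nonneg_left hFk (by positivity)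
  calc ∑ Y ∈ Icc 1 N, ∏ θ ∈ T, ww θ Y ≤ (2 * Real.log N) ^ κ * A.card := hsum
    _ ≤ (2 * Real.log N) ^ κ * (C₀ * F (detD T) ^ κ * N / Real.log y ^ κ +
          (y : ℝ) ^ (6 * κ + 6) + ((y : ℝ) ^ κ + 2)) :=
        mul_le_mul_of_nonneg_left hcard (by positivity)
    _ = (2 * Real.log N) ^ κ * (C₀ * F (detD T) ^ κ * N / Real.log y ^ κ) +
          (2 * Real.log N) ^ κ * ((y : ℝ) ^ (6 * κ + 6) + ((y : ℝ) ^ κ + 2)) := by ring
    _ ≤ 2 ^ κ * (24 * κ + 24 : ℝ) ^ κ * C₀ * F (detD T) ^ κ * N +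
          4 * 2 ^ κ * F (detD T) ^ κ * N := add_le_add t1 t2
    _ = _ := by ring

end Pool.BMG
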