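import Mathlib
import Pool.Agent.BMG.Defs
import Pool.Agent.MRZ.PVb
import Pool.Agent.SWP.FSum

/-!
# BMG/FAP: moments of `F(n) = ∑_{e∣n} 1/e` along short arithmetic progressions

For `m ≥ 0`, `κ > 0` there are `C, X₀`: for `X ≥ X₀`, `G ≥ (log X)^κ`, `a ≥ 1` coprime to `b`, `b ≤ X⁴`, `a (h+G) ≤ X⁴`:
`∑_{h<x≤h+G, a x ≠ b} F(|a x - b|)^m ≤ C G`. (`G` is only a power of `log X`, the numbers `|a x - b|` are up to `X⁴`.)

Proof. `F(n) ≤ ∏_{p∣n} (1 - 1/p)^{-1} ≤ ∏_{p∣n} (1 + 2/p)` (`F(n) = σ(n)/n`; e.g. by strong induction / multiplicativity of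
`σ`). Let `w = ⌈log X⌉`. For `1 ≤ n ≤ X⁴` the number of prime factors is `≤ log n/log 2 ≤ 6 log X ≤ 6w`, so
`∏_{p∣n, p>w} (1+2/p)^m ≤ exp(2m · 6w/w) = e^{12m}`. And `(1 + 2/p)^m ≤ 1 + 3^m/p` (`(1+2x)^m ≤ 1 + 3^m x` for
`x ∈ [0,1]`, induction on `m`), so with `c = 3^m` and `Π = ∏_{p≤w} p`:
`F(n)^m ≤ e^{12m} ∏_{p∣n, p≤w} (1 + c/p) = e^{12m} ∑_{e ∣ Π, e ∣ n} c^{ω(e)}/e`. For `e ∣ Π` (squarefree): if
`gcd(e, a) > 1` then no `x` has `e ∣ |a x - b|` (a prime `p ∣ a`, `p ∣ ax - b` would divide `b`), otherwise the `x` with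
`e ∣ |ax - b|` form one residue class mod `e`, at most `G/e + 1` values in `(h, h+G]` (`abs_count_modEq_sub_le`). So
`∑_x F^m ≤ e^{12m} (G ∑_{e∣Π} c^{ω(e)}/e² + ∑_{e∣Π} c^{ω(e)}/e) ≤ e^{12m} (G exp(c ∑ 1/p²) + exp(c ∑_{p≤w} 1/p))`, and by
Mertens (`Pool.MRZ.PVb.mertens_nat`) the last term is `≤ (C log w)^c`, i.e. a power of `log log X`, which is `≤ G` for
large `X`.
-/

set_option autoImplicit false

namespace Pool.BMG

open Finset Pool.MRZ Pool.SWP Pool.Agent.Lib.PrimePairs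

namespace FAPAux

lemma F_prime_pow (p k : ℕ) (hp : p.Prime) : F (p ^ k) ≤ 1 + 2 / (p : ℝ) := by
  unfold F
  rw [Nat.divisors_prime_pow hp, Finset.sum_map]
  simp only [Function.Embedding.coeFn_mk]
  have hp2 : (2 : ℝ) ≤ p := by exact_mod_cast hp.two_le
  have hp0 : (0 : ℝ) < p := by linarith
  have h : ∀ j : ℕ, ∑ i ∈ range j, (1 : ℝ) / ((p ^ i : ℕ) : ℝ) ≤
      (1 + 2 / (p : ℝ)) * (1 - 1 / (p : ℝ) ^ j) := by
    intro j
    induction j with
    | zero => simp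
    | succ j ih =>
      rw [Finset.sum_range_succ]
      push_cast
      have hpj : (0 : ℝ) < (p : ℝ) ^ j := by positivity
      have key : (1 : ℝ) / (p : ℝ) ^ j ≤
          (1 + 2 / (p : ℝ)) * (1 / (p : ℝ) ^ j - 1 / (p : ℝ) ^ (j + 1)) := by
        have e1 : (1 + 2 / (p : ℝ)) * (1 / (p : ℝ) ^ j - 1 / (p : ℝ) ^ (j + 1)) =
            (1 / (p : ℝ) ^ j) * ((1 + 2 / (p : ℝ)) * (1 - 1 / (p : ℝ))) := by
          rw [pow_succ]
          field_simp
        have e2 : (1 : ℝ) ≤ (1 + 2 / (p : ℝ)) * (1 - 1 / (p : ℝ)) := by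
          have e3 : (1 + 2 / (p : ℝ)) * (1 - 1 / (p : ℝ)) = 1 + (p - 2) / (p : ℝ) ^ 2 := by
            field_simp
            ring
          rw [e3]
          have : 0 ≤ ((p : ℝ) - 2) / (p : ℝ) ^ 2 := div_nonneg (by linarith) (by positivity)
          linarith
        rw [e1]
        have : 0 < 1 / (p : ℝ) ^ j := by positivity
        nlinarith
      push_cast at ih
      linarith
  refine (h (k + 1)).trans ?_
  have h1 : 0 ≤ 1 / (p : ℝ) ^ (k + 1) := by positivity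
  have h2 : 0 ≤ 2 / (p : ℝ) := by positivity
  nlinarith

lemma F_le_prod (n : ℕ) (hn : n ≠ 0) : F n ≤ ∏ p ∈ n.primeFactors, (1 + 2 / (p : ℝ)) := by
  induction n using Nat.recOnPosPrimePosCoprime with
  | prime_pow p k hp hk =>
    rw [Nat.primeFactors_prime_pow hk.ne' hp, Finset.prod_singleton]
    exact F_prime_pow p k hp
  | zero => exact absurd rfl hn
  | one => simp [F]
  | coprime a b ha hb hab iha ihb =>
    rw [hab.primeFactors_mul, Finset.prod_union hab.disjoint_primeFactors]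
    refine (F_mul_le a b (by omega) (by omega)).trans ?_
    exact mul_le_mul (iha (by omega)) (ihb (by omega)) (F_nonneg _)
      (Finset.prod_nonneg fun p _ => by positivity)

lemma pow_le (m : ℕ) (x : ℝ) (hx0 : 0 ≤ x) (hx1 : x ≤ 1) :
    (1 + 2 * x) ^ m ≤ 1 + (3 ^ m - 1) * x := by
  induction m with
  | zero => simp
  | succ m ih =>
    have h3 : (1 : ℝ) ≤ 3 ^ m := one_le_pow₀ (by norm_num)
    have h4 : (1 + 2 * x) ^ (m + 1) ≤ (1 + (3 ^ m - 1) * x) * (1 + 2 * x) := by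
      rw [pow_succ]
      exact mul_le_mul_of_nonneg_right ih (by linarith)
    have h5 : x * x ≤ x := by nlinarith
    have h6 : (3 ^ m - 1 : ℝ) * (x * x) ≤ (3 ^ m - 1) * x :=
      mul_le_mul_of_nonneg_left h5 (by linarith)
    have h7 : (3 : ℝ) ^ (m + 1) = 3 * 3 ^ m := by ring
    rw [h7]
    nlinarith

/-- few large prime factors -/
lemma two_pow_card (n : ℕ) (hn : n ≠ 0) : 2 ^ n.primeFactors.card ≤ n := by
  calc 2 ^ n.primeFactors.card = ∏ _p ∈ n.primeFactors, 2 := by rw [Finset.prod_const]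
    _ ≤ ∏ p ∈ n.primeFactors, p := Finset.prod_le_prod' fun p hp =>
        (Nat.prime_of_mem_primeFactors hp).two_le
    _ ≤ n := Nat.le_of_dvd (by omega) (Nat.prod_primeFactors_dvd n)

/-- the primes up to `w` -/
def Pw (w : ℕ) : Finset ℕ := (Ioc 0 w).filter Nat.Prime

lemma F_pow_le (m X w n : ℕ) (hX : 2 ≤ X) (hw0 : 0 < w) (hw : Real.log X ≤ w) (hn0 : n ≠ 0)
    (hn : n ≤ X ^ 4) :
    F n ^ m ≤ Real.exp (12 * m) * ∏ p ∈ (Pw w).filter (fun p => p ∣ n), (1 + (3 : ℝ) ^ m / p) := by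
  have hw0' : (0 : ℝ) < w := by exact_mod_cast hw0
  have h1 : F n ^ m ≤ (∏ p ∈ n.primeFactors, (1 + 2 / (p : ℝ))) ^ m :=
    pow_le_pow_left₀ (F_nonneg n) (F_le_prod n hn0) m
  refine h1.trans ?_
  rw [← Finset.prod_pow, ← Finset.prod_filter_mul_prod_filter_not n.primeFactors (fun p => p ≤ w),
    mul_comm]
  have hfil : n.primeFactors.filter (fun p => p ≤ w) = (Pw w).filter (fun p => p ∣ n) := by
    ext p
    simp only [Pw, Finset.mem_filter, Finset.mem_Ioc, Nat.mem_primeFactors]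
    constructor
    · rintro ⟨⟨hp, hpn, _⟩, hpw⟩
      exact ⟨⟨⟨hp.pos, hpw⟩, hp⟩, hpn⟩
    · rintro ⟨⟨⟨_, hpw⟩, hp⟩, hpn⟩
      exact ⟨⟨hp, hpn, hn0⟩, hpw⟩
  rw [hfil]
  have hA : ∏ p ∈ n.primeFactors with ¬ p ≤ w, (1 + 2 / (p : ℝ)) ^ m ≤ Real.exp (12 * m) := by
    have hb : ∀ p ∈ n.primeFactors.filter (fun p => ¬ p ≤ w), (1 + 2 / (p : ℝ)) ^ m ≤
        Real.exp (2 * m / w) := by
      intro p hp
      rw [Finset.mem_filter] at hp
      have hpw : (w : ℝ) ≤ p := by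
        have : w ≤ p := by omega
        exact_mod_cast this
      have hp0 : (0 : ℝ) < p := lt_of_lt_of_le hw0' hpw
      have e1 : 1 + 2 / (p : ℝ) ≤ Real.exp (2 / w) := by
        have e2 : 2 / (p : ℝ) ≤ 2 / w := div_le_div_of_nonneg_left (by norm_num) hw0' hpw
        have e3 := Real.add_one_le_exp (2 / (w : ℝ))
        linarith
      calc (1 + 2 / (p : ℝ)) ^ m ≤ (Real.exp (2 / w)) ^ m :=
            pow_le_pow_left₀ (by positivity) e1 m
        _ = Real.exp (2 * m / w) := by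
            rw [← Real.exp_nat_mul]
            congr 1
            ring
    have hcard : ((n.primeFactors.filter (fun p => ¬ p ≤ w)).card : ℝ) ≤ 6 * w := by
      have e1 : (n.primeFactors.filter (fun p => ¬ p ≤ w)).card ≤ n.primeFactors.card :=
        Finset.card_filter_le _ _
      have e2 : (2 : ℝ) ^ n.primeFactors.card ≤ (X : ℝ) ^ 4 := by
        exact_mod_cast (two_pow_card n hn0).trans hn
      have hX0 : (0 : ℝ) < X := by
        have : 0 < X := by omega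
        exact_mod_cast this
      have e3 := Real.log_le_log (by positivity) e2
      rw [Real.log_pow, Real.log_pow] at e3
      have e4 := Real.log_two_gt_d9
      have e5 : ((n.primeFactors.filter (fun p => ¬ p ≤ w)).card : ℝ) ≤ n.primeFactors.card := by
        exact_mod_cast e1
      push_cast at e3
      have e6 : (0 : ℝ) ≤ n.primeFactors.card := by positivity
      have e7 : (n.primeFactors.card : ℝ) * 0.6931471803 ≤ n.primeFactors.card * Real.log 2 :=
        mul_le_mul_of_nonneg_left e4.le e6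
      linarith
    calc ∏ p ∈ n.primeFactors with ¬ p ≤ w, (1 + 2 / (p : ℝ)) ^ m
        ≤ ∏ _p ∈ n.primeFactors with ¬ _p ≤ w, Real.exp (2 * m / w) :=
          Finset.prod_le_prod (fun p _ => by positivity) hb
      _ = Real.exp ((n.primeFactors.filter (fun p => ¬ p ≤ w)).card * (2 * m / w)) := by
          rw [Finset.prod_const, Real.exp_nat_mul]
      _ ≤ Real.exp (12 * m) := by
          apply Real.exp_le_exp.2
          have e1 : (0 : ℝ) ≤ 2 * m / w := by positivity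
          calc ((n.primeFactors.filter (fun p => ¬ p ≤ w)).card : ℝ) * (2 * m / w)
              ≤ (6 * w) * (2 * m / w) := mul_le_mul_of_nonneg_right hcard e1
            _ = 12 * m := by field_simp; ring
  have hB : ∏ p ∈ Pw w with p ∣ n, (1 + 2 / (p : ℝ)) ^ m ≤
      ∏ p ∈ Pw w with p ∣ n, (1 + (3 : ℝ) ^ m / p) := by
    refine Finset.prod_le_prod (fun p _ => by positivity) fun p hp => ?_
    rw [Finset.mem_filter, Pw, Finset.mem_filter, Finset.mem_Ioc] at hp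
    have hp1 : (1 : ℝ) ≤ p := by exact_mod_cast hp.1.2.one_lt.le
    have e1 := pow_le m (1 / (p : ℝ)) (by positivity) (by rw [div_le_one (by linarith)]; exact hp1)
    have e2 : (1 + 2 * (1 / (p : ℝ))) = 1 + 2 / (p : ℝ) := by ring
    rw [e2] at e1
    have e3 : (0 : ℝ) ≤ 1 / p := by positivity
    calc (1 + 2 / (p : ℝ)) ^ m ≤ 1 + (3 ^ m - 1) * (1 / (p : ℝ)) := e1
      _ ≤ 1 + (3 : ℝ) ^ m / p := by
          rw [sub_mul, mul_one_div]
          linarith
  exact mul_le_mul hA hB (Finset.prod_nonneg fun p _ => by positivity) (Real.exp_nonneg _)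

/-- the expansion -/
lemma expand (w n : ℕ) (c : ℝ) :
    ∏ p ∈ (Pw w).filter (fun p => p ∣ n), (1 + c / (p : ℝ)) =
      ∑ t ∈ (Pw w).powerset, if (∏ p ∈ t, p) ∣ n then ∏ p ∈ t, (c / (p : ℝ)) else 0 := by
  rw [Finset.prod_one_add, ← Finset.sum_filter]
  refine Finset.sum_congr ?_ fun _ _ => rfl
  ext t
  simp only [Finset.mem_powerset, Finset.mem_filter]
  constructor
  · intro h
    refine ⟨fun p hp => (Finset.mem_filter.1 (h hp)).1, ?_⟩
    refine Finset.prod_primes_dvd n ?_ ?_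
    · intro p hp
      have h1 := (Finset.mem_filter.1 (h hp)).1
      rw [Pw, Finset.mem_filter] at h1
      exact h1.2.prime
    · intro p hp
      exact (Finset.mem_filter.1 (h hp)).2
  · rintro ⟨h1, h2⟩ p hp
    exact Finset.mem_filter.2 ⟨h1 hp, (Finset.dvd_prod_of_mem _ hp).trans h2⟩

/-- counting the multiples of `e` among the `|a x - b|` -/
lemma count_le (a b e h G : ℕ) (he : 0 < e) (hab : a.Coprime b) :
    (((Ioc h (h + G)).filter (fun x => e ∣ Nat.dist (a * x) b)).card : ℝ) ≤ G / e + 1 := by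
  rcases Finset.eq_empty_or_nonempty ((Ioc h (h + G)).filter (fun x => e ∣ Nat.dist (a * x) b))
    with h0 | ⟨x₀, hx₀⟩
  · rw [h0]
    simp only [Finset.card_empty, Nat.cast_zero]
    positivity
  · rw [Finset.mem_filter] at hx₀
    have hdist : ∀ x, e ∣ Nat.dist (a * x) b → (e : ℤ) ∣ (a : ℤ) * x - b := by
      intro x hx
      have h1 : ((Nat.dist (a * x) b : ℕ) : ℤ) = |(a : ℤ) * x - b| := by
        rcases le_total (a * x) b with h2 | h2
        · rw [Nat.dist_eq_sub_of_le h2]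
          have h3 : (a : ℤ) * x - b ≤ 0 := by
            have : ((a * x : ℕ) : ℤ) ≤ b := by exact_mod_cast h2
            push_cast at this
            linarith
          rw [abs_of_nonpos h3, Nat.cast_sub h2]
          push_cast
          ring
        · rw [Nat.dist_eq_sub_of_le_right h2]
          have h3 : 0 ≤ (a : ℤ) * x - b := by
            have : (b : ℤ) ≤ ((a * x : ℕ) : ℤ) := by exact_mod_cast h2
            push_cast at this
            linarith
          rw [abs_of_nonneg h3, Nat.cast_sub h2]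
          push_cast
          ring
      have h4 : (e : ℤ) ∣ ((Nat.dist (a * x) b : ℕ) : ℤ) := Int.natCast_dvd_natCast.2 hx
      rw [h1, dvd_abs] at h4
      exact h4
    have hcop : IsCoprime (e : ℤ) (a : ℤ) := by
      rw [Int.isCoprime_iff_gcd_eq_one, Int.gcd_natCast_natCast]
      by_contra hne
      obtain ⟨p, hp, hpd⟩ := Nat.exists_prime_and_dvd hne
      have hpe : p ∣ e := hpd.trans (Nat.gcd_dvd_left _ _)
      have hpa : p ∣ a := hpd.trans (Nat.gcd_dvd_right _ _)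
      have h1 := hdist x₀ hx₀.2
      have h2 : (p : ℤ) ∣ (a : ℤ) * x₀ - b := (Int.natCast_dvd_natCast.2 hpe).trans h1
      have h3 : (p : ℤ) ∣ (a : ℤ) * x₀ := (Int.natCast_dvd_natCast.2 hpa).mul_right _
      have h4 : (p : ℤ) ∣ (b : ℤ) := by
        have := dvd_sub h3 h2
        simpa using this
      have h5 : p ∣ b := Int.natCast_dvd_natCast.1 h4
      have h6 : p ∣ Nat.gcd a b := Nat.dvd_gcd hpa h5
      rw [hab] at h6
      exact hp.one_lt.ne' (Nat.dvd_one.1 h6)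
    have hsub : (Ioc h (h + G)).filter (fun x => e ∣ Nat.dist (a * x) b) ⊆
        (Ioc h (h + G)).filter (fun x => x ≡ x₀ [MOD e]) := by
      intro x hx
      rw [Finset.mem_filter] at hx ⊢
      refine ⟨hx.1, ?_⟩
      have h1 := hdist x hx.2
      have h2 := hdist x₀ hx₀.2
      have h3 : (e : ℤ) ∣ (a : ℤ) * ((x₀ : ℤ) - x) := by
        have := dvd_sub h2 h1
        have e1 : (a : ℤ) * x₀ - b - (a * x - b) = a * ((x₀ : ℤ) - x) := by ring
        rwa [e1] at this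
      have h4 : (e : ℤ) ∣ (x₀ : ℤ) - x := hcop.dvd_of_dvd_mul_left h3
      exact (Nat.modEq_iff_dvd).2 h4
    have h1 := abs_count_modEq_sub_le h (h + G) e x₀ (by omega) he
    have h2 := (abs_le.1 h1).2
    have h3 : (((Ioc h (h + G)).filter (fun x => e ∣ Nat.dist (a * x) b)).card : ℝ) ≤
        ((Ioc h (h + G)).filter (fun x => x ≡ x₀ [MOD e])).card := by
      exact_mod_cast Finset.card_le_card hsub
    push_cast at h2
    have h4 : ((h : ℝ) + G - h) / e = G / e := by ring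
    rw [h4] at h2
    linarith

/-- the sum over the progression -/
lemma sum_le (m X w h G a b : ℕ) (hX : 2 ≤ X) (hw0 : 0 < w) (hw : Real.log X ≤ w)
    (hab : a.Coprime b) (hb : b ≤ X ^ 4) (haG : a * (h + G) ≤ X ^ 4) :
    ∑ x ∈ (Ioc h (h + G)).filter (fun x => a * x ≠ b), F (Nat.dist (a * x) b) ^ m ≤
      Real.exp (12 * m) * (G * ∏ p ∈ Pw w, (1 + (3 : ℝ) ^ m / (p : ℝ) ^ 2) +
        ∏ p ∈ Pw w, (1 + (3 : ℝ) ^ m / p)) := by
  have h1 : ∀ x ∈ (Ioc h (h + G)).filter (fun x => a * x ≠ b), F (Nat.dist (a * x) b) ^ m ≤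
      Real.exp (12 * m) * ∑ t ∈ (Pw w).powerset, if (∏ p ∈ t, p) ∣ Nat.dist (a * x) b then
        ∏ p ∈ t, ((3 : ℝ) ^ m / (p : ℝ)) else 0 := by
    intro x hx
    rw [Finset.mem_filter, Finset.mem_Ioc] at hx
    rw [← expand]
    have hax : a * x ≤ X ^ 4 := (Nat.mul_le_mul_left a hx.1.2).trans haG
    refine F_pow_le m X w _ hX hw0 hw ?_ ?_
    · intro h0
      exact hx.2 (Nat.eq_of_dist_eq_zero h0)
    · unfold Nat.dist
      omega
  refine (Finset.sum_le_sum h1).trans ?_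
  rw [← Finset.mul_sum]
  refine mul_le_mul_of_nonneg_left ?_ (Real.exp_nonneg _)
  rw [Finset.sum_comm]
  have h2 : ∀ t ∈ (Pw w).powerset,
      ∑ x ∈ (Ioc h (h + G)).filter (fun x => a * x ≠ b),
        (if (∏ p ∈ t, p) ∣ Nat.dist (a * x) b then ∏ p ∈ t, ((3 : ℝ) ^ m / (p : ℝ)) else 0) ≤
      G * ∏ p ∈ t, ((3 : ℝ) ^ m / (p : ℝ) ^ 2) + ∏ p ∈ t, ((3 : ℝ) ^ m / (p : ℝ)) := by
    intro t ht
    rw [Finset.mem_powerset] at ht
    have htp : ∀ p ∈ t, 0 < p := by
      intro p hp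
      have := ht hp
      rw [Pw, Finset.mem_filter] at this
      exact this.2.pos
    have he : 0 < ∏ p ∈ t, p := Finset.prod_pos htp
    have hnn : (0 : ℝ) ≤ ∏ p ∈ t, ((3 : ℝ) ^ m / (p : ℝ)) :=
      Finset.prod_nonneg fun p _ => by positivity
    rw [← Finset.sum_filter, Finset.sum_const, nsmul_eq_mul]
    have h3 : ((((Ioc h (h + G)).filter (fun x => a * x ≠ b)).filter
        (fun x => (∏ p ∈ t, p) ∣ Nat.dist (a * x) b)).card : ℝ) ≤
        G / ((∏ p ∈ t, p : ℕ) : ℝ) + 1 := by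
      refine le_trans ?_ (count_le a b _ h G he hab)
      have : ((Ioc h (h + G)).filter (fun x => a * x ≠ b)).filter
          (fun x => (∏ p ∈ t, p) ∣ Nat.dist (a * x) b) ⊆
          (Ioc h (h + G)).filter (fun x => (∏ p ∈ t, p) ∣ Nat.dist (a * x) b) := by
        intro x hx
        rw [Finset.mem_filter, Finset.mem_filter] at hx
        exact Finset.mem_filter.2 ⟨hx.1.1, hx.2⟩
      exact_mod_cast Finset.card_le_card this
    refine (mul_le_mul_of_nonneg_right h3 hnn).trans (le_of_eq ?_)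
    rw [add_mul, one_mul]
    congr 1
    rw [div_mul_eq_mul_div, mul_div_assoc]
    congr 1
    push_cast
    rw [← Finset.prod_div_distrib]
    refine Finset.prod_congr rfl fun p hp => ?_
    have : (p : ℝ) ≠ 0 := by exact_mod_cast (htp p hp).ne'
    field_simp
  refine (Finset.sum_le_sum h2).trans ?_
  rw [Finset.sum_add_distrib, ← Finset.mul_sum, ← Finset.prod_one_add, ← Finset.prod_one_add]

lemma prod_le_exp (w : ℕ) (c : ℝ) (hc : 0 ≤ c) (g : ℕ → ℝ) (hg : ∀ p, 0 ≤ g p) :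
    ∏ p ∈ Pw w, (1 + c * g p) ≤ Real.exp (c * ∑ p ∈ Pw w, g p) := by
  rw [Finset.mul_sum, Real.exp_sum]
  refine Finset.prod_le_prod (fun p _ => ?_) fun p _ => ?_
  · have := mul_nonneg hc (hg p)
    linarith
  · have := Real.add_one_le_exp (c * g p)
    linarith

end FAPAux

open FAPAux

theorem F_AP (m : ℕ) (κ : ℝ) (hκ : 0 < κ) : ∃ (C : ℝ) (X₀ : ℕ), 0 < C ∧ ∀ X G h a b : ℕ, X₀ ≤ X →
    (Real.log X) ^ κ ≤ G → 1 ≤ a → a.Coprime b → b ≤ X ^ 4 → a * (h + G) ≤ X ^ 4 →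
    ∑ x ∈ (Ioc h (h + G)).filter (fun x => a * x ≠ b), F (Nat.dist (a * x) b) ^ m ≤ C * G := by
  obtain ⟨C₁, hC₁, hM⟩ := Pool.MRZ.PVb.mertens_nat
  have hsum : Summable (fun n : ℕ => (1 : ℝ) / (n : ℝ) ^ 2) := by
    exact Real.summable_one_div_nat_pow.2 (by norm_num)
  set Z : ℝ := ∑' n : ℕ, (1 : ℝ) / (n : ℝ) ^ 2 with hZ
  set c : ℝ := (3 : ℝ) ^ m with hc
  have hc0 : 0 < c := by positivity
  have hlo := (isLittleO_log_rpow_rpow_atTop c hκ).bound (show (0 : ℝ) < 1 by norm_num)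
  obtain ⟨Y₀, hY₀⟩ := Filter.eventually_atTop.1 hlo
  refine ⟨Real.exp (12 * m) * (Real.exp (c * Z) + Real.exp (c * C₁) * 3 ^ κ),
    max 3 ⌈Real.exp (max Y₀ 1)⌉₊, by positivity, ?_⟩
  intro X G h a b hX hG ha hab hb haG
  have hX3 : 3 ≤ X := (le_max_left _ _).trans hX
  have hXexp : Real.exp (max Y₀ 1) ≤ X := by
    have h1 := (le_max_right 3 ⌈Real.exp (max Y₀ 1)⌉₊).trans hX
    have h2 : ((⌈Real.exp (max Y₀ 1)⌉₊ : ℕ) : ℝ) ≤ X := by exact_mod_cast h1
    exact (Nat.le_ceil _).trans h2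
  have hX0 : (0 : ℝ) < X := (Real.exp_pos _).trans_le hXexp
  have hlogX : max Y₀ 1 ≤ Real.log X := by
    rw [Real.le_log_iff_exp_le hX0]
    exact hXexp
  have hlog1 : 1 ≤ Real.log X := (le_max_right _ _).trans hlogX
  have hlogY : Y₀ ≤ Real.log X := (le_max_left _ _).trans hlogX
  set w : ℕ := ⌈Real.log X⌉₊ + 1 with hwdef
  have hw1 : Real.log X ≤ w := by
    have := Nat.le_ceil (Real.log X)
    rw [hwdef]
    push_cast
    linarith
  have hceil1 : 1 ≤ ⌈Real.log X⌉₊ := Nat.one_le_ceil_iff.2 (by linarith)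
  have hw2 : 2 ≤ w := by omega
  refine (sum_le m X w h G a b (by omega) (by omega) hw1 hab hb haG).trans ?_
  rw [mul_assoc]
  refine mul_le_mul_of_nonneg_left ?_ (Real.exp_nonneg _)
  rw [add_mul]
  have hA : ∏ p ∈ Pw w, (1 + (3 : ℝ) ^ m / (p : ℝ) ^ 2) ≤ Real.exp (c * Z) := by
    have e1 := prod_le_exp w c hc0.le (fun p => (1 : ℝ) / (p : ℝ) ^ 2) (fun p => by positivity)
    have e2 : ∏ p ∈ Pw w, (1 + (3 : ℝ) ^ m / (p : ℝ) ^ 2) =
        ∏ p ∈ Pw w, (1 + c * ((1 : ℝ) / (p : ℝ) ^ 2)) := by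
      refine Finset.prod_congr rfl fun p _ => ?_
      rw [hc, mul_one_div]
    rw [e2]
    refine e1.trans (Real.exp_le_exp.2 (mul_le_mul_of_nonneg_left ?_ hc0.le))
    exact hsum.sum_le_tsum _ (fun n _ => by positivity)
  have hB : ∏ p ∈ Pw w, (1 + (3 : ℝ) ^ m / (p : ℝ)) ≤ Real.exp (c * C₁) * 3 ^ κ * G := by
    have e1 := prod_le_exp w c hc0.le (fun p => (1 : ℝ) / (p : ℝ)) (fun p => by positivity)
    have e2 : ∏ p ∈ Pw w, (1 + (3 : ℝ) ^ m / (p : ℝ)) =
        ∏ p ∈ Pw w, (1 + c * ((1 : ℝ) / (p : ℝ))) := by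
      refine Finset.prod_congr rfl fun p _ => ?_
      rw [hc, mul_one_div]
    rw [e2]
    refine e1.trans ?_
    have e3 : ∑ p ∈ Pw w, (1 : ℝ) / (p : ℝ) ≤ Real.log (Real.log w) + C₁ := by
      have := (abs_le.1 (hM w hw2)).2
      have e4 : Pool.MRZ.PVb.S w = ∑ p ∈ Pw w, (1 : ℝ) / (p : ℝ) := rfl
      rw [e4] at this
      linarith
    have hw0' : (1 : ℝ) < w := by exact_mod_cast (by omega : 1 < w)
    have hlw : 0 < Real.log w := Real.log_pos hw0'
    have e5 : Real.exp (c * ∑ p ∈ Pw w, (1 : ℝ) / (p : ℝ)) ≤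
        Real.exp (c * C₁) * (Real.log w) ^ c := by
      rw [Real.rpow_def_of_pos hlw, ← Real.exp_add]
      apply Real.exp_le_exp.2
      nlinarith [mul_le_mul_of_nonneg_left e3 hc0.le]
    refine e5.trans ?_
    rw [mul_assoc]
    refine mul_le_mul_of_nonneg_left ?_ (Real.exp_nonneg _)
    -- `w ≤ 4 log X`
    have hwle : (w : ℝ) ≤ Real.log X + 2 := by
      have := Nat.ceil_lt_add_one (show (0 : ℝ) ≤ Real.log X by linarith)
      rw [hwdef]
      push_cast
      linarith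
    have hwY : Y₀ ≤ (w : ℝ) := hlogY.trans hw1
    have e6 := hY₀ w hwY
    rw [one_mul, Real.norm_of_nonneg (by positivity), Real.norm_of_nonneg (by positivity)] at e6
    refine e6.trans ?_
    have e7 : (w : ℝ) ^ κ ≤ (3 * Real.log X) ^ κ :=
      Real.rpow_le_rpow (by positivity) (by linarith) hκ.le
    refine e7.trans ?_
    rw [Real.mul_rpow (by norm_num) (by linarith)]
    exact mul_le_mul_of_nonneg_left hG (by positivity)
  calc (G : ℝ) * ∏ p ∈ Pw w, (1 + (3 : ℝ) ^ m / (p : ℝ) ^ 2) +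
        ∏ p ∈ Pw w, (1 + (3 : ℝ) ^ m / (p : ℝ))
      ≤ G * Real.exp (c * Z) + Real.exp (c * C₁) * 3 ^ κ * G :=
        add_le_add (mul_le_mul_of_nonneg_left hA (by positivity)) hB
    _ = _ := by ring

end Pool.BMG
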