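import Mathlib
import Pool.Agent.BMG.FAP

/-!
# BMG/Sing: the singular factors are bounded on average over the `r`-subsets of `ND 𝒟 h G`

For `r, m ≥ 0`, `κ > 0` there are `C, X₀`: for `X ≥ X₀`, `G ≥ (log X)^κ`, `𝒟` a finite set of primes `≤ X`,
`h + G ≤ X²`: `∑_{T ⊆ ND 𝒟 h G, #T = r} F(detD T)^m ≤ C (#𝒟 G)^r`.

Proof. `det_ne`: for different `(q,c), (q',c')` in `ND` we have `q c' ≠ q' c`: if `q = q'` then `c ≠ c'`; if `q ≠ q'` and
`q c' = q' c` then the prime `q` divides `q' c`, so it divides `c`, contradiction. Hence `detD T > 0`.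
`F(detD T) ≤ F(r!) ∏_{θ∈T} F(q_θ) ∏_{z∈T.offDiag} F(dist_z) ≤ F(r!) 2^r ∏_z F(dist_z)` (`Pool.SWP.F_mul_le`, `F_prime`; or
`TupMomAux.F_prod_le` of `Pool/Agent/MRZ/TupMom.lean`). If `r ≤ 1` the product over `offDiag` is empty and the number of
`T` is at most `(#𝒟 G)^r`. If `r ≥ 2`: with `R = r(r-1) = #T.offDiag ≥ 1` and `x_z ≥ 1`: `∏_z x_z^m ≤ ∑_z x_z^{mR}`
(`∏ x_z ≤ (max x_z)^R`). So the sum is at most
`C_r ∑_{z ∈ ND.offDiag} F(dist_z)^{mR} #{T : z ⊆ T} ≤ C_r (#𝒟 G)^{r-2} ∑_{z∈ND.offDiag} F(dist_z)^{mR}` (the number of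
`r`-subsets containing two given elements is at most the number of `(r-2)`-subsets `≤ (#𝒟G)^{r-2}`).
For fixed `θ = (q,c)` and `q' ∈ 𝒟`, sum over `c'`: if `q' ≠ q`: `dist = |q c' - q' c|`, `a = q`, `b = q' c`, coprime (as
`q ∤ c`): `F_AP` gives `≤ C G`. If `q' = q`: `dist = q |c' - c|`, `F ≤ 2 F(|c'-c|)`, `F_AP` with `a = 1`, `b = c`.
So `∑_{z∈ND.offDiag} ≤ #ND · #𝒟 · C G ≤ C (#𝒟 G)²`.
-/

set_option autoImplicit false

namespace Pool.BMG

open Finset Pool.MRZ Pool.SWP Pool.Agent.Lib.PrimePairs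

theorem det_ne {𝒟 : Finset ℕ} {h G : ℕ} (h𝒟 : ∀ q ∈ 𝒟, q.Prime) {θ θ' : ℕ × ℕ} (hθ : θ ∈ ND 𝒟 h G)
    (hθ' : θ' ∈ ND 𝒟 h G) (hne : θ ≠ θ') : θ.1 * θ'.2 ≠ θ'.1 * θ.2 := by
  intro he
  rw [mem_ND] at hθ hθ'
  have hp := h𝒟 _ hθ.1
  have hp' := h𝒟 _ hθ'.1
  by_cases hq : θ.1 = θ'.1
  · rw [hq] at he
    have h1 := Nat.eq_of_mul_eq_mul_left hp'.pos he
    exact hne (Prod.ext hq h1.symm)
  · have h1 : θ.1 ∣ θ'.1 * θ.2 := ⟨_, he.symm⟩
    rcases hp.dvd_mul.1 h1 with h2 | h2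
    · exact hq ((Nat.prime_dvd_prime_iff_eq hp hp').1 h2)
    · exact hθ.2.2 h2

private theorem si_prod_le {ι : Type*} (I : Finset ι) (x : ι → ℝ) (hx : ∀ i ∈ I, 0 ≤ x i) :
    ∏ i ∈ I, x i ≤ 1 + ∑ i ∈ I, x i ^ I.card := by
  rcases I.eq_empty_or_nonempty with h | h
  · subst h
    simp
  · obtain ⟨j, hj, hmax⟩ := I.exists_max_image x h
    have h1 : ∏ i ∈ I, x i ≤ x j ^ I.card := by
      calc ∏ i ∈ I, x i ≤ ∏ i ∈ I, x j := Finset.prod_le_prod hx hmax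
        _ = x j ^ I.card := by rw [Finset.prod_const]
    have h2 := Finset.single_le_sum (f := fun i => x i ^ I.card)
      (fun i hi => pow_nonneg (hx i hi) _) hj
    linarith

private theorem si_F_prod {ι : Type*} (I : Finset ι) (f : ι → ℕ) (hf : ∀ i ∈ I, 0 < f i) :
    F (∏ i ∈ I, f i) ≤ ∏ i ∈ I, F (f i) := by
  classical
  induction I using Finset.induction_on with
  | empty =>
    simp [F]
  | insert a I ha ih =>
    rw [Finset.prod_insert ha, Finset.prod_insert ha]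
    have h1 : ∀ i ∈ I, 0 < f i := fun i hi => hf i (Finset.mem_insert_of_mem hi)
    refine (Pool.SWP.F_mul_le _ _ (hf a (Finset.mem_insert_self a I)) (Finset.prod_pos h1)).trans ?_
    exact mul_le_mul_of_nonneg_left (ih h1) (F_nonneg _)

private def dz (z : (ℕ × ℕ) × (ℕ × ℕ)) : ℕ := Nat.dist (z.1.1 * z.2.2) (z.2.1 * z.1.2)

private theorem si_dz_pos {𝒟 : Finset ℕ} {h G : ℕ} (h𝒟 : ∀ q ∈ 𝒟, q.Prime)
    {z : (ℕ × ℕ) × (ℕ × ℕ)} (hz : z ∈ (ND 𝒟 h G).offDiag) : 0 < dz z := by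
  rw [Finset.mem_offDiag] at hz
  exact Nat.dist_pos_of_ne (det_ne h𝒟 hz.1 hz.2.1 hz.2.2)

/-- the pointwise bound -/
private theorem si_F_det {𝒟 : Finset ℕ} {h G r : ℕ} (m : ℕ) (h𝒟 : ∀ q ∈ 𝒟, q.Prime)
    {T : Finset (ℕ × ℕ)} (hT : T ∈ (ND 𝒟 h G).powersetCard r) :
    F (detD T) ^ m ≤ (F r.factorial * 2 ^ r) ^ m *
      (1 + ∑ z ∈ T.offDiag, F (dz z) ^ (m * (r * r - r))) := by
  rw [Finset.mem_powersetCard] at hT
  obtain ⟨hT, hr⟩ := hT
  have hzpos : ∀ z ∈ T.offDiag, 0 < dz z := fun z hz =>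
    si_dz_pos h𝒟 (Finset.offDiag_mono hT hz)
  have hqpos : ∀ θ ∈ T, 0 < θ.1 := fun θ hθ => (h𝒟 _ (mem_ND.1 (hT hθ)).1).pos
  have h1 : F (detD T) ≤ F r.factorial * 2 ^ r * ∏ z ∈ T.offDiag, F (dz z) := by
    unfold detD
    rw [hr]
    refine (Pool.SWP.F_mul_le _ _ (Nat.mul_pos (Nat.factorial_pos r) (Finset.prod_pos hqpos))
      (Finset.prod_pos hzpos)).trans ?_
    refine mul_le_mul ?_ (si_F_prod _ _ hzpos) (F_nonneg _)
      (mul_nonneg (F_nonneg _) (by positivity))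
    refine (Pool.SWP.F_mul_le _ _ (Nat.factorial_pos r) (Finset.prod_pos hqpos)).trans ?_
    refine mul_le_mul_of_nonneg_left ?_ (F_nonneg _)
    refine (si_F_prod _ _ hqpos).trans ?_
    calc ∏ θ ∈ T, F θ.1 ≤ ∏ _θ ∈ T, (2 : ℝ) := Finset.prod_le_prod (fun _ _ => F_nonneg _)
          (fun θ hθ => Pool.SWP.F_prime _ (h𝒟 _ (mem_ND.1 (hT hθ)).1))
      _ = 2 ^ r := by rw [Finset.prod_const, hr]
  have h2 : F (detD T) ^ m ≤ (F r.factorial * 2 ^ r) ^ m * ∏ z ∈ T.offDiag, F (dz z) ^ m := by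
    refine (pow_le_pow_left₀ (F_nonneg _) h1 m).trans (le_of_eq ?_)
    rw [mul_pow, Finset.prod_pow]
  refine h2.trans (mul_le_mul_of_nonneg_left ?_
    (pow_nonneg (mul_nonneg (F_nonneg _) (by positivity)) _))
  refine (si_prod_le T.offDiag (fun z => F (dz z) ^ m) fun z _ => pow_nonneg (F_nonneg _) _).trans
    (le_of_eq ?_)
  rw [Finset.offDiag_card, hr]
  simp only [← pow_mul]

/-- the number of `r`-subsets that contain two given elements -/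
private theorem si_count (N : Finset (ℕ × ℕ)) (r : ℕ) (hr : 2 ≤ r) (a b : ℕ × ℕ) (hab : a ≠ b) :
    ((N.powersetCard r).filter (fun T => a ∈ T ∧ b ∈ T)).card ≤ N.card ^ (r - 2) := by
  refine le_trans ?_ (Nat.choose_le_pow N.card (r - 2))
  rw [← Finset.card_powersetCard]
  refine Finset.card_le_card_of_injOn (fun T => (T.erase a).erase b) ?_ ?_
  · intro T hT
    rw [Finset.mem_coe, Finset.mem_filter, Finset.mem_powersetCard] at hT
    rw [Finset.mem_coe, Finset.mem_powersetCard]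
    refine ⟨(Finset.erase_subset _ _).trans ((Finset.erase_subset _ _).trans hT.1.1), ?_⟩
    rw [Finset.card_erase_of_mem (Finset.mem_erase.2 ⟨hab.symm, hT.2.2⟩),
      Finset.card_erase_of_mem hT.2.1, hT.1.2]
    omega
  · intro T hT T' hT' he
    rw [Finset.mem_coe, Finset.mem_filter] at hT hT'
    simp only at he
    have h1 : insert b ((T.erase a).erase b) = T.erase a :=
      Finset.insert_erase (Finset.mem_erase.2 ⟨hab.symm, hT.2.2⟩)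
    have h2 : insert b ((T'.erase a).erase b) = T'.erase a :=
      Finset.insert_erase (Finset.mem_erase.2 ⟨hab.symm, hT'.2.2⟩)
    rw [← Finset.insert_erase hT.2.1, ← Finset.insert_erase hT'.2.1, ← h1, ← h2, he]

/-- the sum over the pairs -/
private theorem si_swap (N : Finset (ℕ × ℕ)) (r : ℕ) (hr : 2 ≤ r) (g : (ℕ × ℕ) × (ℕ × ℕ) → ℝ)
    (hg : ∀ z, 0 ≤ g z) :
    ∑ T ∈ N.powersetCard r, ∑ z ∈ T.offDiag, g z ≤
      (N.card : ℝ) ^ (r - 2) * ∑ z ∈ N.offDiag, g z := by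
  have h1 : ∀ T ∈ N.powersetCard r, ∑ z ∈ T.offDiag, g z =
      ∑ z ∈ N.offDiag, if z.1 ∈ T ∧ z.2 ∈ T then g z else 0 := by
    intro T hT
    rw [Finset.mem_powersetCard] at hT
    rw [← Finset.sum_filter]
    refine Finset.sum_congr ?_ fun _ _ => rfl
    ext z
    simp only [Finset.mem_offDiag, Finset.mem_filter]
    constructor
    · rintro ⟨ha, hb, hc⟩
      exact ⟨⟨hT.1 ha, hT.1 hb, hc⟩, ha, hb⟩
    · rintro ⟨⟨_, _, hc⟩, ha, hb⟩
      exact ⟨ha, hb, hc⟩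
  rw [Finset.sum_congr rfl h1, Finset.sum_comm, Finset.mul_sum]
  refine Finset.sum_le_sum fun z hz => ?_
  rw [← Finset.sum_filter, Finset.sum_const, nsmul_eq_mul]
  refine mul_le_mul_of_nonneg_right ?_ (hg z)
  exact_mod_cast si_count N r hr z.1 z.2 (Finset.mem_offDiag.1 hz).2.2

/-- the sum over the second element -/
private theorem si_inner (M : ℕ) (C : ℝ) (X₀ : ℕ) (κ : ℝ) (hX₀ : 1 ≤ X₀)
    (hAP : ∀ X G h a b : ℕ, X₀ ≤ X →
      (Real.log X) ^ κ ≤ G → 1 ≤ a → a.Coprime b → b ≤ X ^ 4 → a * (h + G) ≤ X ^ 4 →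
      ∑ x ∈ (Ioc h (h + G)).filter (fun x => a * x ≠ b), F (Nat.dist (a * x) b) ^ M ≤ C * G)
    (X G h : ℕ) (𝒟 : Finset ℕ) (hX : X₀ ≤ X) (hG : (Real.log X) ^ κ ≤ G)
    (h𝒟 : ∀ q ∈ 𝒟, q.Prime ∧ q ≤ X) (hhG : h + G ≤ X ^ 2) (θ : ℕ × ℕ) (hθ : θ ∈ ND 𝒟 h G) :
    ∑ θ' ∈ (ND 𝒟 h G).filter (fun θ' => θ ≠ θ'), F (dz (θ, θ')) ^ M ≤
      (𝒟.card : ℝ) * (2 ^ M * (C * G)) := by
  have hprime : ∀ q ∈ 𝒟, q.Prime := fun q hq => (h𝒟 q hq).1
  have hX1 : 1 ≤ X := hX₀.trans hX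
  obtain ⟨hq, hc, hnd⟩ := mem_ND.1 hθ
  have hqp := (h𝒟 _ hq).1
  have hqX := (h𝒟 _ hq).2
  have hCG : 0 ≤ C * G := by
    have := hAP X G h 1 0 hX hG le_rfl (by simp) (by positivity) (by
      rw [one_mul]
      exact hhG.trans (Nat.pow_le_pow_right hX1 (by norm_num)))
    exact (Finset.sum_nonneg fun x _ => pow_nonneg (F_nonneg _) _).trans this
  have hsub : (ND 𝒟 h G).filter (fun θ' => θ ≠ θ') ⊆
      𝒟.biUnion (fun q' => ((ND 𝒟 h G).filter (fun θ' => θ ≠ θ')).filter (fun θ' => θ'.1 = q')) := by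
    intro θ' hθ'
    rw [Finset.mem_biUnion]
    exact ⟨θ'.1, (mem_ND.1 (Finset.mem_filter.1 hθ').1).1, Finset.mem_filter.2 ⟨hθ', rfl⟩⟩
  have hmaps : ∀ θ' ∈ (ND 𝒟 h G).filter (fun θ' => θ ≠ θ'), θ'.1 ∈ 𝒟 := fun θ' hθ' =>
    (mem_ND.1 (Finset.mem_filter.1 hθ').1).1
  rw [← Finset.sum_fiberwise_of_maps_to hmaps, ← nsmul_eq_mul, ← Finset.sum_const]
  refine Finset.sum_le_sum fun q' hq' => ?_
  have hqp' := (h𝒟 _ hq').1
  have hqX' := (h𝒟 _ hq').2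
  -- pass to the second coordinate
  have hinj : Set.InjOn (fun θ' : ℕ × ℕ => θ'.2)
      (((ND 𝒟 h G).filter (fun θ' => θ ≠ θ')).filter (fun θ' => θ'.1 = q') : Set (ℕ × ℕ)) := by
    intro x hx y hy he
    rw [Finset.mem_coe, Finset.mem_filter] at hx hy
    exact Prod.ext (hx.2.trans hy.2.symm) he
  have h1 : ∑ θ' ∈ ((ND 𝒟 h G).filter (fun θ' => θ ≠ θ')).filter (fun θ' => θ'.1 = q'),
      F (dz (θ, θ')) ^ M = ∑ x ∈ ((((ND 𝒟 h G).filter (fun θ' => θ ≠ θ')).filter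
        (fun θ' => θ'.1 = q')).image (fun θ' : ℕ × ℕ => θ'.2)),
        F (Nat.dist (θ.1 * x) (q' * θ.2)) ^ M := by
    rw [Finset.sum_image hinj]
    refine Finset.sum_congr rfl fun θ' hθ' => ?_
    rw [← (Finset.mem_filter.1 hθ').2]
    rfl
  rw [h1]
  by_cases hqq : q' = θ.1
  · -- the same prime
    subst hqq
    have h2 : ∀ x ∈ ((((ND 𝒟 h G).filter (fun θ' => θ ≠ θ')).filter
        (fun θ' => θ'.1 = θ.1)).image (fun θ' : ℕ × ℕ => θ'.2)),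
        F (Nat.dist (θ.1 * x) (θ.1 * θ.2)) ^ M ≤ 2 ^ M * F (Nat.dist (1 * x) θ.2) ^ M := by
      intro x hx
      obtain ⟨θ', hθ', rfl⟩ := Finset.mem_image.1 hx
      rw [Finset.mem_filter, Finset.mem_filter] at hθ'
      have hne : θ'.2 ≠ θ.2 := fun h3 => hθ'.1.2 (Prod.ext hθ'.2.symm h3.symm)
      rw [Nat.dist_mul_left, one_mul, ← mul_pow]
      refine pow_le_pow_left₀ (F_nonneg _) ?_ M
      refine (Pool.SWP.F_mul_le _ _ hqp.pos (Nat.dist_pos_of_ne hne)).trans ?_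
      exact mul_le_mul_of_nonneg_right (Pool.SWP.F_prime _ hqp) (F_nonneg _)
    refine (Finset.sum_le_sum h2).trans ?_
    rw [← Finset.mul_sum]
    refine mul_le_mul_of_nonneg_left ?_ (by positivity)
    refine le_trans ?_ (hAP X G h 1 θ.2 hX hG le_rfl (by simp) (by
      exact hc.2.trans (hhG.trans (Nat.pow_le_pow_right hX1 (by norm_num)))) (by
      rw [one_mul]
      exact hhG.trans (Nat.pow_le_pow_right hX1 (by norm_num))))
    refine Finset.sum_le_sum_of_subset_of_nonneg ?_ fun _ _ _ => pow_nonneg (F_nonneg _) _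
    intro x hx
    obtain ⟨θ', hθ', rfl⟩ := Finset.mem_image.1 hx
    rw [Finset.mem_filter, Finset.mem_filter] at hθ'
    have hne : θ'.2 ≠ θ.2 := fun h3 => hθ'.1.2 (Prod.ext hθ'.2.symm h3.symm)
    have h4 := (mem_ND.1 hθ'.1.1).2.1
    rw [Finset.mem_filter, Finset.mem_Ioc, one_mul]
    exact ⟨h4, hne⟩
  · -- different primes
    have hcop : θ.1.Coprime (q' * θ.2) := by
      refine Nat.Coprime.mul_right ?_ ?_
      · exact (Nat.coprime_primes hqp hqp').2 (fun h3 => hqq h3.symm)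
      · exact (Nat.Prime.coprime_iff_not_dvd hqp).2 hnd
    have hb : q' * θ.2 ≤ X ^ 4 := by
      calc q' * θ.2 ≤ X * X ^ 2 := Nat.mul_le_mul hqX' (hc.2.trans hhG)
        _ = X ^ 3 := by ring
        _ ≤ X ^ 4 := Nat.pow_le_pow_right hX1 (by norm_num)
    have ha : θ.1 * (h + G) ≤ X ^ 4 := by
      calc θ.1 * (h + G) ≤ X * X ^ 2 := Nat.mul_le_mul hqX hhG
        _ = X ^ 3 := by ring
        _ ≤ X ^ 4 := Nat.pow_le_pow_right hX1 (by norm_num)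
    have h5 := hAP X G h θ.1 (q' * θ.2) hX hG hqp.one_lt.le hcop hb ha
    have h6 : (1 : ℝ) ≤ 2 ^ M := one_le_pow₀ (by norm_num)
    refine le_trans ?_ (h5.trans (le_mul_of_one_le_left hCG h6))
    refine Finset.sum_le_sum_of_subset_of_nonneg ?_ fun _ _ _ => pow_nonneg (F_nonneg _) _
    intro x hx
    obtain ⟨θ', hθ', rfl⟩ := Finset.mem_image.1 hx
    rw [Finset.mem_filter, Finset.mem_filter] at hθ'
    have h4 := (mem_ND.1 hθ'.1.1).2.1
    rw [Finset.mem_filter, Finset.mem_Ioc]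
    refine ⟨h4, ?_⟩
    have h7 := det_ne hprime hθ hθ'.1.1 hθ'.1.2
    rw [hθ'.2] at h7
    exact h7

theorem sing_avg (r m : ℕ) (κ : ℝ) (hκ : 0 < κ) : ∃ (C : ℝ) (X₀ : ℕ), 0 < C ∧
    ∀ (X G h : ℕ) (𝒟 : Finset ℕ), X₀ ≤ X → (Real.log X) ^ κ ≤ G → (∀ q ∈ 𝒟, q.Prime ∧ q ≤ X) →
    h + G ≤ X ^ 2 →
    ∑ T ∈ (ND 𝒟 h G).powersetCard r, F (detD T) ^ m ≤ C * ((𝒟.card : ℝ) * G) ^ r := by
  obtain ⟨C, X₀, hC, hAP⟩ := F_AP (m * (r * r - r)) κ hκ
  set M := m * (r * r - r) with hM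
  have hA : 1 ≤ (F r.factorial * 2 ^ r) ^ m := by
    refine one_le_pow₀ ?_
    exact one_le_mul_of_one_le_of_one_le (Pool.SWP.F_ge_one _ (Nat.factorial_pos r))
      (one_le_pow₀ (by norm_num))
  refine ⟨(F r.factorial * 2 ^ r) ^ m * (1 + 2 ^ M * C), max X₀ 1, by positivity, ?_⟩
  intro X G h 𝒟 hX hG h𝒟 hhG
  have hprime : ∀ q ∈ 𝒟, q.Prime := fun q hq => (h𝒟 q hq).1
  have hAP' : ∀ X G h a b : ℕ, max X₀ 1 ≤ X →
      (Real.log X) ^ κ ≤ G → 1 ≤ a → a.Coprime b → b ≤ X ^ 4 → a * (h + G) ≤ X ^ 4 →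
      ∑ x ∈ (Ioc h (h + G)).filter (fun x => a * x ≠ b), F (Nat.dist (a * x) b) ^ M ≤ C * G :=
    fun X G h a b hX => hAP X G h a b ((le_max_left _ _).trans hX)
  set T₀ : ℝ := (𝒟.card : ℝ) * G with hT₀
  have hT₀0 : 0 ≤ T₀ := by positivity
  have hcard : ((ND 𝒟 h G).card : ℝ) ≤ T₀ := by
    rw [hT₀]
    exact_mod_cast card_ND_le 𝒟 h G
  have h1 : ∑ T ∈ (ND 𝒟 h G).powersetCard r, F (detD T) ^ m ≤
      (F r.factorial * 2 ^ r) ^ m * (∑ T ∈ (ND 𝒟 h G).powersetCard r,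
        (1 + ∑ z ∈ T.offDiag, F (dz z) ^ M)) := by
    rw [Finset.mul_sum]
    exact Finset.sum_le_sum fun T hT => si_F_det m hprime hT
  refine h1.trans ?_
  rw [mul_assoc]
  refine mul_le_mul_of_nonneg_left ?_ (by positivity)
  rw [Finset.sum_add_distrib, add_mul, one_mul]
  refine add_le_add ?_ ?_
  · rw [Finset.sum_const, nsmul_eq_mul, mul_one, Finset.card_powersetCard]
    have h2 : (((ND 𝒟 h G).card.choose r : ℕ) : ℝ) ≤ ((ND 𝒟 h G).card : ℝ) ^ r := by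
      exact_mod_cast Nat.choose_le_pow _ _
    exact h2.trans (pow_le_pow_left₀ (by positivity) hcard r)
  · rcases Nat.lt_or_ge r 2 with hr | hr
    · have h3 : ∑ T ∈ (ND 𝒟 h G).powersetCard r, ∑ z ∈ T.offDiag, F (dz z) ^ M = 0 := by
        refine Finset.sum_eq_zero fun T hT => ?_
        rw [Finset.mem_powersetCard] at hT
        have h4 : T.offDiag = ∅ := by
          rw [← Finset.card_eq_zero, Finset.offDiag_card, hT.2]
          interval_cases r <;> rfl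
        rw [h4, Finset.sum_empty]
      rw [h3]
      positivity
    · refine (si_swap _ r hr _ fun z => pow_nonneg (F_nonneg _) _).trans ?_
      have h5 : ∑ z ∈ (ND 𝒟 h G).offDiag, F (dz z) ^ M ≤ T₀ * (T₀ * (2 ^ M * C)) := by
        have h6 : ∑ z ∈ (ND 𝒟 h G).offDiag, F (dz z) ^ M =
            ∑ θ ∈ ND 𝒟 h G, ∑ θ' ∈ (ND 𝒟 h G).filter (fun θ' => θ ≠ θ'), F (dz (θ, θ')) ^ M := by
          have e0 : (ND 𝒟 h G).offDiag = ((ND 𝒟 h G) ×ˢ (ND 𝒟 h G)).filter (fun z => z.1 ≠ z.2) := by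
            ext z
            simp [Finset.mem_offDiag, and_assoc]
          rw [e0, Finset.sum_filter, Finset.sum_product]
          refine Finset.sum_congr rfl fun θ _ => ?_
          rw [Finset.sum_filter]
        rw [h6]
        calc ∑ θ ∈ ND 𝒟 h G, ∑ θ' ∈ (ND 𝒟 h G).filter (fun θ' => θ ≠ θ'), F (dz (θ, θ')) ^ M
            ≤ ∑ _θ ∈ ND 𝒟 h G, (𝒟.card : ℝ) * (2 ^ M * (C * G)) :=
              Finset.sum_le_sum fun θ hθ => si_inner M C (max X₀ 1) κ (le_max_right _ _) hAP'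
                X G h 𝒟 hX hG h𝒟 hhG θ hθ
          _ = ((ND 𝒟 h G).card : ℝ) * (T₀ * (2 ^ M * C)) := by
              rw [Finset.sum_const, nsmul_eq_mul, hT₀]
              ring
          _ ≤ T₀ * (T₀ * (2 ^ M * C)) := mul_le_mul_of_nonneg_right hcard (by positivity)
      calc ((ND 𝒟 h G).card : ℝ) ^ (r - 2) * ∑ z ∈ (ND 𝒟 h G).offDiag, F (dz z) ^ M
          ≤ T₀ ^ (r - 2) * (T₀ * (T₀ * (2 ^ M * C))) := by
            refine mul_le_mul (pow_le_pow_left₀ (by positivity) hcard _) h5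
              (Finset.sum_nonneg fun _ _ => pow_nonneg (F_nonneg _) _) (by positivity)
        _ = 2 ^ M * C * T₀ ^ r := by
            obtain ⟨s, rfl⟩ : ∃ s, r = s + 2 := ⟨r - 2, by omega⟩
            rw [Nat.add_sub_cancel]
            ring

end Pool.BMG
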