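import Mathlib
import Pool.Agent.BMG.Esym
import Pool.Agent.BMG.KLog
import Pool.Agent.BMG.Sing

/-!
# BMG/Mom: the `k`-th moment of `∑_{θ∈B} ww θ Y`

For `k ≥ 1`, `κ > 0` there are `C, X₀`: for `X ≥ X₀`, `√X ≤ N ≤ X²`, `G ≥ (log X)^κ`, `h + G ≤ X²`, `𝒟 ≠ ∅` a finite set
of primes `q` with `q⁴ ≤ X`, and all `B ⊆ ND 𝒟 h G`, with `T = #𝒟 G`:
`∑_{Y≤N} (∑_{θ∈B} ww θ Y)^k ≤ C N T^k (√(#B/T) + log X/T)^k`.

Proof. For `Y ≤ N`, `θ ∈ B`: `ww θ Y ≤ log(q N) ≤ 3 log X =: L`. By `pow_le_esym` with `a_θ = ww θ Y/L ∈ [0,1]`: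
`(∑ ww)^k ≤ C_k ∑_{r=1}^k L^{k-r} ∑_{S⊆B, #S=r} ∏_{θ∈S} ww θ Y`. Sum over `Y ≤ N` by `klog r` (`N ≥ √X ≥ N₀`, `q ≤ N`,
`det_ne`): `∑_Y ∏_S ww ≤ C F(detD S)^r N`. By Cauchy–Schwarz and `sing_avg r (2r)`:
`∑_{S⊆B,#S=r} F(detD S)^r ≤ (#{S ⊆ B : #S = r})^{1/2} (∑_{S⊆ND, #S=r} F^{2r})^{1/2} ≤ (#B)^{r/2} (C T^r)^{1/2} =
√C T^r (√(#B/T))^r`. So the moment is at most `C' N ∑_{r=1}^k L^{k-r} T^r β^r`, `β = √(#B/T)`,
`= C' N T^k ∑_r (L/T)^{k-r} β^r ≤ C' k 3^k N T^k (β + log X/T)^k`.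
(`#{S ⊆ B : #S = r} = choose (#B) r ≤ (#B)^r`, `Nat.choose_le_pow`.)
-/

set_option autoImplicit false

namespace Pool.BMG

open Finset Pool.MRZ Pool.SWP Pool.Agent.Lib.PrimePairs

private lemma mom_ww_le {X N q c Y : ℕ} (hN : N ≤ X ^ 2) (hq : q ≤ X) (hY : Y ≤ N) :
    ww (q, c) Y ≤ 3 * Real.log X := by
  have hlog : 0 ≤ Real.log X := Real.log_natCast_nonneg X
  unfold ww thp
  split_ifs with h
  · have h1 : q * Y - c ≤ X ^ 3 := by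
      calc q * Y - c ≤ q * Y := Nat.sub_le _ _
        _ ≤ X * X ^ 2 := Nat.mul_le_mul hq (hY.trans hN)
        _ = X ^ 3 := by ring
    have h2 : ((q * Y - c : ℕ) : ℝ) ≤ (X : ℝ) ^ 3 := by exact_mod_cast h1
    have h3 : (0 : ℝ) < ((q * Y - c : ℕ) : ℝ) := by exact_mod_cast h.pos
    calc Real.log ((q * Y - c : ℕ) : ℝ) ≤ Real.log ((X : ℝ) ^ 3) := Real.log_le_log h3 h2
      _ = 3 * Real.log X := by rw [Real.log_pow]; norm_num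
  · linarith

/-- Cauchy-Schwarz for the singular factors -/
private lemma mom_cs {B Θ : Finset (ℕ × ℕ)} (hB : B ⊆ Θ) (r : ℕ) {C T : ℝ} (hT : 0 < T)
    (h : ∑ S ∈ Θ.powersetCard r, F (detD S) ^ (2 * r) ≤ C * T ^ r) (hC : 0 ≤ C) :
    ∑ S ∈ B.powersetCard r, F (detD S) ^ r ≤
      Real.sqrt C * (T ^ r * Real.sqrt ((B.card : ℝ) / T) ^ r) := by
  have h1 : ∑ S ∈ B.powersetCard r, F (detD S) ^ (2 * r) ≤ C * T ^ r := by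
    refine le_trans (sum_le_sum_of_subset_of_nonneg (powersetCard_mono hB) fun S _ _ => ?_) h
    exact pow_nonneg (F_nonneg _) _
  have h2 : (∑ S ∈ B.powersetCard r, 1 * F (detD S) ^ r) ^ 2 ≤
      (∑ S ∈ B.powersetCard r, (1 : ℝ) ^ 2) * ∑ S ∈ B.powersetCard r, (F (detD S) ^ r) ^ 2 :=
    sum_mul_sq_le_sq_mul_sq _ _ _
  simp only [one_mul, one_pow, sum_const, nsmul_eq_mul, mul_one, card_powersetCard] at h2
  have h3 : ((B.card.choose r : ℕ) : ℝ) ≤ (B.card : ℝ) ^ r := by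
    exact_mod_cast Nat.choose_le_pow B.card r
  have h4 : ∑ S ∈ B.powersetCard r, (F (detD S) ^ r) ^ 2 ≤ C * T ^ r := by
    refine le_trans (le_of_eq ?_) h1
    refine sum_congr rfl fun S _ => ?_
    rw [← pow_mul, mul_comm r 2]
  have h5 : (∑ S ∈ B.powersetCard r, F (detD S) ^ r) ^ 2 ≤ (B.card : ℝ) ^ r * (C * T ^ r) :=
    h2.trans (mul_le_mul h3 h4 (sum_nonneg fun S _ => sq_nonneg _) (by positivity))
  have hβ : (0 : ℝ) ≤ (B.card : ℝ) / T := by positivity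
  have h6 : (Real.sqrt C * (T ^ r * Real.sqrt ((B.card : ℝ) / T) ^ r)) ^ 2 =
      (B.card : ℝ) ^ r * (C * T ^ r) := by
    rw [mul_pow, mul_pow, Real.sq_sqrt hC, ← pow_mul (Real.sqrt _) r 2, mul_comm r 2, pow_mul,
      Real.sq_sqrt hβ, div_pow]
    field_simp
  rw [← h6] at h5
  exact (le_abs_self _).trans (abs_le_of_sq_le_sq h5 (by positivity))

theorem mom (k : ℕ) (hk : 1 ≤ k) (κ : ℝ) (hκ : 0 < κ) : ∃ (C : ℝ) (X₀ : ℕ), 1 ≤ C ∧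
    ∀ (X N G h : ℕ) (𝒟 : Finset ℕ), X₀ ≤ X → Real.sqrt X ≤ N → N ≤ X ^ 2 → (Real.log X) ^ κ ≤ G →
    h + G ≤ X ^ 2 → 𝒟.Nonempty → (∀ q ∈ 𝒟, q.Prime ∧ q ^ 4 ≤ X) → ∀ B ⊆ ND 𝒟 h G,
    ∑ Y ∈ Icc 1 N, (∑ θ ∈ B, ww θ Y) ^ k ≤
      C * N * ((𝒟.card : ℝ) * G) ^ k *
        (Real.sqrt ((B.card : ℝ) / ((𝒟.card : ℝ) * G)) + Real.log X / ((𝒟.card : ℝ) * G)) ^ k := by
  obtain ⟨Ce, hCe, hes⟩ := pow_le_esym k hk
  have hkl : ∀ r : ℕ, ∃ (C : ℝ) (N₀ : ℕ), 0 < C ∧ (1 ≤ r → ∀ (T : Finset (ℕ × ℕ)) (N : ℕ),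
      N₀ ≤ N → T.card = r → (∀ θ ∈ T, 1 ≤ θ.1 ∧ θ.1 ≤ N) →
      (∀ z ∈ T.offDiag, z.1.1 * z.2.2 ≠ z.2.1 * z.1.2) →
      ∑ Y ∈ Icc 1 N, ∏ θ ∈ T, ww θ Y ≤ C * F (detD T) ^ r * N) := by
    intro r
    by_cases hr : 1 ≤ r
    · obtain ⟨C, N₀, h1, h2⟩ := klog r hr
      exact ⟨C, N₀, h1, fun _ => h2⟩
    · exact ⟨1, 0, one_pos, fun h => absurd h hr⟩
  choose Cr Nr hCr hkl using hkl
  choose Ds Xs hDs hsing using fun r : ℕ => sing_avg r (2 * r) κ hκ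
  obtain ⟨K, hK⟩ : ∃ K : ℝ, K = ∑ r ∈ Icc 1 k, Cr r * Real.sqrt (Ds r) := ⟨_, rfl⟩
  have hK0 : 0 ≤ K := by
    rw [hK]
    exact sum_nonneg fun r _ => mul_nonneg (hCr r).le (Real.sqrt_nonneg _)
  refine ⟨max 1 (Ce * (3 ^ k * K)), 3 + ∑ r ∈ Icc 1 k, (Xs r + Nr r ^ 2), le_max_left _ _, ?_⟩
  intro X N G h 𝒟 hX hN1 hN2 hG hh h𝒟 hq B hB
  have hX3 : 3 ≤ X := le_trans (Nat.le_add_right _ _) hX
  have hXr : ∀ r ∈ Icc 1 k, Xs r ≤ X ∧ Nr r ^ 2 ≤ X := by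
    intro r hr
    have h1 : Xs r + Nr r ^ 2 ≤ ∑ r ∈ Icc 1 k, (Xs r + Nr r ^ 2) :=
      single_le_sum (f := fun r => Xs r + Nr r ^ 2) (fun _ _ => Nat.zero_le _) hr
    constructor <;> omega
  have hq' : ∀ q ∈ 𝒟, q.Prime ∧ q ≤ X := fun q hq0 =>
    ⟨(hq q hq0).1, (Nat.le_self_pow (by norm_num) q).trans (hq q hq0).2⟩
  have hlog : 0 < Real.log X := Real.log_pos (by
    have : (3 : ℝ) ≤ X := by exact_mod_cast hX3
    linarith)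
  have hG1 : (0 : ℝ) < G := lt_of_lt_of_le (Real.rpow_pos_of_pos hlog _) hG
  obtain ⟨T, hT⟩ : ∃ T : ℝ, T = (𝒟.card : ℝ) * G := ⟨_, rfl⟩
  have hT0 : 0 < T := by
    rw [hT]
    have : (0 : ℝ) < 𝒟.card := by exact_mod_cast h𝒟.card_pos
    positivity
  rw [← hT]
  obtain ⟨L, hL⟩ : ∃ L : ℝ, L = 3 * Real.log X := ⟨_, rfl⟩
  have hL0 : 0 < L := by rw [hL]; positivity
  obtain ⟨β, hβ⟩ : ∃ β : ℝ, β = Real.sqrt ((B.card : ℝ) / T) := ⟨_, rfl⟩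
  have hβ0 : 0 ≤ β := by rw [hβ]; exact Real.sqrt_nonneg _
  rw [← hβ]
  have hBmem : ∀ θ ∈ B, θ.1 ∈ 𝒟 := fun θ hθ => (mem_ND.1 (hB hθ)).1
  have hwL : ∀ Y ∈ Icc 1 N, ∀ θ ∈ B, ww θ Y ≤ L := by
    intro Y hY θ hθ
    rw [hL]
    exact mom_ww_le hN2 (hq' θ.1 (hBmem θ hθ)).2 (mem_Icc.1 hY).2
  -- the elementary symmetric functions
  have s1 : ∀ Y ∈ Icc 1 N, (∑ θ ∈ B, ww θ Y) ^ k ≤
      Ce * ∑ r ∈ Icc 1 k, L ^ (k - r) * ∑ S ∈ B.powersetCard r, ∏ θ ∈ S, ww θ Y := by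
    intro Y hY
    have h1 := hes B (fun θ => ww θ Y / L) (fun θ _ => div_nonneg (ww_nonneg θ Y) hL0.le)
      (fun θ hθ => (div_le_one hL0).2 (hwL Y hY θ hθ))
    rw [← sum_div, div_pow, div_le_iff₀ (by positivity)] at h1
    refine h1.trans (le_of_eq ?_)
    rw [mul_assoc]
    congr 1
    rw [sum_mul]
    refine sum_congr rfl fun r hr => ?_
    rw [mul_comm, mul_sum, mul_sum]
    refine sum_congr rfl fun S hS => ?_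
    rw [prod_div_distrib, prod_const, (mem_powersetCard.1 hS).2]
    have hrk : r ≤ k := (mem_Icc.1 hr).2
    have e : L ^ k = L ^ (k - r) * L ^ r := by rw [← pow_add, Nat.sub_add_cancel hrk]
    rw [e]
    field_simp
  have s2 : ∑ Y ∈ Icc 1 N, (∑ θ ∈ B, ww θ Y) ^ k ≤
      Ce * ∑ r ∈ Icc 1 k, L ^ (k - r) * ∑ S ∈ B.powersetCard r, ∑ Y ∈ Icc 1 N, ∏ θ ∈ S, ww θ Y := by
    refine (sum_le_sum s1).trans (le_of_eq ?_)
    rw [← mul_sum, sum_comm]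
    congr 1
    refine sum_congr rfl fun r _ => ?_
    rw [← mul_sum, sum_comm]
  have s3 : ∀ r ∈ Icc 1 k, L ^ (k - r) * ∑ S ∈ B.powersetCard r, ∑ Y ∈ Icc 1 N,
      ∏ θ ∈ S, ww θ Y ≤ (Cr r * Real.sqrt (Ds r)) * (3 ^ k * (N * T ^ k *
        (β + Real.log X / T) ^ k)) := by
    intro r hr
    obtain ⟨hr1, hrk⟩ := mem_Icc.1 hr
    obtain ⟨x1, x2⟩ := hXr r hr
    have hNr : Nr r ≤ N := by
      have h1 : (Nr r : ℝ) ≤ Real.sqrt X := Real.le_sqrt_of_sq_le (by exact_mod_cast x2)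
      exact_mod_cast h1.trans hN1
    have t1 : ∀ S ∈ B.powersetCard r, ∑ Y ∈ Icc 1 N, ∏ θ ∈ S, ww θ Y ≤
        Cr r * N * F (detD S) ^ r := by
      intro S hS
      obtain ⟨hSB, hSc⟩ := mem_powersetCard.1 hS
      have h1 := hkl r hr1 S N hNr hSc (fun θ hθ => by
        have hθ𝒟 := hBmem θ (hSB hθ)
        have hp := (hq θ.1 hθ𝒟).1
        have h4 := (hq θ.1 hθ𝒟).2
        refine ⟨hp.one_lt.le, ?_⟩
        have h5 : (θ.1 : ℝ) ≤ Real.sqrt X := by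
          apply Real.le_sqrt_of_sq_le
          have h6 : θ.1 ^ 2 ≤ θ.1 ^ 4 := Nat.pow_le_pow_right hp.pos (by norm_num)
          exact_mod_cast h6.trans h4
        exact_mod_cast h5.trans hN1) (fun z hz => by
        obtain ⟨z1, z2, z3⟩ := mem_offDiag.1 hz
        exact det_ne (fun q hq0 => (hq q hq0).1) (hB (hSB z1)) (hB (hSB z2)) z3)
      refine h1.trans (le_of_eq ?_)
      ring
    have t2 : ∑ S ∈ B.powersetCard r, F (detD S) ^ r ≤ Real.sqrt (Ds r) * (T ^ r * β ^ r) := by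
      rw [hβ]
      refine mom_cs hB r hT0 ?_ (hDs r).le
      rw [hT]
      exact hsing r X G h 𝒟 x1 hG hq' hh
    have t3 : ∑ S ∈ B.powersetCard r, ∑ Y ∈ Icc 1 N, ∏ θ ∈ S, ww θ Y ≤
        Cr r * N * (Real.sqrt (Ds r) * (T ^ r * β ^ r)) := by
      refine (sum_le_sum t1).trans ?_
      rw [← mul_sum]
      exact mul_le_mul_of_nonneg_left t2 (mul_nonneg (hCr r).le (Nat.cast_nonneg _))
    obtain ⟨ℓ, hℓ⟩ : ∃ ℓ : ℝ, ℓ = Real.log X / T := ⟨_, rfl⟩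
    have hℓ0 : 0 < ℓ := by rw [hℓ]; positivity
    have hLℓ : L = 3 * ℓ * T := by
      rw [hL, hℓ]
      field_simp
    rw [← hℓ]
    have t4 : L ^ (k - r) * (T ^ r * β ^ r) ≤ 3 ^ k * (T ^ k * (β + ℓ) ^ k) := by
      have e1 : T ^ k = T ^ (k - r) * T ^ r := by rw [← pow_add, Nat.sub_add_cancel hrk]
      have e2 : (β + ℓ) ^ k = (β + ℓ) ^ (k - r) * (β + ℓ) ^ r := by
        rw [← pow_add, Nat.sub_add_cancel hrk]
      rw [hLℓ, mul_pow, mul_pow, e1, e2]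
      have u1 : (3 : ℝ) ^ (k - r) ≤ 3 ^ k := pow_le_pow_right₀ (by norm_num) (Nat.sub_le _ _)
      have u2 : ℓ ^ (k - r) ≤ (β + ℓ) ^ (k - r) := pow_le_pow_left₀ hℓ0.le (by linarith) _
      have u3 : β ^ r ≤ (β + ℓ) ^ r := pow_le_pow_left₀ hβ0 (by linarith) _
      calc 3 ^ (k - r) * ℓ ^ (k - r) * T ^ (k - r) * (T ^ r * β ^ r)
          = 3 ^ (k - r) * (T ^ (k - r) * T ^ r * (ℓ ^ (k - r) * β ^ r)) := by ring
        _ ≤ 3 ^ k * (T ^ (k - r) * T ^ r * ((β + ℓ) ^ (k - r) * (β + ℓ) ^ r)) := by gcongr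
    calc L ^ (k - r) * ∑ S ∈ B.powersetCard r, ∑ Y ∈ Icc 1 N, ∏ θ ∈ S, ww θ Y
        ≤ L ^ (k - r) * (Cr r * N * (Real.sqrt (Ds r) * (T ^ r * β ^ r))) :=
          mul_le_mul_of_nonneg_left t3 (by positivity)
      _ = (Cr r * Real.sqrt (Ds r)) * (N * (L ^ (k - r) * (T ^ r * β ^ r))) := by ring
      _ ≤ (Cr r * Real.sqrt (Ds r)) * (N * (3 ^ k * (T ^ k * (β + ℓ) ^ k))) := by
          refine mul_le_mul_of_nonneg_left (mul_le_mul_of_nonneg_left t4 (Nat.cast_nonneg _)) ?_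
          exact mul_nonneg (hCr r).le (Real.sqrt_nonneg _)
      _ = _ := by ring
  refine s2.trans ((mul_le_mul_of_nonneg_left (sum_le_sum s3) hCe.le).trans ?_)
  rw [← sum_mul, ← hK]
  have hℓ0 : 0 ≤ Real.log X / T := by positivity
  have hfin : 0 ≤ N * T ^ k * (β + Real.log X / T) ^ k := by positivity
  calc Ce * (K * (3 ^ k * (N * T ^ k * (β + Real.log X / T) ^ k)))
      = (Ce * (3 ^ k * K)) * (N * T ^ k * (β + Real.log X / T) ^ k) := by ring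
    _ ≤ max 1 (Ce * (3 ^ k * K)) * (N * T ^ k * (β + Real.log X / T) ^ k) :=
        mul_le_mul_of_nonneg_right (le_max_right _ _) hfin
    _ = _ := by ring

end Pool.BMG
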