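import Mathlib

/-!
# BMG/LD: large deviations for random subsamples of a window (abstract)

`x Y j ∈ [-1,1]` for `Y ≤ N`, `j < J`. If `∑_Y |∑_{j<J} x Y j| ≤ δ J N` then, for `0 < ε ≤ 1`,
`∑_{s : Fin t → Fin J} #{Y ≤ N : |∑_i x Y (s i)| > ε t} ≤ J^t N (2 e^{-ε² t/8} + 4δ/ε)`.

Proof. Fix `Y` and let `W = (1/J) ∑_{j<J} x Y j`. By Markov the number of `Y` with `|W| > ε/4` is at most `(4/ε) δ N`,
each contributes at most `J^t` (the number of `s`). Let `|W| ≤ ε/4`. For `σ = ±1` and `z = 3ε/8 ∈ [0,1]`: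
`#{s : σ ∑_i x Y (s i) > ε t} ≤ e^{-zεt} ∑_s ∏_i exp(z σ x Y (s i)) = e^{-zεt} (∑_{j<J} exp(zσ x Y j))^t`
(`Finset.prod_univ_sum`/`Fintype.piFinset`: `(∑_j f j)^t = ∑_s ∏_i f (s i)`, in Mathlib `Finset.sum_pow'`,
`Fintype.sum_pow`). Since `exp(u) ≤ 1 + u + u²` for `|u| ≤ 1` (`Real.abs_exp_sub_one_sub_id_le`):
`∑_j exp(zσ x) ≤ J (1 + zσW + z²) ≤ J exp(zε/4 + z²)`. So the number is `≤ J^t exp(t(-zε + zε/4 + z²)) =
J^t exp(-(9/64) ε² t) ≤ J^t exp(-ε² t/8)`. Exchange the sums over `s` and `Y` at the beginning.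
-/

set_option autoImplicit false

namespace Pool.BMG

open Finset

private theorem ld_one (J t : ℕ) (hJ : 1 ≤ J) (y : ℕ → ℝ) (hy : ∀ j, |y j| ≤ 1) (ε : ℝ)
    (hε : 0 < ε) (hε1 : ε ≤ 1) (hW : ∑ j ∈ range J, y j ≤ ε / 4 * J) :
    ((univ.filter (fun s : Fin t → Fin J => ε * t < ∑ i, y (s i : ℕ))).card : ℝ) ≤
      (J : ℝ) ^ t * Real.exp (-(ε ^ 2 * t / 8)) := by
  have hJ0 : (0 : ℝ) < J := by exact_mod_cast hJ
  set z : ℝ := 3 * ε / 8 with hz
  have hz0 : 0 < z := by positivity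
  have hz1 : z ≤ 1 := by rw [hz]; linarith
  have h1 : ((univ.filter (fun s : Fin t → Fin J => ε * t < ∑ i, y (s i : ℕ))).card : ℝ) ≤
      ∑ s : Fin t → Fin J, Real.exp (-(z * ε * t)) * ∏ i, Real.exp (z * y (s i : ℕ)) := by
    rw [Finset.card_filter]
    push_cast
    refine Finset.sum_le_sum fun s _ => ?_
    rw [← Real.exp_sum, ← Real.exp_add, ← Finset.mul_sum]
    split_ifs with h
    · rw [Real.one_le_exp_iff]
      have := mul_le_mul_of_nonneg_left h.le hz0.le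
      linarith
    · exact (Real.exp_pos _).le
  have h2 : ∑ s : Fin t → Fin J, Real.exp (-(z * ε * t)) * ∏ i, Real.exp (z * y (s i : ℕ)) =
      Real.exp (-(z * ε * t)) * (∑ j : Fin J, Real.exp (z * y (j : ℕ))) ^ t := by
    rw [← Finset.mul_sum, Fintype.sum_pow]
  have h3 : ∑ j : Fin J, Real.exp (z * y (j : ℕ)) ≤ J * Real.exp (z * ε / 4 + z ^ 2) := by
    have h4 : ∀ j : Fin J, Real.exp (z * y (j : ℕ)) ≤ 1 + z * y (j : ℕ) + z ^ 2 := by
      intro j
      have h5 : |z * y (j : ℕ)| ≤ 1 := by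
        rw [abs_mul, abs_of_pos hz0]
        exact mul_le_one₀ hz1 (abs_nonneg _) (hy _)
      have h6 := Real.abs_exp_sub_one_sub_id_le h5
      have h7 := (abs_le.1 h6).2
      have h8 : (z * y (j : ℕ)) ^ 2 ≤ z ^ 2 := by
        rw [mul_pow]
        have h9 : y (j : ℕ) ^ 2 ≤ 1 := by
          rw [← sq_abs]
          exact pow_le_one₀ (abs_nonneg _) (hy _)
        nlinarith [sq_nonneg z]
      linarith
    refine (Finset.sum_le_sum fun j _ => h4 j).trans ?_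
    rw [Finset.sum_add_distrib, Finset.sum_add_distrib, ← Finset.mul_sum,
      Finset.sum_const, Finset.sum_const, Finset.card_univ, Fintype.card_fin,
      Fin.sum_univ_eq_sum_range (fun j => y j)]
    simp only [nsmul_eq_mul, mul_one]
    have h5 : z * ∑ j ∈ range J, y j ≤ z * (ε / 4 * J) := mul_le_mul_of_nonneg_left hW hz0.le
    have h6 : z * ε / 4 + z ^ 2 + 1 ≤ Real.exp (z * ε / 4 + z ^ 2) := Real.add_one_le_exp _
    have h7 := mul_le_mul_of_nonneg_left h6 hJ0.le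
    nlinarith
  have h4 : 0 ≤ ∑ j : Fin J, Real.exp (z * y (j : ℕ)) :=
    Finset.sum_nonneg fun j _ => (Real.exp_pos _).le
  calc ((univ.filter (fun s : Fin t → Fin J => ε * t < ∑ i, y (s i : ℕ))).card : ℝ)
      ≤ Real.exp (-(z * ε * t)) * (∑ j : Fin J, Real.exp (z * y (j : ℕ))) ^ t := h2 ▸ h1
    _ ≤ Real.exp (-(z * ε * t)) * (J * Real.exp (z * ε / 4 + z ^ 2)) ^ t :=
        mul_le_mul_of_nonneg_left (pow_le_pow_left₀ h4 h3 t) (Real.exp_pos _).le
    _ = (J : ℝ) ^ t * Real.exp (-(z * ε * t) + t * (z * ε / 4 + z ^ 2)) := by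
        rw [mul_pow, ← Real.exp_nat_mul, Real.exp_add]
        ring
    _ ≤ (J : ℝ) ^ t * Real.exp (-(ε ^ 2 * t / 8)) := by
        refine mul_le_mul_of_nonneg_left (Real.exp_le_exp.2 ?_) (by positivity)
        rw [hz]
        have h5 : 0 ≤ ε ^ 2 * (t : ℝ) := by positivity
        nlinarith

private theorem ld_two (J t : ℕ) (hJ : 1 ≤ J) (y : ℕ → ℝ) (hy : ∀ j, |y j| ≤ 1) (ε : ℝ)
    (hε : 0 < ε) (hε1 : ε ≤ 1) :
    ((univ.filter (fun s : Fin t → Fin J => ε * t < |∑ i, y (s i : ℕ)|)).card : ℝ) ≤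
      (J : ℝ) ^ t * (2 * Real.exp (-(ε ^ 2 * t / 8)) +
        4 / ε * (|∑ j ∈ range J, y j| / J)) := by
  have hJ0 : (0 : ℝ) < J := by exact_mod_cast hJ
  have hp : (0 : ℝ) ≤ (J : ℝ) ^ t := by positivity
  have he := Real.exp_pos (-(ε ^ 2 * t / 8))
  by_cases hW : |∑ j ∈ range J, y j| ≤ ε / 4 * J
  · have h1 := ld_one J t hJ y hy ε hε hε1 (le_of_abs_le hW)
    have h2 := ld_one J t hJ (fun j => - y j) (fun j => by rw [abs_neg]; exact hy j) ε hε hε1
      (by rw [Finset.sum_neg_distrib]; exact (neg_le_abs _).trans hW)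
    have h3 : (univ.filter (fun s : Fin t → Fin J => ε * t < |∑ i, y (s i : ℕ)|)) ⊆
        (univ.filter (fun s : Fin t → Fin J => ε * t < ∑ i, y (s i : ℕ))) ∪
        (univ.filter (fun s : Fin t → Fin J => ε * t < ∑ i, (fun j => - y j) (s i : ℕ))) := by
      intro s hs
      rw [Finset.mem_filter] at hs
      rw [Finset.mem_union, Finset.mem_filter, Finset.mem_filter]
      rcases lt_abs.1 hs.2 with h | h
      · exact Or.inl ⟨mem_univ _, h⟩
      · refine Or.inr ⟨mem_univ _, ?_⟩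
        simp only [Finset.sum_neg_distrib]
        exact h
    have h4 : ((univ.filter (fun s : Fin t → Fin J => ε * t < |∑ i, y (s i : ℕ)|)).card : ℝ) ≤
        ((univ.filter (fun s : Fin t → Fin J => ε * t < ∑ i, y (s i : ℕ))).card : ℝ) +
        ((univ.filter (fun s : Fin t → Fin J =>
          ε * t < ∑ i, (fun j => - y j) (s i : ℕ))).card : ℝ) := by
      exact_mod_cast (Finset.card_le_card h3).trans (Finset.card_union_le _ _)
    have h5 : 0 ≤ (J : ℝ) ^ t * (4 / ε * (|∑ j ∈ range J, y j| / J)) := by positivity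
    rw [mul_add]
    linarith
  · have h1 : ((univ.filter (fun s : Fin t → Fin J => ε * t < |∑ i, y (s i : ℕ)|)).card : ℝ) ≤
        (J : ℝ) ^ t := by
      have h2 := Finset.card_filter_le (univ : Finset (Fin t → Fin J))
        (fun s => ε * t < |∑ i, y (s i : ℕ)|)
      rw [Finset.card_univ, Fintype.card_fun, Fintype.card_fin, Fintype.card_fin] at h2
      exact_mod_cast h2
    have h2 : 1 ≤ 4 / ε * (|∑ j ∈ range J, y j| / J) := by
      rw [div_mul_div_comm, le_div_iff₀ (by positivity)]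
      push Not at hW
      linarith
    calc _ ≤ (J : ℝ) ^ t := h1
      _ = (J : ℝ) ^ t * 1 := (mul_one _).symm
      _ ≤ _ := mul_le_mul_of_nonneg_left (by linarith) hp

theorem ld (N J t : ℕ) (hJ : 1 ≤ J) (x : ℕ → ℕ → ℝ) (hx : ∀ Y j, |x Y j| ≤ 1) (ε δ : ℝ)
    (hε : 0 < ε) (hε1 : ε ≤ 1)
    (h : ∑ Y ∈ Icc 1 N, |∑ j ∈ range J, x Y j| ≤ δ * J * N) :
    ∑ s : Fin t → Fin J, (((Icc 1 N).filter
        (fun Y => ε * t < |∑ i, x Y (s i : ℕ)|)).card : ℝ) ≤
      (J : ℝ) ^ t * N * (2 * Real.exp (-(ε ^ 2 * t / 8)) + 4 / ε * δ) := by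
  have hJ0 : (0 : ℝ) < J := by exact_mod_cast hJ
  have e1 : ∑ s : Fin t → Fin J, (((Icc 1 N).filter
        (fun Y => ε * t < |∑ i, x Y (s i : ℕ)|)).card : ℝ) =
      ∑ Y ∈ Icc 1 N, ((univ.filter
        (fun s : Fin t → Fin J => ε * t < |∑ i, x Y (s i : ℕ)|)).card : ℝ) := by
    simp only [Finset.card_filter]
    push_cast
    exact Finset.sum_comm
  rw [e1]
  refine (Finset.sum_le_sum fun Y _ => ld_two J t hJ (x Y) (hx Y) ε hε hε1).trans ?_
  rw [← Finset.mul_sum, Finset.sum_add_distrib, Finset.sum_const, Nat.card_Icc, Nat.add_sub_cancel,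
    nsmul_eq_mul, ← Finset.mul_sum, ← Finset.sum_div, mul_assoc ((J : ℝ) ^ t)]
  refine mul_le_mul_of_nonneg_left ?_ (by positivity)
  have h1 : (∑ Y ∈ Icc 1 N, |∑ j ∈ range J, x Y j|) / J ≤ δ * N := by
    rw [div_le_iff₀ hJ0]
    linarith
  have h2 := mul_le_mul_of_nonneg_left h1 (by positivity : (0 : ℝ) ≤ 4 / ε)
  linarith

end Pool.BMG
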