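import Mathlib

/-!
# BMG/Pat: few patterns, high moments (abstract)

`w θ Y ≥ 0` for `θ ∈ Θ` (a finite set with `#Θ ≤ T`), `Y ∈ [1, N]`. Moment hypothesis: for all `B ⊆ Θ`,
`∑_{Y≤N} (∑_{θ∈B} w θ Y)^k ≤ C N T^k (√(#B/T) + l)^k`. `v Y : Fin t → ℤ` a pattern with values in `{-1,0,1}`, `bad θ v` an
arbitrary relation. Then for every `R > 0`
`∑_{Y≤N} ∑_{θ∈Θ, bad θ (v Y)} w θ Y ≤ T N (R (√p + l) + 2 C 3^t / R^{k-1})`,
`p = (∑_{Y≤N} #{θ ∈ Θ : bad θ (v Y)})/(N T)`.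

Proof. For a pattern `v` let `B_v = {θ ∈ Θ : bad θ v}`, `Y_v = {Y ≤ N : v Y = v}`, `F_v(Y) = ∑_{θ∈B_v} w θ Y`,
`b_v = √(#B_v/T) + l ∈ (0, 2]` and `M_v = R T b_v > 0`. For `F ≥ 0`, `M > 0`: `F ≤ M + F^k/M^{k-1}` (if `F > M` then
`F^{k-1} ≥ M^{k-1}`). So the left side is `∑_v ∑_{Y∈Y_v} F_v(Y) ≤ ∑_v (M_v #Y_v + M_v^{1-k} ∑_{Y≤N} F_v(Y)^k)
≤ ∑_v (R T b_v #Y_v + C N T^k b_v^k/(R T b_v)^{k-1}) = ∑_v (R T b_v #Y_v + C N T b_v/R^{k-1})`. There are `3^t` patterns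
(`Fintype.piFinset (fun _ => {-1,0,1})`) and `b_v ≤ 2`: the second term is `≤ 2 C N T 3^t/R^{k-1}`. First term:
`∑_v #Y_v b_v = ∑_{Y≤N} b_{v Y} = ∑_Y √(#B_{vY}/T) + N l ≤ N √((1/N) ∑_Y #B_{vY}/T) + N l = N(√p + l)` by
Cauchy–Schwarz. (`N = 0`: both sides are `0`.)
-/

set_option autoImplicit false

namespace Pool.BMG

open Finset

private theorem pat_aux (k : ℕ) (hk : 1 ≤ k) {F M : ℝ} (hF : 0 ≤ F) (hM : 0 < M) :
    F ≤ M + F ^ k / M ^ (k - 1) := by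
  have hMk : 0 < M ^ (k - 1) := pow_pos hM _
  rcases le_or_gt F M with h | h
  · have : 0 ≤ F ^ k / M ^ (k - 1) := by positivity
    linarith
  · have h1 : F * M ^ (k - 1) ≤ F ^ k := by
      obtain ⟨m, rfl⟩ : ∃ m, k = m + 1 := ⟨k - 1, by omega⟩
      rw [Nat.add_sub_cancel, pow_succ, mul_comm]
      exact mul_le_mul_of_nonneg_right (pow_le_pow_left₀ hM.le h.le m) hF
    have h2 : F ≤ F ^ k / M ^ (k - 1) := by rwa [le_div_iff₀ hMk]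
    linarith

private theorem pat_cs (N : ℕ) (hN : 0 < N) (x : ℕ → ℝ) (hx : ∀ Y, 0 ≤ x Y) :
    ∑ Y ∈ Icc 1 N, Real.sqrt (x Y) ≤ N * Real.sqrt ((∑ Y ∈ Icc 1 N, x Y) / N) := by
  have hN' : (0 : ℝ) < N := by exact_mod_cast hN
  have h1 := Real.sum_sqrt_mul_sqrt_le (Icc 1 N) (f := x) (g := fun _ => 1) hx (fun _ => zero_le_one)
  simp only [Real.sqrt_one, mul_one, sum_const, Nat.card_Icc, Nat.add_sub_cancel, nsmul_eq_mul]
    at h1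
  refine h1.trans (le_of_eq ?_)
  rw [Real.sqrt_div (sum_nonneg fun Y _ => hx Y)]
  have h2 : Real.sqrt N * Real.sqrt N = N := Real.mul_self_sqrt hN'.le
  have h3 : 0 < Real.sqrt N := Real.sqrt_pos.2 hN'
  field_simp
  rw [sq, h2]

theorem pat {ι : Type*} [DecidableEq ι] (Θ : Finset ι) (N t k : ℕ) (hk : 1 ≤ k) (w : ι → ℕ → ℝ)
    (hw : ∀ θ Y, 0 ≤ w θ Y) (v : ℕ → Fin t → ℤ) (hv : ∀ Y i, v Y i = -1 ∨ v Y i = 0 ∨ v Y i = 1)
    (bad : ι → (Fin t → ℤ) → Prop) [∀ θ u, Decidable (bad θ u)] (C T l R : ℝ) (hC : 0 < C) (hT : 0 < T)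
    (hl : 0 < l) (hl1 : l ≤ 1) (hR : 0 < R) (hΘ : (Θ.card : ℝ) ≤ T)
    (hmom : ∀ B ⊆ Θ, ∑ Y ∈ Icc 1 N, (∑ θ ∈ B, w θ Y) ^ k ≤
      C * N * T ^ k * (Real.sqrt ((B.card : ℝ) / T) + l) ^ k) :
    ∑ Y ∈ Icc 1 N, ∑ θ ∈ Θ.filter (fun θ => bad θ (v Y)), w θ Y ≤
      T * N * (R * (Real.sqrt ((∑ Y ∈ Icc 1 N, ((Θ.filter (fun θ => bad θ (v Y))).card : ℝ)) /
        (N * T)) + l) + 2 * C * 3 ^ t / R ^ (k - 1)) := by
  rcases Nat.eq_zero_or_pos N with rfl | hN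
  · simp
  have hN' : (0 : ℝ) < N := by exact_mod_cast hN
  obtain ⟨B, hB⟩ : ∃ B : (Fin t → ℤ) → Finset ι, B = fun u => Θ.filter (fun θ => bad θ u) :=
    ⟨_, rfl⟩
  obtain ⟨b, hb⟩ : ∃ b : (Fin t → ℤ) → ℝ, b = fun u => Real.sqrt (((B u).card : ℝ) / T) + l :=
    ⟨_, rfl⟩
  have hBs : ∀ u, B u ⊆ Θ := by intro u; rw [hB]; exact filter_subset _ _
  have hb0 : ∀ u, 0 < b u := by
    intro u; rw [hb]; have := Real.sqrt_nonneg (((B u).card : ℝ) / T); simp only []; linarith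
  have hb2 : ∀ u, b u ≤ 2 := by
    intro u
    have h1 : ((B u).card : ℝ) / T ≤ 1 := by
      rw [div_le_one hT]
      have : ((B u).card : ℝ) ≤ Θ.card := by exact_mod_cast card_le_card (hBs u)
      linarith
    have h2 : Real.sqrt (((B u).card : ℝ) / T) ≤ 1 := Real.sqrt_le_one.2 h1
    rw [hb]; simp only []; linarith
  have hF0 : ∀ u Y, 0 ≤ ∑ θ ∈ B u, w θ Y := fun u Y => sum_nonneg fun θ _ => hw θ Y
  have hM0 : ∀ u, 0 < R * T * b u := fun u => mul_pos (mul_pos hR hT) (hb0 u)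
  obtain ⟨V, hV⟩ : ∃ V : Finset (Fin t → ℤ),
      V = Fintype.piFinset (fun _ : Fin t => ({-1, 0, 1} : Finset ℤ)) := ⟨_, rfl⟩
  have hVc : (V.card : ℝ) = 3 ^ t := by
    rw [hV, Fintype.card_piFinset]
    simp
  have hvV : ∀ Y, v Y ∈ V := by
    intro Y
    rw [hV, Fintype.mem_piFinset]
    intro i
    have := hv Y i
    simpa using this
  -- pointwise
  have h1 : ∀ Y ∈ Icc 1 N, (∑ θ ∈ B (v Y), w θ Y) ≤ R * T * b (v Y) +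
      ∑ u ∈ V, (∑ θ ∈ B u, w θ Y) ^ k / (R * T * b u) ^ (k - 1) := by
    intro Y _
    have e1 := pat_aux k hk (hF0 (v Y) Y) (hM0 (v Y))
    have e2 : (∑ θ ∈ B (v Y), w θ Y) ^ k / (R * T * b (v Y)) ^ (k - 1) ≤
        ∑ u ∈ V, (∑ θ ∈ B u, w θ Y) ^ k / (R * T * b u) ^ (k - 1) := by
      refine single_le_sum (f := fun u => (∑ θ ∈ B u, w θ Y) ^ k / (R * T * b u) ^ (k - 1))
        (fun u _ => ?_) (hvV Y)
      have := hF0 u Y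
      have := hM0 u
      positivity
    linarith
  have h2 : ∑ Y ∈ Icc 1 N, ∑ u ∈ V, (∑ θ ∈ B u, w θ Y) ^ k / (R * T * b u) ^ (k - 1) ≤
      T * N * (2 * C * 3 ^ t / R ^ (k - 1)) := by
    rw [sum_comm]
    have e1 : ∀ u ∈ V, ∑ Y ∈ Icc 1 N, (∑ θ ∈ B u, w θ Y) ^ k / (R * T * b u) ^ (k - 1) ≤
        T * N * (2 * C / R ^ (k - 1)) := by
      intro u _
      rw [← sum_div, div_le_iff₀ (pow_pos (hM0 u) _)]
      refine (hmom (B u) (hBs u)).trans ?_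
      have e2 : Real.sqrt (((B u).card : ℝ) / T) + l = b u := by rw [hb]
      rw [e2]
      obtain ⟨m, rfl⟩ : ∃ m, k = m + 1 := ⟨k - 1, by omega⟩
      rw [Nat.add_sub_cancel]
      have e3 : T * N * (2 * C / R ^ m) * (R * T * b u) ^ m = C * N * T ^ (m + 1) * (b u) ^ m * 2 := by
        have : R ^ m ≠ 0 := (pow_pos hR m).ne'
        rw [mul_pow, mul_pow, pow_succ T m]
        field_simp
      rw [e3, pow_succ (b u) m, ← mul_assoc]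
      apply mul_le_mul_of_nonneg_left (hb2 u)
      have := hb0 u
      positivity
    refine (sum_le_sum e1).trans (le_of_eq ?_)
    rw [sum_const, nsmul_eq_mul, hVc]
    ring
  have h3 : ∑ Y ∈ Icc 1 N, b (v Y) ≤ N * (Real.sqrt ((∑ Y ∈ Icc 1 N, ((B (v Y)).card : ℝ)) /
      (N * T)) + l) := by
    have e1 := pat_cs N hN (fun Y => ((B (v Y)).card : ℝ) / T) (fun Y => by positivity)
    have e2 : ∑ Y ∈ Icc 1 N, b (v Y) = ∑ Y ∈ Icc 1 N, Real.sqrt (((B (v Y)).card : ℝ) / T) +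
        N * l := by
      rw [hb, sum_add_distrib]
      simp
    rw [e2]
    rw [← sum_div, div_div, mul_comm T (N : ℝ)] at e1
    linarith
  calc ∑ Y ∈ Icc 1 N, ∑ θ ∈ Θ.filter (fun θ => bad θ (v Y)), w θ Y
      = ∑ Y ∈ Icc 1 N, ∑ θ ∈ B (v Y), w θ Y := by rw [hB]
    _ ≤ ∑ Y ∈ Icc 1 N, (R * T * b (v Y) +
        ∑ u ∈ V, (∑ θ ∈ B u, w θ Y) ^ k / (R * T * b u) ^ (k - 1)) := sum_le_sum h1
    _ = R * T * ∑ Y ∈ Icc 1 N, b (v Y) + ∑ Y ∈ Icc 1 N,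
        ∑ u ∈ V, (∑ θ ∈ B u, w θ Y) ^ k / (R * T * b u) ^ (k - 1) := by
        rw [sum_add_distrib, ← mul_sum]
    _ ≤ R * T * (N * (Real.sqrt ((∑ Y ∈ Icc 1 N, ((B (v Y)).card : ℝ)) / (N * T)) + l)) +
        T * N * (2 * C * 3 ^ t / R ^ (k - 1)) := by
        have := mul_le_mul_of_nonneg_left h3 (mul_pos hR hT).le
        linarith
    _ = T * N * (R * (Real.sqrt ((∑ Y ∈ Icc 1 N, ((B (v Y)).card : ℝ)) / (N * T)) + l) +
        2 * C * 3 ^ t / R ^ (k - 1)) := by ring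
    _ = _ := by rw [hB]

end Pool.BMG
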