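import Mathlib
import Pool.Agent.BMG.LD
import Pool.Agent.BMG.Pat

/-!
# BMG/Sub: the subsampling argument (abstract)

`Θ` finite, `#Θ ≤ T`, `w θ Y ≥ 0` with the moment hypothesis of `Pat` (exponent `k ≥ 2`), `a θ j ∈ [-1,1]`,
`u Y j ∈ {-1,0,1}`, and for every `θ ∈ Θ`: `∑_{Y≤N} |∑_{j<J} a θ j u Y j| ≤ δ J N`. Then, with `t = (k-1) r`, `0 < ε ≤ 1`:
`∑_{θ∈Θ} ∑_{Y≤N} w θ Y |(1/J) ∑_{j<J} a θ j u Y j| ≤ ε ∑_θ ∑_Y w θ Y +
   T N (9^r (√(2 e^{-ε²t/8} + 4δ/ε) + l) + 2C/3^t)`.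

Proof. `x = a θ j u Y j ∈ [-1,1]`. For `t ≥ 1` (if `t = 0`, i.e. `r = 0`, the right side is `≥ T N · 2C` and
`∑∑ w ≤ N T C^{1/k} …`; it is simpler to assume `1 ≤ r`, which is a hypothesis):
`(1/J) ∑_{j<J} x_j = J^{-t} ∑_{s : Fin t → Fin J} (1/t) ∑_i x_{s i}`, so its absolute value is at most
`J^{-t} ∑_s |(1/t) ∑_i x_{s i}| ≤ ε + J^{-t} ∑_s 1[|∑_i x_{s i}| > ε t]` (as `|(1/t) ∑| ≤ 1`). Hence the left side is at
most `ε ∑∑ w + J^{-t} ∑_s ∑_{Y≤N} ∑_{θ∈Θ : |∑_i a θ (s i) u Y (s i)| > ε t} w θ Y`. For fixed `s` use `pat` with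
`v Y = fun i => u Y (s i)`, `bad θ v = (ε t < |∑_i a θ (s i) v i|)`, `R = 9^r`: `3^t/R^{k-1} = 3^t/9^t... ` precisely
`R^{k-1} = 9^{(k-1) r} = 9^t`, so `2C 3^t/R^{k-1} = 2C/3^t`. It is at most `T N (9^r(√p_s + l) + 2C/3^t)`, with
`p_s = (1/(N T)) ∑_Y #{θ ∈ Θ : bad}`. Average over `s`: `J^{-t} ∑_s √p_s ≤ √(J^{-t} ∑_s p_s)` (Cauchy–Schwarz) and
`∑_s p_s = (1/(N T)) ∑_{θ∈Θ} ∑_s #{Y : bad} ≤ (1/(N T)) #Θ J^t N (2e^{-ε²t/8} + 4δ/ε)` by `ld`. (`N = 0` is trivial.)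
-/

set_option autoImplicit false

namespace Pool.BMG

open Finset

namespace SubAux

lemma sum_coord (J t : ℕ) (f : ℕ → ℝ) (i : Fin t) :
    ∑ s : Fin t → Fin J, f (s i : ℕ) = (J : ℝ) ^ (t - 1) * ∑ j ∈ range J, f j := by
  have h := Finset.prod_univ_sum (fun _ : Fin t => (univ : Finset (Fin J)))
    (fun i' j => if i' = i then f (j : ℕ) else (1 : ℝ))
  rw [Fintype.piFinset_univ] at h
  have h1 : ∀ s : Fin t → Fin J, ∏ i', (if i' = i then f (s i' : ℕ) else (1 : ℝ)) = f (s i : ℕ) := by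
    intro s
    rw [Finset.prod_ite_eq' univ i (fun i' => f (s i' : ℕ))]
    simp
  simp only [h1] at h
  rw [← h, ← Finset.mul_prod_erase univ _ (Finset.mem_univ i)]
  have h2 : ∏ x ∈ univ.erase i, ∑ j : Fin J, (if x = i then f (j : ℕ) else (1 : ℝ)) =
      (J : ℝ) ^ (t - 1) := by
    rw [Finset.prod_congr rfl (g := fun _ => (J : ℝ))]
    · rw [Finset.prod_const, Finset.card_erase_of_mem (Finset.mem_univ i), Finset.card_univ,
        Fintype.card_fin]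
    · intro x hx
      rw [Finset.mem_erase] at hx
      simp [hx.1]
  rw [h2, mul_comm]
  congr 1
  simp only [if_true]
  rw [Finset.sum_range]

lemma point (J t : ℕ) (hJ : 1 ≤ J) (ht : 1 ≤ t) (x : ℕ → ℝ) (hx : ∀ j, |x j| ≤ 1) (ε : ℝ) (hε : 0 < ε) :
    |(1 / (J : ℝ)) * ∑ j ∈ range J, x j| ≤ ε + (1 / (J : ℝ) ^ t) *
      ∑ s : Fin t → Fin J, (if ε * t < |∑ i, x (s i : ℕ)| then (1 : ℝ) else 0) := by
  have hJ0 : (0 : ℝ) < J := by exact_mod_cast hJ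
  have ht0 : (0 : ℝ) < t := by exact_mod_cast ht
  have h1 : ∑ s : Fin t → Fin J, ∑ i, x (s i : ℕ) =
      (t : ℝ) * ((J : ℝ) ^ (t - 1) * ∑ j ∈ range J, x j) := by
    rw [Finset.sum_comm]
    simp only [sum_coord J t x]
    rw [Finset.sum_const, Finset.card_univ, Fintype.card_fin, nsmul_eq_mul]
  have h2 : ∀ s : Fin t → Fin J, |∑ i, x (s i : ℕ)| ≤
      ε * t + t * (if ε * t < |∑ i, x (s i : ℕ)| then (1 : ℝ) else 0) := by
    intro s
    split_ifs with h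
    · have h3 : |∑ i, x (s i : ℕ)| ≤ t := by
        refine (Finset.abs_sum_le_sum_abs _ _).trans ?_
        refine (Finset.sum_le_sum fun i _ => hx _).trans ?_
        rw [Finset.sum_const, Finset.card_univ, Fintype.card_fin, nsmul_eq_mul, mul_one]
      have : 0 ≤ ε * t := by positivity
      linarith
    · rw [not_lt] at h
      linarith
  have hpow : (J : ℝ) ^ t = J * (J : ℝ) ^ (t - 1) := by
    rw [← pow_succ']
    congr 1
    omega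
  have hP : (0 : ℝ) < (J : ℝ) ^ (t - 1) := by positivity
  have h4 : (t : ℝ) * ((J : ℝ) ^ (t - 1) * |∑ j ∈ range J, x j|) ≤
      (J : ℝ) ^ t * (ε * t) + t * ∑ s : Fin t → Fin J,
        (if ε * t < |∑ i, x (s i : ℕ)| then (1 : ℝ) else 0) := by
    calc (t : ℝ) * ((J : ℝ) ^ (t - 1) * |∑ j ∈ range J, x j|)
        = |(t : ℝ) * ((J : ℝ) ^ (t - 1) * ∑ j ∈ range J, x j)| := by
          rw [abs_mul, abs_mul, abs_of_pos ht0, abs_of_pos hP]
      _ = |∑ s : Fin t → Fin J, ∑ i, x (s i : ℕ)| := by rw [h1]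
      _ ≤ ∑ s : Fin t → Fin J, |∑ i, x (s i : ℕ)| := Finset.abs_sum_le_sum_abs _ _
      _ ≤ ∑ s : Fin t → Fin J, (ε * t + t * (if ε * t < |∑ i, x (s i : ℕ)| then (1 : ℝ) else 0)) :=
          Finset.sum_le_sum fun s _ => h2 s
      _ = (J : ℝ) ^ t * (ε * t) + t * ∑ s : Fin t → Fin J,
        (if ε * t < |∑ i, x (s i : ℕ)| then (1 : ℝ) else 0) := by
          rw [Finset.sum_add_distrib, Finset.sum_const, ← Finset.mul_sum, Finset.card_univ,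
            Fintype.card_fun, Fintype.card_fin, Fintype.card_fin, nsmul_eq_mul]
          push_cast
          ring
  rw [abs_mul, abs_of_pos (by positivity : (0 : ℝ) < 1 / J)]
  have h5 : ∀ A B : ℝ, (t : ℝ) * ((J : ℝ) ^ (t - 1) * A) ≤ (J : ℝ) ^ t * (ε * t) + t * B →
      1 / (J : ℝ) * A ≤ ε + 1 / (J : ℝ) ^ t * B := by
    intro A B h
    have h6 : (t * (J : ℝ) ^ t) * (1 / (J : ℝ) * A) ≤ (t * (J : ℝ) ^ t) * (ε + 1 / (J : ℝ) ^ t * B) := by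
      have e1 : (t * (J : ℝ) ^ t) * (1 / (J : ℝ) * A) = (t : ℝ) * ((J : ℝ) ^ (t - 1) * A) := by
        rw [hpow]
        field_simp
      have e2 : (t * (J : ℝ) ^ t) * (ε + 1 / (J : ℝ) ^ t * B) = (J : ℝ) ^ t * (ε * t) + t * B := by
        field_simp
      rw [e1, e2]
      exact h
    exact le_of_mul_le_mul_left h6 (by positivity)
  exact h5 _ _ h4

end SubAux

open SubAux

theorem sub_main {ι : Type*} [DecidableEq ι] (Θ : Finset ι) (N J k r : ℕ) (hJ : 1 ≤ J) (hk : 2 ≤ k) (hr : 1 ≤ r)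
    (w : ι → ℕ → ℝ) (hw : ∀ θ Y, 0 ≤ w θ Y) (a : ι → ℕ → ℝ) (ha : ∀ θ j, |a θ j| ≤ 1)
    (u : ℕ → ℕ → ℤ) (hu : ∀ Y j, u Y j = -1 ∨ u Y j = 0 ∨ u Y j = 1)
    (ε δ C T l : ℝ) (hε : 0 < ε) (hε1 : ε ≤ 1) (hδ : 0 ≤ δ) (hC : 0 < C) (hT : 0 < T)
    (hl : 0 < l) (hl1 : l ≤ 1) (hΘ : (Θ.card : ℝ) ≤ T)
    (hmom : ∀ B ⊆ Θ, ∑ Y ∈ Icc 1 N, (∑ θ ∈ B, w θ Y) ^ k ≤
      C * N * T ^ k * (Real.sqrt ((B.card : ℝ) / T) + l) ^ k)
    (hx : ∀ θ ∈ Θ, ∑ Y ∈ Icc 1 N, |∑ j ∈ range J, a θ j * (u Y j : ℝ)| ≤ δ * J * N) :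
    ∑ θ ∈ Θ, ∑ Y ∈ Icc 1 N, w θ Y * |(1 / (J : ℝ)) * ∑ j ∈ range J, a θ j * (u Y j : ℝ)| ≤
      ε * ∑ θ ∈ Θ, ∑ Y ∈ Icc 1 N, w θ Y +
      T * N * (9 ^ r * (Real.sqrt (2 * Real.exp (-(ε ^ 2 * (((k - 1) * r : ℕ) : ℝ) / 8)) + 4 / ε * δ) + l) +
        2 * C / 3 ^ ((k - 1) * r)) := by
  classical
  have hJ0 : (0 : ℝ) < J := by exact_mod_cast hJ
  obtain ⟨t, htdef⟩ : ∃ t, t = (k - 1) * r := ⟨_, rfl⟩
  rw [← htdef]
  have ht : 1 ≤ t := by
    rw [htdef]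
    exact Nat.mul_pos (by omega) (by omega)
  rcases Nat.eq_zero_or_pos N with hN | hN
  · subst hN
    simp
  have hN0 : (0 : ℝ) < N := by exact_mod_cast hN
  have hPt : (0 : ℝ) < (J : ℝ) ^ t := by positivity
  have hxx : ∀ θ Y j, |a θ j * (u Y j : ℝ)| ≤ 1 := by
    intro θ Y j
    rw [abs_mul]
    have h1 : |(u Y j : ℝ)| ≤ 1 := by
      rcases hu Y j with h | h | h <;> rw [h] <;> simp
    exact mul_le_one₀ (ha θ j) (abs_nonneg _) h1
  -- the bad set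
  set bad : ι → ℕ → (Fin t → Fin J) → Prop :=
    fun θ Y s => ε * t < |∑ i, a θ (s i : ℕ) * (u Y (s i : ℕ) : ℝ)| with hbad
  set Q : ℝ := 2 * Real.exp (-(ε ^ 2 * (t : ℝ) / 8)) + 4 / ε * δ with hQ
  have hQ0 : 0 ≤ Q := by positivity
  -- step 1
  have step1 : ∑ θ ∈ Θ, ∑ Y ∈ Icc 1 N, w θ Y * |(1 / (J : ℝ)) * ∑ j ∈ range J, a θ j * (u Y j : ℝ)| ≤
      ε * ∑ θ ∈ Θ, ∑ Y ∈ Icc 1 N, w θ Y + (1 / (J : ℝ) ^ t) * ∑ s : Fin t → Fin J,
        ∑ Y ∈ Icc 1 N, ∑ θ ∈ Θ.filter (fun θ => bad θ Y s), w θ Y := by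
    have e1 : ∀ θ Y, w θ Y * |(1 / (J : ℝ)) * ∑ j ∈ range J, a θ j * (u Y j : ℝ)| ≤
        ε * w θ Y + (1 / (J : ℝ) ^ t) * ∑ s : Fin t → Fin J, (if bad θ Y s then w θ Y else 0) := by
      intro θ Y
      have h1 := point J t hJ ht (fun j => a θ j * (u Y j : ℝ)) (hxx θ Y) ε hε
      have h2 := mul_le_mul_of_nonneg_left h1 (hw θ Y)
      refine h2.trans (le_of_eq ?_)
      rw [mul_add, mul_comm (w θ Y) ε]
      congr 1
      rw [mul_left_comm, Finset.mul_sum]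
      congr 1
      refine Finset.sum_congr rfl fun s _ => ?_
      simp only [hbad]
      split_ifs <;> simp
    refine (Finset.sum_le_sum fun θ _ => Finset.sum_le_sum fun Y _ => e1 θ Y).trans (le_of_eq ?_)
    simp only [Finset.sum_add_distrib, ← Finset.mul_sum]
    congr 2
    have e2 : ∀ (θ : ι), ∑ Y ∈ Icc 1 N, ∑ s : Fin t → Fin J, (if bad θ Y s then w θ Y else 0) =
        ∑ s : Fin t → Fin J, ∑ Y ∈ Icc 1 N, (if bad θ Y s then w θ Y else 0) :=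
      fun θ => Finset.sum_comm
    simp only [e2]
    rw [Finset.sum_comm]
    refine Finset.sum_congr rfl fun s _ => ?_
    rw [Finset.sum_comm]
    refine Finset.sum_congr rfl fun Y _ => ?_
    rw [Finset.sum_filter]
  refine step1.trans (add_le_add le_rfl ?_)
  -- step 2: pat for each s
  set p : (Fin t → Fin J) → ℝ := fun s =>
    (∑ Y ∈ Icc 1 N, ((Θ.filter (fun θ => bad θ Y s)).card : ℝ)) / (N * T) with hp
  have hp0 : ∀ s, 0 ≤ p s := fun s => by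
    simp only [hp]
    positivity
  have step2 : ∀ s : Fin t → Fin J, ∑ Y ∈ Icc 1 N, ∑ θ ∈ Θ.filter (fun θ => bad θ Y s), w θ Y ≤
      T * N * (9 ^ r * (Real.sqrt (p s) + l) + 2 * C / 3 ^ t) := by
    intro s
    have h1 := pat Θ N t k (by omega) w hw (fun Y i => u Y (s i : ℕ)) (fun Y i => hu Y _)
      (fun θ v => ε * t < |∑ i, a θ (s i : ℕ) * (v i : ℝ)|) C T l (9 ^ r) hC hT hl hl1
      (by positivity) hΘ hmom
    refine h1.trans (le_of_eq ?_)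
    congr 2
    have e3 : ((9 : ℝ) ^ r) ^ (k - 1) = 3 ^ t * 3 ^ t := by
      rw [← pow_mul, mul_comm r (k - 1), ← htdef, ← mul_pow]
      norm_num
    rw [e3]
    field_simp
  -- step 3: average over s
  have hcardS : ((univ : Finset (Fin t → Fin J)).card : ℝ) = (J : ℝ) ^ t := by
    rw [Finset.card_univ, Fintype.card_fun, Fintype.card_fin, Fintype.card_fin]
    push_cast
    rfl
  have step3 : ∑ s : Fin t → Fin J, p s ≤ (J : ℝ) ^ t * Q := by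
    have e1 : ∑ s : Fin t → Fin J, p s = (∑ θ ∈ Θ, ∑ s : Fin t → Fin J,
        (((Icc 1 N).filter (fun Y => bad θ Y s)).card : ℝ)) / (N * T) := by
      simp only [hp]
      rw [← Finset.sum_div]
      congr 1
      rw [Finset.sum_comm' (s := Θ) (t := fun _ => univ) (s' := fun _ => Θ) (t' := univ)
        (by simp)]
      refine Finset.sum_congr rfl fun s _ => ?_
      simp only [Finset.card_filter]
      push_cast
      rw [Finset.sum_comm]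
    rw [e1, div_le_iff₀ (by positivity)]
    have e2 : ∀ θ ∈ Θ, ∑ s : Fin t → Fin J, (((Icc 1 N).filter (fun Y => bad θ Y s)).card : ℝ) ≤
        (J : ℝ) ^ t * N * Q := by
      intro θ hθ
      exact ld N J t hJ (fun Y j => a θ j * (u Y j : ℝ)) (hxx θ) ε δ hε hε1 (hx θ hθ)
    refine (Finset.sum_le_sum e2).trans ?_
    rw [Finset.sum_const, nsmul_eq_mul]
    have e3 : 0 ≤ (J : ℝ) ^ t * N * Q := by positivity
    calc (Θ.card : ℝ) * ((J : ℝ) ^ t * N * Q) ≤ T * ((J : ℝ) ^ t * N * Q) :=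
          mul_le_mul_of_nonneg_right hΘ e3
      _ = (J : ℝ) ^ t * Q * (N * T) := by ring
  have step4 : ∑ s : Fin t → Fin J, Real.sqrt (p s) ≤ (J : ℝ) ^ t * Real.sqrt Q := by
    have h1 := sq_sum_le_card_mul_sum_sq (s := (univ : Finset (Fin t → Fin J)))
      (f := fun s => Real.sqrt (p s))
    rw [hcardS] at h1
    simp only [Real.sq_sqrt (hp0 _)] at h1
    have h2 : (∑ s : Fin t → Fin J, Real.sqrt (p s)) ^ 2 ≤ ((J : ℝ) ^ t * Real.sqrt Q) ^ 2 := by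
      refine h1.trans ?_
      rw [mul_pow, Real.sq_sqrt hQ0, sq, mul_assoc]
      exact mul_le_mul_of_nonneg_left step3 hPt.le
    exact (sq_le_sq₀ (Finset.sum_nonneg fun _ _ => Real.sqrt_nonneg _) (by positivity)).1 h2
  calc (1 / (J : ℝ) ^ t) * ∑ s : Fin t → Fin J,
        ∑ Y ∈ Icc 1 N, ∑ θ ∈ Θ.filter (fun θ => bad θ Y s), w θ Y
      ≤ (1 / (J : ℝ) ^ t) * ∑ s : Fin t → Fin J,
        (T * N * (9 ^ r * (Real.sqrt (p s) + l) + 2 * C / 3 ^ t)) :=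
        mul_le_mul_of_nonneg_left (Finset.sum_le_sum fun s _ => step2 s) (by positivity)
    _ = (1 / (J : ℝ) ^ t) * (T * N * (9 ^ r * (∑ s : Fin t → Fin J, Real.sqrt (p s) +
          (J : ℝ) ^ t * l) + (J : ℝ) ^ t * (2 * C / 3 ^ t))) := by
        congr 1
        rw [← Finset.mul_sum, Finset.sum_add_distrib, ← Finset.mul_sum, Finset.sum_add_distrib,
          Finset.sum_const, Finset.sum_const, nsmul_eq_mul, nsmul_eq_mul, hcardS]
    _ ≤ (1 / (J : ℝ) ^ t) * (T * N * (9 ^ r * ((J : ℝ) ^ t * Real.sqrt Q +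
          (J : ℝ) ^ t * l) + (J : ℝ) ^ t * (2 * C / 3 ^ t))) := by
        refine mul_le_mul_of_nonneg_left ?_ (by positivity)
        refine mul_le_mul_of_nonneg_left ?_ (by positivity)
        refine add_le_add (mul_le_mul_of_nonneg_left (add_le_add step4 le_rfl) (by positivity)) le_rfl
    _ = T * N * (9 ^ r * (Real.sqrt Q + l) + 2 * C / 3 ^ t) := by
        field_simp

end Pool.BMG
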