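import Mathlib
import Pool.Agent.BMG.Defs

/-!
# BMG/Unf: unfolding the dilated sum into windows of bounded length

`𝒟` a finite set of positive integers `q ≤ Q`, `J ≥ 1`, `G ≥ H + Q J`, `N` with `X + h₀ + G ≤ q N` for all `q ∈ 𝒟`. Then
`∑_{n≤X} thp(n) |dilS coef h₀ H 𝒟 n| ≤ ∑_{θ∈TH 𝒟 h₀ G} ∑_{Y≤N} ww θ Y |(1/J) ∑_{j<J} aa coef h₀ H θ j muR(Y - j)|`.

Proof. Fix `n ≥ 1` and `q ∈ 𝒟`. For every `j < J` the map `h ↦ c = h + q j` is a bijection from
`{h ∈ (h₀, h₀+H] : q ∣ n + h}` onto `{c ∈ (h₀, h₀+G] : q ∣ n + c, h₀ + q j < c ≤ h₀ + q j + H}` (as `H + q j ≤ G`), with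
`coef(h) = coef(c - q j)` and `(n+h)/q = (n+c)/q - j`. So
`J ∑_{h : q ∣ n+h} coef(h) muR((n+h)/q) = ∑_{c∈(h₀,h₀+G], q ∣ n+c} ∑_{j<J} aa coef h₀ H (q,c) j · muR((n+c)/q - j)`.
Take absolute values, multiply by `thp n` and sum over `n ∈ Icc 1 X`: for fixed `θ = (q,c)` the map
`n ↦ Y = (n+c)/q` is injective on `{n ∈ Icc 1 X : q ∣ n + c}` with values in `Icc 1 N` (`q Y = n + c ≤ X + h₀ + G ≤ q N`),
and `n = q Y - c`, so `thp n = ww θ Y`. Drop the other `Y` (non-negative terms).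
-/

set_option autoImplicit false

namespace Pool.BMG

open Finset Pool.MRZ Pool.SWP

private lemma unf_shift (coef : ℕ → ℝ) (n q j H G h₀ : ℕ) (hq : 1 ≤ q) (hG : H + q * j ≤ G) :
    ∑ h ∈ Ioc h₀ (h₀ + H), (if q ∣ n + h then coef h * muR ((n + h) / q) else 0) =
      ∑ c ∈ Ioc h₀ (h₀ + G),
        if q ∣ n + c then aa coef h₀ H (q, c) j * muR ((n + c) / q - j) else 0 := by
  have hsub : Ioc (h₀ + q * j) (h₀ + H + q * j) ⊆ Ioc h₀ (h₀ + G) := by
    intro c hc
    rw [mem_Ioc] at hc ⊢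
    omega
  rw [← Finset.sum_subset hsub]
  · rw [← Finset.map_add_right_Ioc, Finset.sum_map]
    apply Finset.sum_congr rfl
    intro h hh
    rw [mem_Ioc] at hh
    simp only [addRightEmbedding_apply]
    have h1 : (q ∣ n + (h + q * j)) ↔ q ∣ n + h := by
      rw [← add_assoc]
      exact (Nat.dvd_add_left (Dvd.intro j rfl))
    by_cases h2 : q ∣ n + h
    · rw [if_pos h2, if_pos (h1.mpr h2)]
      have h3 : (n + (h + q * j)) / q - j = (n + h) / q := by
        rw [← add_assoc, Nat.add_mul_div_left _ _ hq, Nat.add_sub_cancel]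
      have h4 : aa coef h₀ H (q, h + q * j) j = coef h := by
        unfold aa
        simp only
        rw [if_pos (by constructor <;> omega)]
        congr 1
        omega
      rw [h3, h4]
    · rw [if_neg h2, if_neg (fun h => h2 (h1.mp h))]
  · intro c hc hc'
    split_ifs
    · have : aa coef h₀ H (q, c) j = 0 := by
        unfold aa
        simp only
        rw [if_neg]
        rintro ⟨h1, h2⟩
        apply hc'
        rw [mem_Ioc]
        omega
      rw [this, zero_mul]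
    · rfl

theorem unfold_le (coef : ℕ → ℝ) (X N J Q G H h₀ : ℕ) (𝒟 : Finset ℕ) (hJ : 1 ≤ J)
    (hq : ∀ q ∈ 𝒟, 1 ≤ q ∧ q ≤ Q) (hG : H + Q * J ≤ G) (hN : ∀ q ∈ 𝒟, X + h₀ + G ≤ q * N) :
    ∑ n ∈ Icc 1 X, thp n * |dilS coef h₀ H 𝒟 n| ≤
      ∑ θ ∈ TH 𝒟 h₀ G, ∑ Y ∈ Icc 1 N,
        ww θ Y * |(1 / (J : ℝ)) * ∑ j ∈ range J, aa coef h₀ H θ j * muR (Y - j)| := by
  have hJ' : (0 : ℝ) < J := by exact_mod_cast hJ
  -- the averaged identity
  have key : ∀ n : ℕ, dilS coef h₀ H 𝒟 n = ∑ q ∈ 𝒟, ∑ c ∈ Ioc h₀ (h₀ + G),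
      if q ∣ n + c then (1 / (J : ℝ)) * ∑ j ∈ range J,
        aa coef h₀ H (q, c) j * muR ((n + c) / q - j) else 0 := by
    intro n
    unfold dilS
    apply Finset.sum_congr rfl
    intro q hqD
    have e1 : ∑ h ∈ Ioc h₀ (h₀ + H), (if q ∣ n + h then coef h * muR ((n + h) / q) else 0)
        = (1 / (J : ℝ)) * ∑ j ∈ range J,
          ∑ h ∈ Ioc h₀ (h₀ + H), (if q ∣ n + h then coef h * muR ((n + h) / q) else 0) := by
      rw [Finset.sum_const, card_range, nsmul_eq_mul]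
      field_simp
    rw [e1]
    have e2 : ∑ j ∈ range J,
          ∑ h ∈ Ioc h₀ (h₀ + H), (if q ∣ n + h then coef h * muR ((n + h) / q) else 0)
        = ∑ j ∈ range J, ∑ c ∈ Ioc h₀ (h₀ + G),
        if q ∣ n + c then aa coef h₀ H (q, c) j * muR ((n + c) / q - j) else 0 := by
      apply Finset.sum_congr rfl
      intro j hj
      rw [mem_range] at hj
      apply unf_shift coef n q j H G h₀ (hq q hqD).1
      have : q * j ≤ Q * J := Nat.mul_le_mul (hq q hqD).2 hj.le
      omega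
    rw [e2, Finset.sum_comm, Finset.mul_sum]
    apply Finset.sum_congr rfl
    intro c _
    split_ifs
    · rfl
    · simp
  have habs : ∀ n : ℕ, thp n * |dilS coef h₀ H 𝒟 n| ≤ ∑ θ ∈ TH 𝒟 h₀ G,
      if θ.1 ∣ n + θ.2 then thp n * |(1 / (J : ℝ)) * ∑ j ∈ range J,
        aa coef h₀ H θ j * muR ((n + θ.2) / θ.1 - j)| else 0 := by
    intro n
    unfold TH
    rw [Finset.sum_product, key n]
    calc thp n * |∑ q ∈ 𝒟, ∑ c ∈ Ioc h₀ (h₀ + G),
      if q ∣ n + c then (1 / (J : ℝ)) * ∑ j ∈ range J,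
        aa coef h₀ H (q, c) j * muR ((n + c) / q - j) else 0|
        ≤ thp n * ∑ q ∈ 𝒟, ∑ c ∈ Ioc h₀ (h₀ + G),
          |if q ∣ n + c then (1 / (J : ℝ)) * ∑ j ∈ range J,
            aa coef h₀ H (q, c) j * muR ((n + c) / q - j) else 0| := by
          apply mul_le_mul_of_nonneg_left _ (thp_nonneg n)
          refine (Finset.abs_sum_le_sum_abs _ _).trans (Finset.sum_le_sum fun q _ => ?_)
          exact Finset.abs_sum_le_sum_abs _ _
      _ ≤ _ := by
          rw [Finset.mul_sum]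
          apply Finset.sum_le_sum
          intro q _
          rw [Finset.mul_sum]
          apply Finset.sum_le_sum
          intro c _
          simp only
          split_ifs
          · rfl
          · simp
  calc ∑ n ∈ Icc 1 X, thp n * |dilS coef h₀ H 𝒟 n|
      ≤ ∑ n ∈ Icc 1 X, ∑ θ ∈ TH 𝒟 h₀ G,
      if θ.1 ∣ n + θ.2 then thp n * |(1 / (J : ℝ)) * ∑ j ∈ range J,
        aa coef h₀ H θ j * muR ((n + θ.2) / θ.1 - j)| else 0 := Finset.sum_le_sum fun n _ => habs n
    _ = ∑ θ ∈ TH 𝒟 h₀ G, ∑ n ∈ Icc 1 X,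
      if θ.1 ∣ n + θ.2 then thp n * |(1 / (J : ℝ)) * ∑ j ∈ range J,
        aa coef h₀ H θ j * muR ((n + θ.2) / θ.1 - j)| else 0 := Finset.sum_comm
    _ ≤ _ := by
      apply Finset.sum_le_sum
      intro θ hθ
      rw [mem_TH] at hθ
      obtain ⟨hθ1, hθ2, hθ3⟩ := hθ
      have hq1 := (hq _ hθ1).1
      rw [← Finset.sum_filter]
      have hinj : Set.InjOn (fun n : ℕ => (n + θ.2) / θ.1)
          (((Icc 1 X).filter (fun n => θ.1 ∣ n + θ.2) : Finset ℕ) : Set ℕ) := by
        intro n hn m hm hnm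
        rw [mem_coe, mem_filter] at hn hm
        have h1 := Nat.mul_div_cancel' hn.2
        have h2 := Nat.mul_div_cancel' hm.2
        simp only at hnm
        rw [hnm] at h1
        omega
      have hval : ∀ n ∈ (Icc 1 X).filter (fun n => θ.1 ∣ n + θ.2),
          thp n * |(1 / (J : ℝ)) * ∑ j ∈ range J,
            aa coef h₀ H θ j * muR ((n + θ.2) / θ.1 - j)|
          = (fun Y => ww θ Y * |(1 / (J : ℝ)) * ∑ j ∈ range J,
            aa coef h₀ H θ j * muR (Y - j)|) ((n + θ.2) / θ.1) := by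
        intro n hn
        rw [mem_filter] at hn
        simp only
        congr 1
        unfold ww
        rw [Nat.mul_div_cancel' hn.2]
        congr 1
        omega
      rw [Finset.sum_congr rfl hval, ← Finset.sum_image (f := fun Y => ww θ Y *
        |(1 / (J : ℝ)) * ∑ j ∈ range J, aa coef h₀ H θ j * muR (Y - j)|) hinj]
      apply Finset.sum_le_sum_of_subset_of_nonneg
      · intro Y hY
        rw [mem_image] at hY
        obtain ⟨n, hn, rfl⟩ := hY
        rw [mem_filter, mem_Icc] at hn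
        have h1 := Nat.mul_div_cancel' hn.2
        have h3 := hN _ hθ1
        rw [mem_Icc]
        constructor
        · rw [Nat.one_le_iff_ne_zero]
          intro h0
          rw [h0] at h1
          omega
        · have : θ.1 * ((n + θ.2) / θ.1) ≤ θ.1 * N := by rw [h1]; omega
          exact Nat.le_of_mul_le_mul_left this hq1
      · intro Y _ _
        exact mul_nonneg (ww_nonneg _ _) (abs_nonneg _)

end Pool.BMG
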