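import Mathlib
import Pool.Agent.BMG.Chow
import Pool.Agent.BMG.Sub
import Pool.Agent.BMG.Mom
import Pool.Agent.BMG.Unf

/-!
# BMG/Block: the dilated sum for one block of primes

For `ε, κ > 0`, `A` there is `X₀`: for `X ≥ X₀`, `𝒟` a finite set of primes in `(P, 4P]`, `(log X)^κ ≤ P`,
`(log X)^{1+κ} ≤ #𝒟 H`, `P (log X)^κ ≤ H ≤ (log X)²`, `h₀ ≤ A X`, `|coef| ≤ 1`:
`∑_{n≤X} thp(n) |dilS coef h₀ H 𝒟 n| ≤ ε (#𝒟/P) H X`.

Proof. Parameters. `B = 2(A+4)`. `C₁ ≥ 1` from `mom 1 κ`; `ε₁ = min 1 (ε/(16 B C₁))`, i.e. `2 B C₁ ε₁ ≤ ε/8`;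
`k = ⌈48/ε₁²⌉₊ + 2` (so `ε₁²(k-1)/16 ≥ 3`); `C_k ≥ 1` from `mom k κ`; `t = (k-1) r` with `r ≥ 1` so large that
`B (9^r √2 e^{-3r} + 2C_k/3^t) ≤ ε/8` (`9 < e³`, `t ≥ r`); then `√(2e^{-ε₁²t/8}) = √2 e^{-ε₁² t/16} ≤ √2 e^{-3r}`; then
`δ > 0` with `B 9^r √(4δ/ε₁) ≤ ε/8`; `J, N₀` from `chow δ`. Everything so far does not depend on `X`.
Let `X` be large. `𝒟` is non-empty (`#𝒟 H > 0`). `Q = 4P`, `G = H + 4PJ ≤ 2H` (since `4J ≤ (log X)^κ`), `N = ⌊(X + h₀ + G)/P⌋ + 1`: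
`q N ≥ X + h₀ + G` for `q > P`; `√X ≤ X/P ≤ N ≤ (A+3) X/P + 1 ≤ (A+4)X/P ≤ X²` (`P ≤ (log X)²`), `N ≥ N₀`. `T = #𝒟 G`,
`T ≥ #𝒟 H ≥ (log X)^{1+κ}`, `l = log X/T ≤ (log X)^{-κ}` (so `l ≤ 1`, and `B C_k 9^r l ≤ ε/8` for large `X`), `G ≥ (log X)^κ`,
`h₀ + G ≤ X²`, `q⁴ ≤ (4(log X)²)⁴ ≤ X`.
(1) `unfold_le`. Split `TH = ND ∪ {θ : q ∣ c}`.
(2) degenerate `θ`: if `q ∣ c` and `q Y - c = q (Y - c/q)` is prime then `Y = c/q + 1` and the weight is `log q ≤ log X`; the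
window average is `≤ 1` in absolute value. Total `≤ #𝒟 G log X ≤ 2 #𝒟 H log X ≤ (ε/8)(#𝒟/P) H X` for large `X`.
(3) `θ ∈ ND`: `sub_main` with `Θ = ND 𝒟 h₀ G` (`card_ND_le`), `w = ww`, `a θ j = aa coef h₀ H θ j`, `u Y j = μ(Y - j)`,
`C = C_k`. The hypothesis `hx`: with `b_Y` the sign of `∑_j a_j μ(Y-j)`: `∑_Y |∑_j a_j μ(Y-j)| = ∑_j a_j ∑_Y b_Y μ(Y-j)
≤ ∑_j |∑_Y b_Y μ(Y-j)| ≤ δ J N` (`chow`). The first term: `ε₁ ∑_{θ∈ND} ∑_Y ww ≤ ε₁ C₁ N T (1 + l) ≤ 2 ε₁ C₁ N T` by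
`mom 1` with `B = ND`. Total: `≤ N T (2C₁ε₁ + 9^r(√2 e^{-3r} + √(4δ/ε₁) + l) + 2C_k/3^t)`, and
`N T ≤ ((A+4) X/P) #𝒟 2H = B (#𝒟/P) H X`. Sum of all: `≤ ε (#𝒟/P) H X`.
-/

set_option autoImplicit false

namespace Pool.BMG

open Finset Pool.MRZ Pool.SWP

lemma block_hx {δ : ℝ} {J N : ℕ}
    (hch : ∀ b : ℕ → ℝ, (∀ n, |b n| ≤ 1) →
      ∑ j ∈ range J, |∑ Y ∈ Icc 1 N, b Y * muR (Y - j)| ≤ δ * J * N)
    (a : ℕ → ℝ) (ha : ∀ j, |a j| ≤ 1) :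
    ∑ Y ∈ Icc 1 N, |∑ j ∈ range J, a j * muR (Y - j)| ≤ δ * J * N := by
  classical
  obtain ⟨b, hb⟩ : ∃ b : ℕ → ℝ, b = fun Y => if 0 ≤ ∑ j ∈ range J, a j * muR (Y - j) then (1 : ℝ) else -1 :=
    ⟨_, rfl⟩
  have hb1 : ∀ n, |b n| ≤ 1 := by
    intro n
    rw [hb]
    dsimp only
    split_ifs <;> simp
  have hb2 : ∀ Y, |∑ j ∈ range J, a j * muR (Y - j)| = b Y * ∑ j ∈ range J, a j * muR (Y - j) := by
    intro Y
    rw [hb]
    dsimp only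
    split_ifs with h
    · rw [abs_of_nonneg h, one_mul]
    · rw [abs_of_neg (not_le.mp h)]
      ring
  have h1 : ∑ Y ∈ Icc 1 N, |∑ j ∈ range J, a j * muR (Y - j)| =
      ∑ j ∈ range J, a j * ∑ Y ∈ Icc 1 N, b Y * muR (Y - j) := by
    calc ∑ Y ∈ Icc 1 N, |∑ j ∈ range J, a j * muR (Y - j)|
        = ∑ Y ∈ Icc 1 N, ∑ j ∈ range J, b Y * (a j * muR (Y - j)) := by
          apply Finset.sum_congr rfl
          intro Y _
          rw [hb2 Y, Finset.mul_sum]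
      _ = ∑ j ∈ range J, ∑ Y ∈ Icc 1 N, b Y * (a j * muR (Y - j)) := Finset.sum_comm
      _ = ∑ j ∈ range J, a j * ∑ Y ∈ Icc 1 N, b Y * muR (Y - j) := by
          apply Finset.sum_congr rfl
          intro j _
          rw [Finset.mul_sum]
          apply Finset.sum_congr rfl
          intro Y _
          ring
  rw [h1]
  refine le_trans ?_ (hch b hb1)
  apply Finset.sum_le_sum
  intro j _
  calc a j * ∑ Y ∈ Icc 1 N, b Y * muR (Y - j)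
      ≤ |a j * ∑ Y ∈ Icc 1 N, b Y * muR (Y - j)| := le_abs_self _
    _ = |a j| * |∑ Y ∈ Icc 1 N, b Y * muR (Y - j)| := abs_mul _ _
    _ ≤ 1 * |∑ Y ∈ Icc 1 N, b Y * muR (Y - j)| :=
        mul_le_mul_of_nonneg_right (ha j) (abs_nonneg _)
    _ = _ := one_mul _

lemma block_deg (q c N : ℕ) (hq : q.Prime) (hqc : q ∣ c) :
    ∑ Y ∈ Icc 1 N, ww (q, c) Y ≤ Real.log q := by
  classical
  obtain ⟨m, rfl⟩ := hqc
  have hlog : 0 ≤ Real.log q := Real.log_natCast_nonneg q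
  have h1 : ∀ Y ∈ Icc 1 N, ww (q, q * m) Y ≤ if Y = m + 1 then Real.log q else 0 := by
    intro Y _
    unfold ww
    dsimp only
    rw [← Nat.mul_sub]
    split_ifs with h
    · subst h
      simpa using thp_le (q * (m + 1 - m))
    · unfold thp
      split_ifs with hp
      · exfalso
        rcases (Nat.prime_mul_iff.mp hp) with ⟨_, h2⟩ | ⟨_, h2⟩
        · apply h
          omega
        · exact hq.one_lt.ne' h2
      · exact le_refl _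
  calc ∑ Y ∈ Icc 1 N, ww (q, q * m) Y ≤ ∑ Y ∈ Icc 1 N, if Y = m + 1 then Real.log q else 0 :=
        Finset.sum_le_sum h1
    _ ≤ Real.log q := by
        rw [Finset.sum_ite_eq']
        split_ifs
        · exact le_refl _
        · exact hlog

lemma block_avg_le (J : ℕ) (hJ : 1 ≤ J) (a : ℕ → ℝ) (ha : ∀ j, |a j| ≤ 1) (Y : ℕ) :
    |(1 / (J : ℝ)) * ∑ j ∈ range J, a j * muR (Y - j)| ≤ 1 := by
  have hJ0 : (0 : ℝ) < J := by exact_mod_cast hJ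
  rw [abs_mul, abs_of_nonneg (by positivity : (0 : ℝ) ≤ 1 / (J : ℝ))]
  have h1 : |∑ j ∈ range J, a j * muR (Y - j)| ≤ J := by
    calc |∑ j ∈ range J, a j * muR (Y - j)| ≤ ∑ j ∈ range J, |a j * muR (Y - j)| :=
          Finset.abs_sum_le_sum_abs _ _
      _ ≤ ∑ j ∈ range J, (1 : ℝ) := by
          apply Finset.sum_le_sum
          intro j _
          rw [abs_mul]
          calc |a j| * |muR (Y - j)| ≤ 1 * 1 :=
                mul_le_mul (ha j) (abs_muR_le _) (abs_nonneg _) zero_le_one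
            _ = 1 := one_mul 1
      _ = J := by simp
  calc 1 / (J : ℝ) * |∑ j ∈ range J, a j * muR (Y - j)| ≤ 1 / (J : ℝ) * J :=
        mul_le_mul_of_nonneg_left h1 (by positivity)
    _ = 1 := by field_simp

lemma block_sqrt_add (a b : ℝ) (ha : 0 ≤ a) (hb : 0 ≤ b) :
    Real.sqrt (a + b) ≤ Real.sqrt a + Real.sqrt b := by
  apply Real.sqrt_le_iff.mpr
  refine ⟨by positivity, ?_⟩
  have h1 := Real.sq_sqrt ha
  have h2 := Real.sq_sqrt hb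
  have h3 : 0 ≤ Real.sqrt a * Real.sqrt b := by positivity
  nlinarith

lemma block_r (B Ck η x : ℝ) (hB : 0 < B) (hCk : 0 < Ck) (hη : 0 < η) (k : ℕ) (hk : 2 ≤ k)
    (hx : 144 ≤ x * ((k - 1 : ℕ) : ℝ)) : ∃ r : ℕ, 1 ≤ r ∧
    B * (9 ^ r * Real.sqrt (2 * Real.exp (-(x * (((k - 1) * r : ℕ) : ℝ) / 8))) +
      2 * Ck / 3 ^ ((k - 1) * r)) ≤ η := by
  have hc : 0 < B * (2 + 2 * Ck) := by positivity
  obtain ⟨n, hn⟩ := exists_pow_lt_of_lt_one (div_pos hη hc) (by norm_num : (1 / 2 : ℝ) < 1)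
  refine ⟨n + 1, by omega, ?_⟩
  have h0 : ((1 : ℝ) / 2) ^ (n + 1) ≤ η / (B * (2 + 2 * Ck)) := by
    rw [pow_succ]
    have : (0 : ℝ) < (1 / 2) ^ n := by positivity
    linarith
  obtain ⟨r, hr⟩ : ∃ r : ℕ, r = n + 1 := ⟨_, rfl⟩
  rw [← hr] at h0 ⊢
  have he9 : (50 : ℝ) ≤ Real.exp 9 := by
    have := Real.quadratic_le_exp_of_nonneg (by norm_num : (0 : ℝ) ≤ 9)
    linarith
  have hexp : Real.exp (-9) ≤ 1 / 50 := by
    rw [Real.exp_neg, ← one_div]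
    exact one_div_le_one_div_of_le (by norm_num) he9
  have h1 : Real.sqrt (2 * Real.exp (-(x * (((k - 1) * r : ℕ) : ℝ) / 8))) ≤ 2 * (Real.exp (-9)) ^ r := by
    apply Real.sqrt_le_iff.mpr
    refine ⟨by positivity, ?_⟩
    have e1 : (Real.exp (-9)) ^ r * (Real.exp (-9)) ^ r = Real.exp (-(18 * (r : ℝ))) := by
      rw [← Real.exp_nat_mul, ← Real.exp_add]
      congr 1
      ring
    have e2 : Real.exp (-(x * (((k - 1) * r : ℕ) : ℝ) / 8)) ≤ Real.exp (-(18 * (r : ℝ))) := by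
      apply Real.exp_le_exp.mpr
      have : 144 * (r : ℝ) ≤ x * ((k - 1 : ℕ) : ℝ) * r :=
        mul_le_mul_of_nonneg_right hx (by positivity)
      have e3 : (((k - 1) * r : ℕ) : ℝ) = ((k - 1 : ℕ) : ℝ) * r := by push_cast; ring
      rw [e3]
      linarith
    have e4 : 0 < Real.exp (-(18 * (r : ℝ))) := Real.exp_pos _
    calc 2 * Real.exp (-(x * (((k - 1) * r : ℕ) : ℝ) / 8)) ≤ 2 * Real.exp (-(18 * (r : ℝ))) := by linarith
      _ ≤ 4 * Real.exp (-(18 * (r : ℝ))) := by linarith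
      _ = (2 * (Real.exp (-9)) ^ r) ^ 2 := by rw [← e1]; ring
  have h2 : (9 : ℝ) ^ r * (2 * (Real.exp (-9)) ^ r) ≤ 2 * (1 / 2) ^ r := by
    have : (9 : ℝ) ^ r * (Real.exp (-9)) ^ r ≤ (1 / 2) ^ r := by
      rw [← mul_pow]
      apply pow_le_pow_left₀ (by positivity)
      linarith
    nlinarith
  have h3 : 2 * Ck / 3 ^ ((k - 1) * r) ≤ 2 * Ck * (1 / 2) ^ r := by
    rw [div_eq_mul_inv]
    apply mul_le_mul_of_nonneg_left _ (by positivity)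
    have e1 : (2 : ℝ) ^ r ≤ 3 ^ ((k - 1) * r) := by
      calc (2 : ℝ) ^ r ≤ 3 ^ r := pow_le_pow_left₀ (by norm_num) (by norm_num) _
        _ ≤ 3 ^ ((k - 1) * r) := by
          apply pow_le_pow_right₀ (by norm_num)
          have : 1 ≤ k - 1 := by omega
          nlinarith
    calc ((3 : ℝ) ^ ((k - 1) * r))⁻¹ ≤ ((2 : ℝ) ^ r)⁻¹ := inv_anti₀ (by positivity) e1
      _ = (1 / 2) ^ r := by rw [one_div, inv_pow]
  calc B * (9 ^ r * Real.sqrt (2 * Real.exp (-(x * (((k - 1) * r : ℕ) : ℝ) / 8))) +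
        2 * Ck / 3 ^ ((k - 1) * r))
      ≤ B * (2 * (1 / 2) ^ r + 2 * Ck * (1 / 2) ^ r) := by
        apply mul_le_mul_of_nonneg_left _ hB.le
        have : (9 : ℝ) ^ r * Real.sqrt (2 * Real.exp (-(x * (((k - 1) * r : ℕ) : ℝ) / 8))) ≤
            9 ^ r * (2 * (Real.exp (-9)) ^ r) := mul_le_mul_of_nonneg_left h1 (by positivity)
        linarith
    _ = (B * (2 + 2 * Ck)) * (1 / 2) ^ r := by ring
    _ ≤ (B * (2 + 2 * Ck)) * (η / (B * (2 + 2 * Ck))) := mul_le_mul_of_nonneg_left h0 hc.le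
    _ = η := by field_simp

lemma block_growth (κ M : ℝ) (hκ : 0 < κ) (hM : 1 ≤ M) : ∃ X₀ : ℕ, ∀ X : ℕ, X₀ ≤ X →
    M ≤ (Real.log X) ^ κ ∧ 1 ≤ Real.log X ∧ M * (Real.log X) ^ 8 ≤ X := by
  have h1 : ∀ᶠ x : ℝ in Filter.atTop, M ≤ (Real.log x) ^ κ :=
    ((tendsto_rpow_atTop hκ).comp Real.tendsto_log_atTop).eventually_ge_atTop M
  have h2 : ∀ᶠ x : ℝ in Filter.atTop, 1 ≤ Real.log x :=
    Real.tendsto_log_atTop.eventually_ge_atTop 1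
  have h3 : ∀ᶠ x : ℝ in Filter.atTop, M * (Real.log x) ^ 8 ≤ x := by
    have h := (Real.isLittleO_pow_log_id_atTop (n := 8)).def (inv_pos.mpr (lt_of_lt_of_le zero_lt_one hM))
    filter_upwards [h, Filter.eventually_gt_atTop 0, h2] with x hx hx0 hx2
    rw [Real.norm_of_nonneg (by positivity), id, Real.norm_of_nonneg hx0.le] at hx
    have hM0 : 0 < M := lt_of_lt_of_le zero_lt_one hM
    calc M * (Real.log x) ^ 8 ≤ M * (M⁻¹ * x) := mul_le_mul_of_nonneg_left hx hM0.le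
      _ = x := by field_simp
  obtain ⟨X₀, hX₀⟩ := Filter.eventually_atTop.mp
    (tendsto_natCast_atTop_atTop.eventually (h1.and (h2.and h3)))
  exact ⟨X₀, fun X hX => hX₀ X hX⟩

theorem block (ε κ : ℝ) (hε : 0 < ε) (hκ : 0 < κ) (A : ℕ) : ∃ X₀ : ℕ,
    ∀ (X P H h₀ : ℕ) (𝒟 : Finset ℕ) (coef : ℕ → ℝ), X₀ ≤ X →
    (∀ q ∈ 𝒟, q.Prime ∧ P < q ∧ q ≤ 4 * P) → (Real.log X) ^ κ ≤ P →
    (Real.log X) ^ (1 + κ) ≤ (𝒟.card : ℝ) * H → (P : ℝ) * (Real.log X) ^ κ ≤ H →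
    (H : ℝ) ≤ (Real.log X) ^ 2 → h₀ ≤ A * X → (∀ h, |coef h| ≤ 1) →
    ∑ n ∈ Icc 1 X, thp n * |dilS coef h₀ H 𝒟 n| ≤ ε * ((𝒟.card : ℝ) / P) * H * X := by
  classical
  -- constants
  obtain ⟨B, hBdef⟩ : ∃ B : ℝ, B = 2 * ((A : ℝ) + 4) := ⟨_, rfl⟩
  have hB : 0 < B := by rw [hBdef]; positivity
  obtain ⟨C₁, X₁, hC₁, hmom1⟩ := mom 1 (le_refl 1) κ hκ
  have hC₁0 : 0 < C₁ := lt_of_lt_of_le zero_lt_one hC₁
  obtain ⟨ε₁, hε₁def⟩ : ∃ ε₁ : ℝ, ε₁ = min 1 (ε / (16 * B * C₁)) := ⟨_, rfl⟩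
  have hε₁ : 0 < ε₁ := by rw [hε₁def]; exact lt_min one_pos (by positivity)
  have hε₁1 : ε₁ ≤ 1 := by rw [hε₁def]; exact min_le_left _ _
  have hE1 : B * (2 * C₁ * ε₁) ≤ ε / 8 := by
    have h : ε₁ ≤ ε / (16 * B * C₁) := by rw [hε₁def]; exact min_le_right _ _
    calc B * (2 * C₁ * ε₁) = (2 * B * C₁) * ε₁ := by ring
      _ ≤ (2 * B * C₁) * (ε / (16 * B * C₁)) := mul_le_mul_of_nonneg_left h (by positivity)
      _ = ε / 8 := by field_simp; ring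
  obtain ⟨m, hm⟩ := exists_nat_ge (144 / ε₁ ^ 2)
  obtain ⟨k, hkdef⟩ : ∃ k : ℕ, k = m + 2 := ⟨_, rfl⟩
  have hk : 2 ≤ k := by omega
  have hkx : 144 ≤ ε₁ ^ 2 * ((k - 1 : ℕ) : ℝ) := by
    have e : k - 1 = m + 1 := by omega
    rw [e]
    push_cast
    have h := (div_le_iff₀ (by positivity : 0 < ε₁ ^ 2)).mp hm
    have h2 : 0 ≤ ε₁ ^ 2 := sq_nonneg ε₁
    linarith [mul_comm (m : ℝ) (ε₁ ^ 2), mul_add (ε₁ ^ 2) (m : ℝ) 1]
  obtain ⟨Ck, Xk, hCk, hmomk⟩ := mom k (by omega) κ hκ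
  have hCk0 : 0 < Ck := lt_of_lt_of_le zero_lt_one hCk
  obtain ⟨r, hr, hr2⟩ := block_r B Ck (ε / 8) (ε₁ ^ 2) hB hCk0 (by positivity) k hk hkx
  obtain ⟨δ, hδdef⟩ : ∃ δ : ℝ, δ = ε₁ / 4 * (ε / (8 * B * 9 ^ r)) ^ 2 := ⟨_, rfl⟩
  have hδ : 0 < δ := by rw [hδdef]; positivity
  have hδ2 : Real.sqrt (4 / ε₁ * δ) = ε / (8 * B * 9 ^ r) := by
    have : 4 / ε₁ * δ = (ε / (8 * B * 9 ^ r)) ^ 2 := by rw [hδdef]; field_simp
    rw [this, Real.sqrt_sq (by positivity)]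
  obtain ⟨J, N₀, hJ, hchow⟩ := chow δ hδ
  obtain ⟨M, hMdef⟩ : ∃ M : ℝ, M = 256 + 4 * J + 8 * B * 9 ^ r / ε + N₀ ^ 2 + (A + 4) + 16 / ε := ⟨_, rfl⟩
  have hm1 : (0 : ℝ) ≤ J := Nat.cast_nonneg _
  have hm2 : 0 ≤ 8 * B * 9 ^ r / ε := by positivity
  have hm3 : (0 : ℝ) ≤ (N₀ : ℝ) ^ 2 := by positivity
  have hm4 : (0 : ℝ) ≤ A := Nat.cast_nonneg _
  have hm5 : 0 ≤ 16 / ε := by positivity
  have hM1 : 1 ≤ M := by rw [hMdef]; linarith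
  obtain ⟨X₂, hX₂⟩ := block_growth κ M hκ hM1
  refine ⟨max X₁ (max Xk X₂), ?_⟩
  intro X P H h₀ 𝒟 coef hX h𝒟 hP hDH hPH hHL hh₀ hcoef
  have hXX₁ : X₁ ≤ X := le_trans (le_max_left _ _) hX
  have hXXk : Xk ≤ X := le_trans (le_trans (le_max_left _ _) (le_max_right _ _)) hX
  have hXX₂ : X₂ ≤ X := le_trans (le_trans (le_max_right _ _) (le_max_right _ _)) hX
  obtain ⟨hg1, hg2, hg3⟩ := hX₂ X hXX₂
  obtain ⟨L, hL⟩ : ∃ L : ℝ, L = Real.log X := ⟨_, rfl⟩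
  rw [← hL] at hg1 hg2 hg3 hP hDH hPH hHL
  obtain ⟨p, hpdef⟩ : ∃ p : ℝ, p = (P : ℝ) := ⟨_, rfl⟩
  obtain ⟨h, hhdef⟩ : ∃ h : ℝ, h = (H : ℝ) := ⟨_, rfl⟩
  obtain ⟨x, hxdef⟩ : ∃ x : ℝ, x = (X : ℝ) := ⟨_, rfl⟩
  obtain ⟨D, hDdef⟩ : ∃ D : ℝ, D = (𝒟.card : ℝ) := ⟨_, rfl⟩
  have hL0 : 0 < L := lt_of_lt_of_le zero_lt_one hg2
  have hLκ : 1 ≤ L ^ κ := le_trans hM1 hg1
  rw [← hpdef] at hP hPH
  rw [← hhdef] at hPH hDH hHL
  rw [← hDdef] at hDH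
  rw [← hxdef] at hg3
  have hp1 : 1 ≤ p := le_trans hLκ hP
  have hp0 : 0 < p := lt_of_lt_of_le zero_lt_one hp1
  have hPpos : 0 < P := by
    have : (0 : ℝ) < (P : ℝ) := by rw [← hpdef]; exact hp0
    exact_mod_cast this
  have hh1 : p ≤ h := le_trans (le_mul_of_one_le_right hp0.le hLκ) hPH
  have hh0 : 0 < h := lt_of_lt_of_le hp0 hh1
  have hD0 : 0 < D := by
    have h1 : 0 < D * h := lt_of_lt_of_le (Real.rpow_pos_of_pos hL0 _) hDH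
    by_contra hD
    have hD2 : D * h ≤ 0 := mul_nonpos_of_nonpos_of_nonneg (not_lt.mp hD) hh0.le
    linarith
  have h𝒟ne : 𝒟.Nonempty := by
    rw [← Finset.card_pos]
    have : (0 : ℝ) < (𝒟.card : ℝ) := by rw [← hDdef]; exact hD0
    exact_mod_cast this
  -- powers of L
  have hL28 : L ^ 2 ≤ L ^ 8 := pow_le_pow_right₀ hg2 (by norm_num)
  have hL38 : L ^ 3 ≤ L ^ 8 := pow_le_pow_right₀ hg2 (by norm_num)
  have hL48 : L ^ 4 ≤ L ^ 8 := pow_le_pow_right₀ hg2 (by norm_num)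
  have hL8 : 1 ≤ L ^ 8 := one_le_pow₀ hg2
  have hMx : M ≤ x := le_trans (le_mul_of_one_le_right (by linarith) hL8) hg3
  have hx0 : 0 < x := lt_of_lt_of_le (by linarith) hMx
  have hpL : p ≤ L ^ 2 := le_trans hh1 hHL
  have hL8x : L ^ 8 ≤ x := le_trans (le_mul_of_one_le_left (by positivity) hM1) hg3
  have h256 : 256 * L ^ 8 ≤ x := le_trans (mul_le_mul_of_nonneg_right (by rw [hMdef]; linarith) (by positivity)) hg3
  -- G and N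
  obtain ⟨G, hGdef⟩ : ∃ G : ℕ, G = H + 4 * P * J := ⟨_, rfl⟩
  obtain ⟨g, hgdef⟩ : ∃ g : ℝ, g = (G : ℝ) := ⟨_, rfl⟩
  have hg : g = h + 4 * p * J := by
    rw [hgdef, hGdef, hhdef, hpdef]
    push_cast
    ring
  have hgh : h ≤ g := by rw [hg]; linarith [mul_nonneg (mul_nonneg (by norm_num : (0:ℝ) ≤ 4) hp0.le) hm1]
  have hg2h : g ≤ 2 * h := by
    rw [hg]
    have h1 : 4 * (J : ℝ) ≤ L ^ κ := le_trans (by rw [hMdef]; linarith) hg1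
    have h2 : p * (4 * J) ≤ p * L ^ κ := mul_le_mul_of_nonneg_left h1 hp0.le
    linarith
  have hg0 : 0 < g := lt_of_lt_of_le hh0 hgh
  obtain ⟨N, hNdef⟩ : ∃ N : ℕ, N = (X + h₀ + G) / P + 1 := ⟨_, rfl⟩
  obtain ⟨n, hndef⟩ : ∃ n : ℝ, n = (N : ℝ) := ⟨_, rfl⟩
  have hh₀' : (h₀ : ℝ) ≤ A * x := by rw [hxdef]; exact_mod_cast hh₀
  have hgx : g ≤ x := by
    have h1 : 0 ≤ L ^ 8 := by positivity
    have : 2 * L ^ 2 ≤ 256 * L ^ 8 := by linarith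
    linarith
  have hPN : X + h₀ + G ≤ P * N := by
    have h1 := Nat.div_add_mod (X + h₀ + G) P
    have h2 := Nat.mod_lt (X + h₀ + G) hPpos
    rw [hNdef, Nat.mul_add, Nat.mul_one]
    omega
  have hpn : x + h₀ + g ≤ p * n := by
    rw [hxdef, hgdef, hpdef, hndef]
    exact_mod_cast hPN
  have hn_le : n ≤ ((A : ℝ) + 4) * x / p := by
    have h1 : n ≤ (x + h₀ + g) / p + 1 := by
      rw [hndef, hNdef]
      push_cast
      have h2 : (((X + h₀ + G) / P : ℕ) : ℝ) ≤ ((X + h₀ + G : ℕ) : ℝ) / (P : ℝ) := Nat.cast_div_le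
      have h3 : ((X + h₀ + G : ℕ) : ℝ) = x + h₀ + g := by rw [hxdef, hgdef]; push_cast; ring
      rw [h3, ← hpdef] at h2
      linarith
    have h4 : (x + h₀ + g) / p + 1 = (x + h₀ + g + p) / p := by field_simp
    rw [h4] at h1
    refine le_trans h1 ?_
    apply div_le_div_of_nonneg_right _ hp0.le
    have : p ≤ x := le_trans hpL (le_trans hL28 hL8x)
    linarith
  have hxpn : x / p ≤ n := by
    rw [div_le_iff₀ hp0]
    have : (0 : ℝ) ≤ h₀ := Nat.cast_nonneg _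
    linarith [mul_comm p n]
  have hn0 : 0 < n := lt_of_lt_of_le (by positivity) hxpn
  have hsqrtN : Real.sqrt x ≤ n := by
    refine le_trans ?_ hxpn
    rw [le_div_iff₀ hp0]
    have h1 : p ≤ Real.sqrt x := by
      apply Real.le_sqrt_of_sq_le
      calc p ^ 2 ≤ (L ^ 2) ^ 2 := pow_le_pow_left₀ hp0.le hpL 2
        _ = L ^ 4 := by ring
        _ ≤ x := le_trans hL48 hL8x
    calc Real.sqrt x * p ≤ Real.sqrt x * Real.sqrt x :=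
          mul_le_mul_of_nonneg_left h1 (Real.sqrt_nonneg _)
      _ = x := Real.mul_self_sqrt hx0.le
  have hN₀N : N₀ ≤ N := by
    have h1 : (N₀ : ℝ) ≤ Real.sqrt x := by
      apply Real.le_sqrt_of_sq_le
      refine le_trans ?_ hMx
      rw [hMdef]
      linarith
    have h2 : (N₀ : ℝ) ≤ N := by rw [← hndef]; exact le_trans h1 hsqrtN
    exact_mod_cast h2
  have hNX2 : N ≤ X ^ 2 := by
    have h1 : n ≤ x ^ 2 := by
      refine le_trans hn_le ?_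
      have h2 : (A : ℝ) + 4 ≤ x := le_trans (by rw [hMdef]; linarith) hMx
      calc ((A : ℝ) + 4) * x / p ≤ ((A : ℝ) + 4) * x := div_le_self (by positivity) hp1
        _ ≤ x * x := mul_le_mul_of_nonneg_right h2 hx0.le
        _ = x ^ 2 := by ring
    rw [hndef, hxdef] at h1
    exact_mod_cast h1
  have hhG : h₀ + G ≤ X ^ 2 := by
    have h1 : (h₀ : ℝ) + g ≤ x ^ 2 := by
      have h2 : (A : ℝ) + 4 ≤ x := le_trans (by rw [hMdef]; linarith) hMx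
      calc (h₀ : ℝ) + g ≤ A * x + x := add_le_add hh₀' hgx
        _ ≤ (A + 4) * x := by linarith [add_mul (A : ℝ) 4 x]
        _ ≤ x * x := mul_le_mul_of_nonneg_right h2 hx0.le
        _ = x ^ 2 := by ring
    rw [hgdef, hxdef] at h1
    exact_mod_cast h1
  have hLG : (Real.log X) ^ κ ≤ G := by
    rw [← hL, ← hgdef]
    exact le_trans hP (le_trans hh1 hgh)
  have hq4 : ∀ q ∈ 𝒟, q.Prime ∧ q ^ 4 ≤ X := by
    intro q hq
    refine ⟨(h𝒟 q hq).1, ?_⟩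
    have h1 : (q : ℝ) ≤ 4 * p := by
      rw [hpdef]
      exact_mod_cast (h𝒟 q hq).2.2
    have h2 : (q : ℝ) ^ 4 ≤ x := by
      calc (q : ℝ) ^ 4 ≤ (4 * p) ^ 4 := pow_le_pow_left₀ (Nat.cast_nonneg _) h1 4
        _ ≤ (4 * L ^ 2) ^ 4 := pow_le_pow_left₀ (by positivity) (by linarith) 4
        _ = 256 * L ^ 8 := by ring
        _ ≤ x := h256
    rw [hxdef] at h2
    exact_mod_cast h2
  have hsqrtN' : Real.sqrt X ≤ N := by rw [← hxdef, ← hndef]; exact hsqrtN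
  -- T and l
  obtain ⟨T, hTdef⟩ : ∃ T : ℝ, T = D * g := ⟨_, rfl⟩
  have hT0 : 0 < T := by rw [hTdef]; positivity
  obtain ⟨l, hldef⟩ : ∃ l : ℝ, l = L / T := ⟨_, rfl⟩
  have hl0 : 0 < l := by rw [hldef]; positivity
  have hLT : L * L ^ κ ≤ T := by
    rw [hTdef]
    calc L * L ^ κ = L ^ (1 + κ) := by rw [Real.rpow_add hL0, Real.rpow_one]
      _ ≤ D * h := hDH
      _ ≤ D * g := mul_le_mul_of_nonneg_left hgh hD0.le
  have hlκ : l * L ^ κ ≤ 1 := by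
    rw [hldef, div_mul_eq_mul_div, div_le_one hT0]
    exact hLT
  have hl1 : l ≤ 1 := by
    refine le_trans ?_ hlκ
    exact le_mul_of_one_le_right hl0.le hLκ
  have hl2 : B * (9 ^ r * l) ≤ ε / 8 := by
    have h1 : 8 * B * 9 ^ r / ε ≤ L ^ κ := le_trans (by rw [hMdef]; linarith) hg1
    have h2 : l * (8 * B * 9 ^ r / ε) ≤ 1 := le_trans (mul_le_mul_of_nonneg_left h1 hl0.le) hlκ
    have h3 : l * (8 * B * 9 ^ r / ε) = (B * (9 ^ r * l)) * (8 / ε) := by ring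
    rw [h3] at h2
    have h4 : B * (9 ^ r * l) ≤ 1 / (8 / ε) := by
      rw [le_div_iff₀ (by positivity)]
      exact h2
    calc B * (9 ^ r * l) ≤ 1 / (8 / ε) := h4
      _ = ε / 8 := by field_simp
  have hND_card : ((ND 𝒟 h₀ G).card : ℝ) ≤ T := by
    rw [hTdef, hDdef, hgdef]
    exact_mod_cast card_ND_le 𝒟 h₀ G
  -- moments
  have hmk : ∀ S ⊆ ND 𝒟 h₀ G, ∑ Y ∈ Icc 1 N, (∑ θ ∈ S, ww θ Y) ^ k ≤
      Ck * N * T ^ k * (Real.sqrt ((S.card : ℝ) / T) + l) ^ k := by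
    intro S hS
    have h1 := hmomk X N G h₀ 𝒟 hXXk hsqrtN' hNX2 hLG hhG h𝒟ne hq4 S hS
    rw [← hDdef, ← hgdef, ← hTdef, ← hL, ← hldef] at h1
    exact h1
  have hm1' : ∑ θ ∈ ND 𝒟 h₀ G, ∑ Y ∈ Icc 1 N, ww θ Y ≤ 2 * C₁ * n * T := by
    have h1 := hmom1 X N G h₀ 𝒟 hXX₁ hsqrtN' hNX2 hLG hhG h𝒟ne hq4 (ND 𝒟 h₀ G) (Finset.Subset.refl _)
    rw [← hDdef, ← hgdef, ← hTdef, ← hL, ← hldef] at h1
    simp only [pow_one] at h1
    rw [Finset.sum_comm]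
    refine le_trans h1 ?_
    have h2 : Real.sqrt (((ND 𝒟 h₀ G).card : ℝ) / T) ≤ 1 := by
      rw [Real.sqrt_le_one]
      rw [div_le_one hT0]
      exact hND_card
    rw [← hndef]
    have h3 : Real.sqrt (((ND 𝒟 h₀ G).card : ℝ) / T) + l ≤ 2 := by linarith
    calc C₁ * n * T * (Real.sqrt (((ND 𝒟 h₀ G).card : ℝ) / T) + l)
        ≤ C₁ * n * T * 2 := mul_le_mul_of_nonneg_left h3 (by positivity)
      _ = 2 * C₁ * n * T := by ring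
  -- unfold
  have hun := unfold_le coef X N J (4 * P) G H h₀ 𝒟 hJ
    (fun q hq => ⟨(h𝒟 q hq).1.one_lt.le, (h𝒟 q hq).2.2⟩) (by rw [hGdef])
    (fun q hq => le_trans hPN (Nat.mul_le_mul_right _ (h𝒟 q hq).2.1.le))
  -- the split
  have hsplit : ∑ θ ∈ TH 𝒟 h₀ G, ∑ Y ∈ Icc 1 N,
        ww θ Y * |(1 / (J : ℝ)) * ∑ j ∈ range J, aa coef h₀ H θ j * muR (Y - j)| =
      ∑ θ ∈ ND 𝒟 h₀ G, ∑ Y ∈ Icc 1 N,
        ww θ Y * |(1 / (J : ℝ)) * ∑ j ∈ range J, aa coef h₀ H θ j * muR (Y - j)| +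
      ∑ θ ∈ (TH 𝒟 h₀ G).filter (fun θ => ¬ ¬ θ.1 ∣ θ.2), ∑ Y ∈ Icc 1 N,
        ww θ Y * |(1 / (J : ℝ)) * ∑ j ∈ range J, aa coef h₀ H θ j * muR (Y - j)| := by
    unfold ND
    exact (Finset.sum_filter_add_sum_filter_not _ _ _).symm
  -- the degenerate part
  have hdeg : ∑ θ ∈ (TH 𝒟 h₀ G).filter (fun θ => ¬ ¬ θ.1 ∣ θ.2), ∑ Y ∈ Icc 1 N,
        ww θ Y * |(1 / (J : ℝ)) * ∑ j ∈ range J, aa coef h₀ H θ j * muR (Y - j)| ≤
      D * g * L := by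
    calc ∑ θ ∈ (TH 𝒟 h₀ G).filter (fun θ => ¬ ¬ θ.1 ∣ θ.2), ∑ Y ∈ Icc 1 N,
        ww θ Y * |(1 / (J : ℝ)) * ∑ j ∈ range J, aa coef h₀ H θ j * muR (Y - j)|
        ≤ ∑ θ ∈ (TH 𝒟 h₀ G).filter (fun θ => ¬ ¬ θ.1 ∣ θ.2), L := by
          apply Finset.sum_le_sum
          intro θ hθ
          rw [Finset.mem_filter, mem_TH, not_not] at hθ
          obtain ⟨⟨hq, _⟩, hdvd⟩ := hθ
          calc ∑ Y ∈ Icc 1 N, ww θ Y * |(1 / (J : ℝ)) * ∑ j ∈ range J, aa coef h₀ H θ j * muR (Y - j)|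
              ≤ ∑ Y ∈ Icc 1 N, ww θ Y := by
                apply Finset.sum_le_sum
                intro Y _
                exact mul_le_of_le_one_right (ww_nonneg _ _)
                  (block_avg_le J hJ _ (abs_aa_le coef hcoef h₀ H θ) Y)
            _ ≤ Real.log θ.1 := block_deg θ.1 θ.2 N (h𝒟 _ hq).1 hdvd
            _ ≤ L := by
                rw [hL]
                apply Real.log_le_log
                · exact_mod_cast (h𝒟 _ hq).1.pos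
                · have h1 := (hq4 _ hq).2
                  have h2 : θ.1 ≤ X := le_trans (Nat.le_self_pow (by norm_num) _) h1
                  exact_mod_cast h2
      _ = (((TH 𝒟 h₀ G).filter (fun θ => ¬ ¬ θ.1 ∣ θ.2)).card : ℝ) * L := by
          rw [Finset.sum_const, nsmul_eq_mul]
      _ ≤ ((TH 𝒟 h₀ G).card : ℝ) * L := by
          apply mul_le_mul_of_nonneg_right _ hL0.le
          exact_mod_cast Finset.card_filter_le _ _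
      _ = D * g * L := by
          rw [card_TH, hDdef, hgdef]
          push_cast
          ring
  -- the nondegenerate part
  have hmain := sub_main (ND 𝒟 h₀ G) N J k r hJ hk hr ww ww_nonneg
    (fun θ j => aa coef h₀ H θ j) (fun θ j => abs_aa_le coef hcoef h₀ H θ j)
    (fun Y j => ArithmeticFunction.moebius (Y - j))
    (fun Y j => by
      rcases ArithmeticFunction.moebius_eq_or (Y - j) with h | h | h
      · right; left; exact h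
      · right; right; exact h
      · left; exact h)
    ε₁ δ Ck T l hε₁ hε₁1 hδ.le hCk0 hT0 hl0 hl1 hND_card hmk
    (fun θ _ => block_hx (hchow N hN₀N) (fun j => aa coef h₀ H θ j)
      (fun j => abs_aa_le coef hcoef h₀ H θ j))
  have hmain' : ∑ θ ∈ ND 𝒟 h₀ G, ∑ Y ∈ Icc 1 N,
        ww θ Y * |(1 / (J : ℝ)) * ∑ j ∈ range J, aa coef h₀ H θ j * muR (Y - j)| ≤
      n * T * (2 * C₁ * ε₁ + (9 ^ r * Real.sqrt (2 * Real.exp (-(ε₁ ^ 2 * (((k - 1) * r : ℕ) : ℝ) / 8))) +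
      2 * Ck / 3 ^ ((k - 1) * r)) + 9 ^ r * (ε / (8 * B * 9 ^ r)) + 9 ^ r * l) := by
    refine le_trans hmain ?_
    have h1 : Real.sqrt (2 * Real.exp (-(ε₁ ^ 2 * (((k - 1) * r : ℕ) : ℝ) / 8)) + 4 / ε₁ * δ) ≤
        Real.sqrt (2 * Real.exp (-(ε₁ ^ 2 * (((k - 1) * r : ℕ) : ℝ) / 8))) + ε / (8 * B * 9 ^ r) := by
      rw [← hδ2]
      exact block_sqrt_add _ _ (by positivity) (by positivity)
    have h2 : ε₁ * ∑ θ ∈ ND 𝒟 h₀ G, ∑ Y ∈ Icc 1 N, ww θ Y ≤ ε₁ * (2 * C₁ * n * T) :=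
      mul_le_mul_of_nonneg_left hm1' hε₁.le
    have h3 : T * (N : ℝ) * (9 ^ r * (Real.sqrt (2 * Real.exp (-(ε₁ ^ 2 * (((k - 1) * r : ℕ) : ℝ) / 8)) +
        4 / ε₁ * δ) + l) + 2 * Ck / 3 ^ ((k - 1) * r)) ≤
        T * n * (9 ^ r * (Real.sqrt (2 * Real.exp (-(ε₁ ^ 2 * (((k - 1) * r : ℕ) : ℝ) / 8))) +
        ε / (8 * B * 9 ^ r) + l) + 2 * Ck / 3 ^ ((k - 1) * r)) := by
      rw [← hndef]
      apply mul_le_mul_of_nonneg_left _ (by positivity)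
      have : (9 : ℝ) ^ r * (Real.sqrt (2 * Real.exp (-(ε₁ ^ 2 * (((k - 1) * r : ℕ) : ℝ) / 8)) +
        4 / ε₁ * δ) + l) ≤ 9 ^ r * (Real.sqrt (2 * Real.exp (-(ε₁ ^ 2 * (((k - 1) * r : ℕ) : ℝ) / 8))) +
        ε / (8 * B * 9 ^ r) + l) := mul_le_mul_of_nonneg_left (by linarith) (by positivity)
      linarith
    calc _ ≤ ε₁ * (2 * C₁ * n * T) +
          T * n * (9 ^ r * (Real.sqrt (2 * Real.exp (-(ε₁ ^ 2 * (((k - 1) * r : ℕ) : ℝ) / 8))) +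
          ε / (8 * B * 9 ^ r) + l) + 2 * Ck / 3 ^ ((k - 1) * r)) := add_le_add h2 h3
      _ = _ := by ring
  -- n T bound
  obtain ⟨Z, hZdef⟩ : ∃ Z : ℝ, Z = D / p * h * x := ⟨_, rfl⟩
  have hZ0 : 0 < Z := by rw [hZdef]; positivity
  have hnT : n * T ≤ B * Z := by
    rw [hTdef, hBdef, hZdef]
    calc n * (D * g) ≤ (((A : ℝ) + 4) * x / p) * (D * (2 * h)) := by
          apply mul_le_mul hn_le (mul_le_mul_of_nonneg_left hg2h hD0.le) (by positivity) (by positivity)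
      _ = 2 * ((A : ℝ) + 4) * (D / p * h * x) := by ring
  have hS0 : 0 ≤ 9 ^ r * Real.sqrt (2 * Real.exp (-(ε₁ ^ 2 * (((k - 1) * r : ℕ) : ℝ) / 8))) +
      2 * Ck / 3 ^ ((k - 1) * r) := by positivity
  obtain ⟨S, hSdef⟩ : ∃ S : ℝ, S = 9 ^ r * Real.sqrt (2 * Real.exp (-(ε₁ ^ 2 * (((k - 1) * r : ℕ) : ℝ) / 8))) +
      2 * Ck / 3 ^ ((k - 1) * r) := ⟨_, rfl⟩
  rw [← hSdef] at hr2 hmain' hS0
  have hE3 : B * (9 ^ r * (ε / (8 * B * 9 ^ r))) = ε / 8 := by field_simp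
  have hfin1 : n * T * (2 * C₁ * ε₁ + S + 9 ^ r * (ε / (8 * B * 9 ^ r)) + 9 ^ r * l) ≤
      ε / 2 * Z := by
    calc n * T * (2 * C₁ * ε₁ + S + 9 ^ r * (ε / (8 * B * 9 ^ r)) + 9 ^ r * l)
        ≤ B * Z * (2 * C₁ * ε₁ + S + 9 ^ r * (ε / (8 * B * 9 ^ r)) + 9 ^ r * l) :=
          mul_le_mul_of_nonneg_right hnT (by positivity)
      _ = Z * (B * (2 * C₁ * ε₁) + B * S + B * (9 ^ r * (ε / (8 * B * 9 ^ r))) + B * (9 ^ r * l)) := by ring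
      _ ≤ Z * (ε / 8 + ε / 8 + ε / 8 + ε / 8) := by
          apply mul_le_mul_of_nonneg_left _ hZ0.le
          linarith
      _ = ε / 2 * Z := by ring
  have hfin2 : D * g * L ≤ ε / 8 * Z := by
    have h1 : 16 / ε * L ^ 3 ≤ x := by
      calc 16 / ε * L ^ 3 ≤ M * L ^ 8 := by
            apply mul_le_mul _ hL38 (by positivity) (by linarith)
            rw [hMdef]; linarith
        _ ≤ x := hg3
    have h2 : 2 * L * p ≤ ε / 8 * x := by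
      have h3 : 2 * L * p ≤ 2 * L * L ^ 2 := mul_le_mul_of_nonneg_left hpL (by positivity)
      have h4 : 2 * L * L ^ 2 = ε / 8 * (16 / ε * L ^ 3) := by field_simp; ring
      rw [h4] at h3
      exact le_trans h3 (mul_le_mul_of_nonneg_left h1 (by positivity))
    calc D * g * L ≤ D * (2 * h) * L := by
          apply mul_le_mul_of_nonneg_right _ hL0.le
          exact mul_le_mul_of_nonneg_left hg2h hD0.le
      _ = D / p * h * (2 * L * p) := by field_simp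
      _ ≤ D / p * h * (ε / 8 * x) := mul_le_mul_of_nonneg_left h2 (by positivity)
      _ = ε / 8 * Z := by rw [hZdef]; ring
  calc ∑ n ∈ Icc 1 X, thp n * |dilS coef h₀ H 𝒟 n| ≤ _ := hun
    _ = _ := hsplit
    _ ≤ n * T * (2 * C₁ * ε₁ + S + 9 ^ r * (ε / (8 * B * 9 ^ r)) + 9 ^ r * l) + D * g * L :=
        add_le_add hmain' hdeg
    _ ≤ ε / 2 * Z + ε / 8 * Z := add_le_add hfin1 hfin2
    _ ≤ ε * Z := by
        have : 0 < ε * Z := mul_pos hε hZ0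
        linarith
    _ = ε * ((𝒟.card : ℝ) / P) * H * X := by
        rw [hZdef, hDdef, hpdef, hhdef, hxdef]
        ring

end Pool.BMG
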