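import Mathlib
import Pool.Agent.BMG.Block
import Pool.Agent.SWP.MertP
import Pool.Agent.SWP.Dil

/-!
# BMG/DilC: the dilated sum for all primes `e^u < q ≤ e^v`

For `ε, κ > 0`, `A` there is `X₀`: for `X ≥ X₀`, `1 ≤ u ≤ v`, `(log X)^κ ≤ e^u`, `(log X)^{1+κ} ≤ e^u H`,
`e^v (log X)^κ ≤ H ≤ (log X)²`, `h₀ ≤ A X`, `|coef| ≤ 1`:
`∑_{n≤X} thp(n) |dilS coef h₀ H (QQ u v) n| ≤ ε RS u v H X`.

Proof. `QQ u v` is the disjoint union of `QQ w (w+1)`, `u ≤ w < v` (`Finset.sum` over `QQ`: as `QQ_blocks` with `V = 1`, or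
induction on `v`), so `dilS coef h₀ H (QQ u v) n = ∑_w dilS coef h₀ H (QQ w (w+1)) n`. For each `w`: `P = ⌊e^w⌋`; `q ∈ QQ w (w+1)`
satisfies `P < q ≤ e^{w+1} ≤ e (P+1) ≤ 4P` (`P ≥ 3`, as `e^u` is large). Use `block` with `κ/2` and `ε/4`:
`(log X)^{κ/2} ≤ (log X)^κ - 1 ≤ P`; by `RS_block` (`w ≥ u ≥ κ log log X` is large) `#QQ w (w+1) ≥ e^w RS w (w+1) ≥
e^w/(2(w+1))`, and `w + 1 ≤ v + 1 ≤ log H + 1 ≤ 2 log log X + 1`, so `#QQ · H ≥ e^u H/(2(2 log log X + 1)) ≥
(log X)^{1+κ/2}` for large `X`; `P (log X)^{κ/2} ≤ e^v (log X)^κ ≤ H`. The bound is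
`(ε/4)(#QQ/P) H X ≤ ε RS w (w+1) H X` since `1/q ≥ 1/(4P)` for all `q` in the block. Sum over `w` (`RS` is additive).
-/

set_option autoImplicit false

namespace Pool.BMG

open Finset Pool.MRZ Pool.SWP

lemma QQ_succ (u v : ℕ) (huv : u ≤ v) (f : ℕ → ℝ) :
    ∑ q ∈ QQ u (v + 1), f q = ∑ q ∈ QQ u v, f q + ∑ q ∈ QQ v (v + 1), f q := by
  unfold QQ
  rw [Finset.sum_filter, Finset.sum_filter, Finset.sum_filter]
  symm
  refine Finset.sum_Ioc_consecutive (fun q : ℕ => if q.Prime then f q else 0) ?_ ?_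
  · refine Nat.floor_le_floor (Real.exp_le_exp.mpr ?_)
    exact_mod_cast huv
  · refine Nat.floor_le_floor (Real.exp_le_exp.mpr ?_)
    push_cast
    linarith

lemma QQ_self (u : ℕ) : QQ u u = ∅ := by
  unfold QQ
  simp

lemma dilC_block (ε κ : ℝ) (hε : 0 < ε) (hκ : 0 < κ) (A : ℕ) : ∃ X₀ : ℕ,
    ∀ (X u v w H h₀ : ℕ) (coef : ℕ → ℝ), X₀ ≤ X → 1 ≤ u → u ≤ w → w + 1 ≤ v →
    (Real.log X) ^ κ ≤ Real.exp u → (Real.log X) ^ (1 + κ) ≤ Real.exp u * H →
    Real.exp v * (Real.log X) ^ κ ≤ H → (H : ℝ) ≤ (Real.log X) ^ 2 → h₀ ≤ A * X → (∀ h, |coef h| ≤ 1) →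
    ∑ n ∈ Icc 1 X, thp n * |dilS coef h₀ H (QQ w (w + 1)) n| ≤ ε * RS w (w + 1) * H * X := by
  obtain ⟨X₁, hX₁⟩ := block (ε / 4) (κ / 2) (by positivity) (by positivity) A
  obtain ⟨u₀, hu₀⟩ := RS_block
  have hev := (DilAux.ev_rpow κ (Real.exp u₀) hκ).and ((DilAux.ev_rpow (κ / 2) 2 (by positivity)).and
    ((DilAux.ev_loglog (κ / 2) 4 (by positivity) (by norm_num)).and ((DilAux.ev_rpow 1 1 one_pos).and
      (DilAux.ev_rpow κ 3 hκ))))
  obtain ⟨X₂, hX₂⟩ := Filter.eventually_atTop.1 hev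
  refine ⟨max X₁ X₂, ?_⟩
  intro X u v w H h₀ coef hX hu huw hwv h1 h2 h3 h4 h5 h6
  obtain ⟨g1, g2, g3, g4, g5⟩ := hX₂ X ((le_max_right _ _).trans hX)
  rw [Real.rpow_one] at g4
  have hlog0 : 0 < Real.log X := by linarith
  set P := ⌊Real.exp (w : ℝ)⌋₊ with hP
  have hew : Real.exp (u : ℝ) ≤ Real.exp (w : ℝ) := Real.exp_le_exp.2 (by exact_mod_cast huw)
  have hwv' : (w : ℝ) + 1 ≤ v := by exact_mod_cast hwv
  have hwe : (w : ℝ) ≤ v := by linarith
  have hev' : Real.exp (w : ℝ) ≤ Real.exp (v : ℝ) := Real.exp_le_exp.2 hwe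
  have hP3 : 3 ≤ P := Nat.le_floor (by push_cast; linarith)
  have hP3R : (3 : ℝ) ≤ P := by exact_mod_cast hP3
  have hPle : (P : ℝ) ≤ Real.exp w := Nat.floor_le (Real.exp_pos _).le
  have hPlt : Real.exp w < P + 1 := Nat.lt_floor_add_one _
  have hpow : (Real.log X) ^ κ = (Real.log X) ^ (κ / 2) * (Real.log X) ^ (κ / 2) := by
    rw [← Real.rpow_add hlog0]
    congr 1
    ring
  have hQ : ∀ q ∈ QQ w (w + 1), q.Prime ∧ P < q ∧ q ≤ 4 * P := by
    intro q hq
    unfold QQ at hq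
    rw [Finset.mem_filter, Finset.mem_Ioc] at hq
    refine ⟨hq.2, hq.1.1, ?_⟩
    have q1 : (q : ℝ) ≤ Real.exp ((w + 1 : ℕ) : ℝ) :=
      (Nat.cast_le.2 hq.1.2).trans (Nat.floor_le (Real.exp_pos _).le)
    have q2 : Real.exp ((w + 1 : ℕ) : ℝ) = Real.exp w * Real.exp 1 := by
      rw [← Real.exp_add]
      push_cast
      rfl
    have q3 := Real.exp_one_lt_d9
    have q4 : (q : ℝ) ≤ 4 * P := by
      rw [q2] at q1
      have q5 : Real.exp w * Real.exp 1 ≤ (P + 1) * 2.7182818286 :=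
        mul_le_mul hPlt.le q3.le (Real.exp_pos _).le (by positivity)
      linarith
    exact_mod_cast q4
  have hw0 : u₀ ≤ w := by
    have : Real.exp (u₀ : ℝ) ≤ Real.exp (w : ℝ) := by linarith
    exact_mod_cast Real.exp_le_exp.1 this
  have hRS := hu₀ w hw0
  have hRScard : RS w (w + 1) * Real.exp w ≤ ((QQ w (w + 1)).card : ℝ) := by
    have q1 : RS w (w + 1) ≤ ∑ q ∈ QQ w (w + 1), (Real.exp w)⁻¹ := by
      unfold RS
      apply Finset.sum_le_sum
      intro q hq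
      have q2 := (hQ q hq).2.1
      have q3 : (P : ℝ) + 1 ≤ q := by exact_mod_cast q2
      rw [one_div]
      exact inv_anti₀ (Real.exp_pos _) (by linarith)
    rw [Finset.sum_const, nsmul_eq_mul] at q1
    have q4 := mul_le_mul_of_nonneg_right q1 (Real.exp_pos (w : ℝ)).le
    rwa [mul_assoc, inv_mul_cancel₀ (Real.exp_pos _).ne', mul_one] at q4
  have hv : (v : ℝ) ≤ 2 * Real.log (Real.log X) := by
    have q1 : Real.exp v ≤ (Real.log X) ^ 2 := by
      have q2 : (1 : ℝ) ≤ (Real.log X) ^ κ := Real.one_le_rpow g4 hκ.le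
      calc Real.exp v ≤ Real.exp v * (Real.log X) ^ κ :=
            le_mul_of_one_le_right (Real.exp_pos _).le q2
        _ ≤ H := h3
        _ ≤ _ := h4
    have q3 := Real.log_le_log (Real.exp_pos _) q1
    rwa [Real.log_exp, Real.log_pow, Nat.cast_ofNat] at q3
  have hll : 0 < Real.log (Real.log X) := by
    have : (1 : ℝ) ≤ v := by
      have : (0 : ℝ) ≤ w := Nat.cast_nonneg _
      linarith
    linarith
  have hH0 : (0 : ℝ) ≤ H := Nat.cast_nonneg _
  have hcard : (Real.log X) ^ (1 + κ / 2) ≤ ((QQ w (w + 1)).card : ℝ) * H := by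
    have c1 : 1 / (4 * Real.log (Real.log X)) ≤ RS w (w + 1) := by
      refine le_trans ?_ hRS
      apply one_div_le_one_div_of_le
      · positivity
      · linarith
    have c2 : (Real.log X) ^ (1 + κ) = (Real.log X) ^ (1 + κ / 2) * (Real.log X) ^ (κ / 2) := by
      rw [← Real.rpow_add hlog0]
      congr 1
      ring
    have c3 : (Real.log X) ^ (1 + κ / 2) * (4 * Real.log (Real.log X)) ≤
        (Real.log X) ^ (1 + κ) := by
      rw [c2]
      exact mul_le_mul_of_nonneg_left g3 (Real.rpow_nonneg hlog0.le _)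
    have c4 : (Real.log X) ^ (1 + κ / 2) ≤
        (Real.exp u * H) / (4 * Real.log (Real.log X)) := by
      rw [le_div_iff₀ (by positivity)]
      linarith
    refine c4.trans ?_
    have c5 : Real.exp w * (1 / (4 * Real.log (Real.log X))) ≤ ((QQ w (w + 1)).card : ℝ) := by
      refine le_trans ?_ hRScard
      rw [mul_comm]
      exact mul_le_mul_of_nonneg_right c1 (Real.exp_pos _).le
    calc (Real.exp u * H) / (4 * Real.log (Real.log X)) =
          Real.exp u * (1 / (4 * Real.log (Real.log X))) * H := by ring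
      _ ≤ Real.exp w * (1 / (4 * Real.log (Real.log X))) * H := by
          apply mul_le_mul_of_nonneg_right _ hH0
          exact mul_le_mul_of_nonneg_right hew (by positivity)
      _ ≤ _ := mul_le_mul_of_nonneg_right c5 hH0
  have hPlow : (Real.log X) ^ (κ / 2) ≤ P := by
    have q1 : (Real.log X) ^ (κ / 2) * (Real.log X) ^ (κ / 2) ≤ P + 1 := by
      rw [← hpow]
      linarith
    nlinarith
  have hPH : (P : ℝ) * (Real.log X) ^ (κ / 2) ≤ H := by
    refine le_trans ?_ h3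
    apply mul_le_mul (hPle.trans hev') _ (Real.rpow_nonneg hlog0.le _) (Real.exp_pos _).le
    exact Real.rpow_le_rpow_of_exponent_le g4 (by linarith)
  have hb := hX₁ X P H h₀ (QQ w (w + 1)) coef ((le_max_left _ _).trans hX) hQ hPlow hcard hPH h4
    h5 h6
  refine hb.trans ?_
  have hP0 : (0 : ℝ) < P := by linarith
  have hfin : ε / 4 * (((QQ w (w + 1)).card : ℝ) / P) ≤ ε * RS w (w + 1) := by
    have q1 : ∑ q ∈ QQ w (w + 1), (1 : ℝ) / (4 * P) ≤ RS w (w + 1) := by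
      unfold RS
      apply Finset.sum_le_sum
      intro q hq
      obtain ⟨q1, q2, q3⟩ := hQ q hq
      have q4 : (q : ℝ) ≤ 4 * P := by exact_mod_cast q3
      have q5 : (0 : ℝ) < q := by exact_mod_cast q1.pos
      exact one_div_le_one_div_of_le q5 q4
    rw [Finset.sum_const, nsmul_eq_mul] at q1
    calc ε / 4 * (((QQ w (w + 1)).card : ℝ) / P) =
          ε * (((QQ w (w + 1)).card : ℝ) * (1 / (4 * P))) := by
            field_simp
      _ ≤ _ := mul_le_mul_of_nonneg_left q1 hε.le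
  have hX0 : (0 : ℝ) ≤ X := Nat.cast_nonneg _
  exact mul_le_mul_of_nonneg_right (mul_le_mul_of_nonneg_right hfin hH0) hX0

theorem dilC (ε κ : ℝ) (hε : 0 < ε) (hκ : 0 < κ) (A : ℕ) : ∃ X₀ : ℕ,
    ∀ (X u v H h₀ : ℕ) (coef : ℕ → ℝ), X₀ ≤ X → 1 ≤ u → u ≤ v →
    (Real.log X) ^ κ ≤ Real.exp u → (Real.log X) ^ (1 + κ) ≤ Real.exp u * H →
    Real.exp v * (Real.log X) ^ κ ≤ H → (H : ℝ) ≤ (Real.log X) ^ 2 → h₀ ≤ A * X → (∀ h, |coef h| ≤ 1) →
    ∑ n ∈ Icc 1 X, thp n * |dilS coef h₀ H (QQ u v) n| ≤ ε * RS u v * H * X := by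
  obtain ⟨X₀, hX₀⟩ := dilC_block ε κ hε hκ A
  refine ⟨X₀, ?_⟩
  intro X u v H h₀ coef hX hu huv h1 h2 h3 h4 h5 h6
  have key : ∀ v' : ℕ, u ≤ v' → v' ≤ v →
      ∑ n ∈ Icc 1 X, thp n * |dilS coef h₀ H (QQ u v') n| ≤ ε * RS u v' * H * X := by
    intro v' huv'
    induction v', huv' using Nat.le_induction with
    | base =>
      intro _
      simp [QQ_self, dilS, RS]
    | succ v' huv' ih =>
      intro hv'
      have i1 := ih (by omega)
      have i2 := hX₀ X u v v' H h₀ coef hX hu huv' hv' h1 h2 h3 h4 h5 h6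
      have i3 : RS u (v' + 1) = RS u v' + RS v' (v' + 1) := by
        unfold RS
        exact QQ_succ u v' huv' _
      have i4 : ∀ n, dilS coef h₀ H (QQ u (v' + 1)) n =
          dilS coef h₀ H (QQ u v') n + dilS coef h₀ H (QQ v' (v' + 1)) n := by
        intro n
        unfold dilS
        exact QQ_succ u v' huv' _
      calc ∑ n ∈ Icc 1 X, thp n * |dilS coef h₀ H (QQ u (v' + 1)) n| ≤
            ∑ n ∈ Icc 1 X, (thp n * |dilS coef h₀ H (QQ u v') n| +
              thp n * |dilS coef h₀ H (QQ v' (v' + 1)) n|) := by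
            apply Finset.sum_le_sum
            intro n _
            rw [i4, ← mul_add]
            exact mul_le_mul_of_nonneg_left (abs_add_le _ _) (thp_nonneg _)
        _ ≤ ε * RS u v' * H * X + ε * RS v' (v' + 1) * H * X := by
            rw [Finset.sum_add_distrib]
            exact add_le_add i1 i2
        _ = _ := by rw [i3]; ring
  exact key v huv le_rfl

end Pool.BMG
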