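import Mathlib
import Pool.Agent.BMG.Defs
import Pool.Agent.SWP.TK

/-!
# BMG/OmDil: from `∑ c_h μ(n+h)` to the dilated sums

* `om_dil`: for complex `c`, `|c| ≤ 1`, `𝒬` a finite set of primes:
  `|∑_{h₀<h≤h₀+H} c_h μ(n+h) om 𝒬 (n+h)| ≤ |dilS (Re c) …| + |dilS (Im c) …| + ∑_{q∈𝒬} (H/q² + 1)`.
  Proof (as `mu_dil` in `SWP/TK`): `om 𝒬 (n+h) = ∑_{q∈𝒬, q∣n+h} 1` and for `n + h = q m`: `μ(qm) = -μ(m)` if `q ∤ m`
  and `0` if `q ∣ m` (`moebius_prime_mul`), i.e. `μ(qm) = -μ(m) + 1_{q∣m} μ(m)`. The last terms have `q² ∣ n + h`, at most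
  `H/q² + 1` values of `h`. (`dilS (Re c) - …`: the complex dilated sum is `dilS (Re c) + i dilS (Im c)`.)
* `tk_dil`: if moreover `S = ∑_{q∈𝒬} 1/q > 0` and `#𝒬² + #𝒬 + 2 S #𝒬 ≤ H`, then
  `S |∑_h c_h μ(n+h)| ≤ √(S+1) H + |dilS (Re c)| + |dilS (Im c)| + ∑_{q∈𝒬} (H/q² + 1)`.
  Proof: `S c_h μ = c_h μ om + c_h μ (S - om)`, Cauchy–Schwarz and `tk` with `x = n + h₀`.
* `one_dil`: for `0 ≤ z ≤ 1`: `|∑_h c_h μ(n+h)| ≤ ∑_h μ(n+h)² - z ∑_h μ(n+h)² om 𝒬 (n+h) + 2 z² ∑_h om 𝒬 (n+h)² +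
  z (|dilS (Re c)| + |dilS (Im c)| + ∑_{q∈𝒬} (H/q² + 1))`.
  Proof: `c_h μ = c_h μ (1 - z om) + z c_h μ om`, `|1 - z om| ≤ 1 - z om + 2 z² om²`: clear if `z om ≤ 1`, and otherwise
  `z om - 1 ≤ 1 - z om + 2 (z om) (z om)`. For the second moment term use `μ² ≤ 1`.
-/

set_option autoImplicit false

namespace Pool.BMG

open Finset Pool.MRZ Pool.SWP

/-- the error term: the dilated sums of the real and imaginary parts, and the terms with `q² ∣ n + h` -/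
noncomputable def EE (c : ℕ → ℂ) (h₀ H : ℕ) (𝒬 : Finset ℕ) (n : ℕ) : ℝ :=
  |dilS (fun h => (c h).re) h₀ H 𝒬 n| + |dilS (fun h => (c h).im) h₀ H 𝒬 n| +
    ∑ q ∈ 𝒬, ((H : ℝ) / (q : ℝ) ^ 2 + 1)

/-- shift of the summation variable -/
private lemma sum_shift {β : Type*} [AddCommMonoid β] (h₀ H n : ℕ) (f : ℕ → β) :
    ∑ h ∈ Ioc h₀ (h₀ + H), f (n + h) = ∑ m ∈ Ioc (n + h₀) (n + h₀ + H), f m := by
  have e : (Ioc h₀ (h₀ + H)).map (addLeftEmbedding n) = Ioc (n + h₀) (n + h₀ + H) := by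
    rw [Finset.map_add_left_Ioc, Nat.add_assoc]
  rw [← e, Finset.sum_map]
  rfl

/-- the complex dilated sum -/
private lemma norm_dil_le (𝒬 : Finset ℕ) (c : ℕ → ℂ) (h₀ H n : ℕ) :
    ‖∑ q ∈ 𝒬, ∑ h ∈ Ioc h₀ (h₀ + H), (if q ∣ n + h then c h * mu ((n + h) / q) else 0)‖ ≤
      |dilS (fun h => (c h).re) h₀ H 𝒬 n| + |dilS (fun h => (c h).im) h₀ H 𝒬 n| := by
  refine (Complex.norm_le_abs_re_add_abs_im _).trans (le_of_eq ?_)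
  have hre : (∑ q ∈ 𝒬, ∑ h ∈ Ioc h₀ (h₀ + H),
      (if q ∣ n + h then c h * mu ((n + h) / q) else 0)).re = dilS (fun h => (c h).re) h₀ H 𝒬 n := by
    unfold dilS
    rw [Complex.re_sum]
    refine Finset.sum_congr rfl fun q _ => ?_
    rw [Complex.re_sum]
    refine Finset.sum_congr rfl fun h _ => ?_
    split_ifs
    · rw [mu_eq_muR, Complex.re_mul_ofReal]
    · rfl
  have him : (∑ q ∈ 𝒬, ∑ h ∈ Ioc h₀ (h₀ + H),
      (if q ∣ n + h then c h * mu ((n + h) / q) else 0)).im = dilS (fun h => (c h).im) h₀ H 𝒬 n := by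
    unfold dilS
    rw [Complex.im_sum]
    refine Finset.sum_congr rfl fun q _ => ?_
    rw [Complex.im_sum]
    refine Finset.sum_congr rfl fun h _ => ?_
    split_ifs
    · rw [mu_eq_muR, Complex.im_mul_ofReal]
    · rfl
  rw [hre, him]

theorem om_dil (𝒬 : Finset ℕ) (h𝒬 : ∀ q ∈ 𝒬, q.Prime) (c : ℕ → ℂ) (hc : ∀ h, ‖c h‖ ≤ 1) (h₀ H n : ℕ) :
    ‖∑ h ∈ Ioc h₀ (h₀ + H), c h * mu (n + h) * (om 𝒬 (n + h) : ℂ)‖ ≤ EE c h₀ H 𝒬 n := by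
  have h1 : ∑ h ∈ Ioc h₀ (h₀ + H), c h * mu (n + h) * (om 𝒬 (n + h) : ℂ) =
      -(∑ q ∈ 𝒬, ∑ h ∈ Ioc h₀ (h₀ + H), (if q ∣ n + h then c h * mu ((n + h) / q) else 0)) +
      ∑ q ∈ 𝒬, ∑ h ∈ Ioc h₀ (h₀ + H),
        (if q * q ∣ n + h then c h * mu ((n + h) / q) else 0) := by
    simp_rw [om_castC, Finset.mul_sum]
    rw [Finset.sum_comm, ← Finset.sum_neg_distrib, ← Finset.sum_add_distrib]
    refine Finset.sum_congr rfl fun q hq => ?_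
    rw [← Finset.sum_neg_distrib, ← Finset.sum_add_distrib]
    refine Finset.sum_congr rfl fun h _ => ?_
    have hqp := h𝒬 q hq
    by_cases hd : q ∣ n + h
    · obtain ⟨m, hm⟩ := hd
      rw [hm, Nat.mul_div_cancel_left m hqp.pos, if_pos (Dvd.intro m rfl), if_pos (Dvd.intro m rfl)]
      unfold mu
      rw [moebius_prime_mul q m hqp]
      by_cases h2 : q ∣ m
      · rw [if_pos h2, if_pos (Nat.mul_dvd_mul_left q h2)]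
        push_cast
        ring
      · rw [if_neg h2, if_neg fun h3 => h2 (Nat.dvd_of_mul_dvd_mul_left hqp.pos h3)]
        push_cast
        ring
    · rw [if_neg hd, if_neg hd, if_neg fun h3 => hd ((Dvd.intro q rfl).trans h3)]
      simp
  rw [h1]
  refine (norm_add_le _ _).trans ?_
  rw [norm_neg]
  unfold EE
  refine add_le_add (norm_dil_le 𝒬 c h₀ H n) ?_
  refine (norm_sum_le _ _).trans (Finset.sum_le_sum fun q hq => ?_)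
  have hqp := h𝒬 q hq
  have h2 : ‖∑ h ∈ Ioc h₀ (h₀ + H), (if q * q ∣ n + h then c h * mu ((n + h) / q) else 0)‖ ≤
      ∑ h ∈ Ioc h₀ (h₀ + H), (if q * q ∣ n + h then (1 : ℝ) else 0) := by
    refine (norm_sum_le _ _).trans (Finset.sum_le_sum fun h _ => ?_)
    split_ifs
    · rw [norm_mul]
      exact mul_le_one₀ (hc h) (norm_nonneg _) (norm_mu_le_one _)
    · rw [norm_zero]
  refine h2.trans ?_
  rw [sum_shift h₀ H n (fun m => if q * q ∣ m then (1 : ℝ) else 0), sum_ite_card]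
  have h3 := abs_card_dvd_sub_le (n + h₀) H (q * q) (Nat.mul_pos hqp.pos hqp.pos)
  rw [abs_le] at h3
  push_cast at h3
  have e : (q : ℝ) ^ 2 = q * q := by ring
  rw [e]
  linarith [h3.2]

theorem tk_dil (𝒬 : Finset ℕ) (h𝒬 : ∀ q ∈ 𝒬, q.Prime) (c : ℕ → ℂ) (hc : ∀ h, ‖c h‖ ≤ 1) (h₀ H n : ℕ)
    (hH : (𝒬.card : ℝ) ^ 2 + 𝒬.card + 2 * (∑ q ∈ 𝒬, (1 : ℝ) / q) * 𝒬.card ≤ H) :
    (∑ q ∈ 𝒬, (1 : ℝ) / q) * ‖∑ h ∈ Ioc h₀ (h₀ + H), c h * mu (n + h)‖ ≤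
      Real.sqrt ((∑ q ∈ 𝒬, (1 : ℝ) / q) + 1) * H + EE c h₀ H 𝒬 n := by
  have htk := tk 𝒬 h𝒬 (n + h₀) H hH
  obtain ⟨S, hS⟩ : ∃ S : ℝ, S = ∑ q ∈ 𝒬, (1 : ℝ) / q := ⟨_, rfl⟩
  rw [← hS] at htk ⊢
  have hS0 : 0 ≤ S := by
    rw [hS]
    exact Finset.sum_nonneg fun q _ => by positivity
  have h1 : (S : ℂ) * ∑ h ∈ Ioc h₀ (h₀ + H), c h * mu (n + h) =
      ∑ h ∈ Ioc h₀ (h₀ + H), c h * mu (n + h) * ((S - (om 𝒬 (n + h) : ℝ) : ℝ) : ℂ) +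
      ∑ h ∈ Ioc h₀ (h₀ + H), c h * mu (n + h) * (om 𝒬 (n + h) : ℂ) := by
    rw [Finset.mul_sum, ← Finset.sum_add_distrib]
    refine Finset.sum_congr rfl fun h _ => ?_
    push_cast
    ring
  have h2 : S * ‖∑ h ∈ Ioc h₀ (h₀ + H), c h * mu (n + h)‖ =
      ‖(S : ℂ) * ∑ h ∈ Ioc h₀ (h₀ + H), c h * mu (n + h)‖ := by
    rw [norm_mul, Complex.norm_real, Real.norm_eq_abs, abs_of_nonneg hS0]
  rw [h2, h1]
  refine (norm_add_le _ _).trans (add_le_add ?_ (om_dil 𝒬 h𝒬 c hc h₀ H n))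
  have h3 : ‖∑ h ∈ Ioc h₀ (h₀ + H), c h * mu (n + h) * ((S - (om 𝒬 (n + h) : ℝ) : ℝ) : ℂ)‖ ≤
      ∑ h ∈ Ioc h₀ (h₀ + H), |(om 𝒬 (n + h) : ℝ) - S| := by
    refine (norm_sum_le _ _).trans (Finset.sum_le_sum fun h _ => ?_)
    rw [norm_mul, norm_mul, Complex.norm_real, Real.norm_eq_abs, abs_sub_comm]
    have h4 : ‖c h‖ * ‖mu (n + h)‖ ≤ 1 := mul_le_one₀ (hc h) (norm_nonneg _) (norm_mu_le_one _)
    have h5 := mul_le_mul_of_nonneg_right h4 (abs_nonneg ((om 𝒬 (n + h) : ℝ) - S))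
    rw [one_mul] at h5
    exact h5
  refine h3.trans ?_
  rw [sum_shift h₀ H n (fun m => |(om 𝒬 m : ℝ) - S|)]
  have h6 := sq_sum_le_card_mul_sum_sq (s := Ioc (n + h₀) (n + h₀ + H))
    (f := fun m => |(om 𝒬 m : ℝ) - S|)
  simp only [sq_abs] at h6
  have h7 : ((Ioc (n + h₀) (n + h₀ + H)).card : ℝ) = H := by
    rw [Nat.card_Ioc]
    congr 1
    omega
  rw [h7] at h6
  have h8 : (∑ m ∈ Ioc (n + h₀) (n + h₀ + H), |(om 𝒬 m : ℝ) - S|) ^ 2 ≤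
      (Real.sqrt (S + 1) * H) ^ 2 := by
    refine h6.trans ?_
    rw [mul_pow, Real.sq_sqrt (by linarith)]
    have := mul_le_mul_of_nonneg_left htk (Nat.cast_nonneg H : (0 : ℝ) ≤ H)
    refine this.trans (le_of_eq ?_)
    ring
  exact (pow_le_pow_iff_left₀ (Finset.sum_nonneg fun _ _ => abs_nonneg _) (by positivity)
    two_ne_zero).mp h8

theorem one_dil (𝒬 : Finset ℕ) (h𝒬 : ∀ q ∈ 𝒬, q.Prime) (c : ℕ → ℂ) (hc : ∀ h, ‖c h‖ ≤ 1) (h₀ H n : ℕ)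
    (z : ℝ) (hz : 0 ≤ z) :
    ‖∑ h ∈ Ioc h₀ (h₀ + H), c h * mu (n + h)‖ ≤
      ∑ h ∈ Ioc h₀ (h₀ + H), muR (n + h) ^ 2 -
      z * ∑ h ∈ Ioc h₀ (h₀ + H), muR (n + h) ^ 2 * (om 𝒬 (n + h) : ℝ) +
      2 * z ^ 2 * ∑ h ∈ Ioc h₀ (h₀ + H), (om 𝒬 (n + h) : ℝ) ^ 2 + z * EE c h₀ H 𝒬 n := by
  have h1 : ∑ h ∈ Ioc h₀ (h₀ + H), c h * mu (n + h) =
      ∑ h ∈ Ioc h₀ (h₀ + H), c h * mu (n + h) * ((1 - z * (om 𝒬 (n + h) : ℝ) : ℝ) : ℂ) +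
      (z : ℂ) * ∑ h ∈ Ioc h₀ (h₀ + H), c h * mu (n + h) * (om 𝒬 (n + h) : ℂ) := by
    rw [Finset.mul_sum, ← Finset.sum_add_distrib]
    refine Finset.sum_congr rfl fun h _ => ?_
    push_cast
    ring
  rw [h1]
  refine (norm_add_le _ _).trans (add_le_add ?_ ?_)
  · refine (norm_sum_le _ _).trans ?_
    rw [Finset.mul_sum, Finset.mul_sum, ← Finset.sum_sub_distrib, ← Finset.sum_add_distrib]
    refine Finset.sum_le_sum fun h _ => ?_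
    rw [norm_mul, norm_mul, Complex.norm_real, Real.norm_eq_abs, mu_eq_muR, Complex.norm_real,
      Real.norm_eq_abs]
    have hm : |muR (n + h)| = muR (n + h) ^ 2 ∧ muR (n + h) ^ 2 ≤ 1 := by
      unfold muR
      rcases ArithmeticFunction.moebius_eq_or (n + h) with h2 | h2 | h2 <;> rw [h2] <;> norm_num
    have ho : (0 : ℝ) ≤ (om 𝒬 (n + h) : ℝ) := Nat.cast_nonneg _
    obtain ⟨y, hy⟩ : ∃ y, y = z * (om 𝒬 (n + h) : ℝ) := ⟨_, rfl⟩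
    have hy0 : 0 ≤ y := by
      rw [hy]
      exact mul_nonneg hz ho
    have h3 : |1 - y| ≤ 1 - y + 2 * y ^ 2 := by
      rw [abs_le]
      constructor
      · nlinarith [sq_nonneg (y - 1)]
      · nlinarith [sq_nonneg y]
    have h4 : ‖c h‖ * |muR (n + h)| ≤ muR (n + h) ^ 2 := by
      rw [hm.1]
      have := mul_le_mul_of_nonneg_right (hc h) (sq_nonneg (muR (n + h)))
      rwa [one_mul] at this
    have h5 : ‖c h‖ * |muR (n + h)| * |1 - y| ≤ muR (n + h) ^ 2 * (1 - y + 2 * y ^ 2) :=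
      mul_le_mul h4 h3 (abs_nonneg _) (sq_nonneg _)
    have h6 : muR (n + h) ^ 2 * (2 * y ^ 2) ≤ 1 * (2 * y ^ 2) :=
      mul_le_mul_of_nonneg_right hm.2 (by positivity)
    rw [← hy]
    refine h5.trans ?_
    have h7 : 2 * z ^ 2 * (om 𝒬 (n + h) : ℝ) ^ 2 = 2 * y ^ 2 := by
      rw [hy]
      ring
    have h8 : z * (muR (n + h) ^ 2 * (om 𝒬 (n + h) : ℝ)) = muR (n + h) ^ 2 * y := by
      rw [hy]
      ring
    rw [h7, h8]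
    linarith
  · rw [norm_mul, Complex.norm_real, Real.norm_eq_abs, abs_of_nonneg hz]
    exact mul_le_mul_of_nonneg_left (om_dil 𝒬 h𝒬 c hc h₀ H n) hz

end Pool.BMG
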