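import Mathlib
import Pool.Agent.BMG.DilC
import Pool.Agent.BMG.OmDil
import Pool.Agent.SWP.ShortMu

/-!
# BMG/Small1: `∑_{n≤X} thp(n) |∑_h c_h μ(n+h)| ≤ ε H X` for `(log X)^{1-δ} ≤ H ≤ (log X)²`

Proof: as `short_mu_small` in `SWP/ShortMu` (same parameters `u, v`). `𝒬 = QQ u v`, `u = ⌈3δ log log X⌉`,
`v = ⌊(1/4) log log X⌋`, `S = RS u v ≥ log(v/u) - C ≥ log(1/(13δ)) - C` as large as we like for `δ` small, and bounded
above by `log(1/(12δ)) + C + 1`-like constant. `tk_dil` (its hypothesis holds as `#𝒬 ≤ e^v ≤ (log X)^{1/4}` and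
`H ≥ (log X)^{1-δ}`), summed against `thp n` (`∑_{n≤X} thp n ≤ C' X`, `thp_sums`):
`S ∑ thp(n) |…| ≤ C' √(S+1) H X + ∑ thp(n) EE`, and by `dilC` (with `κ = 2δ`, `ε'` for `Re c`, `Im c`):
`∑ thp(n) EE ≤ 2ε' S H X + C' X (H ∑_{q>e^u} 1/q² + #𝒬) ≤ 2ε' S H X + C' X (2H e^{-u} + (log X)^{1/4})`. Divide by `S`:
`≤ (C' √(S+1)/S + 2ε' + o(1)) H X ≤ ε H X`. Conditions of `dilC`: `e^u ≥ (log X)^{3δ}`, `e^u H ≥ (log X)^{1+2δ}`,
`e^v (log X)^{2δ} ≤ (log X)^{1/4+2δ} ≤ (log X)^{1-δ} ≤ H`.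
-/

set_option autoImplicit false

namespace Pool.BMG

open Finset Pool.MRZ Pool.SWP

theorem small_one (ε : ℝ) (hε : 0 < ε) (A : ℕ) : ∃ (δ : ℝ) (X₀ : ℕ), 0 < δ ∧ ∀ (X H h₀ : ℕ) (c : ℕ → ℂ), X₀ ≤ X →
    (Real.log X) ^ (1 - δ) ≤ H → (H : ℝ) ≤ (Real.log X) ^ 2 → h₀ ≤ A * X → (∀ h, ‖c h‖ ≤ 1) →
    ∑ n ∈ Icc 1 X, thp n * ‖∑ h ∈ Ioc h₀ (h₀ + H), c h * mu (n + h)‖ ≤ ε * H * X := by
  obtain ⟨C, hC, hRS⟩ := RS_bounds
  obtain ⟨D, hD, hthp⟩ := thp_sums
  set η : ℝ := ε / (8 * D) with hη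
  have hη0 : 0 < η := by positivity
  have hηD : D * η = ε / 8 := by
    rw [hη]
    field_simp
  set S0 : ℝ := 1 + 32 * D ^ 2 / ε ^ 2 with hS0
  have hS01 : 1 ≤ S0 := by
    have : 0 ≤ 32 * D ^ 2 / ε ^ 2 := by positivity
    linarith
  set δ : ℝ := Real.exp (-(S0 + C)) / 13 with hδ
  have hδ0 : 0 < δ := by positivity
  have hδ1 : δ ≤ 1 / 13 := by
    have : Real.exp (-(S0 + C)) ≤ 1 := Real.exp_le_one_iff.2 (by linarith)
    rw [hδ]
    linarith
  have hlogδ : Real.log (1 / (13 * δ)) = S0 + C := by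
    have : 1 / (13 * δ) = Real.exp (S0 + C) := by
      rw [hδ, Real.exp_neg]
      field_simp
    rw [this, Real.log_exp]
  obtain ⟨X₁, hdil⟩ := dilC (ε / 8) (2 * δ) (by positivity) (by positivity) A
  set Sm : ℝ := Real.log (1 / (12 * δ)) + C with hSm
  have hlogt : Filter.Tendsto (fun X : ℕ => Real.log (X : ℝ)) Filter.atTop Filter.atTop :=
    Real.tendsto_log_atTop.comp tendsto_natCast_atTop_atTop
  have hllt : Filter.Tendsto (fun X : ℕ => Real.log (Real.log (X : ℝ))) Filter.atTop Filter.atTop :=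
    Real.tendsto_log_atTop.comp hlogt
  have ev1 : ∀ᶠ X : ℕ in Filter.atTop, 52 * (1 + 1 / (13 * δ)) ≤ Real.log (Real.log X) :=
    hllt.eventually_ge_atTop _
  have ev2 : ∀ᶠ X : ℕ in Filter.atTop, 1 / η ≤ (Real.log X) ^ (3 * δ) :=
    ((tendsto_rpow_atTop (by positivity : 0 < 3 * δ)).comp hlogt).eventually_ge_atTop _
  have ev3 : ∀ᶠ X : ℕ in Filter.atTop, 1 / η ≤ (Real.log X) ^ (1 / 2 : ℝ) :=
    ((tendsto_rpow_atTop (by norm_num : (0 : ℝ) < 1 / 2)).comp hlogt).eventually_ge_atTop _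
  have ev4 : ∀ᶠ X : ℕ in Filter.atTop, 2 + 2 * Sm ≤ (Real.log X) ^ (1 / 4 : ℝ) :=
    ((tendsto_rpow_atTop (by norm_num : (0 : ℝ) < 1 / 4)).comp hlogt).eventually_ge_atTop _
  have ev5 : ∀ᶠ X : ℕ in Filter.atTop, 1 ≤ Real.log (X : ℝ) := hlogt.eventually_ge_atTop _
  obtain ⟨X₂, hX₂⟩ := Filter.eventually_atTop.1 (ev1.and (ev2.and (ev3.and (ev4.and ev5))))
  refine ⟨δ, max (max X₁ X₂) 2, hδ0, fun X H h₀ c hX hH1 hH2 hh₀ hc => ?_⟩
  have hXa : X₁ ≤ X := (le_max_left _ _).trans ((le_max_left _ _).trans hX)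
  have hX2 : 2 ≤ X := (le_max_right _ _).trans hX
  obtain ⟨e1, e2, e3, e4, e5⟩ := hX₂ X ((le_max_right _ _).trans ((le_max_left _ _).trans hX))
  set t : ℝ := Real.log X with ht
  set L : ℝ := Real.log t with hL
  have ht0 : 0 < t := by linarith
  have htL : t = Real.exp L := (Real.exp_log ht0).symm
  have hq0 : 0 < 1 / (13 * δ) := by positivity
  have hL52 : 52 ≤ L := by nlinarith
  have hL0 : 0 < L := by linarith
  set u : ℕ := ⌈3 * δ * L⌉₊ with hu
  set v : ℕ := ⌊L / 4⌋₊ with hv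
  have hu1 : 3 * δ * L ≤ u := Nat.le_ceil _
  have hu2 : (u : ℝ) < 3 * δ * L + 1 := Nat.ceil_lt_add_one (by positivity)
  have hu0 : 1 ≤ u := Nat.one_le_ceil_iff.2 (by positivity)
  have hv1 : (v : ℝ) ≤ L / 4 := Nat.floor_le (by positivity)
  have hv2 : L / 4 < v + 1 := Nat.lt_floor_add_one _
  have hu0' : (0 : ℝ) < u := by exact_mod_cast hu0
  have huv13 : (u : ℝ) ≤ 13 * δ * v := by
    have a1 : 13 * δ * (L / 4 - 1) ≤ 13 * δ * v := mul_le_mul_of_nonneg_left (by linarith) (by positivity)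
    have a2 : 13 * δ * (52 * (1 + 1 / (13 * δ))) ≤ 13 * δ * L :=
      mul_le_mul_of_nonneg_left e1 (by positivity)
    have a3 : 13 * δ * (52 * (1 + 1 / (13 * δ))) = 52 * (13 * δ + 1) := by field_simp
    rw [a3] at a2
    nlinarith
  have hvR : (u : ℝ) ≤ v := by
    have h13 : 13 * δ ≤ 1 := by linarith
    have hv0 : (0 : ℝ) ≤ v := by positivity
    nlinarith
  have huv : u ≤ v := by exact_mod_cast hvR
  have hv0 : (0 : ℝ) < v := by linarith
  -- size of S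
  set S : ℝ := RS u v with hSdef
  obtain ⟨r1, r2⟩ := hRS u v hu0 huv
  have hSlow : S0 ≤ S := by
    have b1 : 1 / (13 * δ) ≤ (v : ℝ) / u := by
      rw [div_le_div_iff₀ (by positivity) hu0']
      linarith
    have b2 := Real.log_le_log hq0 b1
    rw [hlogδ] at b2
    linarith
  have hSup : S ≤ Sm := by
    have b1 : (v : ℝ) / u ≤ 1 / (12 * δ) := by
      rw [div_le_div_iff₀ hu0' (by positivity)]
      nlinarith
    have b2 := Real.log_le_log (by positivity) b1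
    rw [hSm]
    linarith
  have hS1 : 1 ≤ S := hS01.trans hSlow
  have hSpos : 0 < S := by linarith
  -- exponentials
  have hLexp : ∀ x : ℝ, t ^ x = Real.exp (L * x) := fun x => Real.rpow_def_of_pos ht0 x
  have hexpu : t ^ (3 * δ) ≤ Real.exp u := by
    rw [hLexp]
    exact Real.exp_le_exp.2 (by linarith)
  have hexpv : Real.exp v ≤ t ^ (1 / 4 : ℝ) := by
    rw [hLexp]
    exact Real.exp_le_exp.2 (by linarith)
  have hmono : ∀ x y : ℝ, x ≤ y → t ^ x ≤ t ^ y := fun x y h => Real.rpow_le_rpow_of_exponent_le e5 h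
  have hadd : ∀ x y : ℝ, t ^ x * t ^ y = t ^ (x + y) := fun x y => (Real.rpow_add ht0 x y).symm
  have hHpos : (0 : ℝ) < H := lt_of_lt_of_le (Real.rpow_pos_of_pos ht0 _) hH1
  -- the dilation estimate
  have hd : ∀ coef : ℕ → ℝ, (∀ h, |coef h| ≤ 1) →
      ∑ n ∈ Icc 1 X, thp n * |dilS coef h₀ H (QQ u v) n| ≤ ε / 8 * S * H * X := by
    intro coef hcoef
    exact hdil X u v H h₀ coef hXa hu0 huv
      ((hmono _ _ (by linarith)).trans hexpu)
      (by
        calc t ^ (1 + 2 * δ) = t ^ (3 * δ) * t ^ (1 - δ) := by rw [hadd]; congr 1; ring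
          _ ≤ Real.exp u * H := mul_le_mul hexpu hH1 (by positivity) (Real.exp_pos _).le)
      (by
        calc Real.exp v * t ^ (2 * δ) ≤ t ^ (1 / 4 : ℝ) * t ^ (2 * δ) :=
              mul_le_mul_of_nonneg_right hexpv (by positivity)
          _ = t ^ (1 / 4 + 2 * δ) := hadd _ _
          _ ≤ t ^ (1 - δ) := hmono _ _ (by linarith)
          _ ≤ H := hH1)
      hH2 hh₀ hcoef
  -- the hypothesis of `tk`
  have hQ : ((QQ u v).card : ℝ) ≤ t ^ (1 / 4 : ℝ) := (QQ_card u v).trans hexpv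
  set T : ℝ := t ^ (1 / 4 : ℝ) with hT
  have hT1 : 1 ≤ T := Real.one_le_rpow e5 (by norm_num)
  have hQ0 : (0 : ℝ) ≤ ((QQ u v).card : ℝ) := Nat.cast_nonneg _
  have hTT : T * T * T ≤ H := by
    calc T * T * T = t ^ (3 / 4 : ℝ) := by
          rw [hT, hadd, hadd]
          norm_num
      _ ≤ t ^ (1 - δ) := hmono _ _ (by linarith)
      _ ≤ H := hH1
  have hprime : ∀ q ∈ QQ u v, q.Prime := fun q hq => (mem_filter.1 hq).2
  have htk : ((QQ u v).card : ℝ) ^ 2 + (QQ u v).card +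
      2 * (∑ q ∈ QQ u v, (1 : ℝ) / q) * (QQ u v).card ≤ H := by
    have hS' : ∑ q ∈ QQ u v, (1 : ℝ) / q = S := rfl
    rw [hS']
    have c1 : ((QQ u v).card : ℝ) ^ 2 ≤ T * T := by
      rw [sq]
      exact mul_le_mul hQ hQ hQ0 (by linarith)
    have c2 : ((QQ u v).card : ℝ) ≤ T * T := by nlinarith
    have c3 : 2 * S * ((QQ u v).card : ℝ) ≤ 2 * Sm * (T * T) :=
      mul_le_mul (by linarith) c2 hQ0 (by linarith)
    have c4 : (2 + 2 * Sm) * (T * T) ≤ T * (T * T) := mul_le_mul_of_nonneg_right e4 (by positivity)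
    nlinarith
  have hqsum : ∑ q ∈ QQ u v, ((H : ℝ) / (q : ℝ) ^ 2 + 1) ≤ H * (S * η) + η * H := by
    rw [sum_add_distrib]
    refine add_le_add ?_ ?_
    · rw [hSdef, RS, sum_mul, mul_sum]
      refine sum_le_sum fun q hq => ?_
      have hq1 := (mem_Ioc.1 (mem_filter.1 hq).1).1
      have hqexp : Real.exp u < q := (Nat.floor_lt (Real.exp_pos _).le).1 hq1
      have hq0 : (0 : ℝ) < q := (Real.exp_pos _).trans hqexp
      have d1 : 1 / η ≤ q := (e2.trans hexpu).trans hqexp.le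
      have d2 : 1 / (q : ℝ) ≤ η := by
        rw [div_le_iff₀ hq0]
        rw [div_le_iff₀ hη0] at d1
        linarith
      calc (H : ℝ) / (q : ℝ) ^ 2 = H * (1 / q * (1 / q)) := by field_simp
        _ ≤ H * (1 / q * η) :=
            mul_le_mul_of_nonneg_left (mul_le_mul_of_nonneg_left d2 (by positivity)) hHpos.le
    · rw [sum_const, nsmul_eq_mul, mul_one]
      refine hQ.trans ?_
      have d3 : 1 / η * T ≤ T * T * T := by
        have d4 : (t ^ (1 / 2 : ℝ)) = T * T := by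
          rw [hT, hadd]
          norm_num
        rw [d4] at e3
        exact mul_le_mul_of_nonneg_right e3 (by linarith)
      have d5 : 1 / η * T ≤ H := d3.trans hTT
      rw [div_mul_eq_mul_div, div_le_iff₀ hη0] at d5
      linarith
  have hsqrt : D * Real.sqrt (S + 1) ≤ S * (ε / 4) := by
    have f1 : 32 * D ^ 2 / ε ^ 2 ≤ S := by linarith
    rw [div_le_iff₀ (by positivity)] at f1
    have f2 : (D * Real.sqrt (S + 1)) ^ 2 ≤ (S * (ε / 4)) ^ 2 := by
      rw [mul_pow, Real.sq_sqrt (by positivity)]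
      have f3 : D ^ 2 * (S + 1) ≤ D ^ 2 * (2 * S) := mul_le_mul_of_nonneg_left (by linarith) (by positivity)
      have f4 : 32 * D ^ 2 * S ≤ S * ε ^ 2 * S := mul_le_mul_of_nonneg_right f1 hSpos.le
      nlinarith
    exact le_of_sq_le_sq f2 (by positivity)
  have hX0 : (0 : ℝ) < X := by
    have : 0 < X := by omega
    exact_mod_cast this
  have hTh := (hthp X hX2).1
  have hc1 : ∀ h, |(c h).re| ≤ 1 := fun h => (Complex.abs_re_le_norm _).trans (hc h)
  have hc2 : ∀ h, |(c h).im| ≤ 1 := fun h => (Complex.abs_im_le_norm _).trans (hc h)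
  have hd1 := hd (fun h => (c h).re) hc1
  have hd2 := hd (fun h => (c h).im) hc2
  have hsum : S * ∑ n ∈ Icc 1 X, thp n * ‖∑ h ∈ Ioc h₀ (h₀ + H), c h * mu (n + h)‖ ≤
      S * (ε * H * X) := by
    rw [mul_sum]
    have g0 : ∀ n ∈ Icc 1 X, S * (thp n * ‖∑ h ∈ Ioc h₀ (h₀ + H), c h * mu (n + h)‖) ≤
        thp n * |dilS (fun h => (c h).re) h₀ H (QQ u v) n| +
        thp n * |dilS (fun h => (c h).im) h₀ H (QQ u v) n| +
        thp n * (Real.sqrt (S + 1) * H + ∑ q ∈ QQ u v, ((H : ℝ) / (q : ℝ) ^ 2 + 1)) := by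
      intro n _
      have g1 := tk_dil (QQ u v) hprime c hc h₀ H n htk
      have g2 := mul_le_mul_of_nonneg_left g1 (thp_nonneg n)
      have hS' : ∑ q ∈ QQ u v, (1 : ℝ) / q = S := rfl
      rw [hS'] at g2
      unfold EE at g2
      calc S * (thp n * ‖∑ h ∈ Ioc h₀ (h₀ + H), c h * mu (n + h)‖)
          = thp n * (S * ‖∑ h ∈ Ioc h₀ (h₀ + H), c h * mu (n + h)‖) := by ring
        _ ≤ _ := g2
        _ = _ := by ring
    refine (sum_le_sum g0).trans ?_
    rw [sum_add_distrib, sum_add_distrib, ← sum_mul]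
    have g3 : (∑ n ∈ Icc 1 X, thp n) * (Real.sqrt (S + 1) * H +
        ∑ q ∈ QQ u v, ((H : ℝ) / (q : ℝ) ^ 2 + 1)) ≤
        (D * X) * (Real.sqrt (S + 1) * H + (H * (S * η) + η * H)) :=
      mul_le_mul hTh (add_le_add le_rfl hqsum)
        (add_nonneg (mul_nonneg (Real.sqrt_nonneg _) hHpos.le)
          (sum_nonneg fun q _ => by positivity)) (mul_nonneg hD.le hX0.le)
    have g4 : (D * X) * (Real.sqrt (S + 1) * H + (H * (S * η) + η * H)) =
        (D * Real.sqrt (S + 1)) * (H * X) + (D * η) * (S * (H * X)) + (D * η) * (H * X) := by ring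
    rw [g4, hηD] at g3
    have g5 : (0 : ℝ) ≤ (H : ℝ) * X := by positivity
    have g6 : (D * Real.sqrt (S + 1)) * (H * X) ≤ (S * (ε / 4)) * (H * X) :=
      mul_le_mul_of_nonneg_right hsqrt g5
    have g7 : (ε / 8) * (H * X : ℝ) ≤ (ε / 8) * (S * (H * X)) := by
      refine mul_le_mul_of_nonneg_left ?_ (by positivity)
      exact le_mul_of_one_le_left g5 hS1
    have g8 : 0 ≤ ε * (S * ((H : ℝ) * X)) := by positivity
    have e6 : ε / 8 * S * H * X = (ε / 8) * (S * (H * X)) := by ring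
    have e7 : S * (ε / 4) * (H * X) = (ε / 4) * (S * (H * X)) := by ring
    have e8 : S * (ε * H * X) = ε * (S * (H * X)) := by ring
    rw [e6] at hd1 hd2
    rw [e7] at g6
    rw [e8]
    linarith
  exact le_of_mul_le_mul_left hsum hSpos

end Pool.BMG
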