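import Mathlib
import Pool.Agent.BMG.Defs
import Pool.Agent.SWP.TK

/-!
# BMG/OmSec: the second moment of `om` over the shifted primes, all windows

There is `C`: for `X ≥ 2`, `𝒬` a finite set of primes `≤ Z`, `Z⁸ ≤ X`, `Z ≤ H`, all `h₀`:
`∑_{n≤X} thp(n) ∑_{h₀<h≤h₀+H} om 𝒬 (n+h)² ≤ C (1 + S)² H X`, `S = ∑_{q∈𝒬} 1/q`.

Proof: copy of `om_second` in `SWP/TK` (there `h₀ = 0` and the weights are `1_{n prime}`): `thp(n) ≤ log X` on primes
`n ≤ X` and `0` elsewhere. `om² = ∑_{q,q'} 1[q ∣ n+h, q' ∣ n+h]`; `q = q'`: for every `n` at most `H/q + 1 ≤ 2H/q` values of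
`h`, `∑ thp(n) ≤ CX` (`thp_sums`); `q ≠ q'`: `card_AP_le` for each `h` with `E = q q'`, `E⁴ ≤ Z⁸ ≤ X`, `F(qq') ≤ 4`.
-/

set_option autoImplicit false

namespace Pool.BMG

open Finset Pool.MRZ Pool.SWP

/-- number of `h` in a window with `e ∣ p + h` -/
private lemma card_win_le (p h₀ H e : ℕ) (he : 0 < e) :
    (((Ioc h₀ (h₀ + H)).filter (fun h => e ∣ p + h)).card : ℝ) ≤ (H : ℝ) / e + 1 := by
  have h1 : ((Ioc h₀ (h₀ + H)).filter (fun h => e ∣ p + h)).card =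
      ((Ioc (p + h₀) (p + h₀ + H)).filter (fun n => e ∣ n)).card := by
    rw [← Finset.card_image_of_injective ((Ioc h₀ (h₀ + H)).filter (fun h => e ∣ p + h))
      (fun a b hab => Nat.add_left_cancel hab : Function.Injective (fun h => p + h))]
    congr 1
    ext n
    simp only [mem_filter, mem_Ioc, mem_image]
    constructor
    · rintro ⟨h, ⟨⟨a, b⟩, c⟩, rfl⟩
      exact ⟨⟨by omega, by omega⟩, c⟩
    · rintro ⟨⟨a, b⟩, c⟩
      refine ⟨n - p, ⟨⟨by omega, by omega⟩, ?_⟩, by omega⟩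
      have : p + (n - p) = n := by omega
      rw [this]
      exact c
  rw [h1]
  have := abs_card_dvd_sub_le (p + h₀) H e he
  rw [abs_le] at this
  linarith [this.2]

private theorem om_second_win : ∃ C : ℝ, 0 < C ∧ ∀ (X H h₀ Z : ℕ) (𝒬 : Finset ℕ), 2 ≤ X →
    (∀ q ∈ 𝒬, q.Prime ∧ q ≤ Z) → Z ^ 8 ≤ X → Z ≤ H →
    ∑ p ∈ PP X, ∑ h ∈ Ioc h₀ (h₀ + H), (om 𝒬 (p + h) : ℝ) ^ 2 ≤
      C * (1 + ∑ q ∈ 𝒬, (1 : ℝ) / q) ^ 2 * H * (X / Real.log X) := by
  obtain ⟨C, hC, hAP⟩ := card_AP_le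
  refine ⟨4 * C, by positivity, ?_⟩
  intro X H h₀ Z 𝒬 hX h𝒬 hZX hZH
  have hlog : 0 < Real.log X := Real.log_pos (by exact_mod_cast (by omega : 1 < X))
  set S : ℝ := ∑ q ∈ 𝒬, (1 : ℝ) / q with hS
  have hS0 : 0 ≤ S := Finset.sum_nonneg fun q _ => by positivity
  set L : ℝ := X / Real.log X with hL
  have hL0 : 0 ≤ L := by positivity
  -- pi bound
  have hpi : ((PP X).card : ℝ) ≤ C * L := by
    have h := hAP X 1 0 hX le_rfl (by simpa using (by omega : 1 ≤ X))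
    have e1 : (PP X).filter (fun p => 1 ∣ p + 0) = PP X := by
      apply Finset.filter_true_of_mem; intro p _; exact one_dvd _
    rw [e1] at h
    have e2 : Pool.Agent.Lib.PrimePairs.F 1 = 1 := by simp [Pool.Agent.Lib.PrimePairs.F]
    rw [e2] at h
    refine h.trans (le_of_eq ?_)
    rw [hL]; push_cast; ring
  have hpair : ∀ q ∈ 𝒬, ∀ q' ∈ 𝒬,
      ∑ p ∈ PP X, (((Ioc h₀ (h₀ + H)).filter (fun h => q ∣ p + h ∧ q' ∣ p + h)).card : ℝ) ≤
        4 * C * ((1 : ℝ) / q * (1 / q')) * H * L + (if q = q' then 2 * C * ((1 : ℝ) / q) * H * L else 0) := by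
    intro q hq q' hq'
    obtain ⟨hqp, hqZ⟩ := h𝒬 q hq
    obtain ⟨hqp', hqZ'⟩ := h𝒬 q' hq'
    have hq0 : (0 : ℝ) < q := by exact_mod_cast hqp.pos
    have hq0' : (0 : ℝ) < q' := by exact_mod_cast hqp'.pos
    by_cases hqq : q = q'
    · subst hqq
      rw [if_pos rfl]
      have e1 : ∀ p ∈ PP X, (((Ioc h₀ (h₀ + H)).filter (fun h => q ∣ p + h ∧ q ∣ p + h)).card : ℝ) ≤
          2 * ((1 : ℝ) / q) * H := by
        intro p _
        have hs : (Ioc h₀ (h₀ + H)).filter (fun h => q ∣ p + h ∧ q ∣ p + h) =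
            (Ioc h₀ (h₀ + H)).filter (fun h => q ∣ p + h) := by
          apply Finset.filter_congr; intro n _; simp
        rw [hs]
        have := card_win_le p h₀ H q hqp.pos
        have e2 : (1 : ℝ) ≤ (H : ℝ) / q := by
          rw [le_div_iff₀ hq0, one_mul]
          exact_mod_cast hqZ.trans hZH
        have e3 : 2 * ((1 : ℝ) / q) * H = 2 * ((H : ℝ) / q) := by ring
        linarith
      have e4 := Finset.sum_le_card_nsmul _ _ _ e1
      rw [nsmul_eq_mul] at e4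
      have e5 : ((PP X).card : ℝ) * (2 * ((1 : ℝ) / q) * H) ≤ C * L * (2 * ((1 : ℝ) / q) * H) :=
        mul_le_mul_of_nonneg_right hpi (by positivity)
      have e6 : 0 ≤ 4 * C * ((1 : ℝ) / q * (1 / q)) * H * L := by positivity
      nlinarith
    · rw [if_neg hqq, add_zero]
      have hco : q.Coprime q' := (Nat.coprime_primes hqp hqp').mpr hqq
      have e1 : ∑ p ∈ PP X, (((Ioc h₀ (h₀ + H)).filter (fun h => q ∣ p + h ∧ q' ∣ p + h)).card : ℝ) =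
          ∑ h ∈ Ioc h₀ (h₀ + H), (((PP X).filter (fun p => q * q' ∣ p + h)).card : ℝ) := by
        have f1 : ∀ p ∈ PP X, (((Ioc h₀ (h₀ + H)).filter (fun h => q ∣ p + h ∧ q' ∣ p + h)).card : ℝ) =
            ∑ h ∈ Ioc h₀ (h₀ + H), (if q * q' ∣ p + h then (1 : ℝ) else 0) := by
          intro p _
          rw [← sum_ite_card]
          refine Finset.sum_congr rfl fun h _ => ?_
          have : (q ∣ p + h ∧ q' ∣ p + h) ↔ q * q' ∣ p + h := by
            constructor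
            · rintro ⟨ha, hb⟩; exact hco.mul_dvd_of_dvd_of_dvd ha hb
            · intro h; exact ⟨(Dvd.intro _ rfl).trans h, (Dvd.intro_left _ rfl).trans h⟩
          by_cases hh : q * q' ∣ p + h
          · rw [if_pos hh, if_pos (this.mpr hh)]
          · rw [if_neg hh, if_neg (fun h' => hh (this.mp h'))]
        rw [Finset.sum_congr rfl f1, Finset.sum_comm]
        refine Finset.sum_congr rfl fun h _ => ?_
        rw [sum_ite_card]
      rw [e1]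
      have hE : (q * q') ^ 4 ≤ X := by
        calc (q * q') ^ 4 ≤ (Z * Z) ^ 4 := Nat.pow_le_pow_left (Nat.mul_le_mul hqZ hqZ') 4
          _ = Z ^ 8 := by ring
          _ ≤ X := hZX
      have e2 : ∀ h ∈ Ioc h₀ (h₀ + H), (((PP X).filter (fun p => q * q' ∣ p + h)).card : ℝ) ≤
          4 * C * ((1 : ℝ) / q * (1 / q')) * L := by
        intro h _
        refine (hAP X (q * q') h hX (Nat.mul_pos hqp.pos hqp'.pos) hE).trans ?_
        have f2 := F_mul_primes_le q q' hqp hqp' hqq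
        have f3 : C * Pool.Agent.Lib.PrimePairs.F (q * q') * X / (((q * q' : ℕ) : ℝ) * Real.log X) =
            Pool.Agent.Lib.PrimePairs.F (q * q') * (C * ((1 : ℝ) / q * (1 / q')) * L) := by
          rw [hL]; push_cast; field_simp
        rw [f3]
        calc Pool.Agent.Lib.PrimePairs.F (q * q') * (C * ((1 : ℝ) / q * (1 / q')) * L)
            ≤ 4 * (C * ((1 : ℝ) / q * (1 / q')) * L) := mul_le_mul_of_nonneg_right f2 (by positivity)
          _ = _ := by ring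
      refine (Finset.sum_le_card_nsmul _ _ _ e2).trans (le_of_eq ?_)
      rw [nsmul_eq_mul, Nat.card_Ioc, Nat.add_sub_cancel_left]
      ring
  have e1 : ∑ p ∈ PP X, ∑ h ∈ Ioc h₀ (h₀ + H), (om 𝒬 (p + h) : ℝ) ^ 2 =
      ∑ q ∈ 𝒬, ∑ q' ∈ 𝒬, ∑ p ∈ PP X,
        (((Ioc h₀ (h₀ + H)).filter (fun h => q ∣ p + h ∧ q' ∣ p + h)).card : ℝ) := by
    have f1 : ∀ p ∈ PP X, ∑ h ∈ Ioc h₀ (h₀ + H), (om 𝒬 (p + h) : ℝ) ^ 2 =
        ∑ q ∈ 𝒬, ∑ q' ∈ 𝒬, (((Ioc h₀ (h₀ + H)).filter (fun h => q ∣ p + h ∧ q' ∣ p + h)).card : ℝ) := by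
      intro p _
      simp_rw [om_sq]
      rw [Finset.sum_comm]
      refine Finset.sum_congr rfl fun q _ => ?_
      rw [Finset.sum_comm]
      refine Finset.sum_congr rfl fun q' _ => ?_
      rw [sum_ite_card]
    rw [Finset.sum_congr rfl f1, Finset.sum_comm]
    refine Finset.sum_congr rfl fun q _ => ?_
    rw [Finset.sum_comm]
  rw [e1]
  calc ∑ q ∈ 𝒬, ∑ q' ∈ 𝒬, ∑ p ∈ PP X,
        (((Ioc h₀ (h₀ + H)).filter (fun h => q ∣ p + h ∧ q' ∣ p + h)).card : ℝ)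
      ≤ ∑ q ∈ 𝒬, ∑ q' ∈ 𝒬, (4 * C * ((1 : ℝ) / q * (1 / q')) * H * L +
          (if q = q' then 2 * C * ((1 : ℝ) / q) * H * L else 0)) :=
        Finset.sum_le_sum fun q hq => Finset.sum_le_sum fun q' hq' => hpair q hq q' hq'
    _ = (4 * C * S ^ 2 + 2 * C * S) * H * L := by
        have f1 : ∀ q ∈ 𝒬, ∑ q' ∈ 𝒬, (4 * C * ((1 : ℝ) / q * (1 / q')) * H * L +
            (if q = q' then 2 * C * ((1 : ℝ) / q) * H * L else 0)) =
            (1 : ℝ) / q * (4 * C * S * H * L + 2 * C * H * L) := by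
          intro q hq
          rw [Finset.sum_add_distrib, Finset.sum_ite_eq, if_pos hq]
          have g1 : ∑ q' ∈ 𝒬, 4 * C * ((1 : ℝ) / q * (1 / q')) * H * L =
              (4 * C * ((1 : ℝ) / q) * H * L) * S := by
            rw [hS, Finset.mul_sum]
            refine Finset.sum_congr rfl fun q' _ => ?_
            ring
          rw [g1]; ring
        rw [Finset.sum_congr rfl f1, ← Finset.sum_mul, ← hS]
        ring
    _ ≤ 4 * C * (1 + S) ^ 2 * H * L := by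
        have g1 : 4 * C * S ^ 2 + 2 * C * S ≤ 4 * C * (1 + S) ^ 2 := by nlinarith
        have g2 : (0 : ℝ) ≤ (H : ℝ) * L := by positivity
        nlinarith [mul_le_mul_of_nonneg_right g1 g2]

theorem om_sec : ∃ C : ℝ, 0 < C ∧ ∀ (X H h₀ Z : ℕ) (𝒬 : Finset ℕ), 2 ≤ X → (∀ q ∈ 𝒬, q.Prime ∧ q ≤ Z) →
    Z ^ 8 ≤ X → Z ≤ H →
    ∑ n ∈ Icc 1 X, thp n * ∑ h ∈ Ioc h₀ (h₀ + H), (om 𝒬 (n + h) : ℝ) ^ 2 ≤
      C * (1 + ∑ q ∈ 𝒬, (1 : ℝ) / q) ^ 2 * H * X := by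
  obtain ⟨C, hC, hom⟩ := om_second_win
  refine ⟨C, hC, ?_⟩
  intro X H h₀ Z 𝒬 hX h𝒬 hZX hZH
  have hlog : 0 < Real.log X := Real.log_pos (by exact_mod_cast (by omega : 1 < X))
  have h1 := hom X H h₀ Z 𝒬 hX h𝒬 hZX hZH
  have h2 : ∑ n ∈ Icc 1 X, thp n * ∑ h ∈ Ioc h₀ (h₀ + H), (om 𝒬 (n + h) : ℝ) ^ 2 ≤
      Real.log X * ∑ p ∈ PP X, ∑ h ∈ Ioc h₀ (h₀ + H), (om 𝒬 (p + h) : ℝ) ^ 2 := by
    unfold PP
    rw [Finset.mul_sum, Finset.sum_filter]
    refine Finset.sum_le_sum fun n hn => ?_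
    obtain ⟨hn1, hn2⟩ := Finset.mem_Icc.1 hn
    have hw : 0 ≤ ∑ h ∈ Ioc h₀ (h₀ + H), (om 𝒬 (n + h) : ℝ) ^ 2 :=
      Finset.sum_nonneg fun h _ => sq_nonneg _
    by_cases hp : n.Prime
    · rw [if_pos hp]
      refine mul_le_mul_of_nonneg_right ((thp_le n).trans ?_) hw
      exact Real.log_le_log (by exact_mod_cast hn1) (by exact_mod_cast hn2)
    · rw [if_neg hp]
      unfold thp
      rw [if_neg hp, zero_mul]
  refine h2.trans ?_
  calc Real.log X * ∑ p ∈ PP X, ∑ h ∈ Ioc h₀ (h₀ + H), (om 𝒬 (p + h) : ℝ) ^ 2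
      ≤ Real.log X * (C * (1 + ∑ q ∈ 𝒬, (1 : ℝ) / q) ^ 2 * H * (X / Real.log X)) :=
        mul_le_mul_of_nonneg_left h1 hlog.le
    _ = C * (1 + ∑ q ∈ 𝒬, (1 : ℝ) / q) ^ 2 * H * X := by
        field_simp

end Pool.BMG
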