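import Mathlib
import Pool.Agent.BMG.Defs
import Pool.Agent.SWP.PosLong

/-!
# BMG/SqLow: many squarefree multiples of `q` in the windows

For `A` there are `K ≥ 1, X₀`: for `X ≥ X₀`, `q` with `q = 1`, or `q` prime and `q ≥ K`; `q ≤ log X`, `K q ≤ H ≤ X`, `h₀ ≤ A X`:
`∑_{n≤X} thp(n) #{h ∈ (h₀, h₀+H] : q ∣ n+h, n+h squarefree} ≥ (H/(4q)) X`.

Proof. For every `n` the number of `h` with `q ∣ n+h` is `≥ H/q - 1`. If `n + h` is not squarefree, `q ∣ n+h`, then `q² ∣ n+h`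
(`q` prime; at most `H/q² + 1` values of `h`), or `q p² ∣ n+h` for a prime `p ≠ q`. For the primes `p ≤ z` (`z` a large
constant; `K` is chosen after `z`): at most `∑_{p≤z} (H/(q p²) + 1) ≤ 0.568 H/q + z` (`PosAux.sq_sum`). For
`p > z`: on average over `n`. For `E = q p²` with `E⁴ ≤ X`: `∑_{n≤X} thp(n) 1[E ∣ n+h] ≤ log X · #{p' ≤ X : E ∣ p'+h} ≤
C F(E) X/E ≤ 6C X/(q p²)` (`card_AP_le`), sum over `h` and `p > z`: `≤ 6C H X/(q z)`
(`PosAux.tail_sum`). For `E⁴ > X`, `p² ≤ (A+2) X`: `≤ log X (X/E + 1)` (`PosAux.card_AP_triv`); the sum over `h` and `p` is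
`≤ H log X (X/(q Q) + √((A+2)X))` with `Q = ⌈(log X)²⌉`, which is `≤ (1/50)(H/q) X` for large `X` (`q ≤ log X`). So the sum
is at least `(H/q - 1 - H/q² - 1 - 0.568 H/q - z) ∑ thp(n) - (6C/z + 1/50)(H/q) X ≥ (H/(4q)) X` since
`∑_{n≤X} thp(n) = θ(X) ≥ 0.99 X` (`Pool/Agent/Lib/PNT.lean`: `theta`, `PairUp.sum_thp`), `z` large and `K` large.
-/

set_option autoImplicit false

namespace Pool.BMG

open Finset Pool.MRZ Pool.SWP

namespace SqLowAux

/-- shift of a window -/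
lemma card_win (P : ℕ → Prop) [DecidablePred P] (n h₀ H : ℕ) :
    ((Ioc h₀ (h₀ + H)).filter (fun h => P (n + h))).card =
      ((Ioc (n + h₀) (n + h₀ + H)).filter P).card := by
  refine card_bij (fun h _ => n + h) ?_ ?_ ?_
  · intro h hh
    obtain ⟨h1, h2⟩ := mem_filter.1 hh
    obtain ⟨h3, h4⟩ := mem_Ioc.1 h1
    exact mem_filter.2 ⟨mem_Ioc.2 ⟨by omega, by omega⟩, h2⟩
  · intro h _ h' _ hhh
    omega
  · intro m hm
    obtain ⟨h1, h2⟩ := mem_filter.1 hm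
    obtain ⟨h3, h4⟩ := mem_Ioc.1 h1
    refine ⟨m - n, mem_filter.2 ⟨mem_Ioc.2 ⟨by omega, by omega⟩, ?_⟩, by omega⟩
    rw [show n + (m - n) = m by omega]
    exact h2

lemma win_le (d n h₀ H : ℕ) (hd : 0 < d) :
    (((Ioc h₀ (h₀ + H)).filter (fun h => d ∣ n + h)).card : ℝ) ≤ (H : ℝ) / d + 1 := by
  rw [card_win (fun m => d ∣ m) n h₀ H]
  exact PosAux.card_dvd_Ioc d (n + h₀) H hd

lemma win_ge (d n h₀ H : ℕ) (hd : 0 < d) :
    (H : ℝ) / d - 1 ≤ (((Ioc h₀ (h₀ + H)).filter (fun h => d ∣ n + h)).card : ℝ) := by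
  rw [card_win (fun m => d ∣ m) n h₀ H]
  have h1 : (Ioc (n + h₀) (n + h₀ + H)).filter (fun m => d ∣ m) =
      (Ioc (n + h₀) (n + h₀ + H)).filter (fun m => m ≡ 0 [MOD d]) := by
    refine filter_congr fun m _ => ?_
    rw [Nat.modEq_zero_iff_dvd]
  rw [h1]
  have h2 := Pool.Agent.Lib.PrimePairs.abs_count_modEq_sub_le (n + h₀) (n + h₀ + H) d 0
    (Nat.le_add_right _ _) hd
  have h3 := (abs_le.1 h2).1
  have h4 : (((n + h₀ + H : ℕ) : ℝ) - ((n + h₀ : ℕ) : ℝ)) / d = (H : ℝ) / d := by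
    push_cast
    ring
  rw [h4] at h3
  linarith

/-- the window elements `h` with `q p² ∣ n + h` for some prime `p ≠ q`, `p > z` -/
noncomputable def TB (q z H h₀ n : ℕ) : ℕ := by
  classical
  exact ((Ioc h₀ (h₀ + H)).filter
    (fun h => ∃ p : ℕ, p.Prime ∧ p ≠ q ∧ z < p ∧ q * p ^ 2 ∣ n + h)).card

/-- the elements with a square factor -/
lemma good_ge (q z H h₀ n : ℕ) (hz : 6 ≤ z) (hq : q = 1 ∨ q.Prime) :
    (H : ℝ) / q - 1 - (if q = 1 then 0 else (H : ℝ) / (q : ℝ) ^ 2 + 1) -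
      (0.568 * ((H : ℝ) / q) + z) - TB q z H h₀ n ≤
      (((Ioc h₀ (h₀ + H)).filter (fun h => q ∣ n + h ∧ Squarefree (n + h))).card : ℝ) := by
  classical
  have hq0 : 0 < q := by
    rcases hq with h | h
    · omega
    · exact h.pos
  have hqR : (0 : ℝ) < q := by exact_mod_cast hq0
  obtain ⟨W, hW⟩ : ∃ W, W = Ioc h₀ (h₀ + H) := ⟨_, rfl⟩
  obtain ⟨E, hE⟩ : ∃ E : Finset ℕ, E = if q = 1 then ∅ else W.filter (fun h => q ^ 2 ∣ n + h) :=
    ⟨_, rfl⟩
  have h1 : W.filter (fun h => q ∣ n + h) ⊆ W.filter (fun h => q ∣ n + h ∧ Squarefree (n + h)) ∪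
      (E ∪ ((((Icc 1 z).filter Nat.Prime).biUnion (fun p => W.filter (fun h => q * p ^ 2 ∣ n + h))) ∪
        W.filter (fun h => ∃ p : ℕ, p.Prime ∧ p ≠ q ∧ z < p ∧ q * p ^ 2 ∣ n + h))) := by
    intro h hh
    obtain ⟨hhW, hqh⟩ := mem_filter.1 hh
    by_cases hs : Squarefree (n + h)
    · exact mem_union_left _ (mem_filter.2 ⟨hhW, hqh, hs⟩)
    · refine mem_union_right _ ?_
      rw [Nat.squarefree_iff_prime_squarefree] at hs
      push Not at hs
      obtain ⟨p, hp, hpn⟩ := hs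
      rw [← pow_two] at hpn
      by_cases hpq : p = q
      · refine mem_union_left _ ?_
        have hq1 : q ≠ 1 := by
          rw [← hpq]
          exact hp.one_lt.ne'
        rw [hE, if_neg hq1]
        refine mem_filter.2 ⟨hhW, ?_⟩
        rw [← hpq]
        exact hpn
      · refine mem_union_right _ ?_
        have hco : Nat.Coprime q (p ^ 2) := by
          rcases hq with h1 | h1
          · rw [h1]
            exact Nat.coprime_one_left _
          · refine Nat.Coprime.pow_right 2 ?_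
            exact (Nat.coprime_primes h1 hp).2 (Ne.symm hpq)
        have hdv : q * p ^ 2 ∣ n + h := hco.mul_dvd_of_dvd_of_dvd hqh hpn
        rcases le_or_gt p z with h3 | h3
        · exact mem_union_left _ (mem_biUnion.2 ⟨p, mem_filter.2 ⟨mem_Icc.2 ⟨hp.one_le, h3⟩, hp⟩,
            mem_filter.2 ⟨hhW, hdv⟩⟩)
        · exact mem_union_right _ (mem_filter.2 ⟨hhW, p, hp, hpq, h3, hdv⟩)
  have h2 := card_le_card h1
  have hTB : (W.filter (fun h => ∃ p : ℕ, p.Prime ∧ p ≠ q ∧ z < p ∧ q * p ^ 2 ∣ n + h)).card =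
      TB q z H h₀ n := by
    unfold TB
    rw [hW]
  have h3 : (W.filter (fun h => q ∣ n + h)).card ≤
      (W.filter (fun h => q ∣ n + h ∧ Squarefree (n + h))).card +
      (E.card + (∑ p ∈ (Icc 1 z).filter Nat.Prime, (W.filter (fun h => q * p ^ 2 ∣ n + h)).card +
        TB q z H h₀ n)) := by
    refine h2.trans ((card_union_le _ _).trans (add_le_add le_rfl ?_))
    refine (card_union_le _ _).trans (add_le_add le_rfl ?_)
    refine (card_union_le _ _).trans (add_le_add card_biUnion_le ?_)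
    rw [hTB]
  have h4 : ((W.filter (fun h => q ∣ n + h)).card : ℝ) ≤
      ((W.filter (fun h => q ∣ n + h ∧ Squarefree (n + h))).card : ℝ) +
      ((E.card : ℝ) + (∑ p ∈ (Icc 1 z).filter Nat.Prime,
        ((W.filter (fun h => q * p ^ 2 ∣ n + h)).card : ℝ) + TB q z H h₀ n)) := by
    exact_mod_cast h3
  have h5 : (H : ℝ) / q - 1 ≤ ((W.filter (fun h => q ∣ n + h)).card : ℝ) := by
    rw [hW]
    exact win_ge q n h₀ H hq0
  have h6 : (E.card : ℝ) ≤ if q = 1 then 0 else (H : ℝ) / (q : ℝ) ^ 2 + 1 := by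
    rw [hE]
    split_ifs with hq1
    · simp
    · rw [hW]
      have := win_le (q ^ 2) n h₀ H (pow_pos hq0 2)
      push_cast at this
      exact this
  have h7 : ∑ p ∈ (Icc 1 z).filter Nat.Prime,
        ((W.filter (fun h => q * p ^ 2 ∣ n + h)).card : ℝ) ≤ 0.568 * ((H : ℝ) / q) + z := by
    have h8 : ∀ p ∈ (Icc 1 z).filter Nat.Prime,
        ((W.filter (fun h => q * p ^ 2 ∣ n + h)).card : ℝ) ≤
          (H : ℝ) / q * (1 / (p : ℝ) ^ 2) + 1 := by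
      intro p hp
      have h9 := win_le (q * p ^ 2) n h₀ H
        (Nat.mul_pos hq0 (pow_pos (mem_filter.1 hp).2.pos 2))
      push_cast at h9
      rw [hW]
      refine h9.trans (le_of_eq ?_)
      rw [div_mul_div_comm, mul_one]
    refine (sum_le_sum h8).trans ?_
    rw [sum_add_distrib, ← mul_sum, sum_const, nsmul_eq_mul, mul_one]
    have h9 := PosAux.sq_sum z hz
    have h10 : (0 : ℝ) ≤ 1 / z := by positivity
    have h11 : (((Icc 1 z).filter Nat.Prime).card : ℝ) ≤ z := by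
      have h12 : ((Icc 1 z).filter Nat.Prime).card ≤ z := by
        refine (card_le_card (filter_subset _ _)).trans ?_
        rw [Nat.card_Icc]
        omega
      exact_mod_cast h12
    have h12 : (H : ℝ) / q * ∑ p ∈ (Icc 1 z).filter Nat.Prime, (1 : ℝ) / (p : ℝ) ^ 2 ≤
        (H : ℝ) / q * 0.568 :=
      mul_le_mul_of_nonneg_left (by linarith) (by positivity)
    linarith
  rw [← hW]
  linarith

/-- `TB` in terms of divisibilities -/
lemma TB_le (A X q z H h₀ n : ℕ) (hq : 1 ≤ q) (hn : n ≤ X) (hHX : H ≤ X) (hh₀ : h₀ ≤ A * X) :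
    TB q z H h₀ n ≤ ∑ p ∈ (Ioc z (Nat.sqrt ((A + 2) * X))).filter (fun p => p.Prime ∧ p ≠ q),
      ∑ h ∈ Ioc h₀ (h₀ + H), if q * p ^ 2 ∣ n + h then 1 else 0 := by
  classical
  have h1 : TB q z H h₀ n ≤
      (((Ioc z (Nat.sqrt ((A + 2) * X))).filter (fun p => p.Prime ∧ p ≠ q)).biUnion
        (fun p => (Ioc h₀ (h₀ + H)).filter (fun h => q * p ^ 2 ∣ n + h))).card := by
    unfold TB
    refine card_le_card ?_
    intro h hh
    obtain ⟨hh1, p, hp, hpq, hzp, hpn⟩ := mem_filter.1 hh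
    obtain ⟨h2, h3⟩ := mem_Ioc.1 hh1
    refine mem_biUnion.2 ⟨p, mem_filter.2 ⟨mem_Ioc.2 ⟨hzp, ?_⟩, hp, hpq⟩,
      mem_filter.2 ⟨hh1, hpn⟩⟩
    rw [Nat.le_sqrt']
    have h4 : q * p ^ 2 ≤ n + h := Nat.le_of_dvd (by omega) hpn
    have h5 : p ^ 2 ≤ q * p ^ 2 := Nat.le_mul_of_pos_left _ hq
    have h6 : (A + 2) * X = A * X + 2 * X := by ring
    omega
  refine h1.trans (card_biUnion_le.trans ?_)
  refine sum_le_sum fun p _ => ?_
  rw [card_filter]

lemma sum_TB_le (A X q z H h₀ : ℕ) (hq : 1 ≤ q) (hHX : H ≤ X) (hh₀ : h₀ ≤ A * X) :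
    (∑ n ∈ PP X, (TB q z H h₀ n : ℝ)) ≤
      ∑ p ∈ (Ioc z (Nat.sqrt ((A + 2) * X))).filter (fun p => p.Prime ∧ p ≠ q),
      ∑ h ∈ Ioc h₀ (h₀ + H), (((PP X).filter (fun n => q * p ^ 2 ∣ n + h)).card : ℝ) := by
  have h1 : ∑ n ∈ PP X, TB q z H h₀ n ≤ ∑ n ∈ PP X,
      ∑ p ∈ (Ioc z (Nat.sqrt ((A + 2) * X))).filter (fun p => p.Prime ∧ p ≠ q),
        ∑ h ∈ Ioc h₀ (h₀ + H), (if q * p ^ 2 ∣ n + h then 1 else 0) :=
    sum_le_sum fun n hn => TB_le A X q z H h₀ n hq (mem_Icc.1 (mem_filter.1 hn).1).2 hHX hh₀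
  have h2 : ∑ n ∈ PP X,
      ∑ p ∈ (Ioc z (Nat.sqrt ((A + 2) * X))).filter (fun p => p.Prime ∧ p ≠ q),
        ∑ h ∈ Ioc h₀ (h₀ + H), (if q * p ^ 2 ∣ n + h then 1 else 0) =
      ∑ p ∈ (Ioc z (Nat.sqrt ((A + 2) * X))).filter (fun p => p.Prime ∧ p ≠ q),
      ∑ h ∈ Ioc h₀ (h₀ + H), ((PP X).filter (fun n => q * p ^ 2 ∣ n + h)).card := by
    rw [sum_comm]
    refine sum_congr rfl fun p _ => ?_
    rw [sum_comm]
    refine sum_congr rfl fun h _ => ?_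
    rw [card_filter]
  rw [h2] at h1
  exact_mod_cast h1

lemma F_le (q p : ℕ) (hq : q = 1 ∨ q.Prime) (hp : p.Prime) (hpq : p ≠ q) :
    Pool.Agent.Lib.PrimePairs.F (q * p ^ 2) ≤ 6 := by
  unfold Pool.Agent.Lib.PrimePairs.F
  have h1 : ∑ e ∈ (q * p ^ 2).divisors, (1 : ℝ) / e ≤ ∑ e ∈ (q * p ^ 2).divisors, (1 : ℝ) := by
    refine Finset.sum_le_sum fun e he => ?_
    have : 0 < e := Nat.pos_of_mem_divisors he
    rw [div_le_one (by exact_mod_cast this)]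
    exact_mod_cast this
  refine h1.trans ?_
  have h3 : (p ^ 2).divisors.card = 3 := by
    rw [Nat.divisors_prime_pow hp, card_map, card_range]
  have h2 : (q * p ^ 2).divisors.card ≤ 6 := by
    rcases hq with h | h
    · rw [h, one_mul, h3]
      norm_num
    · have hco : Nat.Coprime q (p ^ 2) :=
        Nat.Coprime.pow_right 2 ((Nat.coprime_primes h hp).2 (Ne.symm hpq))
      rw [Nat.Coprime.card_divisors_mul hco, h3, h.divisors, Finset.card_pair h.one_lt.ne]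
  rw [Finset.sum_const, nsmul_eq_mul, mul_one]
  exact_mod_cast h2

/-- the two ranges of `p` -/
lemma sum_TB_bound : ∃ C : ℝ, 0 < C ∧ ∀ A X q z H h₀ Q : ℕ, 2 ≤ X → (q = 1 ∨ q.Prime) →
    1 ≤ z → z ≤ Q → (q * Q ^ 2) ^ 4 ≤ X → H ≤ X → h₀ ≤ A * X →
    (∑ n ∈ PP X, (TB q z H h₀ n : ℝ)) ≤
      H * (C * (X / (q * Real.log X)) * (1 / z) +
        (X / q * (1 / (Q : ℝ)) + Nat.sqrt ((A + 2) * X))) := by
  obtain ⟨C, hC, hAP⟩ := card_AP_le
  refine ⟨6 * C, by positivity, ?_⟩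
  intro A X q z H h₀ Q hX hq hz hzQ hQ hHX hh₀
  have hq0 : 1 ≤ q := by
    rcases hq with h | h
    · omega
    · exact h.one_le
  have hqR : (0 : ℝ) < q := by exact_mod_cast hq0
  refine (sum_TB_le A X q z H h₀ hq0 hHX hh₀).trans ?_
  have hlog : 0 < Real.log X := Real.log_pos (by exact_mod_cast hX)
  have hterm : ∀ p ∈ (Ioc z (Nat.sqrt ((A + 2) * X))).filter (fun p => p.Prime ∧ p ≠ q),
      ∑ h ∈ Ioc h₀ (h₀ + H), (((PP X).filter (fun n => q * p ^ 2 ∣ n + h)).card : ℝ) ≤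
      H * (if p ≤ Q then 6 * C * (X / (q * Real.log X)) * (1 / (p : ℝ) ^ 2) else
        X / q * (1 / (p : ℝ) ^ 2) + 1) := by
    intro p hp
    obtain ⟨hpp, hpq⟩ := (mem_filter.1 hp).2
    have hp0 : (0 : ℝ) < p := by exact_mod_cast hpp.pos
    have h1 : ∀ h ∈ Ioc h₀ (h₀ + H), (((PP X).filter (fun n => q * p ^ 2 ∣ n + h)).card : ℝ) ≤
        (if p ≤ Q then 6 * C * (X / (q * Real.log X)) * (1 / (p : ℝ) ^ 2) else
          X / q * (1 / (p : ℝ) ^ 2) + 1) := by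
      intro h _
      split_ifs with hpQ
      · have h2 : (q * p ^ 2) ^ 4 ≤ X := by
          refine le_trans ?_ hQ
          exact Nat.pow_le_pow_left (Nat.mul_le_mul_left _ (Nat.pow_le_pow_left hpQ 2)) 4
        refine (hAP X (q * p ^ 2) h hX
          (Nat.mul_pos hq0 (pow_pos hpp.pos 2)) h2).trans ?_
        push_cast
        have h3 := F_le q p hq hpp hpq
        have h4 : C * Pool.Agent.Lib.PrimePairs.F (q * p ^ 2) * X /
            ((q : ℝ) * (p : ℝ) ^ 2 * Real.log X) =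
            Pool.Agent.Lib.PrimePairs.F (q * p ^ 2) *
              (C * (X / (q * Real.log X)) * (1 / (p : ℝ) ^ 2)) := by
          field_simp
        have h5 : 6 * C * (X / (q * Real.log X)) * (1 / (p : ℝ) ^ 2) =
            6 * (C * (X / (q * Real.log X)) * (1 / (p : ℝ) ^ 2)) := by ring
        rw [h4, h5]
        exact mul_le_mul_of_nonneg_right h3 (by positivity)
      · have h2 := PosAux.card_AP_triv X (q * p ^ 2) h (Nat.mul_pos hq0 (pow_pos hpp.pos 2))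
        push_cast at h2
        refine h2.trans (le_of_eq ?_)
        rw [div_mul_div_comm, mul_one]
    refine (sum_le_card_nsmul _ _ _ h1).trans ?_
    rw [Nat.card_Ioc, nsmul_eq_mul, Nat.add_sub_cancel_left]
  refine (sum_le_sum hterm).trans ?_
  rw [← mul_sum]
  refine mul_le_mul_of_nonneg_left ?_ (Nat.cast_nonneg _)
  rw [sum_ite]
  refine add_le_add ?_ ?_
  · rw [← mul_sum]
    refine mul_le_mul_of_nonneg_left ?_ (by positivity)
    refine le_trans ?_ (PosAux.tail_sum z Q hz)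
    refine sum_le_sum_of_subset_of_nonneg ?_ fun n _ _ => by positivity
    intro p hp
    obtain ⟨h1, h2⟩ := mem_filter.1 hp
    exact mem_Ioc.2 ⟨(mem_Ioc.1 (mem_filter.1 h1).1).1, h2⟩
  · rw [sum_add_distrib, ← mul_sum]
    refine add_le_add (mul_le_mul_of_nonneg_left ?_ (by positivity)) ?_
    · refine le_trans ?_ (PosAux.tail_sum Q (Nat.sqrt ((A + 2) * X)) (hz.trans hzQ))
      refine sum_le_sum_of_subset_of_nonneg ?_ fun n _ _ => by positivity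
      intro p hp
      obtain ⟨h1, h2⟩ := mem_filter.1 hp
      exact mem_Ioc.2 ⟨not_le.1 h2, (mem_Ioc.1 (mem_filter.1 h1).1).2⟩
    · rw [sum_const, nsmul_eq_mul, mul_one]
      have h1 : (((Ioc z (Nat.sqrt ((A + 2) * X))).filter
          (fun p => p.Prime ∧ p ≠ q)).filter (fun p => ¬ p ≤ Q)).card ≤
          Nat.sqrt ((A + 2) * X) := by
        refine (card_le_card ((filter_subset _ _).trans (filter_subset _ _))).trans ?_
        rw [Nat.card_Ioc]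
        omega
      exact_mod_cast h1

/-- large squares are rare on average over the primes -/
lemma sum_TB_small (A : ℕ) : ∃ z X₀ : ℕ, 6 ≤ z ∧ ∀ X H h₀ q : ℕ, X₀ ≤ X → (q = 1 ∨ q.Prime) →
    (q : ℝ) ≤ Real.log X → H ≤ X → h₀ ≤ A * X →
    (∑ n ∈ PP X, (TB q z H h₀ n : ℝ)) * Real.log X ≤ 1 / 10 * ((H : ℝ) / q) * X := by
  obtain ⟨C, hC, hT⟩ := sum_TB_bound
  obtain ⟨z, hz⟩ := exists_nat_ge (max 6 (20 * C))
  have hz6 : 6 ≤ z := by
    have : (6 : ℝ) ≤ z := (le_max_left _ _).trans hz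
    exact_mod_cast this
  have hzC : 20 * C ≤ z := (le_max_right _ _).trans hz
  have hlog : Filter.Tendsto (fun X : ℕ => Real.log (X : ℝ)) Filter.atTop Filter.atTop :=
    Real.tendsto_log_atTop.comp tendsto_natCast_atTop_atTop
  have h16 : ∀ᶠ X : ℕ in Filter.atTop, (256 + 10000 * (A + 2)) * (Real.log (X : ℝ)) ^ 20 ≤ X := by
    have h := (Real.isLittleO_pow_log_id_atTop (n := 20)).bound
      (show (0 : ℝ) < 1 / (256 + 10000 * (A + 2)) by positivity)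
    have h2 := tendsto_natCast_atTop_atTop.eventually h
    filter_upwards [h2, Filter.eventually_ge_atTop 1] with X hX h1
    have h3 : (1 : ℝ) ≤ X := by exact_mod_cast h1
    simp only [id_eq, Real.norm_eq_abs] at hX
    rw [abs_of_nonneg (by positivity), abs_of_nonneg (by positivity), one_div,
      ← div_eq_inv_mul, le_div_iff₀ (by positivity)] at hX
    linarith
  have hE := ((Filter.eventually_ge_atTop 2).and (hlog.eventually_ge_atTop 100)).and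
    (h16.and (hlog.eventually_ge_atTop (z : ℝ)))
  obtain ⟨X₀, hX₀⟩ := Filter.eventually_atTop.1 hE
  refine ⟨z, X₀, hz6, fun X H h₀ q hX hq hqL hHX hh₀ => ?_⟩
  obtain ⟨⟨hX2, hL2⟩, h16, hLz⟩ := hX₀ X hX
  obtain ⟨L, hLd⟩ : ∃ L, L = Real.log X := ⟨_, rfl⟩
  rw [← hLd] at hL2 h16 hLz hqL
  have hL0 : 0 < L := by linarith
  have hX0 : (0 : ℝ) < X := by
    have : 0 < X := by omega
    exact_mod_cast this
  have hq0 : 1 ≤ q := by
    rcases hq with h | h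
    · omega
    · exact h.one_le
  have hqR : (1 : ℝ) ≤ q := by exact_mod_cast hq0
  -- Q
  obtain ⟨Q, hQd⟩ : ∃ Q, Q = ⌈L ^ 2⌉₊ := ⟨_, rfl⟩
  have hQ1 : L ^ 2 ≤ Q := by
    rw [hQd]
    exact Nat.le_ceil _
  have hQ2 : (Q : ℝ) ≤ 2 * L ^ 2 := by
    rw [hQd]
    have := (Nat.ceil_lt_add_one (show 0 ≤ L ^ 2 by positivity)).le
    nlinarith
  have hL20 : (0 : ℝ) < L ^ 20 := by positivity
  have hA0 : (0 : ℝ) ≤ A := Nat.cast_nonneg _
  have hQ8 : (q * Q ^ 2) ^ 4 ≤ X := by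
    have h1 : ((q : ℝ) * (Q : ℝ) ^ 2) ^ 4 ≤ X := by
      have h2 : (q : ℝ) * (Q : ℝ) ^ 2 ≤ L * (2 * L ^ 2) ^ 2 :=
        mul_le_mul hqL (pow_le_pow_left₀ (Nat.cast_nonneg _) hQ2 2) (by positivity) hL0.le
      refine (pow_le_pow_left₀ (by positivity) h2 4).trans ?_
      have h3 : (L * (2 * L ^ 2) ^ 2) ^ 4 = 256 * L ^ 20 := by ring
      rw [h3]
      refine le_trans ?_ h16
      exact mul_le_mul_of_nonneg_right (by linarith) hL20.le
    exact_mod_cast h1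
  have hzQ : z ≤ Q := by
    have h1 : (z : ℝ) ≤ Q := by nlinarith
    exact_mod_cast h1
  have hsqrt : (Nat.sqrt ((A + 2) * X) : ℝ) * (100 * L ^ 10) ≤ X := by
    have h1 : (Nat.sqrt ((A + 2) * X) : ℝ) ^ 2 ≤ (A + 2) * X := by
      exact_mod_cast Nat.sqrt_le' ((A + 2) * X)
    have h2 : ((Nat.sqrt ((A + 2) * X) : ℝ) * (100 * L ^ 10)) ^ 2 ≤ (X : ℝ) ^ 2 := by
      rw [mul_pow]
      have h3 : ((A : ℝ) + 2) * (100 * L ^ 10) ^ 2 ≤ X := by
        have h4 : ((A : ℝ) + 2) * (100 * L ^ 10) ^ 2 = (10000 * (A + 2)) * L ^ 20 := by ring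
        rw [h4]
        refine le_trans ?_ h16
        exact mul_le_mul_of_nonneg_right (by linarith) hL20.le
      calc (Nat.sqrt ((A + 2) * X) : ℝ) ^ 2 * (100 * L ^ 10) ^ 2 ≤
            (A + 2) * X * (100 * L ^ 10) ^ 2 :=
            mul_le_mul_of_nonneg_right h1 (by positivity)
        _ = ((A + 2) * (100 * L ^ 10) ^ 2) * X := by ring
        _ ≤ X * X := mul_le_mul_of_nonneg_right h3 hX0.le
        _ = (X : ℝ) ^ 2 := by ring
    exact le_of_sq_le_sq h2 hX0.le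
  have hmain := hT A X q z H h₀ Q hX2 hq (by omega) hzQ hQ8 hHX hh₀
  rw [← hLd] at hmain ⊢
  have hz0 : (0 : ℝ) < z := by
    have : 0 < z := by omega
    exact_mod_cast this
  have hQ0 : (0 : ℝ) < Q := lt_of_lt_of_le (by positivity) hQ1
  have hq0' : (0 : ℝ) < q := by linarith
  have e1 : C * (X / (q * L)) * (1 / z) * L ≤ 1 / 20 * (X / q) := by
    have h1 : C * ((X : ℝ) / (q * L)) * (1 / z) * L = C / z * (X / q) := by
      field_simp
    rw [h1]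
    refine mul_le_mul_of_nonneg_right ?_ (by positivity)
    rw [div_le_iff₀ hz0]
    linarith
  have e2 : (X : ℝ) / q * (1 / (Q : ℝ)) * L ≤ 1 / 100 * (X / q) := by
    have h1 : (X : ℝ) / q * (1 / (Q : ℝ)) * L = L / Q * (X / q) := by ring
    rw [h1]
    refine mul_le_mul_of_nonneg_right ?_ (by positivity)
    rw [div_le_iff₀ hQ0]
    nlinarith
  have e3 : (Nat.sqrt ((A + 2) * X) : ℝ) * L ≤ 1 / 100 * (X / q) := by
    rw [mul_div_assoc', le_div_iff₀ hq0']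
    have h1 : (Nat.sqrt ((A + 2) * X) : ℝ) * L * q ≤ (Nat.sqrt ((A + 2) * X) : ℝ) * L ^ 10 := by
      have h2 : L * q ≤ L ^ 10 := by
        have h3 : L ^ 2 ≤ L ^ 10 := pow_le_pow_right₀ (by linarith) (by norm_num)
        nlinarith
      calc (Nat.sqrt ((A + 2) * X) : ℝ) * L * q = (Nat.sqrt ((A + 2) * X) : ℝ) * (L * q) := by ring
        _ ≤ _ := mul_le_mul_of_nonneg_left h2 (Nat.cast_nonneg _)
    linarith
  have e4 := mul_le_mul_of_nonneg_right hmain hL0.le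
  refine e4.trans ?_
  have e5 : (C * (X / (q * L)) * (1 / z) + (X / q * (1 / (Q : ℝ)) + Nat.sqrt ((A + 2) * X))) * L ≤
      1 / 10 * (X / q) := by
    have h1 : 0 ≤ (X : ℝ) / q := by positivity
    nlinarith
  calc (H : ℝ) * (C * (X / (q * L)) * (1 / z) +
      (X / q * (1 / (Q : ℝ)) + Nat.sqrt ((A + 2) * X))) * L =
      H * ((C * (X / (q * L)) * (1 / z) +
      (X / q * (1 / (Q : ℝ)) + Nat.sqrt ((A + 2) * X))) * L) := by ring
    _ ≤ H * (1 / 10 * (X / q)) := mul_le_mul_of_nonneg_left e5 (Nat.cast_nonneg _)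
    _ = 1 / 10 * ((H : ℝ) / q) * X := by ring

lemma sum_thp_TB (X : ℕ) (T : ℕ → ℝ) (hT : ∀ n, 0 ≤ T n) :
    ∑ n ∈ Icc 1 X, thp n * T n ≤ (∑ n ∈ PP X, T n) * Real.log X := by
  unfold PP
  rw [sum_filter, sum_mul]
  refine sum_le_sum fun n hn => ?_
  obtain ⟨h1, h2⟩ := mem_Icc.1 hn
  unfold thp
  split_ifs with h
  · rw [mul_comm]
    refine mul_le_mul_of_nonneg_left ?_ (hT n)
    exact Real.log_le_log (by exact_mod_cast h1) (by exact_mod_cast h2)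
  · simp

end SqLowAux

open SqLowAux

theorem sq_low (A : ℕ) : ∃ K X₀ : ℕ, 1 ≤ K ∧ ∀ (X H h₀ q : ℕ), X₀ ≤ X → (q = 1 ∨ (q.Prime ∧ K ≤ q)) →
    (q : ℝ) ≤ Real.log X → K * q ≤ H → H ≤ X → h₀ ≤ A * X →
    (H : ℝ) / (4 * q) * X ≤ ∑ n ∈ Icc 1 X, thp n *
      (((Ioc h₀ (h₀ + H)).filter (fun h => q ∣ n + h ∧ Squarefree (n + h))).card : ℝ) := by
  obtain ⟨z, X₁, hz, hTB⟩ := sum_TB_small A
  have hth : ∀ᶠ X : ℕ in Filter.atTop, 0.99 * (X : ℝ) ≤ Chebyshev.theta X := by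
    have h1 := Pool.Agent.Lib.PNT.theta
    have h2 := (h1.comp tendsto_natCast_atTop_atTop).eventually
      (lt_mem_nhds (show (0.99 : ℝ) < 1 by norm_num))
    filter_upwards [h2, Filter.eventually_ge_atTop 1] with X hX h1
    have h3 : (0 : ℝ) < X := by exact_mod_cast h1
    simp only [Function.comp] at hX
    rw [lt_div_iff₀ h3] at hX
    exact hX.le
  obtain ⟨X₂, hX₂⟩ := Filter.eventually_atTop.1 hth
  refine ⟨100 * (z + 1), max X₁ X₂, by omega, ?_⟩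
  intro X H h₀ q hX hq hqL hKH hHX hh₀
  have hX1 : X₁ ≤ X := (le_max_left _ _).trans hX
  have hX2 : X₂ ≤ X := (le_max_right _ _).trans hX
  have hq' : q = 1 ∨ q.Prime := by
    rcases hq with h | h
    · exact Or.inl h
    · exact Or.inr h.1
  have hq0 : 1 ≤ q := by
    rcases hq' with h | h
    · omega
    · exact h.one_le
  have hqR : (1 : ℝ) ≤ q := by exact_mod_cast hq0
  have hq0' : (0 : ℝ) < q := by linarith
  have hzR : (6 : ℝ) ≤ z := by exact_mod_cast hz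
  have hHq : 100 * ((z : ℝ) + 1) ≤ (H : ℝ) / q := by
    rw [le_div_iff₀ hq0']
    exact_mod_cast hKH
  have hX0 : (0 : ℝ) ≤ X := Nat.cast_nonneg _
  have h1 : ∀ n, 0.4 * ((H : ℝ) / q) - TB q z H h₀ n ≤
      (((Ioc h₀ (h₀ + H)).filter (fun h => q ∣ n + h ∧ Squarefree (n + h))).card : ℝ) := by
    intro n
    refine le_trans ?_ (good_ge q z H h₀ n hz hq')
    have h2 : (if q = 1 then (0 : ℝ) else (H : ℝ) / (q : ℝ) ^ 2 + 1) ≤ 0.02 * ((H : ℝ) / q) := by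
      split_ifs with hq1
      · have : (0 : ℝ) ≤ (H : ℝ) / q := by linarith
        positivity
      · have hqK : 100 ≤ q := by
          rcases hq with h | h
          · exact absurd h hq1
          · omega
        have hqKR : (100 : ℝ) ≤ q := by exact_mod_cast hqK
        have h3 : (H : ℝ) / (q : ℝ) ^ 2 ≤ 0.01 * ((H : ℝ) / q) := by
          have h4 : (H : ℝ) / (q : ℝ) ^ 2 = 1 / q * ((H : ℝ) / q) := by
            field_simp
          rw [h4]
          refine mul_le_mul_of_nonneg_right ?_ (by linarith)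
          rw [div_le_iff₀ hq0']
          linarith
        linarith
    linarith
  have h2 : ∑ n ∈ Icc 1 X, thp n * (0.4 * ((H : ℝ) / q) - TB q z H h₀ n) ≤
      ∑ n ∈ Icc 1 X, thp n *
      (((Ioc h₀ (h₀ + H)).filter (fun h => q ∣ n + h ∧ Squarefree (n + h))).card : ℝ) :=
    sum_le_sum fun n _ => mul_le_mul_of_nonneg_left (h1 n) (thp_nonneg n)
  refine le_trans ?_ h2
  have h3 : ∑ n ∈ Icc 1 X, thp n * (0.4 * ((H : ℝ) / q) - TB q z H h₀ n) =
      0.4 * ((H : ℝ) / q) * Chebyshev.theta X - ∑ n ∈ Icc 1 X, thp n * (TB q z H h₀ n : ℝ) := by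
    rw [← sum_thp, mul_sum, ← sum_sub_distrib]
    refine sum_congr rfl fun n _ => ?_
    ring
  have h4 := hTB X H h₀ q hX1 hq' hqL hHX hh₀
  have h5 := sum_thp_TB X (fun n => (TB q z H h₀ n : ℝ)) (fun n => Nat.cast_nonneg _)
  have h6 := hX₂ X hX2
  have h7 : 0 ≤ (H : ℝ) / q := by linarith
  have h8 : 0.4 * ((H : ℝ) / q) * (0.99 * X) ≤ 0.4 * ((H : ℝ) / q) * Chebyshev.theta X :=
    mul_le_mul_of_nonneg_left h6 (by positivity)
  have h9 : (H : ℝ) / (4 * q) * X = 1 / 4 * (((H : ℝ) / q) * X) := by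
    field_simp
  have h10 : 0 ≤ ((H : ℝ) / q) * X := by positivity
  rw [h3, h9]
  have h11 : ∑ n ∈ Icc 1 X, thp n * (TB q z H h₀ n : ℝ) ≤ 1 / 10 * ((H : ℝ) / q) * X :=
    h5.trans h4
  nlinarith

lemma muR_sq (m : ℕ) : muR m ^ 2 = if Squarefree m then 1 else 0 := by
  unfold muR
  split_ifs with h
  · have h1 := ArithmeticFunction.moebius_sq_eq_one_of_squarefree h
    exact_mod_cast h1
  · rw [ArithmeticFunction.moebius_eq_zero_of_not_squarefree h]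
    simp

/-- the sum of `thp(n) μ(n+h)²` -/
theorem sq_total (A : ℕ) : ∃ K X₀ : ℕ, 1 ≤ K ∧ ∀ (X H h₀ : ℕ), X₀ ≤ X → K ≤ H → H ≤ X → h₀ ≤ A * X →
    (H : ℝ) / 4 * X ≤ ∑ n ∈ Icc 1 X, thp n * ∑ h ∈ Ioc h₀ (h₀ + H), muR (n + h) ^ 2 := by
  obtain ⟨K, X₀, hK, h⟩ := sq_low A
  refine ⟨K, max X₀ 3, hK, ?_⟩
  intro X H h₀ hX hKH hHX hh₀
  have hX0 : X₀ ≤ X := (le_max_left _ _).trans hX
  have hX3 : 3 ≤ X := (le_max_right _ _).trans hX
  have hlog : ((1 : ℕ) : ℝ) ≤ Real.log X := by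
    rw [Nat.cast_one, Real.le_log_iff_exp_le (by positivity)]
    have h1 := Real.exp_one_lt_d9
    have h2 : (3 : ℝ) ≤ X := by exact_mod_cast hX3
    linarith
  have h1 := h X H h₀ 1 hX0 (Or.inl rfl) hlog (by omega) hHX hh₀
  rw [Nat.cast_one, mul_one] at h1
  refine h1.trans (le_of_eq ?_)
  refine sum_congr rfl fun n _ => ?_
  congr 1
  rw [sum_congr rfl fun h _ => muR_sq (n + h), ← sum_filter, sum_const, nsmul_eq_mul, mul_one]
  congr 2
  refine filter_congr fun h _ => ?_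
  simp

/-- the sum of `thp(n) μ(n+h)² om 𝒬 (n+h)` -/
theorem sq_om (A : ℕ) : ∃ K X₀ : ℕ, 1 ≤ K ∧ ∀ (X H h₀ : ℕ) (𝒬 : Finset ℕ), X₀ ≤ X →
    (∀ q ∈ 𝒬, q.Prime ∧ K ≤ q ∧ (q : ℝ) ≤ Real.log X ∧ K * q ≤ H) → H ≤ X → h₀ ≤ A * X →
    (∑ q ∈ 𝒬, (1 : ℝ) / q) * H / 4 * X ≤ ∑ n ∈ Icc 1 X, thp n *
      ∑ h ∈ Ioc h₀ (h₀ + H), muR (n + h) ^ 2 * (om 𝒬 (n + h) : ℝ) := by
  obtain ⟨K, X₀, hK, hlow⟩ := sq_low A
  refine ⟨K, X₀, hK, ?_⟩
  intro X H h₀ 𝒬 hX h𝒬 hHX hh₀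
  have h1 : ∑ q ∈ 𝒬, (H : ℝ) / (4 * q) * X ≤ ∑ q ∈ 𝒬, ∑ n ∈ Icc 1 X, thp n *
      (((Ioc h₀ (h₀ + H)).filter (fun h => q ∣ n + h ∧ Squarefree (n + h))).card : ℝ) := by
    refine sum_le_sum fun q hq => ?_
    obtain ⟨h2, h3, h4, h5⟩ := h𝒬 q hq
    exact hlow X H h₀ q hX (Or.inr ⟨h2, h3⟩) h4 h5 hHX hh₀
  have h2 : (∑ q ∈ 𝒬, (1 : ℝ) / q) * H / 4 * X = ∑ q ∈ 𝒬, (H : ℝ) / (4 * q) * X := by
    rw [sum_mul, sum_div, sum_mul]
    refine sum_congr rfl fun q _ => ?_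
    rw [one_div_mul_eq_div, div_div, mul_comm (q : ℝ) 4]
  rw [h2]
  refine h1.trans (le_of_eq ?_)
  rw [sum_comm]
  refine sum_congr rfl fun n _ => ?_
  rw [← mul_sum]
  congr 1
  have h3 : ∀ h ∈ Ioc h₀ (h₀ + H), muR (n + h) ^ 2 * (om 𝒬 (n + h) : ℝ) =
      ∑ q ∈ 𝒬, if q ∣ n + h ∧ Squarefree (n + h) then (1 : ℝ) else 0 := by
    intro h _
    rw [muR_sq]
    unfold om
    rw [card_filter]
    push_cast
    rw [mul_sum]
    refine sum_congr rfl fun q _ => ?_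
    by_cases h4 : Squarefree (n + h) <;> by_cases h5 : q ∣ n + h <;> simp [h4, h5]
  rw [sum_congr rfl h3, sum_comm]
  refine sum_congr rfl fun q _ => ?_
  rw [← sum_filter, sum_const, nsmul_eq_mul, mul_one]

end Pool.BMG
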