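import Mathlib
import Pool.Agent.BMG.DilC
import Pool.Agent.BMG.OmDil
import Pool.Agent.BMG.SqLow
import Pool.Agent.BMG.OmSec
import Pool.Agent.SWP.PosSmall

/-!
# BMG/Small2: a saving over the trivial bound for `(log X)^θ ≤ H ≤ (log X)²`, `θ > 1/2`

For `1/2 < θ ≤ 1`, `A` there are `c₁ > 0`, `X₀`:
`∑_{n≤X} thp(n) |∑_h c_h μ(n+h)| ≤ ∑_{n≤X} thp(n) ∑_h μ(n+h)² - c₁ H X` for all `|c_h| ≤ 1`.

Proof. `u, v` from `PosAux.params θ` (with `u₀` from `RS_pos` applied to `κ' = 1/(2(3/4-θ/2)) > 1`, and large enough for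
`e^{u₀} ≥ K`), `𝒬 = QQ u v`, `S = RS u v ∈ [s₁, s₂]` with `s₁ > 0` (`RS_pos`) and `s₂` (`RS_bounds`,
`v/u ≤ (θ/2+1/4)/(3/4-θ/2)`). `κ = (θ-1/2)/4`: `e^u ≥ (log X)^{3/4-θ/2} ≥ (log X)^κ`, `e^u H ≥ (log X)^{3/4+θ/2} ≥
(log X)^{1+κ}`, `e^v (log X)^κ ≤ (log X)^{θ/2+1/4+κ} ≤ (log X)^θ ≤ H`. Sum `one_dil` against `thp n`, with
`z ∈ (0,1]` fixed below:
* `sq_om`: `∑ thp ∑_h μ² om ≥ (S/4) H X ≥ (s₁/4) H X` (`q ≤ e^v ≤ log X`, `K q ≤ (log X)^κ e^v ≤ H`);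
* `om_sec` (`Z = ⌊e^v⌋`, `Z⁸ ≤ (log X)⁸ ≤ X`): `∑ thp ∑_h om² ≤ C (1+s₂)² H X =: M₂ H X`;
* `dilC`: `∑ thp EE ≤ 2 ε' s₂ H X + C' X (2 H e^{-u} + e^v) ≤ 3 ε' s₂ H X` for large `X`.
So the right side is at most `∑ thp ∑ μ² - (z s₁/4 - 2 z² M₂ - 3 z ε' s₂) H X`; `z = min 1 (s₁/(32 M₂))` and
`ε' = s₁/(48 s₂)` give `z s₁/4 - z s₁/16 - z s₁/16 = z s₁/8 =: c₁`.
-/

set_option autoImplicit false

namespace Pool.BMG

open Finset Pool.MRZ Pool.SWP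

theorem small_two (θ : ℝ) (hθ : 1 / 2 < θ) (hθ1 : θ ≤ 1) (A : ℕ) : ∃ (c₁ : ℝ) (X₀ : ℕ), 0 < c₁ ∧
    ∀ (X H h₀ : ℕ) (c : ℕ → ℂ), X₀ ≤ X →
    (Real.log X) ^ θ ≤ H → (H : ℝ) ≤ (Real.log X) ^ 2 → h₀ ≤ A * X → (∀ h, ‖c h‖ ≤ 1) →
    ∑ n ∈ Icc 1 X, thp n * ‖∑ h ∈ Ioc h₀ (h₀ + H), c h * mu (n + h)‖ ≤
      ∑ n ∈ Icc 1 X, thp n * ∑ h ∈ Ioc h₀ (h₀ + H), muR (n + h) ^ 2 - c₁ * H * X := by
  have ha : 0 < 3 / 4 - θ / 2 := by linarith
  obtain ⟨s₁, u₀, hs₁, hRS⟩ := RS_pos (1 / (2 * (3 / 4 - θ / 2)))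
    (by rw [lt_div_iff₀ (by positivity)]; linarith)
  obtain ⟨Cb, hCb, hbd⟩ := RS_bounds
  obtain ⟨Co, hCo, hom⟩ := om_sec
  obtain ⟨Ct, hCt, hth⟩ := thp_sums
  obtain ⟨K, X₁, hK, hsq⟩ := sq_om A
  -- upper bound for S
  obtain ⟨C₁, hC₁d⟩ : ∃ C₁, C₁ = |Real.log ((θ / 2 + 1 / 4) / (3 / 4 - θ / 2))| + Cb + 1 := ⟨_, rfl⟩
  have hC₁ : 1 ≤ C₁ := by
    rw [hC₁d]
    have := abs_nonneg (Real.log ((θ / 2 + 1 / 4) / (3 / 4 - θ / 2)))
    linarith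
  have hC₁0 : 0 < C₁ := by linarith
  obtain ⟨M, hMd⟩ : ∃ M, M = Co * (1 + C₁) ^ 2 := ⟨_, rfl⟩
  have hM : 0 < M := by
    rw [hMd]
    positivity
  obtain ⟨ε₁, hε₁d⟩ : ∃ ε₁, ε₁ = s₁ / (64 * C₁) := ⟨_, rfl⟩
  have hε₁ : 0 < ε₁ := by
    rw [hε₁d]
    positivity
  obtain ⟨B, hBd⟩ : ∃ B, B = 32 * Ct * (C₁ + 1) / s₁ + K := ⟨_, rfl⟩
  have hB' : 0 < 32 * Ct * (C₁ + 1) / s₁ := by positivity
  have hK0 : (0 : ℝ) ≤ K := Nat.cast_nonneg K
  have hBK : (K : ℝ) ≤ B := by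
    rw [hBd]
    linarith
  have hBt : Ct * (C₁ + 1) / B ≤ s₁ / 32 := by
    have h1 : 32 * Ct * (C₁ + 1) / s₁ ≤ B := by
      rw [hBd]
      linarith
    have hB0 : 0 < B := lt_of_lt_of_le hB' h1
    rw [div_le_iff₀ hs₁] at h1
    rw [div_le_iff₀ hB0]
    linarith
  have hB : 0 < B := by
    rw [hBd]
    linarith
  obtain ⟨Xa, hXa⟩ := dilC ε₁ ((θ - 1 / 2) / 4) hε₁ (by linarith) A
  obtain ⟨Xc, hXc⟩ := PosAux.params θ hθ hθ1 u₀ B
  obtain ⟨z, hzd⟩ : ∃ z, z = s₁ / (32 * M) := ⟨_, rfl⟩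
  have hz : 0 < z := by
    rw [hzd]
    positivity
  have hzM : 2 * z ^ 2 * M = z * s₁ / 16 := by
    have : z * M = s₁ / 32 := by
      rw [hzd]
      field_simp
    calc 2 * z ^ 2 * M = 2 * z * (z * M) := by ring
      _ = z * s₁ / 16 := by rw [this]; ring
  refine ⟨z * s₁ / 8, max Xa (max X₁ Xc), by positivity, ?_⟩
  intro X H h₀ c hX hH1 hH2 hh0 hc
  have hXa' : Xa ≤ X := (le_max_left _ _).trans hX
  have hX1' : X₁ ≤ X := ((le_max_left _ _).trans (le_max_right _ _)).trans hX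
  have hXc' : Xc ≤ X := ((le_max_right _ _).trans (le_max_right _ _)).trans hX
  obtain ⟨hX2, hL1, hL8, hLB, u, v, hu0, hu1, huv, hκv, hvu, heu, hev⟩ := hXc X hXc'
  obtain ⟨L, hLd⟩ : ∃ L, L = Real.log X := ⟨_, rfl⟩
  rw [← hLd] at hL1 hL8 hLB heu hev hH1 hH2
  have hL0 : 0 < L := by linarith
  have hH0 : (0 : ℝ) < H := lt_of_lt_of_le (Real.rpow_pos_of_pos hL0 θ) hH1
  have hX0 : (0 : ℝ) < X := by exact_mod_cast (by omega : 0 < X)
  have hHX : H ≤ X := by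
    have h1 : L ^ 2 ≤ L ^ 8 := pow_le_pow_right₀ hL1 (by norm_num)
    have h2 : (H : ℝ) ≤ X := hH2.trans (h1.trans hL8)
    exact_mod_cast h2
  -- conditions for dilC
  have hd1 : L ^ ((θ - 1 / 2) / 4) ≤ Real.exp u :=
    (Real.rpow_le_rpow_of_exponent_le hL1 (by linarith)).trans heu
  have hd2 : L ^ (1 + (θ - 1 / 2) / 4) ≤ Real.exp u * H := by
    have h1 : L ^ (3 / 4 - θ / 2) * L ^ θ ≤ Real.exp u * H :=
      mul_le_mul heu hH1 (Real.rpow_nonneg hL0.le _) (Real.exp_pos _).le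
    rw [← Real.rpow_add hL0] at h1
    refine le_trans (Real.rpow_le_rpow_of_exponent_le hL1 ?_) h1
    linarith
  have hd3 : Real.exp v * L ^ ((θ - 1 / 2) / 4) ≤ H := by
    have h1 : Real.exp v * L ^ ((θ - 1 / 2) / 4) ≤
        L ^ (θ / 2 + 1 / 4) * L ^ ((θ - 1 / 2) / 4) :=
      mul_le_mul_of_nonneg_right hev (Real.rpow_nonneg hL0.le _)
    rw [← Real.rpow_add hL0] at h1
    refine h1.trans (le_trans (Real.rpow_le_rpow_of_exponent_le hL1 ?_) hH1)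
    linarith
  -- S
  obtain ⟨S, hS⟩ : ∃ S, S = RS u v := ⟨_, rfl⟩
  have hS1 : s₁ ≤ S := by
    rw [hS]
    exact hRS u v hu0 hκv
  have hS2 : S ≤ C₁ := by
    rw [hS, hC₁d]
    refine (hbd u v hu1 huv).2.trans ?_
    have h1 : (0 : ℝ) < (v : ℝ) / u := by
      have h2 : 1 ≤ v := hu1.trans huv
      positivity
    have h2 := Real.log_le_log h1 hvu
    have h3 := le_abs_self (Real.log ((θ / 2 + 1 / 4) / (3 / 4 - θ / 2)))
    linarith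
  have hS0 : 0 < S := lt_of_lt_of_le hs₁ hS1
  have hprime : ∀ q ∈ QQ u v, q.Prime := fun q hq => (mem_filter.1 hq).2
  have hqlow : ∀ q ∈ QQ u v, Real.exp u < q := fun q hq =>
    (Nat.floor_lt (Real.exp_pos _).le).1 (mem_Ioc.1 (mem_filter.1 hq).1).1
  have hqup : ∀ q ∈ QQ u v, (q : ℝ) ≤ Real.exp v := fun q hq =>
    (Nat.le_floor_iff (Real.exp_pos _).le).1 (mem_Ioc.1 (mem_filter.1 hq).1).2
  have hSd : ∑ q ∈ QQ u v, (1 : ℝ) / q = S := by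
    rw [hS]
    rfl
  have hexpv : Real.exp v ≤ L := by
    refine hev.trans ?_
    have h1 := Real.rpow_le_rpow_of_exponent_le hL1 (show θ / 2 + 1 / 4 ≤ 1 by linarith)
    rwa [Real.rpow_one] at h1
  -- the dilated sums
  have hDre := hXa X u v H h₀ (fun h => (c h).re) hXa' hu1 huv (by rw [← hLd]; exact hd1)
    (by rw [← hLd]; exact hd2) (by rw [← hLd]; exact hd3) (by rw [← hLd]; exact hH2) hh0
    (fun h => (Complex.abs_re_le_norm (c h)).trans (hc h))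
  have hDim := hXa X u v H h₀ (fun h => (c h).im) hXa' hu1 huv (by rw [← hLd]; exact hd1)
    (by rw [← hLd]; exact hd2) (by rw [← hLd]; exact hd3) (by rw [← hLd]; exact hH2) hh0
    (fun h => (Complex.abs_im_le_norm (c h)).trans (hc h))
  rw [← hS] at hDre hDim
  have hHX0 : (0 : ℝ) ≤ H * X := by positivity
  have hDS : ε₁ * S * H * X ≤ s₁ / 64 * (H * X) := by
    have h1 : ε₁ * S ≤ s₁ / 64 := by
      have h2 : ε₁ * S ≤ ε₁ * C₁ := mul_le_mul_of_nonneg_left hS2 hε₁.le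
      have h3 : ε₁ * C₁ = s₁ / 64 := by
        rw [hε₁d]
        field_simp
      linarith
    calc ε₁ * S * H * X = ε₁ * S * (H * X) := by ring
      _ ≤ s₁ / 64 * (H * X) := mul_le_mul_of_nonneg_right h1 hHX0
  -- the simple error
  have hsimple : ∑ q ∈ QQ u v, ((H : ℝ) / (q : ℝ) ^ 2 + 1) ≤ (C₁ + 1) / B * H := by
    rw [sum_add_distrib]
    have h1 : ∑ q ∈ QQ u v, (H : ℝ) / (q : ℝ) ^ 2 ≤ C₁ / B * H := by
      have h2 : ∀ q ∈ QQ u v, (H : ℝ) / (q : ℝ) ^ 2 ≤ (H / B) * (1 / q) := by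
        intro q hq
        have h4 : B ≤ q := hLB.trans (hd1.trans (hqlow q hq).le)
        have h5 : (0 : ℝ) < q := lt_of_lt_of_le hB h4
        rw [div_mul_div_comm, mul_one]
        refine div_le_div_of_nonneg_left hH0.le (mul_pos hB h5) ?_
        rw [pow_two]
        exact mul_le_mul_of_nonneg_right h4 h5.le
      refine (sum_le_sum h2).trans ?_
      rw [← mul_sum, hSd]
      have h3 : (H : ℝ) / B * S ≤ H / B * C₁ :=
        mul_le_mul_of_nonneg_left hS2 (by positivity)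
      refine h3.trans (le_of_eq ?_)
      ring
    have h2 : ∑ q ∈ QQ u v, (1 : ℝ) ≤ 1 / B * H := by
      rw [sum_const, nsmul_eq_mul, mul_one]
      have h3 := QQ_card u v
      have h4 : Real.exp v * B ≤ H :=
        (mul_le_mul_of_nonneg_left hLB (Real.exp_pos _).le).trans hd3
      have h5 : Real.exp v ≤ H / B := by
        rw [le_div_iff₀ hB]
        exact h4
      have h6 : (1 : ℝ) / B * H = H / B := by ring
      rw [h6]
      exact h3.trans h5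
    rw [add_div, add_mul]
    exact add_le_add h1 h2
  have hEE : ∑ n ∈ Icc 1 X, thp n * EE c h₀ H (QQ u v) n ≤ s₁ / 16 * (H * X) := by
    have h1 : ∑ n ∈ Icc 1 X, thp n * EE c h₀ H (QQ u v) n =
        ∑ n ∈ Icc 1 X, thp n * |dilS (fun h => (c h).re) h₀ H (QQ u v) n| +
        ∑ n ∈ Icc 1 X, thp n * |dilS (fun h => (c h).im) h₀ H (QQ u v) n| +
        (∑ n ∈ Icc 1 X, thp n) * ∑ q ∈ QQ u v, ((H : ℝ) / (q : ℝ) ^ 2 + 1) := by
      rw [Finset.sum_mul, ← sum_add_distrib, ← sum_add_distrib]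
      refine sum_congr rfl fun n _ => ?_
      unfold EE
      ring
    rw [h1]
    have h2 : (∑ n ∈ Icc 1 X, thp n) * ∑ q ∈ QQ u v, ((H : ℝ) / (q : ℝ) ^ 2 + 1) ≤
        s₁ / 32 * (H * X) := by
      have h3 := (hth X hX2).1
      have h4 : (∑ n ∈ Icc 1 X, thp n) * ∑ q ∈ QQ u v, ((H : ℝ) / (q : ℝ) ^ 2 + 1) ≤
          (Ct * X) * ((C₁ + 1) / B * H) :=
        mul_le_mul h3 hsimple (sum_nonneg fun q _ => by positivity) (by positivity)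
      have h5 : (Ct * X) * ((C₁ + 1) / B * H) = (Ct * (C₁ + 1) / B) * (H * X) := by ring
      rw [h5] at h4
      exact h4.trans (mul_le_mul_of_nonneg_right hBt hHX0)
    have h3 := hDre.trans hDS
    have h4 := hDim.trans hDS
    have h5 : s₁ / 16 * ((H : ℝ) * X) = s₁ / 64 * (H * X) + s₁ / 64 * (H * X) + s₁ / 32 * (H * X) := by
      ring
    rw [h5]
    exact add_le_add (add_le_add h3 h4) h2
  -- the second moment
  have hQ2 : ∑ n ∈ Icc 1 X, thp n * ∑ h ∈ Ioc h₀ (h₀ + H), (om (QQ u v) (n + h) : ℝ) ^ 2 ≤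
      M * (H * X) := by
    have hZ1 : ⌊Real.exp (v : ℝ)⌋₊ ^ 8 ≤ X := by
      have h1 : ((⌊Real.exp (v : ℝ)⌋₊ : ℕ) : ℝ) ≤ L :=
        (Nat.floor_le (Real.exp_pos _).le).trans hexpv
      have h2 : ((⌊Real.exp (v : ℝ)⌋₊ : ℕ) : ℝ) ^ 8 ≤ X :=
        (pow_le_pow_left₀ (Nat.cast_nonneg _) h1 8).trans hL8
      exact_mod_cast h2
    have hZ2 : ⌊Real.exp (v : ℝ)⌋₊ ≤ H := by
      have h1 : ((⌊Real.exp (v : ℝ)⌋₊ : ℕ) : ℝ) ≤ H := by
        refine (Nat.floor_le (Real.exp_pos _).le).trans (hev.trans (le_trans ?_ hH1))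
        exact Real.rpow_le_rpow_of_exponent_le hL1 (by linarith)
      exact_mod_cast h1
    have h1 := hom X H h₀ ⌊Real.exp (v : ℝ)⌋₊ (QQ u v) hX2
      (fun q hq => ⟨hprime q hq, (mem_Ioc.1 (mem_filter.1 hq).1).2⟩) hZ1 hZ2
    rw [hSd] at h1
    refine h1.trans ?_
    have h5 : Co * (1 + S) ^ 2 ≤ M := by
      rw [hMd]
      refine mul_le_mul_of_nonneg_left ?_ hCo.le
      exact pow_le_pow_left₀ (by linarith) (by linarith) 2
    calc Co * (1 + S) ^ 2 * H * X = Co * (1 + S) ^ 2 * (H * X) := by ring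
      _ ≤ M * (H * X) := mul_le_mul_of_nonneg_right h5 hHX0
  -- the main term
  have hmain : s₁ / 4 * (H * X) ≤ ∑ n ∈ Icc 1 X, thp n *
      ∑ h ∈ Ioc h₀ (h₀ + H), muR (n + h) ^ 2 * (om (QQ u v) (n + h) : ℝ) := by
    have h1 := hsq X H h₀ (QQ u v) hX1' (fun q hq => by
      refine ⟨hprime q hq, ?_, ?_, ?_⟩
      · have h2 : (K : ℝ) ≤ q := hBK.trans (hLB.trans (hd1.trans (hqlow q hq).le))
        exact_mod_cast h2
      · rw [← hLd]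
        exact (hqup q hq).trans hexpv
      · have h2 : (K : ℝ) * q ≤ H := by
          calc (K : ℝ) * q ≤ L ^ ((θ - 1 / 2) / 4) * Real.exp v :=
                mul_le_mul (hBK.trans hLB) (hqup q hq) (Nat.cast_nonneg _)
                  (Real.rpow_nonneg hL0.le _)
            _ = Real.exp v * L ^ ((θ - 1 / 2) / 4) := mul_comm _ _
            _ ≤ H := hd3
        exact_mod_cast h2) hHX hh0
    rw [hSd] at h1
    refine le_trans ?_ h1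
    have h2 : s₁ / 4 * ((H : ℝ) * X) ≤ S / 4 * (H * X) :=
      mul_le_mul_of_nonneg_right (by linarith) hHX0
    refine h2.trans (le_of_eq ?_)
    ring
  -- assembly
  have hsum : ∑ n ∈ Icc 1 X, thp n * ‖∑ h ∈ Ioc h₀ (h₀ + H), c h * mu (n + h)‖ ≤
      ∑ n ∈ Icc 1 X, thp n * ∑ h ∈ Ioc h₀ (h₀ + H), muR (n + h) ^ 2 -
      z * ∑ n ∈ Icc 1 X, thp n *
        ∑ h ∈ Ioc h₀ (h₀ + H), muR (n + h) ^ 2 * (om (QQ u v) (n + h) : ℝ) +
      2 * z ^ 2 * ∑ n ∈ Icc 1 X, thp n * ∑ h ∈ Ioc h₀ (h₀ + H), (om (QQ u v) (n + h) : ℝ) ^ 2 +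
      z * ∑ n ∈ Icc 1 X, thp n * EE c h₀ H (QQ u v) n := by
    rw [Finset.mul_sum, Finset.mul_sum, Finset.mul_sum, ← sum_sub_distrib, ← sum_add_distrib,
      ← sum_add_distrib]
    refine sum_le_sum fun n _ => ?_
    have h1 := one_dil (QQ u v) hprime c hc h₀ H n z hz.le
    refine (mul_le_mul_of_nonneg_left h1 (thp_nonneg n)).trans (le_of_eq ?_)
    ring
  refine hsum.trans ?_
  have h1 := mul_le_mul_of_nonneg_left hmain hz.le
  have h2 := mul_le_mul_of_nonneg_left hQ2 (show 0 ≤ 2 * z ^ 2 by positivity)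
  have h3 := mul_le_mul_of_nonneg_left hEE hz.le
  have h4 : 2 * z ^ 2 * (M * ((H : ℝ) * X)) = z * s₁ / 16 * (H * X) := by
    rw [← hzM]
    ring
  rw [h4] at h2
  have h5 : z * s₁ / 8 * (H : ℝ) * X = z * s₁ / 8 * (H * X) := by ring
  rw [h5]
  have h6 : z * (s₁ / 4 * ((H : ℝ) * X)) = z * s₁ / 16 * (H * X) + z * (s₁ / 16 * (H * X)) +
      z * s₁ / 8 * (H * X) := by ring
  linarith

end Pool.BMG
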