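import Mathlib
import Pool.Agent.BMG.Small1
import Pool.Agent.BMG.Small2
import Pool.Agent.MRZ.CorrW

/-!
# BMG/Fin: the two theorems for all `H ≤ X`, with `Λ`, in both dual forms

`VV b H h₀ X` = `∑_h |∑_n b_n Λ(n) μ(n+h)|`, `UU c H h₀ X` = `∑_n Λ(n) |∑_h c_h μ(n+h)|`.

* `dual`: `VV b ≤ UU c` for the `c` with `c_h` = the conjugate phase of `∑_n b_n Λ(n) μ(n+h)` (see `ph` in `SWP/ShortMu`).
* `vm_thp`: `UU c ≤ ∑_n thp(n) |∑_h c_h μ(n+h)| + H C √X log X` (`vm_sub_thp`), and the same for `∑ Λ(n) ∑_h μ(n+h)²`.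
* `fin_one`: for `ε > 0`, `A` there are `δ > 0`, `X₀`: for `(log X)^{1-δ} ≤ H ≤ X`, `h₀ ≤ A X`, `|c_h| ≤ 1`: `UU ≤ ε H X`.
  Proof: if `H ≤ (log X)²`: `small_one` with `ε/2` and `vm_thp`. If `H > (log X)² ≥ K log X`: `corr_muW {0} A ε` with
  `b_n` = the conjugate phase of `∑_h c_h μ(n+h)` (`WL {0} n = Λ(n)`): `UU = ∑_h c_h ∑_n Λ(n) b_n μ(n+h) ≤ ε H X`.
* `fin_two`: for `θ > 1/2`, `A` there are `c₀ > 0`, `X₀`: for `(log X)^θ ≤ H ≤ X`: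
  `UU ≤ (1 - c₀) ∑_{n≤X} Λ(n) ∑_h μ(n+h)²`. Proof: `M = ∑ Λ ∑ μ²` satisfies `(1/4) H X ≤ M ≤ 2 H X` for large `X` (`sq_total`,
  `H ≥ K`; `thp_sums`/PNT: `M ≤ C H X`). If `H ≤ (log X)²`: `small_two` with `min θ 1`:
  `UU ≤ M - (c₁/2) H X ≤ (1 - c₁/(2C)) M`. If `H > (log X)²`: `UU ≤ (1/8) H X ≤ M/2` by `fin_one`.
-/

set_option autoImplicit false

namespace Pool.BMG

open Finset Pool.MRZ Pool.SWP ArithmeticFunction

namespace FinAux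

lemma thp_le_vm (n : ℕ) : thp n ≤ vonMangoldt n := by
  unfold thp
  split_ifs with h
  · rw [vonMangoldt_apply_prime h]
  · exact vonMangoldt_nonneg

lemma muR_sq_eq (n : ℕ) : muR n ^ 2 = |((moebius n : ℤ) : ℝ)| := by
  unfold muR
  rcases moebius_eq_or n with h | h | h <;> rw [h] <;> simp

lemma norm_le (c : ℕ → ℂ) (hc : ∀ h, ‖c h‖ ≤ 1) (h₀ H n : ℕ) :
    ‖∑ h ∈ Ioc h₀ (h₀ + H), c h * ((moebius (n + h) : ℤ) : ℂ)‖ ≤ H := by
  refine (norm_sum_le _ _).trans ((Finset.sum_le_sum (g := fun _ => (1 : ℝ)) fun h _ => ?_).trans ?_)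
  · rw [norm_mul]
    exact mul_le_one₀ (hc h) (norm_nonneg _) (norm_mu_le (n + h))
  · rw [Finset.sum_const, Nat.card_Ioc, nsmul_eq_mul, mul_one]
    have : h₀ + H - h₀ = H := by omega
    rw [this]

/-- passing from `Λ` to `thp` -/
lemma vm_thp : ∃ C : ℝ, 0 < C ∧ ∀ (X : ℕ) (B : ℝ) (f : ℕ → ℝ), 2 ≤ X → (∀ n, 0 ≤ f n) → (∀ n, f n ≤ B) →
    ∑ n ∈ Icc 1 X, vonMangoldt n * f n ≤ ∑ n ∈ Icc 1 X, thp n * f n +
      B * (C * Real.sqrt X * Real.log X) := by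
  obtain ⟨C, hC, h⟩ := vm_sub_thp
  refine ⟨C, hC, fun X B f hX hf0 hfB => ?_⟩
  have hB : 0 ≤ B := (hf0 0).trans (hfB 0)
  have h1 : ∑ n ∈ Icc 1 X, vonMangoldt n * f n - ∑ n ∈ Icc 1 X, thp n * f n ≤
      ∑ n ∈ Icc 1 X, B * |vonMangoldt n - thp n| := by
    rw [← Finset.sum_sub_distrib]
    refine Finset.sum_le_sum fun n _ => ?_
    rw [← sub_mul, mul_comm B]
    exact mul_le_mul (le_abs_self _) (hfB n) (hf0 n) (abs_nonneg _)
  rw [← Finset.mul_sum] at h1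
  have h2 := mul_le_mul_of_nonneg_left (h X hX) hB
  linarith

lemma ev_sqrt (C ε : ℝ) (hC : 0 < C) (hε : 0 < ε) : ∃ X₀ : ℕ, ∀ X : ℕ, X₀ ≤ X →
    C * Real.sqrt X * Real.log X ≤ ε * X := by
  have h1 := (isLittleO_log_rpow_atTop (by norm_num : (0 : ℝ) < 1 / 2)).def
    (by positivity : 0 < ε / C)
  have h2 := tendsto_natCast_atTop_atTop.eventually h1
  obtain ⟨X₀, hX₀⟩ := Filter.eventually_atTop.1 (h2.and (Filter.eventually_ge_atTop 1))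
  refine ⟨X₀, fun X hX => ?_⟩
  obtain ⟨h3, h4⟩ := hX₀ X hX
  have hX1' : (1 : ℝ) ≤ X := by exact_mod_cast h4
  rw [Real.norm_eq_abs, Real.norm_eq_abs, abs_of_nonneg (Real.log_nonneg hX1'),
    abs_of_nonneg (by positivity), ← Real.sqrt_eq_rpow] at h3
  have hs := Real.mul_self_sqrt (by linarith : (0 : ℝ) ≤ X)
  have hs0 : 0 ≤ Real.sqrt X := Real.sqrt_nonneg _
  calc C * Real.sqrt X * Real.log X ≤ C * Real.sqrt X * (ε / C * Real.sqrt X) :=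
        mul_le_mul_of_nonneg_left h3 (by positivity)
    _ = ε * (Real.sqrt X * Real.sqrt X) := by field_simp
    _ = ε * X := by rw [hs]

lemma phase_exists (z : ℂ) : ∃ u : ℂ, ‖u‖ ≤ 1 ∧ u * z = (‖z‖ : ℂ) := by
  rcases eq_or_ne z 0 with hz | hz
  · exact ⟨0, by simp, by simp [hz]⟩
  · refine ⟨(starRingEnd ℂ) z / ‖z‖, ?_, ?_⟩
    · rw [norm_div, Complex.norm_conj, Complex.norm_real, norm_norm]
      exact div_self_le_one _
    · have hz' : (‖z‖ : ℂ) ≠ 0 := by simpa using hz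
      rw [div_mul_eq_mul_div, Complex.conj_mul', div_eq_iff hz']
      ring

/-- from the `b`-form to the `c`-form -/
lemma dual (X H h₀ : ℕ) (c : ℕ → ℂ) (hc : ∀ n, ‖c n‖ ≤ 1) (E : ℝ)
    (hE : ∀ b : ℕ → ℂ, (∀ n, ‖b n‖ ≤ 1) →
      ∑ h ∈ Ioc h₀ (h₀ + H), ‖∑ n ∈ Icc 1 X, (WL {0} n : ℂ) * b n * mu (n + h)‖ ≤ E) :
    ∑ n ∈ Icc 1 X, vonMangoldt n * ‖∑ h ∈ Ioc h₀ (h₀ + H), c h * ((moebius (n + h) : ℤ) : ℂ)‖ ≤ E := by
  choose u hu1 hu2 using phase_exists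
  have hWL : ∀ n, WL {0} n = vonMangoldt n := by
    intro n
    simp [WL]
  set z : ℕ → ℂ := fun n => ∑ h ∈ Ioc h₀ (h₀ + H), c h * ((moebius (n + h) : ℤ) : ℂ) with hz
  refine le_trans ?_ (hE (fun n => u (z n)) (fun n => hu1 _))
  have e1 : ((∑ n ∈ Icc 1 X, vonMangoldt n * ‖z n‖ : ℝ) : ℂ) =
      ∑ h ∈ Ioc h₀ (h₀ + H), c h * ∑ n ∈ Icc 1 X, (WL {0} n : ℂ) * u (z n) * mu (n + h) := by
    push_cast
    simp_rw [Finset.mul_sum]
    rw [Finset.sum_comm]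
    refine Finset.sum_congr rfl fun n _ => ?_
    rw [← hu2 (z n), hWL]
    have : z n = ∑ h ∈ Ioc h₀ (h₀ + H), c h * ((moebius (n + h) : ℤ) : ℂ) := rfl
    conv_lhs => rw [this]
    rw [Finset.mul_sum, Finset.mul_sum]
    refine Finset.sum_congr rfl fun k _ => ?_
    unfold mu
    ring
  have e2 : 0 ≤ ∑ n ∈ Icc 1 X, vonMangoldt n * ‖z n‖ :=
    Finset.sum_nonneg fun _ _ => mul_nonneg vonMangoldt_nonneg (norm_nonneg _)
  have e3 : ∑ n ∈ Icc 1 X, vonMangoldt n * ‖z n‖ =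
      ‖∑ h ∈ Ioc h₀ (h₀ + H), c h * ∑ n ∈ Icc 1 X, (WL {0} n : ℂ) * u (z n) * mu (n + h)‖ := by
    rw [← e1, Complex.norm_real, Real.norm_of_nonneg e2]
  rw [e3]
  refine (norm_sum_le _ _).trans (Finset.sum_le_sum fun h _ => ?_)
  rw [norm_mul]
  exact mul_le_of_le_one_left (norm_nonneg _) (hc h)

lemma ev_log (K : ℝ) : ∃ X₀ : ℕ, ∀ X : ℕ, X₀ ≤ X → K ≤ Real.log X := by
  have hlog : Filter.Tendsto (fun X : ℕ => Real.log (X : ℝ)) Filter.atTop Filter.atTop :=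
    Real.tendsto_log_atTop.comp tendsto_natCast_atTop_atTop
  exact Filter.eventually_atTop.1 (hlog.eventually_ge_atTop K)

lemma sum_mu_eq (c : ℕ → ℂ) (h₀ H n : ℕ) : ∑ h ∈ Ioc h₀ (h₀ + H), c h * mu (n + h) =
    ∑ h ∈ Ioc h₀ (h₀ + H), c h * ((moebius (n + h) : ℤ) : ℂ) := rfl

end FinAux

open FinAux

theorem fin_one (ε : ℝ) (hε : 0 < ε) (A : ℕ) : ∃ (δ : ℝ) (X₀ : ℕ), 0 < δ ∧ ∀ (X H h₀ : ℕ) (c : ℕ → ℂ), X₀ ≤ X →
    (Real.log X) ^ (1 - δ) ≤ H → H ≤ X → h₀ ≤ A * X → (∀ h, ‖c h‖ ≤ 1) →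
    ∑ n ∈ Icc 1 X, vonMangoldt n * ‖∑ h ∈ Ioc h₀ (h₀ + H), c h * ((moebius (n + h) : ℤ) : ℂ)‖ ≤
      ε * H * X := by
  obtain ⟨δ, X₁, hδ, h1⟩ := small_one (ε / 2) (by positivity) A
  obtain ⟨K, X₂, hK, h2⟩ := corr_muW {0} A ε hε
  obtain ⟨C, hC, h3⟩ := vm_thp
  obtain ⟨X₃, h4⟩ := ev_sqrt C (ε / 2) hC (by positivity)
  obtain ⟨X₄, h5⟩ := ev_log (max K 1)
  refine ⟨δ, max (max X₁ X₂) (max X₃ (max X₄ 2)), hδ, fun X H h₀ c hX hH hHX hh hc => ?_⟩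
  have hX1 : X₁ ≤ X := ((le_max_left _ _).trans (le_max_left _ _)).trans hX
  have hX2 : X₂ ≤ X := ((le_max_right _ _).trans (le_max_left _ _)).trans hX
  have hX3 : X₃ ≤ X := ((le_max_left _ _).trans (le_max_right _ _)).trans hX
  have hX4 : X₄ ≤ X := (((le_max_left _ _).trans (le_max_right _ _)).trans (le_max_right _ _)).trans hX
  have hX5 : 2 ≤ X := (((le_max_right _ _).trans (le_max_right _ _)).trans (le_max_right _ _)).trans hX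
  have hl := h5 X hX4
  have hlK : K ≤ Real.log X := (le_max_left _ _).trans hl
  have hl1 : 1 ≤ Real.log X := (le_max_right _ _).trans hl
  have hH0 : (0 : ℝ) ≤ H := Nat.cast_nonneg _
  rcases le_or_gt (H : ℝ) ((Real.log X) ^ 2) with h | h
  · have h6 := h1 X H h₀ c hX1 hH h hh hc
    simp only [sum_mu_eq] at h6
    have h7 := h3 X H (fun n => ‖∑ h ∈ Ioc h₀ (h₀ + H), c h * ((moebius (n + h) : ℤ) : ℂ)‖) hX5
      (fun _ => norm_nonneg _) (fun n => norm_le c hc h₀ H n)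
    have h8 := mul_le_mul_of_nonneg_left (h4 X hX3) hH0
    have h9 : ε / 2 * H * X + H * (ε / 2 * X) = ε * H * X := by ring
    linarith
  · refine dual X H h₀ c hc _ fun b hb => ?_
    refine h2 X H h₀ b hX2 ?_ hHX hh hb
    rw [Finset.card_singleton, pow_one]
    nlinarith

/-- lower and upper bounds for the trivial bound -/
theorem triv_bounds (A : ℕ) : ∃ (C : ℝ) (K X₀ : ℕ), 1 ≤ C ∧ ∀ (X H h₀ : ℕ), X₀ ≤ X → K ≤ H → H ≤ X → h₀ ≤ A * X →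
    (H : ℝ) / 4 * X ≤ ∑ h ∈ Ioc h₀ (h₀ + H), ∑ n ∈ Icc 1 X, vonMangoldt n * |((moebius (n + h) : ℤ) : ℝ)| ∧
    ∀ h, ∑ n ∈ Icc 1 X, vonMangoldt n * |((moebius (n + h) : ℤ) : ℝ)| ≤ C * X := by
  obtain ⟨K, X₁, hK, h1⟩ := sq_total A
  obtain ⟨C₁, hC₁, h2⟩ := thp_sums
  obtain ⟨C, hC, h3⟩ := vm_thp
  obtain ⟨X₂, h4⟩ := ev_sqrt C 1 hC one_pos
  refine ⟨C₁ + 1, K, max X₁ (max X₂ 2), by linarith, fun X H h₀ hX hKH hHX hh => ⟨?_, ?_⟩⟩
  · have hX1 : X₁ ≤ X := (le_max_left _ _).trans hX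
    refine (h1 X H h₀ hX1 hKH hHX hh).trans ?_
    rw [Finset.sum_comm]
    refine Finset.sum_le_sum fun n _ => ?_
    rw [← Finset.mul_sum]
    simp only [muR_sq_eq]
    exact mul_le_mul_of_nonneg_right (thp_le_vm n) (Finset.sum_nonneg fun _ _ => abs_nonneg _)
  · intro h
    have hX2 : X₂ ≤ X := ((le_max_left _ _).trans (le_max_right _ _)).trans hX
    have hX3 : 2 ≤ X := ((le_max_right _ _).trans (le_max_right _ _)).trans hX
    have hmu : ∀ n : ℕ, |((moebius (n + h) : ℤ) : ℝ)| ≤ 1 := fun n => abs_muR_le (n + h)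
    have h5 := h3 X 1 (fun n => |((moebius (n + h) : ℤ) : ℝ)|) hX3 (fun _ => abs_nonneg _) hmu
    have h6 : ∑ n ∈ Icc 1 X, thp n * |((moebius (n + h) : ℤ) : ℝ)| ≤ ∑ n ∈ Icc 1 X, thp n :=
      Finset.sum_le_sum fun n _ => mul_le_of_le_one_right (thp_nonneg n) (hmu n)
    have h7 := (h2 X hX3).1
    have h8 := h4 X hX2
    linarith

theorem fin_two (θ : ℝ) (hθ : 1 / 2 < θ) (A : ℕ) : ∃ (c₀ : ℝ) (X₀ : ℕ), 0 < c₀ ∧ c₀ < 1 ∧
    ∀ (X H h₀ : ℕ) (c : ℕ → ℂ), X₀ ≤ X →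
    (Real.log X) ^ θ ≤ H → H ≤ X → h₀ ≤ A * X → (∀ h, ‖c h‖ ≤ 1) →
    ∑ n ∈ Icc 1 X, vonMangoldt n * ‖∑ h ∈ Ioc h₀ (h₀ + H), c h * ((moebius (n + h) : ℤ) : ℂ)‖ ≤
      (1 - c₀) * ∑ h ∈ Ioc h₀ (h₀ + H), ∑ n ∈ Icc 1 X, vonMangoldt n * |((moebius (n + h) : ℤ) : ℝ)| := by
  obtain ⟨c₁, X₁, hc₁, h1⟩ := small_two (min θ 1) (lt_min hθ (by norm_num)) (min_le_right _ _) A
  obtain ⟨δ, X₂, hδ, h2⟩ := fin_one (1 / 16) (by norm_num) A
  obtain ⟨C, K, X₃, hC, h3⟩ := triv_bounds A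
  obtain ⟨C', hC', h4⟩ := vm_thp
  obtain ⟨X₄, h5⟩ := ev_sqrt C' (c₁ / 2) hC' (by positivity)
  obtain ⟨X₅, h6⟩ := ev_log 1
  have hC0 : 0 < C := by linarith
  have hpw : Filter.Tendsto (fun X : ℕ => (Real.log (X : ℝ)) ^ θ) Filter.atTop Filter.atTop :=
    (tendsto_rpow_atTop (by linarith)).comp
      (Real.tendsto_log_atTop.comp tendsto_natCast_atTop_atTop)
  obtain ⟨X₆, h7⟩ := Filter.eventually_atTop.1 (hpw.eventually_ge_atTop (K : ℝ))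
  refine ⟨min (c₁ / (2 * C)) (1 / 2), max (max (max X₁ X₂) (max X₃ X₄)) (max (max X₅ X₆) 2),
    lt_min (by positivity) (by norm_num), (min_le_right _ _).trans_lt (by norm_num),
    fun X H h₀ c hX hH hHX hh hc => ?_⟩
  have hX1 : X₁ ≤ X := (((le_max_left _ _).trans (le_max_left _ _)).trans (le_max_left _ _)).trans hX
  have hX2 : X₂ ≤ X := (((le_max_right _ _).trans (le_max_left _ _)).trans (le_max_left _ _)).trans hX
  have hX3 : X₃ ≤ X := (((le_max_left _ _).trans (le_max_right _ _)).trans (le_max_left _ _)).trans hX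
  have hX4 : X₄ ≤ X := (((le_max_right _ _).trans (le_max_right _ _)).trans (le_max_left _ _)).trans hX
  have hX5 : X₅ ≤ X := (((le_max_left _ _).trans (le_max_left _ _)).trans (le_max_right _ _)).trans hX
  have hX6 : X₆ ≤ X := (((le_max_right _ _).trans (le_max_left _ _)).trans (le_max_right _ _)).trans hX
  have hX7 : 2 ≤ X := ((le_max_right _ _).trans (le_max_right _ _)).trans hX
  have hl1 := h6 X hX5
  have hH0 : (0 : ℝ) ≤ H := Nat.cast_nonneg _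
  have hXr : (0 : ℝ) < X := by exact_mod_cast (by omega : 0 < X)
  have hKH : K ≤ H := by
    have := (h7 X hX6).trans hH
    exact_mod_cast this
  obtain ⟨t1, t2⟩ := h3 X H h₀ hX3 hKH hHX hh
  obtain ⟨M, hM⟩ : ∃ M, M = ∑ h ∈ Ioc h₀ (h₀ + H), ∑ n ∈ Icc 1 X,
      vonMangoldt n * |((moebius (n + h) : ℤ) : ℝ)| := ⟨_, rfl⟩
  rw [← hM] at t1 ⊢
  have hMup : M ≤ C * (H * X) := by
    rw [hM]
    refine (Finset.sum_le_sum fun h _ => t2 h).trans (le_of_eq ?_)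
    rw [Finset.sum_const, Nat.card_Ioc, nsmul_eq_mul]
    have : h₀ + H - h₀ = H := by omega
    rw [this]
    ring
  have hM0 : 0 ≤ M := le_trans (by positivity) t1
  rcases le_or_gt (H : ℝ) ((Real.log X) ^ 2) with h | h
  · have hH' : (Real.log X) ^ (min θ 1) ≤ H :=
      (Real.rpow_le_rpow_of_exponent_le hl1 (min_le_left _ _)).trans hH
    have h8 := h1 X H h₀ c hX1 hH' h hh hc
    simp only [sum_mu_eq] at h8
    have h9 := h4 X H (fun n => ‖∑ h ∈ Ioc h₀ (h₀ + H), c h * ((moebius (n + h) : ℤ) : ℂ)‖) hX7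
      (fun _ => norm_nonneg _) (fun n => norm_le c hc h₀ H n)
    have h10 := mul_le_mul_of_nonneg_left (h5 X hX4) hH0
    have h11 : ∑ n ∈ Icc 1 X, thp n * ∑ h ∈ Ioc h₀ (h₀ + H), muR (n + h) ^ 2 ≤ M := by
      rw [hM, Finset.sum_comm]
      refine Finset.sum_le_sum fun n _ => ?_
      rw [← Finset.mul_sum]
      simp only [muR_sq_eq]
      exact mul_le_mul_of_nonneg_right (thp_le_vm n) (Finset.sum_nonneg fun _ _ => abs_nonneg _)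
    have h12 : min (c₁ / (2 * C)) (1 / 2) * M ≤ c₁ / 2 * (H * X) := by
      calc min (c₁ / (2 * C)) (1 / 2) * M ≤ c₁ / (2 * C) * M :=
            mul_le_mul_of_nonneg_right (min_le_left _ _) hM0
        _ ≤ c₁ / (2 * C) * (C * (H * X)) := mul_le_mul_of_nonneg_left hMup (by positivity)
        _ = c₁ / 2 * (H * X) := by field_simp
    have h13 : c₁ * H * X - H * (c₁ / 2 * X) = c₁ / 2 * (H * X) := by ring
    linarith
  · have hH' : (Real.log X) ^ (1 - δ) ≤ H := by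
      refine le_trans ?_ h.le
      rw [← Real.rpow_natCast]
      exact Real.rpow_le_rpow_of_exponent_le hl1 (by push_cast; linarith)
    have h8 := h2 X H h₀ c hX2 hH' hHX hh hc
    have h9 : (1 / 2 : ℝ) * M ≤ (1 - min (c₁ / (2 * C)) (1 / 2)) * M :=
      mul_le_mul_of_nonneg_right (by linarith [min_le_right (c₁ / (2 * C)) (1 / 2)]) hM0
    have h10 : (1 / 16 : ℝ) * H * X = 1 / 4 * (H / 4 * X) := by ring
    have h11 : 1 / 4 * (H / 4 * X) ≤ 1 / 4 * M := mul_le_mul_of_nonneg_left t1 (by norm_num)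
    linarith

end Pool.BMG
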